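import Mathlib

/-!
Finite graphs with a Cheeger bound, and groups into which they can only be mapped with large
fibres.
-/

set_option autoImplicit false

open Finset
open scoped Classical

namespace Pool.Agent.Helper784WE

/-- number of ordered edges from `A` to `C` -/
noncomputable def ed {V : Type} [Fintype V] (Gr : SimpleGraph V) (A C : Finset V) : ℕ :=
  (univ.filter (fun p : V × V => p.1 ∈ A ∧ p.2 ∈ C ∧ Gr.Adj p.1 p.2)).card

/-- number of ordered edges leaving `A` -/
noncomputable def bd {V : Type} [Fintype V] (Gr : SimpleGraph V) (A : Finset V) : ℕ :=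
  (univ.filter (fun p : V × V => p.1 ∈ A ∧ p.2 ∉ A ∧ Gr.Adj p.1 p.2)).card

theorem bd_eq {V : Type} [Fintype V] [DecidableEq V] (Gr : SimpleGraph V) (A : Finset V) :
    bd Gr A = ed Gr A Aᶜ := by
  unfold bd ed
  congr 1
  ext p
  simp only [mem_filter, mem_univ, true_and, mem_compl]

/-- degrees at most `D` and Cheeger constant at least `ε` -/
structure IsExp {V : Type} [Fintype V] (Gr : SimpleGraph V) (D : ℕ) (ε : ℝ) : Prop where
  deg : ∀ v, (univ.filter (fun u => Gr.Adj v u)).card ≤ D
  cheeger : ∀ A : Finset V, 2 * A.card ≤ Fintype.card V → ε * A.card ≤ (bd Gr A : ℝ)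

section ed

variable {V : Type} [Fintype V] {Gr : SimpleGraph V}

theorem ed_le_left {D : ℕ} (hd : ∀ v, (univ.filter (fun u => Gr.Adj v u)).card ≤ D)
    (A C : Finset V) : ed Gr A C ≤ D * A.card := by
  have h1 : (univ.filter (fun p : V × V => p.1 ∈ A ∧ p.2 ∈ C ∧ Gr.Adj p.1 p.2)) ⊆
      A.biUnion (fun v => (univ.filter (fun u => Gr.Adj v u)).image (fun u => (v, u))) := by
    rintro ⟨v, u⟩ h
    simp only [mem_filter, mem_univ, true_and] at h
    simp only [mem_biUnion, mem_image, mem_filter, mem_univ, true_and]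
    exact ⟨v, h.1, u, h.2.2, rfl⟩
  calc ed Gr A C ≤ _ := card_le_card h1
    _ ≤ ∑ v ∈ A, ((univ.filter (fun u => Gr.Adj v u)).image (fun u => (v, u))).card :=
        card_biUnion_le
    _ ≤ ∑ v ∈ A, D := sum_le_sum (fun v _ => card_image_le.trans (hd v))
    _ = D * A.card := by rw [sum_const, smul_eq_mul, mul_comm]

theorem ed_comm (A C : Finset V) : ed Gr A C = ed Gr C A := by
  unfold ed
  apply card_bij (fun p _ => (p.2, p.1))
  · rintro ⟨v, u⟩ h
    simp only [mem_filter, mem_univ, true_and] at h ⊢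
    exact ⟨h.2.1, h.1, h.2.2.symm⟩
  · rintro ⟨v, u⟩ _ ⟨v', u'⟩ _ h
    simp only [Prod.mk.injEq] at h ⊢
    exact ⟨h.2, h.1⟩
  · rintro ⟨v, u⟩ h
    simp only [mem_filter, mem_univ, true_and] at h
    refine ⟨(u, v), ?_, rfl⟩
    simp only [mem_filter, mem_univ, true_and]
    exact ⟨h.2.1, h.1, h.2.2.symm⟩

theorem ed_le_right {D : ℕ} (hd : ∀ v, (univ.filter (fun u => Gr.Adj v u)).card ≤ D)
    (A C : Finset V) : ed Gr A C ≤ D * C.card := by
  rw [ed_comm]; exact ed_le_left hd C A

theorem ed_mono {A A' C C' : Finset V} (hA : A ⊆ A') (hC : C ⊆ C') : ed Gr A C ≤ ed Gr A' C' := by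
  apply card_le_card
  intro p h
  simp only [mem_filter, mem_univ, true_and] at h ⊢
  exact ⟨hA h.1, hC h.2.1, h.2.2⟩

theorem ed_union_left (A A' C : Finset V) : ed Gr (A ∪ A') C ≤ ed Gr A C + ed Gr A' C := by
  unfold ed
  refine le_trans (card_le_card ?_) (card_union_le _ _)
  intro p h
  simp only [mem_filter, mem_univ, true_and, mem_union] at h ⊢
  tauto

theorem ed_union_right (A C C' : Finset V) : ed Gr A (C ∪ C') ≤ ed Gr A C + ed Gr A C' := by
  rw [ed_comm, ed_comm A C, ed_comm A C']
  exact ed_union_left _ _ _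

end ed

/-- the induced graph on a finite set of vertices -/
def indu {V : Type} (Gr : SimpleGraph V) (U : Finset V) : SimpleGraph {x // x ∈ U} :=
  Gr.comap Subtype.val

theorem ed_indu {V : Type} [Fintype V] (Gr : SimpleGraph V) (U : Finset V)
    (A C : Finset {x // x ∈ U}) :
    ed (indu Gr U) A C = ed Gr (A.image Subtype.val) (C.image Subtype.val) := by
  unfold ed
  apply card_bij (fun p _ => (p.1.1, p.2.1))
  · rintro ⟨v, u⟩ h
    simp only [mem_filter, mem_univ, true_and] at h ⊢
    exact ⟨mem_image_of_mem _ h.1, mem_image_of_mem _ h.2.1, h.2.2⟩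
  · rintro ⟨v, u⟩ _ ⟨v', u'⟩ _ h
    simp only [Prod.mk.injEq] at h ⊢
    exact ⟨Subtype.ext h.1, Subtype.ext h.2⟩
  · rintro ⟨v, u⟩ h
    simp only [mem_filter, mem_univ, true_and, mem_image] at h
    obtain ⟨⟨v', hv, rfl⟩, ⟨u', hu, rfl⟩, h3⟩ := h
    refine ⟨(v', u'), ?_, rfl⟩
    simp only [mem_filter, mem_univ, true_and]
    exact ⟨hv, hu, h3⟩

theorem bd_indu {V : Type} [Fintype V] (Gr : SimpleGraph V) (U : Finset V)
    (A : Finset {x // x ∈ U}) :
    bd (indu Gr U) A = ed Gr (A.image Subtype.val) (U \ A.image Subtype.val) := by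
  rw [bd_eq, ed_indu]
  congr 1
  ext v
  simp only [mem_image, mem_compl, mem_sdiff]
  constructor
  · rintro ⟨w, hw, rfl⟩
    refine ⟨w.2, ?_⟩
    rintro ⟨w', hw', he⟩
    exact hw (by rwa [← Subtype.ext he])
  · rintro ⟨h1, h2⟩
    exact ⟨⟨v, h1⟩, fun hc => h2 ⟨_, hc, rfl⟩, rfl⟩

theorem deg_indu {V : Type} [Fintype V] (Gr : SimpleGraph V) (U : Finset V) {D : ℕ}
    (hd : ∀ v, (univ.filter (fun u => Gr.Adj v u)).card ≤ D) (v : {x // x ∈ U}) :
    (univ.filter (fun u => (indu Gr U).Adj v u)).card ≤ D := by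
  refine le_trans ?_ (hd v.1)
  apply card_le_card_of_injOn Subtype.val
  · intro u hu
    simp only [coe_filter, mem_univ, true_and, Set.mem_ofPred_eq] at hu ⊢
    exact hu
  · intro a _ b _ h
    exact Subtype.ext h

/-- Pruning: after removing few vertices, an expander contains a large expander. -/
theorem prune {V : Type} [Fintype V] (Gr : SimpleGraph V) (D : ℕ) (ε : ℝ) (hε : 0 < ε)
    (h : IsExp Gr D ε) (Y : Finset V)
    (hY : 4 * (1 + 2 * D / ε) ^ 2 * ((Yᶜ).card : ℝ) ≤ Fintype.card V) :
    ∃ U : Finset V, U ⊆ Y ∧ Fintype.card V ≤ 2 * U.card ∧ IsExp (indu Gr U) D (ε / 2) := by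
  set n : ℕ := Fintype.card V with hn
  set z : ℕ := (Yᶜ).card with hz
  set c : ℝ := 2 * D / ε with hc
  have hc0 : 0 ≤ c := by positivity
  have hcε : c * ε = 2 * D := by rw [hc]; field_simp
  have hYn : Y.card + z = n := by
    rw [hz, hn, card_compl]
    have := card_le_univ Y
    omega
  have hYn' : (Y.card : ℝ) + z = n := by exact_mod_cast hYn
  have hz0 : (0 : ℝ) ≤ z := Nat.cast_nonneg _
  -- maximal bad set
  obtain ⟨B, hB, hBmax⟩ := Finset.exists_max_image
    (univ.filter (fun B : Finset V => B ⊆ Y ∧ 2 * B.card ≤ Y.card ∧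
      (ed Gr B (Y \ B) : ℝ) ≤ ε / 2 * B.card)) Finset.card ⟨∅, by
        simp [ed]⟩
  simp only [mem_filter, mem_univ, true_and] at hB hBmax
  obtain ⟨hBY, hB2, hBe⟩ := hB
  -- size of B
  have hBs : (B.card : ℝ) ≤ c * z := by
    have h1 := h.cheeger B (by omega)
    rw [bd_eq] at h1
    have h2 : ed Gr B Bᶜ ≤ ed Gr B (Y \ B) + ed Gr B Yᶜ := by
      refine le_trans (ed_mono (Subset.refl _) ?_) (ed_union_right _ _ _)
      intro v hv
      simp only [mem_union, mem_sdiff, mem_compl] at hv ⊢
      tauto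
    have h3 := ed_le_right h.deg B Yᶜ
    have h4 : (ed Gr B Bᶜ : ℝ) ≤ ed Gr B (Y \ B) + D * z := by
      have : ed Gr B Bᶜ ≤ ed Gr B (Y \ B) + D * z := by rw [hz]; omega
      exact_mod_cast this
    have h5 : ε / 2 * B.card ≤ D * z := by linarith
    have h6 : ε * B.card ≤ ε * (c * z) := by
      have : ε * (c * z) = 2 * D * z := by rw [← hcε]; ring
      rw [this]; linarith
    exact le_of_mul_le_mul_left h6 hε
  have hU : ((Y \ B).card : ℝ) = Y.card - B.card := by
    have := card_sdiff_add_card_eq_card hBY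
    have : ((Y \ B).card : ℝ) + B.card = Y.card := by exact_mod_cast this
    linarith
  refine ⟨Y \ B, sdiff_subset, ?_, ?_, ?_⟩
  · have : (n : ℝ) ≤ 2 * (Y \ B).card := by
      rw [hU]
      nlinarith [mul_nonneg hc0 hz0, mul_nonneg (mul_nonneg hc0 hc0) hz0]
    exact_mod_cast this
  · exact deg_indu Gr _ h.deg
  · intro A hA
    by_contra hcon
    push Not at hcon
    set A' : Finset V := A.image Subtype.val with hA'
    have hcard : A'.card = A.card := card_image_of_injective _ Subtype.val_injective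
    have hA'U : A' ⊆ Y \ B := by
      intro v hv
      rw [hA', mem_image] at hv
      obtain ⟨w, _, rfl⟩ := hv
      exact w.2
    rw [bd_indu, ← hA', ← hcard] at hcon
    rw [Fintype.card_coe, ← hcard] at hA
    have hdisj : Disjoint A' B := by
      rw [Finset.disjoint_left]
      intro v hv hvB
      exact (mem_sdiff.mp (hA'U hv)).2 hvB
    have hcu : (A' ∪ B).card = A'.card + B.card := card_union_of_disjoint hdisj
    have hA'pos : 0 < A'.card := by
      by_contra h0
      have : A'.card = 0 := by omega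
      rw [this] at hcon
      simp at hcon
      have : (0 : ℝ) ≤ ed Gr A' ((Y \ B) \ A') := Nat.cast_nonneg _
      linarith
    have hYA : A' ⊆ Y := hA'U.trans sdiff_subset
    by_cases hs : 2 * (A' ∪ B).card ≤ Y.card
    · have hbad : (ed Gr (A' ∪ B) (Y \ (A' ∪ B)) : ℝ) ≤ ε / 2 * (A' ∪ B).card := by
        have h1 : ed Gr (A' ∪ B) (Y \ (A' ∪ B)) ≤ ed Gr A' ((Y \ B) \ A') + ed Gr B (Y \ B) := by
          refine le_trans (ed_union_left _ _ _) (add_le_add (ed_mono (Subset.refl _) ?_)
            (ed_mono (Subset.refl _) ?_))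
          · intro v hv
            simp only [mem_sdiff, mem_union] at hv ⊢
            tauto
          · intro v hv
            simp only [mem_sdiff, mem_union] at hv ⊢
            tauto
        have h2 : (ed Gr (A' ∪ B) (Y \ (A' ∪ B)) : ℝ) ≤
            ed Gr A' ((Y \ B) \ A') + ed Gr B (Y \ B) := by exact_mod_cast h1
        rw [hcu]
        push_cast
        linarith
      have := hBmax (A' ∪ B) ⟨union_subset hYA hBY, hs, hbad⟩
      omega
    · have hlarge : ((Y.card : ℝ)) < 2 * (A'.card + B.card) := by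
        rw [hcu] at hs
        push Not at hs
        exact_mod_cast hs
      have hA'n : 2 * A'.card ≤ n := by
        have : (Y \ B).card ≤ Y.card := card_le_card sdiff_subset
        omega
      have h1 := h.cheeger A' hA'n
      rw [bd_eq] at h1
      have h2 : ed Gr A' A'ᶜ ≤ ed Gr A' ((Y \ B) \ A') + (ed Gr A' B + ed Gr A' Yᶜ) := by
        refine le_trans (ed_mono (Subset.refl _) ?_)
          (le_trans (ed_union_right _ _ (B ∪ Yᶜ)) (add_le_add le_rfl (ed_union_right _ _ _)))
        intro v hv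
        simp only [mem_union, mem_sdiff, mem_compl] at hv ⊢
        tauto
      have h3 := ed_le_right h.deg A' B
      have h4 := ed_le_right h.deg A' Yᶜ
      have h5 : (ed Gr A' A'ᶜ : ℝ) ≤ ed Gr A' ((Y \ B) \ A') + (D * B.card + D * z) := by
        have : ed Gr A' A'ᶜ ≤ ed Gr A' ((Y \ B) \ A') + (D * B.card + D * z) := by
          rw [hz]; omega
        exact_mod_cast this
      have h6 : ε / 2 * A'.card < D * B.card + D * z := by linarith
      have h7 : (A'.card : ℝ) ≤ c * (B.card + z) := by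
        have : ε * A'.card ≤ ε * (c * (B.card + z)) := by
          have e1 : ε * (c * (B.card + z)) = 2 * (D * B.card + D * z) := by
            calc ε * (c * (B.card + z)) = (c * ε) * (B.card + z) := by ring
              _ = _ := by rw [hcε]; ring
          rw [e1]; linarith
        exact le_of_mul_le_mul_left this hε
      have h8 : (A'.card : ℝ) ≤ c * (c * z + z) := h7.trans (by gcongr)
      nlinarith [mul_nonneg hc0 hz0, mul_nonneg (mul_nonneg hc0 hc0) hz0, hYn']

end Pool.Agent.Helper784WE
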