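import Mathlib
import Pool.Agent.Helper784WE.Basic

/-!
Shared definitions and the exact statements of the modules (as `Prop`s).
Each module proves `theorem specX : SpecX` (imports only `Basic`, `Spec` and its own files).
-/

set_option autoImplicit false

open Finset
open scoped Classical

namespace Pool.Agent.Helper784WE

/-! ### Groups -/

/-- Every map of an expander into `G` that is Lipschitz has a large fibre (with constants). -/
def Conc (G : Type) [Group G] : Prop :=
  ∀ (T : Finset G) (D : ℕ) (ε : ℝ), 0 < ε → ∃ δ : ℝ, 0 < δ ∧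
    ∀ (V : Type) [Fintype V] [Nonempty V] (Gr : SimpleGraph V), IsExp Gr D ε →
    ∀ g : V → G, (∀ u v, Gr.Adj u v → (g u)⁻¹ * g v ∈ T) →
      ∃ x : G, δ * (Fintype.card V : ℝ) ≤ ((univ.filter (fun v => g v = x)).card : ℝ)

/-- Coarse embeddability into a real Hilbert space, for the coarse structure of all finite sets. -/
def CEmb (G : Type) [Group G] : Prop :=
  ∃ (H : Type) (_ : NormedAddCommGroup H) (_ : InnerProductSpace ℝ H) (_ : CompleteSpace H)
    (f : G → H),
    (∀ T : Finset G, ∃ C : ℝ, ∀ g, ∀ t ∈ T, ‖f g - f (g * t)‖ ≤ C) ∧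
    (∀ R : ℝ, ∃ T : Finset G, ∀ g h, ‖f g - f h‖ ≤ R → g⁻¹ * h ∈ T)

/-- Higman-benign subgroups, with `Conc` carried along. -/
def Benign {F : Type} [Group F] (U : Subgroup F) : Prop :=
  ∃ (K : Type) (_ : Group K) (i : F →* K) (L : Subgroup K),
    Function.Injective i ∧ L.FG ∧ Group.IsFinitelyPresented K ∧ Conc K ∧ L.comap i = U

/-- The mod 2 square of a subgroup: generated by the squares of its elements. -/
def sq {F : Type} [Group F] (N : Subgroup F) : Subgroup F :=
  Subgroup.closure {x | ∃ n ∈ N, x = n ^ 2}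

instance sq_normal {F : Type} [Group F] (N : Subgroup F) [hN : N.Normal] : (sq N).Normal := by
  refine ⟨fun n hn g => ?_⟩
  induction hn using Subgroup.closure_induction with
  | mem x hx =>
    obtain ⟨m, hm, rfl⟩ := hx
    exact Subgroup.subset_closure ⟨g * m * g⁻¹, hN.conj_mem m hm g, by simp [conj_pow]⟩
  | one => simp
  | mul x y _ _ hx hy =>
    have : g * (x * y) * g⁻¹ = (g * x * g⁻¹) * (g * y * g⁻¹) := by group
    rw [this]; exact (sq N).mul_mem hx hy
  | inv x _ hx =>
    have : g * x⁻¹ * g⁻¹ = (g * x * g⁻¹)⁻¹ := by group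
    rw [this]; exact (sq N).inv_mem hx

/-! ### Labelled graphs -/

/-- labelled graph: `E x s y` says there is an edge labelled `s` from `x` to `y`. -/
structure LG (S V : Type) where
  E : V → S → V → Prop
  det : ∀ {x s y y'}, E x s y → E x s y' → y = y'
  codet : ∀ {x x' s y}, E x s y → E x' s y → x = x'

namespace LG

variable {S V : Type} (X : LG S V)

/-- one step along a letter (`true`: forwards, `false`: backwards) -/
def Step (x : V) (a : S × Bool) (y : V) : Prop := if a.2 then X.E x a.1 y else X.E y a.1 x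

/-- the word `w` labels a path from `x` to `y` -/
inductive Reads : V → List (S × Bool) → V → Prop
  | nil (x : V) : Reads x [] x
  | cons {x y z : V} {a : S × Bool} {w : List (S × Bool)} :
      X.Step x a y → Reads y w z → Reads x (a :: w) z

/-- the labels of the closed paths -/
def Closed (w : List (S × Bool)) : Prop := ∃ x, X.Reads x w x

end LG

/-- the normal subgroup generated by a set of words -/
def ncl {S : Type} (P : List (S × Bool) → Prop) : Subgroup (FreeGroup S) :=
  Subgroup.normalClosure {r | ∃ w, P w ∧ r = FreeGroup.mk w}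

/-- One graph of the sequence: at most `C0 ^ g` vertices, at each vertex at most `D0` letters can be
read, girth at least `g`,
repetitions shorter than `g / 12`, Cheeger constant at least `1 / M`. -/
structure Fine (q D0 M C0 : ℕ) (n g : ℕ) (X : LG (Fin q) (Fin n)) : Prop where
  pos : 0 < n
  size : n ≤ C0 ^ g
  deg : ∀ x, (univ.filter (fun a : Fin q × Bool => ∃ y, X.Step x a y)).card ≤ D0
  girth : ∀ x w, X.Reads x w x → FreeGroup.IsReduced w → w ≠ [] → g ≤ w.length
  piece : ∀ x y w u v, x ≠ y → FreeGroup.IsReduced w → X.Reads x w u → X.Reads y w v →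
    12 * w.length < g
  cheeger : ∀ A : Finset (Fin n), 2 * A.card ≤ n →
    A.card ≤ M * (univ.filter
      (fun p : Fin n × Fin n => p.1 ∈ A ∧ p.2 ∉ A ∧ ∃ a, X.Step p.1 a p.2)).card

/-- No long common words (long: at least `g / 12` letters). -/
def Cross {q n n' : ℕ} (g : ℕ) (X : LG (Fin q) (Fin n)) (X' : LG (Fin q) (Fin n')) : Prop :=
  ∀ x y w u v, FreeGroup.IsReduced w → X.Reads x w u → X'.Reads y w v → 12 * w.length < g

/-! ### Module statements -/

/-- Module E: graphical small cancellation, injectivity. -/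
def SpecE : Prop :=
  ∀ (S V : Type) (X : LG S V) (g : V → ℕ),
    (∀ x s y, X.E x s y → g x = g y) →
    (∀ x w, X.Reads x w x → FreeGroup.IsReduced w → w ≠ [] → g x ≤ w.length) →
    (∀ x y w u v, x ≠ y → FreeGroup.IsReduced w → X.Reads x w u → X.Reads y w v →
      12 * w.length < g x) →
    ∀ x y w, X.Reads x w y → FreeGroup.mk w ∈ ncl X.Closed → x = y

/-- Module F: one more graph, avoiding finitely many given graphs. -/
def SpecF : Prop :=
  ∃ q D0 M C0 g0 : ℕ, ∀ (m : ℕ) (n g : Fin m → ℕ) (X : ∀ i, LG (Fin q) (Fin (n i))),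
    StrictMono g → (∀ i, g0 ≤ g i) → (∀ i, n i ≤ C0 ^ g i) →
    (∀ i x, (univ.filter (fun a : Fin q × Bool => ∃ y, (X i).Step x a y)).card ≤ D0) →
    ∀ B : ℕ, ∃ (n' g' : ℕ) (X' : LG (Fin q) (Fin n')),
      B ≤ g' ∧ B ≤ n' ∧ Fine q D0 M C0 n' g' X' ∧ ∀ i, Cross (g i) (X i) X'

/-- Module G, first part: a computable sequence. -/
def SpecG : Prop :=
  ∀ q D0 M C0 g0 : ℕ,
    (∀ (m : ℕ) (n g : Fin m → ℕ) (X : ∀ i, LG (Fin q) (Fin (n i))),
      StrictMono g → (∀ i, g0 ≤ g i) → (∀ i, n i ≤ C0 ^ g i) →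
      (∀ i x, (univ.filter (fun a : Fin q × Bool => ∃ y, (X i).Step x a y)).card ≤ D0) →
      ∀ B : ℕ, ∃ (n' g' : ℕ) (X' : LG (Fin q) (Fin n')),
        B ≤ g' ∧ B ≤ n' ∧ Fine q D0 M C0 n' g' X' ∧ ∀ i, Cross (g i) (X i) X') →
    ∃ (n g : ℕ → ℕ) (X : ∀ k, LG (Fin q) (Fin (n k))),
      StrictMono g ∧ (∀ k, k ≤ n k) ∧ (∀ k, Fine q D0 M C0 (n k) (g k) (X k)) ∧
      (∀ k l, k < l → Cross (g k) (X k) (X l)) ∧
      REPred (fun w : List (Fin q × Bool) => ∃ k, (X k).Closed w)

/-- Module G, second part: the squares of a recursively enumerable normal subgroup. -/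
def SpecG2 : Prop :=
  ∀ (q : ℕ) (P : List (Fin q × Bool) → Prop), REPred P →
    REPred (fun w : List (Fin q × Bool) => FreeGroup.mk w ∈ sq (ncl P))

/-- Module C, rope trick. -/
def SpecC5 : Prop :=
  ∀ (n : ℕ) (N : Subgroup (FreeGroup (Fin n))) [N.Normal], Benign N →
    Conc (FreeGroup (Fin n) ⧸ N) →
    ∃ (E : Type) (_ : Group E) (f : (FreeGroup (Fin n) ⧸ N) →* E),
      Group.IsFinitelyPresented E ∧ Conc E ∧ Function.Injective f

/-- Module C, intersections. -/
def SpecC1 : Prop :=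
  ∀ (F : Type) [Group F] (U W : Subgroup F), Benign U → Benign W → Benign (U ⊓ W)

/-- Module C, preimages. -/
def SpecC2 : Prop :=
  ∀ (F1 F2 : Type) [Group F1] [Group F2] (θ : F1 →* F2) (U : Subgroup F2),
    Group.IsFinitelyPresented F1 → Conc F1 → Benign U → Benign (U.comap θ)

/-- Module C, images. -/
def SpecC3 : Prop :=
  ∀ (F1 F2 : Type) [Group F1] [Group F2] (θ : F1 →* F2) (U : Subgroup F1),
    Group.FG F1 → Group.IsFinitelyPresented F2 → Conc F2 → Benign U → Benign (U.map θ)

/-- Module C, multiple HNN extensions. -/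
def SpecC4 : Prop :=
  ∀ (K : Type) [Group K] (m : ℕ) (A B : Fin m → Subgroup K) (φ : ∀ i, A i ≃* B i),
    Group.IsFinitelyPresented K → Conc K → (∀ i, (A i).FG) →
    ∃ (E : Type) (_ : Group E) (j : K →* E) (t : Fin m → E),
      Group.IsFinitelyPresented E ∧ Conc E ∧ Function.Injective j ∧
      (∀ i (a : A i), t i * j a = j (φ i a) * t i) ∧
      ∀ H : Subgroup K, (∀ i (a : A i), (a : K) ∈ H ↔ ((φ i a : B i) : K) ∈ H) →
        (Subgroup.closure ((H.map j : Set E) ∪ Set.range t)).comap j = H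

/-- Module A: permanence. -/
def SpecA : Prop :=
  (∀ (G H : Type) [Group G] [Group H] (f : G →* H), Function.Injective f → Conc H → Conc G) ∧
  (∀ (G H : Type) [Group G] [Group H], Conc G → Conc H → Conc (G × H)) ∧
  (∀ (G : Type) [Group G] (N : Subgroup G) [N.Normal], Conc N → Conc (G ⧸ N) → Conc G) ∧
  (∀ (G : Type) [Group G] (A B : Subgroup G) (φ : A ≃* B), Conc G → Conc (HNNExtension G A B φ)) ∧
  (∀ α : Type, Conc (FreeGroup α))

/-- Module B, concentration in the mod 2 covers. -/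
def SpecB1 : Prop :=
  ∀ (n : ℕ) (N : Subgroup (FreeGroup (Fin n))) [N.Normal], Conc (FreeGroup (Fin n) ⧸ sq N)

/-- Module B, no coarse embedding of the mod 2 covers. -/
def SpecB2 : Prop :=
  ∀ (n : ℕ) (N : Subgroup (FreeGroup (Fin n))) [N.Normal] (a : Fin n), FreeGroup.of a ∈ N →
    ∀ (D : ℕ) (ε : ℝ) (T : Finset (FreeGroup (Fin n) ⧸ N)), 0 < ε →
    (∀ δ : ℝ, 0 < δ → ∃ (V : Type) (_ : Fintype V) (_ : Nonempty V) (Gr : SimpleGraph V)
      (g : V → FreeGroup (Fin n) ⧸ N), IsExp Gr D ε ∧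
      (∀ u v, Gr.Adj u v → (g u)⁻¹ * g v ∈ T) ∧
      ∀ x, ((univ.filter (fun v => g v = x)).card : ℝ) ≤ δ * Fintype.card V) →
    ¬ CEmb (FreeGroup (Fin n) ⧸ sq N)

/-- Module D: subgroups generated by recursively enumerable sets of words are benign. -/
def SpecD : Prop :=
  ∀ (q : ℕ) (P : List (Fin q × Bool) → Prop), REPred P →
    Benign (Subgroup.closure {r : FreeGroup (Fin q) | ∃ w, P w ∧ r = FreeGroup.mk w})

end Pool.Agent.Helper784WE
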