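import Mathlib
import Pool.Agent.Helper784WE.Basic
import Pool.Agent.Helper784WE.Spec

/-!
Growth of neighbourhoods in expanders, and the relative concentration lemma.
-/

set_option autoImplicit false

open Finset
open scoped Classical

namespace Pool.Agent.Helper784WE

/-- the closed neighbourhood -/
noncomputable def nbh {V : Type} [Fintype V] (Gr : SimpleGraph V) (Y : Finset V) : Finset V :=
  Y ∪ univ.filter (fun v => ∃ u ∈ Y, Gr.Adj u v)

theorem subset_nbh {V : Type} [Fintype V] (Gr : SimpleGraph V) (Y : Finset V) : Y ⊆ nbh Gr Y :=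
  subset_union_left

theorem nbh_growth {V : Type} [Fintype V] {Gr : SimpleGraph V} {D : ℕ} {ε : ℝ}
    (h : IsExp Gr D ε) (Y : Finset V) {μ : ℝ} (hε : 0 ≤ ε)
    (h1 : μ ≤ (Y.card : ℝ)) (h2 : μ ≤ ((Yᶜ).card : ℝ)) :
    ε * μ ≤ D * (((nbh Gr Y) \ Y).card : ℝ) := by
  have hb : ed Gr Y Yᶜ ≤ D * ((nbh Gr Y) \ Y).card := by
    refine le_trans ?_ (ed_le_right h.deg Y ((nbh Gr Y) \ Y))
    apply card_le_card
    intro p hp
    simp only [mem_filter, mem_univ, true_and, mem_compl, nbh, mem_sdiff, mem_union] at hp ⊢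
    exact ⟨hp.1, ⟨Or.inr ⟨_, hp.1, hp.2.2⟩, hp.2.1⟩, hp.2.2⟩
  have hb' : (ed Gr Y Yᶜ : ℝ) ≤ D * (((nbh Gr Y) \ Y).card : ℝ) := by exact_mod_cast hb
  refine le_trans ?_ hb'
  have hc : Y.card + (Yᶜ).card = Fintype.card V := by
    rw [card_compl]
    have := card_le_univ Y
    omega
  rcases Nat.lt_or_ge (Yᶜ).card Y.card with hlt | hge
  · have := h.cheeger Yᶜ (by omega)
    rw [bd_eq, compl_compl, ed_comm] at this
    exact (mul_le_mul_of_nonneg_left h2 hε).trans this
  · have := h.cheeger Y (by omega)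
    rw [bd_eq] at this
    exact (mul_le_mul_of_nonneg_left h1 hε).trans this

/-- iterated neighbourhoods -/
noncomputable def ball {V : Type} [Fintype V] (Gr : SimpleGraph V) (Y : Finset V) : ℕ → Finset V
  | 0 => Y
  | i + 1 => nbh Gr (ball Gr Y i)

theorem ball_mono {V : Type} [Fintype V] (Gr : SimpleGraph V) (Y : Finset V) {i j : ℕ}
    (h : i ≤ j) : ball Gr Y i ⊆ ball Gr Y j := by
  induction h with
  | refl => exact Subset.refl _
  | step _ ih => exact ih.trans (subset_nbh _ _)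

theorem exists_ball (D : ℕ) (ε δ η : ℝ) (hε : 0 < ε) (hδ : 0 < δ) (hη : 0 < η) :
    ∃ R : ℕ, ∀ (V : Type) [Fintype V] [Nonempty V] (Gr : SimpleGraph V), IsExp Gr D ε →
      ∀ Y : Finset V, δ * (Fintype.card V : ℝ) ≤ (Y.card : ℝ) →
      (((ball Gr Y R)ᶜ).card : ℝ) ≤ η * (Fintype.card V : ℝ) := by
  set μ : ℝ := min δ η with hμ
  have hμ0 : 0 < μ := lt_min hδ hη
  obtain ⟨R, hR⟩ := exists_nat_gt ((D : ℝ) / (ε * μ))
  refine ⟨R, ?_⟩
  intro V _ _ Gr hG Y hY
  by_contra hcon
  push Not at hcon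
  have hV : (0 : ℝ) < Fintype.card V := by exact_mod_cast Fintype.card_pos
  have key : ∀ i ≤ R, (i : ℝ) * (ε * (μ * Fintype.card V)) ≤ D * ((ball Gr Y i).card : ℝ) := by
    intro i
    induction i with
    | zero => intro _; simp only [Nat.cast_zero, zero_mul]; positivity
    | succ i ih =>
      intro hi
      have h1 := ih (by omega)
      have h2 : μ * (Fintype.card V : ℝ) ≤ ((ball Gr Y i).card : ℝ) := by
        have e1 : μ * (Fintype.card V : ℝ) ≤ δ * Fintype.card V :=
          mul_le_mul_of_nonneg_right (min_le_left _ _) hV.le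
        have e2 : (Y.card : ℝ) ≤ (ball Gr Y i).card := by
          exact_mod_cast card_le_card (ball_mono Gr Y (Nat.zero_le i))
        linarith
      have h3 : μ * (Fintype.card V : ℝ) ≤ (((ball Gr Y i)ᶜ).card : ℝ) := by
        have e1 : μ * (Fintype.card V : ℝ) ≤ η * Fintype.card V :=
          mul_le_mul_of_nonneg_right (min_le_right _ _) hV.le
        have e2 : (((ball Gr Y R)ᶜ).card : ℝ) ≤ ((ball Gr Y i)ᶜ).card := by
          exact_mod_cast card_le_card
            (compl_subset_compl.mpr (ball_mono Gr Y (show i ≤ R by omega)))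
        linarith
      have h4 := nbh_growth hG (ball Gr Y i) hε.le h2 h3
      have h5 : ((ball Gr Y (i + 1)).card : ℝ) =
          (ball Gr Y i).card + ((nbh Gr (ball Gr Y i)) \ (ball Gr Y i)).card := by
        have := card_sdiff_add_card_eq_card (subset_nbh Gr (ball Gr Y i))
        have e : ball Gr Y (i + 1) = nbh Gr (ball Gr Y i) := rfl
        rw [e, ← this]
        push_cast
        ring
      rw [h5]
      push_cast
      linarith
  have h1 := key R le_rfl
  have h2 : ((ball Gr Y R).card : ℝ) ≤ Fintype.card V := by exact_mod_cast card_le_univ _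
  have h3 : (D : ℝ) < R * (ε * μ) := by
    rwa [div_lt_iff₀ (by positivity)] at hR
  have h4 : (D : ℝ) * (ball Gr Y R).card ≤ D * Fintype.card V :=
    mul_le_mul_of_nonneg_left h2 (Nat.cast_nonneg _)
  nlinarith

/-- iterated products with a finite set -/
noncomputable def thick {E : Type} [Group E] (P T : Finset E) : ℕ → Finset E
  | 0 => P
  | i + 1 => thick P T i ∪ (image₂ (fun a b => a * b) (thick P T i) T)

/-- The relative concentration lemma. -/
theorem relConc {E : Type} [Group E] (K : Subgroup E) (hK : Conc K) (P T : Finset E) (D : ℕ)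
    (ε δ₁ : ℝ) (hε : 0 < ε) (hδ : 0 < δ₁) :
    ∃ δ : ℝ, 0 < δ ∧ ∀ (V : Type) [Fintype V] [Nonempty V] (Gr : SimpleGraph V),
      IsExp Gr D ε → ∀ g : V → E, (∀ u v, Gr.Adj u v → (g u)⁻¹ * g v ∈ T) →
      ∀ g₀ : E, δ₁ * (Fintype.card V : ℝ) ≤
        ((univ.filter (fun v => ∃ k ∈ K, ∃ p ∈ P, g v = g₀ * k * p)).card : ℝ) →
      ∃ x : E, δ * (Fintype.card V : ℝ) ≤ ((univ.filter (fun v => g v = x)).card : ℝ) := by
  set η : ℝ := 1 / (4 * (1 + 2 * D / ε) ^ 2) with hη
  have hη0 : 0 < η := by positivity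
  obtain ⟨R, hR⟩ := exists_ball D ε δ₁ η hε hδ hη0
  set P' : Finset E := thick P T R with hP'
  set T' : Finset K := (((P' ×ˢ T) ×ˢ P').image
    (fun x => x.1.1 * x.1.2 * x.2⁻¹)).preimage K.subtype K.subtype_injective.injOn with hT'
  obtain ⟨δK, hδK, hc⟩ := hK T' D (ε / 2) (by positivity)
  refine ⟨δK / (2 * (P'.card + 1)), by positivity, ?_⟩
  intro V _ _ Gr hG g hg g₀ hlarge
  have hV : (0 : ℝ) < Fintype.card V := by exact_mod_cast Fintype.card_pos
  set Y : Finset V := univ.filter (fun v => ∃ k ∈ K, ∃ p ∈ P, g v = g₀ * k * p) with hY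
  have hb := hR V Gr hG Y hlarge
  have hth : ∀ i, ∀ v ∈ ball Gr Y i, ∃ k ∈ K, ∃ p ∈ thick P T i, g v = g₀ * k * p := by
    intro i
    induction i with
    | zero => intro v hv; exact (mem_filter.mp hv).2
    | succ i ih =>
      intro v hv
      simp only [ball, nbh, mem_union, mem_filter, mem_univ, true_and] at hv
      rcases hv with hv | ⟨u, hu, huv⟩
      · obtain ⟨k, hk, p, hp, e⟩ := ih v hv
        exact ⟨k, hk, p, mem_union_left _ hp, e⟩
      · obtain ⟨k, hk, p, hp, e⟩ := ih u hu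
        refine ⟨k, hk, p * ((g u)⁻¹ * g v), ?_, ?_⟩
        · exact mem_union_right _ (mem_image₂_of_mem hp (hg u v huv))
        · rw [← mul_assoc, ← e]; group
  obtain ⟨U, hU1, hU2, hU3⟩ := prune Gr D ε hε hG (ball Gr Y R) (by
    have h1 : 4 * (1 + 2 * D / ε) ^ 2 * η = 1 := by
      rw [hη]
      field_simp
    calc 4 * (1 + 2 * D / ε) ^ 2 * (((ball Gr Y R)ᶜ).card : ℝ)
        ≤ 4 * (1 + 2 * D / ε) ^ 2 * (η * Fintype.card V) := by gcongr
      _ = (4 * (1 + 2 * D / ε) ^ 2 * η) * Fintype.card V := by ring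
      _ = Fintype.card V := by rw [h1, one_mul])
  have hch : ∀ x : {x // x ∈ U}, ∃ (k : K) (p : E), p ∈ P' ∧ g x.1 = g₀ * k * p := by
    intro x
    obtain ⟨k, hk, p, hp, e⟩ := hth R x.1 (hU1 x.2)
    exact ⟨⟨k, hk⟩, p, hp, e⟩
  choose k p hp hkp using hch
  have hUne : Nonempty {x // x ∈ U} := by
    have : 0 < U.card := by
      have h0 : 0 < Fintype.card V := Fintype.card_pos
      omega
    obtain ⟨x, hx⟩ := Finset.card_pos.mp this
    exact ⟨⟨x, hx⟩⟩
  obtain ⟨k₀, hk₀⟩ := hc {x // x ∈ U} (indu Gr U) hU3 k (by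
    intro u v huv
    rw [hT', mem_preimage, mem_image]
    have huv' : Gr.Adj u.1 v.1 := huv
    refine ⟨((p u, (g u.1)⁻¹ * g v.1), p v), ?_, ?_⟩
    · simp only [mem_product]
      exact ⟨⟨hp u, hg _ _ huv'⟩, hp v⟩
    · simp only [hkp, Subgroup.coe_subtype, Subgroup.coe_mul, Subgroup.coe_inv]
      group)
  set W : Finset {x // x ∈ U} := univ.filter (fun v => k v = k₀) with hW
  have h6 : δK * (Fintype.card {x // x ∈ U} : ℝ) ≤ W.card := by rw [hW]; convert hk₀
  have hex : ∃ p₀ ∈ P', (W.card : ℝ) ≤ (P'.card + 1) *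
      ((W.filter (fun v => p v = p₀)).card : ℝ) := by
    by_contra hcon
    push Not at hcon
    have h1 : W.card = ∑ p₀ ∈ P', (W.filter (fun v => p v = p₀)).card :=
      card_eq_sum_card_fiberwise (fun v _ => hp v)
    have hWpos : (0 : ℝ) < W.card := by
      have h2 : (0 : ℝ) < Fintype.card {x // x ∈ U} := by exact_mod_cast Fintype.card_pos
      have := mul_pos hδK h2
      linarith
    have hPne : P'.Nonempty := by
      obtain ⟨v, _⟩ := Finset.card_pos.mp (by exact_mod_cast hWpos : 0 < W.card)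
      exact ⟨p v, hp v⟩
    have h2 : ((P'.card : ℝ) + 1) * W.card = ∑ p₀ ∈ P', ((P'.card : ℝ) + 1) *
        ((W.filter (fun v => p v = p₀)).card : ℝ) := by
      rw [← mul_sum]
      congr 1
      exact_mod_cast h1
    have h3 : ∑ p₀ ∈ P', ((P'.card : ℝ) + 1) * ((W.filter (fun v => p v = p₀)).card : ℝ) <
        ∑ p₀ ∈ P', (W.card : ℝ) := sum_lt_sum_of_nonempty hPne (fun p₀ h => hcon p₀ h)
    rw [sum_const, nsmul_eq_mul] at h3
    nlinarith
  obtain ⟨p₀, _, hp₀⟩ := hex
  refine ⟨g₀ * k₀ * p₀, ?_⟩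
  have h1 : (W.filter (fun v => p v = p₀)).card ≤
      (univ.filter (fun v => g v = g₀ * k₀ * p₀)).card := by
    apply card_le_card_of_injOn Subtype.val
    · intro v hv
      simp only [hW, coe_filter, mem_filter, mem_univ, true_and, Set.mem_ofPred_eq] at hv ⊢
      rw [hkp, hv.1, hv.2]
    · intro a _ b _ h
      exact Subtype.ext h
  have h1' : ((W.filter (fun v => p v = p₀)).card : ℝ) ≤
      ((univ.filter (fun v => g v = g₀ * k₀ * p₀)).card : ℝ) := by exact_mod_cast h1
  have h2 : (Fintype.card V : ℝ) ≤ 2 * Fintype.card {x // x ∈ U} := by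
    rw [Fintype.card_coe]
    exact_mod_cast hU2
  rw [div_mul_eq_mul_div, div_le_iff₀ (by positivity)]
  have h3 : δK * (Fintype.card V : ℝ) ≤ 2 * (δK * Fintype.card {x // x ∈ U}) := by
    nlinarith
  have h4 : (0 : ℝ) ≤ P'.card + 1 := by positivity
  have h5 := mul_le_mul_of_nonneg_left h1' h4
  calc δK * (Fintype.card V : ℝ) ≤ 2 * (δK * Fintype.card {x // x ∈ U}) := h3
    _ ≤ 2 * ((P'.card + 1) * ((univ.filter (fun v => g v = g₀ * k₀ * p₀)).card : ℝ)) := by
        linarith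
    _ = _ := by ring

end Pool.Agent.Helper784WE
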