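import Mathlib
import Pool.Agent.Helper784WE.A1
import Pool.Agent.Helper270.HNN

/-!
Permanence properties of `Conc`.
-/

set_option autoImplicit false

open Finset
open scoped Classical

namespace Pool.Agent.Helper784WE

theorem fibre_nonempty {V G : Type} [Fintype V] [Nonempty V] {g : V → G} {δ : ℝ} (hδ : 0 < δ)
    {P : V → Prop} (h : δ * (Fintype.card V : ℝ) ≤ ((univ.filter P).card : ℝ)) :
    ∃ v, P v := by
  have hV : (0 : ℝ) < Fintype.card V := by exact_mod_cast Fintype.card_pos
  have h1 : (0 : ℝ) < ((univ.filter P).card : ℝ) := lt_of_lt_of_le (mul_pos hδ hV) h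
  obtain ⟨v, hv⟩ := Finset.card_pos.mp (by exact_mod_cast h1 : 0 < (univ.filter P).card)
  exact ⟨v, (mem_filter.mp hv).2⟩

theorem fib_le {V α β : Type} [Fintype V] (f : V → α) (g : V → β) (a : α) (b : β)
    (h : ∀ v, f v = a → g v = b) :
    ((univ.filter (fun v => f v = a)).card : ℝ) ≤ ((univ.filter (fun v => g v = b)).card : ℝ) := by
  rw [Nat.cast_le]
  apply card_le_card
  intro v hv
  rw [mem_filter] at hv ⊢
  exact ⟨mem_univ _, h v hv.2⟩

theorem conc_of_injective {G H : Type} [Group G] [Group H] (f : G →* H)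
    (hf : Function.Injective f) (hH : Conc H) : Conc G := by
  intro T D ε hε
  obtain ⟨δ, hδ, h⟩ := hH (T.image f) D ε hε
  refine ⟨δ, hδ, ?_⟩
  intro V _ _ Gr hG g hg
  obtain ⟨y, hy⟩ := h V Gr hG (fun v => f (g v)) (by
    intro u v huv
    rw [mem_image]
    exact ⟨_, hg u v huv, by simp⟩)
  obtain ⟨v, hv⟩ := fibre_nonempty (g := g) hδ hy
  refine ⟨g v, hy.trans ?_⟩
  have : (univ.filter (fun w => f (g w) = y)) ⊆ univ.filter (fun w => g w = g v) := by
    intro w hw
    rw [mem_filter] at hw ⊢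
    exact ⟨mem_univ _, hf (by rw [hw.2, hv])⟩
  exact_mod_cast card_le_card this

theorem conc_of_hom {G Q : Type} [Group G] [Group Q] (f : G →* Q) (hK : Conc f.ker)
    (hQ : Conc Q) : Conc G := by
  intro T D ε hε
  obtain ⟨δ₁, hδ₁, h⟩ := hQ (T.image f) D ε hε
  obtain ⟨δ, hδ, h'⟩ := relConc f.ker hK {1} T D ε δ₁ hε hδ₁
  refine ⟨δ, hδ, ?_⟩
  intro V _ _ Gr hG g hg
  obtain ⟨y, hy⟩ := h V Gr hG (fun v => f (g v)) (by
    intro u v huv
    rw [mem_image]
    exact ⟨_, hg u v huv, by simp⟩)
  obtain ⟨v, hv⟩ := fibre_nonempty (g := g) hδ₁ hy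
  refine h' V Gr hG g hg (g v) (hy.trans ?_)
  have : (univ.filter (fun w => f (g w) = y)) ⊆
      univ.filter (fun w => ∃ k ∈ f.ker, ∃ p ∈ ({1} : Finset G), g w = g v * k * p) := by
    intro w hw
    rw [mem_filter] at hw ⊢
    refine ⟨mem_univ _, (g v)⁻¹ * g w, ?_, 1, mem_singleton_self 1, by group⟩
    rw [MonoidHom.mem_ker, map_mul, map_inv, hw.2, hv, inv_mul_cancel]
  exact_mod_cast card_le_card this

theorem conc_ext {G : Type} [Group G] (N : Subgroup G) [N.Normal] (hN : Conc N)
    (hQ : Conc (G ⧸ N)) : Conc G := by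
  refine conc_of_hom (QuotientGroup.mk' N) ?_ hQ
  have h : (QuotientGroup.mk' N).ker = N := QuotientGroup.ker_mk' N
  exact conc_of_injective (Subgroup.inclusion h.le) (Subgroup.inclusion_injective _) hN

theorem conc_prod {G H : Type} [Group G] [Group H] (hG : Conc G) (hH : Conc H) :
    Conc (G × H) := by
  refine conc_of_hom (MonoidHom.fst G H) ?_ hG
  refine conc_of_injective ((MonoidHom.snd G H).comp (MonoidHom.fst G H).ker.subtype) ?_ hH
  rintro ⟨⟨a, b⟩, ha⟩ ⟨⟨a', b'⟩, ha'⟩ h
  have h1 : b = b' := h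
  have h2 : a = 1 := ha
  have h3 : a' = 1 := ha'
  apply Subtype.ext
  simp only [h1, h2, h3]

/-- A subset of an expander that is closed under adjacency is empty or everything. -/
theorem conn {V : Type} [Fintype V] {Gr : SimpleGraph V} {D : ℕ} {ε : ℝ} (hε : 0 < ε)
    (h : IsExp Gr D ε) (P : V → Prop) (hP : ∀ u v, Gr.Adj u v → P u → P v) {v₀ : V} (h₀ : P v₀)
    (v : V) : P v := by
  have hb : ∀ A : Finset V, (∀ u v, Gr.Adj u v → u ∈ A → v ∈ A) → 2 * A.card ≤ Fintype.card V →
      A = ∅ := by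
    intro A hA hc
    have h1 := h.cheeger A hc
    have h2 : bd Gr A = 0 := by
      unfold bd
      rw [card_eq_zero, filter_eq_empty_iff]
      rintro ⟨u, w⟩ _ ⟨h1, h2, h3⟩
      exact h2 (hA _ _ h3 h1)
    rw [h2] at h1
    have h3 : (A.card : ℝ) ≤ 0 := by
      by_contra hcon
      push Not at hcon
      have := mul_pos hε hcon
      push_cast at h1
      linarith
    exact card_eq_zero.mp (by exact_mod_cast le_antisymm h3 (Nat.cast_nonneg _))
  set A : Finset V := univ.filter P with hA
  have hc : A.card + (Aᶜ).card = Fintype.card V := by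
    rw [card_compl]
    have := card_le_univ A
    omega
  by_contra hv
  rcases Nat.lt_or_ge (Aᶜ).card A.card with hlt | hge
  · have h1 := hb Aᶜ (by
      intro u w huw hu
      simp only [hA, mem_compl, mem_filter, mem_univ, true_and] at hu ⊢
      exact fun hw => hu (hP w u huw.symm hw)) (by omega)
    have : v ∈ Aᶜ := by
      simp only [hA, mem_compl, mem_filter, mem_univ, true_and]
      exact hv
    rw [h1] at this
    exact absurd this (notMem_empty _)
  · have h1 := hb A (by
      intro u w huw hu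
      simp only [hA, mem_filter, mem_univ, true_and] at hu ⊢
      exact hP u w huw hu) (by omega)
    have : v₀ ∈ A := by
      simp only [hA, mem_filter, mem_univ, true_and]
      exact h₀
    rw [h1] at this
    exact absurd this (notMem_empty _)

/-- `Conc` is a local property. -/
theorem conc_local {G : Type} [Group G]
    (h : ∀ T : Finset G, ∃ H : Subgroup G, (∀ t ∈ T, t ∈ H) ∧ Conc H) : Conc G := by
  intro T D ε hε
  obtain ⟨H, hT, hH⟩ := h T
  obtain ⟨δ, hδ, hc⟩ := hH (T.preimage H.subtype H.subtype_injective.injOn) D ε hε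
  refine ⟨δ, hδ, ?_⟩
  intro V _ _ Gr hG g hg
  obtain ⟨v₀⟩ : Nonempty V := inferInstance
  have hmem : ∀ v, (g v₀)⁻¹ * g v ∈ H := by
    refine conn hε hG (fun v => (g v₀)⁻¹ * g v ∈ H) ?_ (v₀ := v₀) (by simp)
    intro u v huv hu
    have h1 := hT _ (hg u v huv)
    have : (g v₀)⁻¹ * g v = ((g v₀)⁻¹ * g u) * ((g u)⁻¹ * g v) := by group
    rw [this]
    exact H.mul_mem hu h1
  obtain ⟨y, hy⟩ := hc V Gr hG (fun v => ⟨(g v₀)⁻¹ * g v, hmem v⟩) (by
    intro u v huv
    rw [mem_preimage]
    have : H.subtype ((⟨(g v₀)⁻¹ * g u, hmem u⟩ : H)⁻¹ * ⟨(g v₀)⁻¹ * g v, hmem v⟩) =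
        (g u)⁻¹ * g v := by
      simp only [Subgroup.coe_subtype, Subgroup.coe_mul, Subgroup.coe_inv]
      group
    rw [this]
    exact hg u v huv)
  refine ⟨g v₀ * y, hy.trans ?_⟩
  refine fib_le _ _ _ _ ?_
  intro w hw
  rw [← hw]
  group

theorem conc_finite {G : Type} [Group G] [Finite G] : Conc G := by
  intro T D ε hε
  have : Fintype G := Fintype.ofFinite G
  refine ⟨1 / Fintype.card G, by positivity, ?_⟩
  intro V _ _ Gr hG g hg
  by_contra hcon
  push Not at hcon
  have h1 : (Fintype.card V) = ∑ x : G, (univ.filter (fun v => g v = x)).card :=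
    card_eq_sum_card_fiberwise (fun v _ => mem_univ _)
  have h2 : (Fintype.card V : ℝ) = ∑ x : G, ((univ.filter (fun v => g v = x)).card : ℝ) := by
    exact_mod_cast h1
  have h3 : ∑ x : G, ((univ.filter (fun v => g v = x)).card : ℝ) <
      ∑ x : G, 1 / (Fintype.card G : ℝ) * Fintype.card V :=
    sum_lt_sum_of_nonempty ⟨1, mem_univ _⟩ (fun x _ => hcon x)
  rw [sum_const, nsmul_eq_mul, card_univ] at h3
  have h4 : (0 : ℝ) < Fintype.card G := by exact_mod_cast Fintype.card_pos
  have h5 : (Fintype.card G : ℝ) * (1 / (Fintype.card G : ℝ) * Fintype.card V) =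
      Fintype.card V := by field_simp
  linarith

/-- Cheeger inequality for a partition one of whose parts is small. -/
theorem cheeger_partition {V ι : Type} [Fintype V] {Gr : SimpleGraph V} {D : ℕ} {ε : ℝ}
    (hε : 0 < ε) (h : IsExp Gr D ε) (κ : V → ι) (k₀ : ι) (Z : Finset V)
    (h0 : ∀ v, κ v = k₀ → v ∈ Z)
    (h1 : ∀ k, k ≠ k₀ → ∀ A : Finset V, (∀ v ∈ A, κ v = k) → 2 * A.card ≤ Fintype.card V)
    (h2 : ∀ u v, Gr.Adj u v → κ u ≠ k₀ → κ u ≠ κ v → u ∈ Z) :
    ε * (Fintype.card V : ℝ) ≤ (ε + D) * (Z.card : ℝ) := by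
  set I : Finset ι := (univ.image κ).erase k₀ with hI
  have e1 : (univ.filter (fun v => κ v ≠ k₀)).card =
      ∑ k ∈ I, (univ.filter (fun v => κ v = k)).card := by
    rw [card_eq_sum_card_fiberwise (s := univ.filter (fun v => κ v ≠ k₀)) (t := I) (f := κ)]
    · apply sum_congr rfl
      intro k hk
      congr 1
      ext v
      simp only [mem_filter, mem_univ, true_and]
      constructor
      · exact fun h => h.2
      · intro h
        refine ⟨?_, h⟩
        rw [h]
        exact (mem_erase.mp hk).1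
    · intro v hv
      simp only [hI, coe_filter, mem_univ, true_and, Set.mem_ofPred_eq, mem_coe, mem_erase,
        mem_image, exists_apply_eq_apply, and_true] at hv ⊢
      exact hv
  have e2 : (∑ k ∈ I, bd Gr (univ.filter (fun v => κ v = k))) ≤ D * Z.card := by
    have : (∑ k ∈ I, bd Gr (univ.filter (fun v => κ v = k))) ≤ ed Gr Z univ := by
      unfold bd ed
      rw [← card_biUnion]
      · apply card_le_card
        intro p hp
        simp only [mem_biUnion, mem_filter, mem_univ, true_and] at hp ⊢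
        obtain ⟨k, hk, h3, h4, h5⟩ := hp
        refine ⟨h2 _ _ h5 ?_ ?_, h5⟩
        · rw [h3]; exact (mem_erase.mp hk).1
        · rw [h3]; exact fun h => h4 h.symm
      · intro k _ l _ hkl
        rw [Function.onFun, Finset.disjoint_left]
        intro p hp hp'
        simp only [mem_filter, mem_univ, true_and] at hp hp'
        exact hkl (hp.1.symm.trans hp'.1)
    exact this.trans (ed_le_left h.deg _ _)
  have e3 : ε * ((univ.filter (fun v => κ v ≠ k₀)).card : ℝ) ≤ D * Z.card := by
    have : ε * ((univ.filter (fun v => κ v ≠ k₀)).card : ℝ) ≤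
        ((∑ k ∈ I, bd Gr (univ.filter (fun v => κ v = k)) : ℕ) : ℝ) := by
      rw [e1]
      push_cast
      rw [mul_sum]
      exact sum_le_sum (fun k hk => h.cheeger _ (h1 k (mem_erase.mp hk).1 _
        (fun v hv => (mem_filter.mp hv).2)))
    exact this.trans (by exact_mod_cast e2)
  have e4 : Fintype.card V ≤ (univ.filter (fun v => κ v ≠ k₀)).card + Z.card := by
    rw [← card_univ, ← card_filter_add_card_filter_not (s := univ) (fun v => κ v ≠ k₀)]
    apply Nat.add_le_add_left
    apply card_le_card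
    intro v hv
    simp only [mem_filter, mem_univ, true_and, not_not] at hv
    exact h0 v hv
  have e5 : (Fintype.card V : ℝ) ≤ (univ.filter (fun v => κ v ≠ k₀)).card + Z.card := by
    exact_mod_cast e4
  nlinarith

/-- The branch at `l₀` in which the list `l` lies. -/
noncomputable def branch {α : Type} (l₀ l : List α) : Option (List α) :=
  if l₀ <:+ l then some (l.drop (l.length - (l₀.length + 1))) else none

theorem branch_self {α : Type} (l₀ : List α) : branch l₀ l₀ = some l₀ := by
  unfold branch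
  rw [if_pos (List.suffix_refl _)]
  simp

theorem branch_eq_self {α : Type} {l₀ l : List α} (h : branch l₀ l = some l₀) : l = l₀ := by
  unfold branch at h
  split_ifs at h with hs
  have h1 := Option.some.inj h
  have h2 := congrArg List.length h1
  rw [List.length_drop] at h2
  have h3 := hs.length_le
  exact (hs.eq_of_length (by omega)).symm

theorem branch_suffix {α : Type} {l₀ l k : List α} (h : branch l₀ l = some k) : k <:+ l := by
  unfold branch at h
  split_ifs at h with hs
  rw [← Option.some.inj h]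
  exact List.drop_suffix _ _

theorem branch_length {α : Type} {l₀ l k : List α} (h : branch l₀ l = some k) (hk : k ≠ l₀) :
    k.length = l₀.length + 1 := by
  have hne : l ≠ l₀ := by
    rintro rfl
    rw [branch_self] at h
    exact hk (Option.some.inj h).symm
  unfold branch at h
  split_ifs at h with hs
  rw [← Option.some.inj h, List.length_drop]
  have h3 := hs.length_le
  have h4 : l.length ≠ l₀.length := fun h => hne (hs.eq_of_length h.symm).symm
  omega

theorem branch_cons {α : Type} (l₀ l : List α) (a : α) (h : branch l₀ l ≠ branch l₀ (a :: l)) :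
    l = l₀ ∨ a :: l = l₀ := by
  by_contra hcon
  push Not at hcon
  apply h
  unfold branch
  have h1 : l₀ <:+ a :: l ↔ l₀ <:+ l := by
    rw [List.suffix_cons_iff]
    constructor
    · rintro (h | h)
      · exact absurd h.symm hcon.2
      · exact h
    · exact Or.inr
  by_cases hs : l₀ <:+ l
  · rw [if_pos hs, if_pos (h1.mpr hs)]
    have h3 := hs.length_le
    have h4 : l.length ≠ l₀.length := fun h => hcon.1 (hs.eq_of_length h.symm).symm
    have h5 : (a :: l).length - (l₀.length + 1) = (l.length - (l₀.length + 1)) + 1 := by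
      rw [List.length_cons]; omega
    rw [h5, List.drop_succ_cons]
  · rw [if_neg hs, if_neg (fun h => hs (h1.mp h))]

/-- crossing lemma for a step between a list and its tail -/
theorem branch_step {α : Type} (l₀ l l' : List α)
    (hll : (l' = l.tail ∧ l ≠ []) ∨ (l'.tail = l ∧ l' ≠ []))
    (h : branch l₀ l ≠ branch l₀ l') (h' : branch l₀ l ≠ some l₀) : l' = l₀ := by
  rcases hll with ⟨h1, h2⟩ | ⟨h1, h2⟩
  · obtain ⟨a, m, rfl⟩ := List.exists_cons_of_ne_nil h2
    rw [List.tail_cons] at h1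
    subst h1
    rcases branch_cons l₀ l' a (Ne.symm h) with h3 | h3
    · exact h3
    · rw [h3, branch_self] at h'
      exact absurd rfl h'
  · obtain ⟨a, m, rfl⟩ := List.exists_cons_of_ne_nil h2
    rw [List.tail_cons] at h1
    subst h1
    rcases branch_cons l₀ m a h with h3 | h3
    · rw [h3, branch_self] at h'
      exact absurd rfl h'
    · exact h3

section HNN

open Pool.Agent.Helper270.HNN HNNExtension NormalWord

variable {G : Type} [Group G] {A B : Subgroup G} {φ : A ≃* B}

theorem nf_step (d : TransversalPair G A B) (u : ℤˣ) (g : HNNExtension G A B φ) :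
    (nf d (vt (g * t ^ (u : ℤ))) = (nf d (vt g)).tail ∧ nf d (vt g) ≠ []) ∨
    ((nf d (vt (g * t ^ (u : ℤ)))).tail = nf d (vt g) ∧ nf d (vt (g * t ^ (u : ℤ))) ≠ []) := by
  have e : (g * t ^ (u : ℤ))⁻¹ = t ^ ((-u : ℤˣ) : ℤ) * g⁻¹ := by
    rw [mul_inv_rev, ← zpow_neg]
    simp
  rw [nf_vt, nf_vt, e, nw_t_mul]
  exact tail_cases d (-u) (nw d g⁻¹)

/-- The crossing property. -/
theorem crossing (d : TransversalPair G A B) (s : HNNExtension G A B φ) :
    ∃ P : Finset (HNNExtension G A B φ), ∀ (l₀ : List (ℤˣ × G)) (g : HNNExtension G A B φ),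
      branch l₀ (nf d (vt g)) ≠ branch l₀ (nf d (vt (g * s))) →
      branch l₀ (nf d (vt g)) ≠ some l₀ → ∃ p ∈ P, nf d (vt (g * p)) = l₀ := by
  have hmul : ∀ x y : HNNExtension G A B φ,
      (∃ P : Finset (HNNExtension G A B φ), ∀ (l₀ : List (ℤˣ × G)) (g : HNNExtension G A B φ),
        branch l₀ (nf d (vt g)) ≠ branch l₀ (nf d (vt (g * x))) →
        branch l₀ (nf d (vt g)) ≠ some l₀ → ∃ p ∈ P, nf d (vt (g * p)) = l₀) →
      (∃ P : Finset (HNNExtension G A B φ), ∀ (l₀ : List (ℤˣ × G)) (g : HNNExtension G A B φ),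
        branch l₀ (nf d (vt g)) ≠ branch l₀ (nf d (vt (g * y))) →
        branch l₀ (nf d (vt g)) ≠ some l₀ → ∃ p ∈ P, nf d (vt (g * p)) = l₀) →
      (∃ P : Finset (HNNExtension G A B φ), ∀ (l₀ : List (ℤˣ × G)) (g : HNNExtension G A B φ),
        branch l₀ (nf d (vt g)) ≠ branch l₀ (nf d (vt (g * (x * y)))) →
        branch l₀ (nf d (vt g)) ≠ some l₀ → ∃ p ∈ P, nf d (vt (g * p)) = l₀) := by
    rintro x y ⟨P, hP⟩ ⟨Q, hQ⟩
    refine ⟨P ∪ Q.image (fun q => x * q), ?_⟩
    intro l₀ g h1 h2
    by_cases h3 : branch l₀ (nf d (vt g)) = branch l₀ (nf d (vt (g * x)))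
    · rw [h3] at h1 h2
      rw [← mul_assoc] at h1
      obtain ⟨q, hq, e⟩ := hQ l₀ (g * x) h1 h2
      refine ⟨x * q, mem_union_right _ (mem_image_of_mem _ hq), ?_⟩
      rw [← mul_assoc]
      exact e
    · obtain ⟨p, hp, e⟩ := hP l₀ g h3 h2
      exact ⟨p, mem_union_left _ hp, e⟩
  have ht : ∀ u : ℤˣ, (∃ P : Finset (HNNExtension G A B φ),
      ∀ (l₀ : List (ℤˣ × G)) (g : HNNExtension G A B φ),
        branch l₀ (nf d (vt g)) ≠ branch l₀ (nf d (vt (g * t ^ (u : ℤ)))) →
        branch l₀ (nf d (vt g)) ≠ some l₀ → ∃ p ∈ P, nf d (vt (g * p)) = l₀) := by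
    intro u
    refine ⟨{t ^ (u : ℤ)}, ?_⟩
    intro l₀ g h1 h2
    exact ⟨_, mem_singleton_self _, branch_step l₀ _ _ (nf_step d u g) h1 h2⟩
  induction s using HNNExtension.induction_on with
  | of x =>
    refine ⟨∅, ?_⟩
    intro l₀ g h1
    rw [vt_mul_of] at h1
    exact absurd rfl h1
  | t =>
    have := ht 1
    simpa using this
  | mul x y hx hy => exact hmul x y hx hy
  | inv x hx =>
    obtain ⟨P, hP⟩ := hx
    refine ⟨P.image (fun p => x⁻¹ * p) ∪ {x⁻¹}, ?_⟩
    intro l₀ g h1 h2
    by_cases h3 : branch l₀ (nf d (vt (g * x⁻¹))) = some l₀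
    · exact ⟨x⁻¹, mem_union_right _ (mem_singleton_self _), branch_eq_self h3⟩
    · obtain ⟨p, hp, e⟩ := hP l₀ (g * x⁻¹) (by
        rw [inv_mul_cancel_right]; exact Ne.symm h1) h3
      refine ⟨x⁻¹ * p, mem_union_left _ (mem_image_of_mem _ hp), ?_⟩
      rw [← mul_assoc]
      exact e

end HNN

end Pool.Agent.Helper784WE
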