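import Mathlib
import Pool.Agent.Helper784WE.Spec

/-!
Module E, part 1: combinatorial maps (finite sets of darts with the next-dart map `φ` and the
pairing `α`) with vanishing first cohomology, and the local moves on them.
-/

set_option autoImplicit false

open Finset
open scoped Classical

namespace Pool.Agent.Helper784WE.E

/-- vanishing of the first cohomology (rational coefficients) -/
def Exa (A : Finset ℕ) (φ α : ℕ → ℕ) : Prop :=
  ∀ h f1 : ℕ → ℚ, (∀ d ∈ A, h (α d) = - h d) → (∀ d ∈ A, f1 (φ d) = f1 d + h d) →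
    ∃ f : ℕ → ℚ, ∀ d ∈ A, f (φ d) = f d + h d ∧ f (α d) = f d + h d

/-- combinatorial maps; fixed points of `α` are marked corners -/
structure Raw (A : Finset ℕ) (φ α : ℕ → ℕ) : Prop where
  mφ : ∀ d ∈ A, φ d ∈ A
  inj : ∀ d ∈ A, ∀ d' ∈ A, φ d = φ d' → d = d'
  mα : ∀ d ∈ A, α d ∈ A
  αα : ∀ d ∈ A, α (α d) = d
  ex : Exa A φ α

/-! ### Zip -/

def zφ (φ : ℕ → ℕ) (d : ℕ) (x : ℕ) : ℕ := if φ x = d then φ (φ d) else φ x

def zα (φ α : ℕ → ℕ) (d : ℕ) (x : ℕ) : ℕ :=
  if x = α d then α (φ d) else if x = α (φ d) then α d else α x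

theorem raw_zip {A : Finset ℕ} {φ α : ℕ → ℕ} (R : Raw A φ α) {d : ℕ} (hd : d ∈ A)
    (h1 : φ d ≠ d) (h2 : α d ≠ d) (h3 : α (φ d) ≠ φ d) :
    Raw (A \ {d, φ d}) (zφ φ d) (zα φ α d) := by
  have hφd := R.mφ d hd
  have hφφd := R.mφ _ hφd
  have hαd := R.mα d hd
  have hαφd := R.mα _ hφd
  have hααd := R.αα d hd
  have hααφd := R.αα _ hφd
  have hmem : ∀ x, x ∈ A \ {d, φ d} ↔ x ∈ A ∧ x ≠ d ∧ x ≠ φ d := by
    intro x; simp
  refine ⟨?_, ?_, ?_, ?_, ?_⟩
  · intro x hx
    rw [hmem] at hx ⊢
    have i1 := R.inj x hx.1 d hd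
    have i2 := R.inj _ hφd d hd
    have i3 := R.inj x hx.1 _ hφd
    have i4 := R.mφ x hx.1
    unfold zφ
    grind
  · intro x hx y hy
    rw [hmem] at hx hy
    have i1 := R.inj x hx.1 y hy.1
    have i2 := R.inj x hx.1 _ hφd
    have i3 := R.inj y hy.1 _ hφd
    unfold zφ
    grind
  · intro x hx
    rw [hmem] at hx ⊢
    have i1 := R.mα x hx.1
    have i2 := R.αα x hx.1
    unfold zα
    grind
  · intro x hx
    rw [hmem] at hx
    have i1 := R.mα x hx.1
    have i2 := R.αα x hx.1
    unfold zα
    grind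
  · intro h' f1' hh hf
    set c := α d with hc
    set d' := φ d with hd'
    set c' := α d' with hc'
    set h : ℕ → ℚ := fun x => if x = d then (if c = d' then 0 else - h' c) else
      if x = d' then (if c = d' then 0 else - h' c') else h' x with hdef
    set f1 : ℕ → ℚ := fun x => if x = d then f1' (φ d') else
      if x = d' then f1' (φ d') + h d else f1' x with fdef
    have hcc : c ≠ d' → h' c' = - h' c := by
      intro hne
      have := hh c (by rw [hmem]; grind)
      have e : zα φ α d c = c' := by unfold zα; grind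
      rwa [e] at this
    obtain ⟨f, hff⟩ := R.ex h f1 (by
      intro x hx
      have i1 := R.αα x hx
      have i2 := R.mα x hx
      by_cases hxd : x = d
      · grind
      by_cases hxd' : x = d'
      · grind
      have i3 := hh x (by rw [hmem]; grind)
      unfold zα at i3
      grind) (by
      intro x hx
      have i1 := R.inj x hx d hd
      have i2 := R.inj x hx d' hφd
      by_cases hxd : x = d
      · grind
      by_cases hxd' : x = d'
      · grind
      have i3 := hf x (by rw [hmem]; grind)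
      unfold zφ at i3
      grind)
    refine ⟨f, ?_⟩
    intro x hx
    have hx' := (hmem x).1 hx
    have j1 := hff x hx'.1
    have j2 := hff d hd
    have j3 := hff d' hφd
    have j4 := R.αα x hx'.1
    unfold zφ zα
    grind

/-! ### Deleting an edge -/

def dφ (φ α : ℕ → ℕ) (d : ℕ) (x : ℕ) : ℕ :=
  if φ x = d then (if φ (α d) = α d then φ d else φ (α d))
  else if φ x = α d then (if φ d = d then φ (α d) else φ d) else φ x

theorem raw_del {A : Finset ℕ} {φ α : ℕ → ℕ} (R : Raw A φ α) {d : ℕ} (hd : d ∈ A)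
    (h1 : α d ≠ d) (h2 : φ d ≠ α d) (h3 : φ (α d) ≠ d) :
    Raw (A \ {d, α d}) (dφ φ α d) α := by
  have hφd := R.mφ d hd
  have hαd := R.mα d hd
  have hφαd := R.mφ _ hαd
  have hααd := R.αα d hd
  have hmem : ∀ x, x ∈ A \ {d, α d} ↔ x ∈ A ∧ x ≠ d ∧ x ≠ α d := by
    intro x; simp
  refine ⟨?_, ?_, ?_, ?_, ?_⟩
  · intro x hx
    rw [hmem] at hx ⊢
    have i2 := R.inj x hx.1 d hd
    have i3 := R.inj x hx.1 _ hαd
    have i4 := R.mφ x hx.1
    unfold dφ
    grind
  · intro x hx y hy
    rw [hmem] at hx hy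
    have i1 := R.inj x hx.1 y hy.1
    have i2 := R.inj x hx.1 d hd
    have i3 := R.inj y hy.1 d hd
    have i4 := R.inj x hx.1 _ hαd
    have i5 := R.inj y hy.1 _ hαd
    have i6 := R.inj _ hαd d hd
    unfold dφ
    grind
  · intro x hx
    rw [hmem] at hx ⊢
    have i1 := R.mα x hx.1
    have i2 := R.αα x hx.1
    grind
  · intro x hx
    rw [hmem] at hx
    exact R.αα x hx.1
  · intro h' f1' hh hf
    set c := α d with hc
    set fd : ℚ := if φ c = c then (if φ d = d then 0 else f1' (φ d)) else f1' (φ c) with hfd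
    set fc : ℚ := if φ d = d then (if φ c = c then 0 else f1' (φ c)) else f1' (φ d) with hfc
    set h : ℕ → ℚ := fun x => if x = d then fc - fd else
      if x = c then fd - fc else h' x with hdef
    set f1 : ℕ → ℚ := fun x => if x = d then fd else if x = c then fc else f1' x with fdef
    obtain ⟨f, hff⟩ := R.ex h f1 (by
      intro x hx
      have i1 := R.αα x hx
      have i2 := R.mα x hx
      by_cases hxd : x = d
      · grind
      by_cases hxd' : x = c
      · grind
      have i3 := hh x (by rw [hmem]; grind)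
      grind) (by
      intro x hx
      have i1 := R.inj x hx d hd
      have i2 := R.inj x hx c hαd
      by_cases hxd : x = d
      · grind
      by_cases hxd' : x = c
      · grind
      have i3 := hf x (by rw [hmem]; grind)
      unfold dφ at i3
      grind)
    refine ⟨f, ?_⟩
    intro x hx
    have hx' := (hmem x).1 hx
    have j1 := hff x hx'.1
    have j2 := hff d hd
    have j3 := hff c hαd
    have j4 := R.αα x hx'.1
    unfold dφ
    grind

/-! ### Inserting a spike -/

def iφ (φ : ℕ → ℕ) (e d d' : ℕ) (x : ℕ) : ℕ :=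
  if x = e then d else if x = d then d' else if x = d' then φ e else φ x

def iα (α : ℕ → ℕ) (d d' : ℕ) (x : ℕ) : ℕ := if x = d then d' else if x = d' then d else α x

theorem raw_ins {A : Finset ℕ} {φ α : ℕ → ℕ} (R : Raw A φ α) {e d d' : ℕ} (he : e ∈ A)
    (hd : d ∉ A) (hd' : d' ∉ A) (hdd : d ≠ d') :
    Raw (insert d (insert d' A)) (iφ φ e d d') (iα α d d') := by
  have hφe := R.mφ e he
  have hmem : ∀ x, x ∈ insert d (insert d' A) ↔ x = d ∨ x = d' ∨ x ∈ A := by
    intro x; simp
  refine ⟨?_, ?_, ?_, ?_, ?_⟩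
  · intro x hx
    rw [hmem] at hx ⊢
    have i4 := R.mφ x
    unfold iφ
    grind
  · intro x hx y hy
    rw [hmem] at hx hy
    have i1 := fun hx hy => R.inj x hx y hy
    have i2 := fun hx => R.inj x hx e he
    have i3 := fun hy => R.inj y hy e he
    have i5 := R.mφ x
    have i6 := R.mφ y
    clear hmem
    unfold iφ
    grind
  · intro x hx
    rw [hmem] at hx ⊢
    have i1 := R.mα x
    unfold iα
    grind
  · intro x hx
    rw [hmem] at hx
    have i1 := R.mα x
    have i2 := R.αα x
    unfold iα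
    grind
  · intro h' f1' hh hf
    have a1 := hf e (by simp [he])
    have a2 := hf d (by simp)
    have a3 := hf d' (by simp)
    have a4 := hh d (by simp)
    have a5 := hh d' (by simp)
    obtain ⟨f, hff⟩ := R.ex h' f1' (by
      intro x hx
      have i3 := hh x (by simp [hx])
      unfold iα at i3 a4 a5
      grind) (by
      intro x hx
      have i3 := hf x (by simp [hx])
      unfold iφ at i3 a1 a2 a3
      unfold iα at a4 a5
      grind)
    refine ⟨fun x => if x = d then f e + h' e else if x = d' then f e + h' e + h' d else f x, ?_⟩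
    intro x hx
    rw [hmem] at hx
    have j1 := hff x
    have j2 := hff e he
    have j3 := R.mφ x
    have j4 := R.mα x
    unfold iφ iα
    unfold iφ at a1 a2 a3
    unfold iα at a4 a5
    grind

/-! ### Removing an isolated marked corner -/

theorem raw_rmb {A : Finset ℕ} {φ α : ℕ → ℕ} (R : Raw A φ α) {b : ℕ} (hb : b ∈ A)
    (h1 : φ b = b) (h2 : α b = b) : Raw (A.erase b) φ α := by
  have hmem : ∀ x, x ∈ A.erase b ↔ x ≠ b ∧ x ∈ A := by
    intro x; simp
  refine ⟨?_, ?_, ?_, ?_, ?_⟩
  · intro x hx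
    rw [hmem] at hx ⊢
    have i4 := R.mφ x hx.2
    have i5 := R.inj x hx.2 b hb
    grind
  · intro x hx y hy
    rw [hmem] at hx hy
    exact R.inj x hx.2 y hy.2
  · intro x hx
    rw [hmem] at hx ⊢
    have i1 := R.mα x hx.2
    have i2 := R.αα x hx.2
    grind
  · intro x hx
    rw [hmem] at hx
    exact R.αα x hx.2
  · intro h' f1' hh hf
    obtain ⟨f, hff⟩ := R.ex (fun x => if x = b then 0 else h' x) f1' (by
      intro x hx
      have i3 := hh x
      have i4 := R.αα x hx
      rw [hmem] at i3
      grind) (by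
      intro x hx
      have i3 := hf x
      rw [hmem] at i3
      grind)
    refine ⟨f, ?_⟩
    intro x hx
    rw [hmem] at hx
    have j1 := hff x hx.2
    grind

end Pool.Agent.Helper784WE.E
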