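import Mathlib
import Pool.Agent.Helper784WE.E1

/-!
Module E, part 2: paths of darts, cutting a face, positions along a path.
-/

set_option autoImplicit false

open Finset
open scoped Classical

namespace Pool.Agent.Helper784WE.E

/-- starting at `x`, the next-dart map runs through the list and arrives at `y` -/
def Pa (φ : ℕ → ℕ) : ℕ → List ℕ → ℕ → Prop
  | x, [], y => x = y
  | x, d :: H, y => x = d ∧ Pa φ (φ d) H y

theorem pa_append (φ : ℕ → ℕ) (x y : ℕ) (H1 H2 : List ℕ) :
    Pa φ x (H1 ++ H2) y ↔ ∃ z, Pa φ x H1 z ∧ Pa φ z H2 y := by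
  induction H1 generalizing x with
  | nil => simp [Pa]
  | cons c H ih =>
    simp only [List.cons_append, Pa, ih]
    constructor
    · rintro ⟨h1, z, h2, h3⟩
      exact ⟨z, ⟨h1, h2⟩, h3⟩
    · rintro ⟨z, ⟨h1, h2⟩, h3⟩
      exact ⟨h1, z, h2, h3⟩

theorem pa_congr {φ φ' : ℕ → ℕ} {x y : ℕ} {H : List ℕ} (h : Pa φ x H y)
    (hc : ∀ z ∈ H, φ' z = φ z) : Pa φ' x H y := by
  induction H generalizing x with
  | nil => exact h
  | cons c H ih =>
    obtain ⟨h1, h2⟩ := h
    refine ⟨h1, ?_⟩
    rw [hc c (by simp)]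
    exact ih h2 (fun z hz => hc z (by simp [hz]))

theorem pa_mem {A : Finset ℕ} {φ : ℕ → ℕ} (hm : ∀ d ∈ A, φ d ∈ A) {x y : ℕ} {H : List ℕ}
    (h : Pa φ x H y) (hx : x ∈ A) : ∀ z ∈ H, z ∈ A := by
  induction H generalizing x with
  | nil => simp
  | cons c H ih =>
    obtain ⟨h1, h2⟩ := h
    subst h1
    intro z hz
    rcases List.mem_cons.1 hz with h | h
    · rw [h]; exact hx
    · exact ih h2 (hm _ hx) z h

/-- telescoping along a path -/
theorem pa_tele {φ : ℕ → ℕ} {f h : ℕ → ℚ} {x y : ℕ} {H : List ℕ} (hp : Pa φ x H y)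
    (hc : ∀ z ∈ H, f (φ z) = f z + h z) : f y = f x + (H.map h).sum := by
  induction H generalizing x with
  | nil => simp only [Pa] at hp; simp [hp]
  | cons c H ih =>
    obtain ⟨h1, h2⟩ := hp
    subst h1
    rw [ih h2 (fun z hz => hc z (by simp [hz])), hc x (by simp)]
    simp only [List.map_cons, List.sum_cons]
    ring

/-- the last dart of a path, and modification of the map at it -/
theorem pa_last {φ : ℕ → ℕ} {b z : ℕ} {H : List ℕ} (hnd : (b :: H).Nodup)
    (h : Pa φ (φ b) H z) :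
    ∃ e ∈ b :: H, φ e = z ∧ (∀ x ∈ b :: H, x ≠ e → φ x ∈ H) ∧ (H ≠ [] → e ∈ H) ∧
      ∀ φ' : ℕ → ℕ, ∀ z', (∀ x ∈ b :: H, x ≠ e → φ' x = φ x) → φ' e = z' →
      Pa φ' (φ' b) H z' := by
  induction H generalizing b with
  | nil =>
    refine ⟨b, by simp, h, ?_, by simp, ?_⟩
    · intro x hx hne
      simp only [List.mem_singleton] at hx
      exact absurd hx hne
    · intro φ' z' _ h2
      exact h2
  | cons c H ih =>
    obtain ⟨h1, h2⟩ := h
    obtain ⟨e, he, h3, h4, h5, h6⟩ := ih (List.nodup_cons.1 hnd).2 h2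
    have hbe : b ≠ e := by
      rintro rfl
      exact (List.nodup_cons.1 hnd).1 he
    refine ⟨e, List.mem_cons_of_mem _ he, h3, ?_, fun _ => he, ?_⟩
    · intro x hx hne
      rcases List.mem_cons.1 hx with h | h
      · rw [h, h1]; simp
      · exact List.mem_cons_of_mem _ (h4 x h hne)
    · intro φ' z' h7 h8
      refine ⟨?_, ?_⟩
      · rw [h7 b (by simp) hbe, h1]
      · exact h6 φ' z' (fun x hx hne => h7 x (List.mem_cons_of_mem _ hx) hne) h8

/-! ### Cutting a face off -/

def cφ (φ : ℕ → ℕ) (e z : ℕ) (x : ℕ) : ℕ :=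
  if x = e then φ z else if x = z then φ e else φ x

theorem raw_cut {A : Finset ℕ} {φ α : ℕ → ℕ} (R : Raw A φ α) {e z : ℕ} {Hu : List ℕ}
    (he : e ∈ A) (hz : z ∈ Hu) (heu : e ∉ Hu) (hu : ∀ x ∈ Hu, x ∈ A)
    (hn : ∀ x ∈ Hu, x ≠ z → φ x ∈ Hu)
    (hp : Pa φ (φ e) Hu (φ z)) (hp' : Pa (cφ φ e z) (φ e) Hu (φ e)) (hφe : φ e ∈ Hu)
    (hout : ∀ x ∈ A, x ∉ Hu → x ≠ e → φ x ∉ Hu) (hφz : φ z ∉ Hu) :
    Raw A (cφ φ e z) α := by
  have hzA := hu z hz
  have hez : e ≠ z := by rintro rfl; exact heu hz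
  refine ⟨?_, ?_, R.mα, R.αα, ?_⟩
  · intro x hx
    have i1 := R.mφ x hx
    have i2 := R.mφ e he
    have i3 := R.mφ z hzA
    unfold cφ
    grind
  · intro x hx y hy
    have i1 := R.inj x hx y hy
    have i2 := R.inj x hx e he
    have i3 := R.inj x hx z hzA
    have i4 := R.inj y hy e he
    have i5 := R.inj y hy z hzA
    have i6 := R.inj e he z hzA
    unfold cφ
    grind
  · intro h f1' hh hf
    -- the sum over the new face vanishes
    have hs : (Hu.map h).sum = 0 := by
      have := pa_tele (f := f1') (h := h) hp' (fun x hx => hf x (hu x hx))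
      linarith
    set κ : ℚ := f1' e + h e - f1' (φ e) with hκ
    have ae := hf e he
    have az := hf z hzA
    have e1 : cφ φ e z e = φ z := by simp [cφ]
    have e2 : cφ φ e z z = φ e := by unfold cφ; grind
    rw [e1] at ae
    rw [e2] at az
    obtain ⟨f, hff⟩ := R.ex h (fun x => if x ∈ Hu then f1' x + κ else f1' x) hh (by
      intro x hx
      have i1 := hf x hx
      unfold cφ at i1
      have i2 := hout x hx
      have i3 := hn x
      by_cases hxe : x = e
      · subst hxe
        simp only [hφe, if_true, heu, if_false]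
        rw [hκ]; ring
      by_cases hxz : x = z
      · subst hxz
        simp only [hφz, if_false, hz, if_true]
        rw [hκ, ae]; linarith
      rw [if_neg hxe, if_neg hxz] at i1
      by_cases hxu : x ∈ Hu
      · simp only [hxu, if_true, i3 hxu hxz, i1]; ring
      · simp only [hxu, if_false, i2 hxu hxe, i1])
    have ht : f (φ z) = f (φ e) := by
      have := pa_tele (f := f) (h := h) hp (fun x hx => (hff x (hu x hx)).1)
      rw [hs] at this
      linarith
    refine ⟨f, fun x hx => ⟨?_, (hff x hx).2⟩⟩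
    have j1 := (hff x hx).1
    unfold cφ
    by_cases hxe : x = e
    · subst hxe
      simp only [if_true]
      rw [ht]; exact j1
    by_cases hxz : x = z
    · subst hxz
      simp only [hxe, if_false, if_true]
      rw [← ht]; exact j1
    simp only [hxe, hxz, if_false]
    exact j1

end Pool.Agent.Helper784WE.E
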