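import Mathlib
import Pool.Agent.Helper784WE.E2

/-!
Module E, part 3: diagrams with a hole, and the words around the hole.
-/

set_option autoImplicit false

open Finset
open scoped Classical

namespace Pool.Agent.Helper784WE.E

variable {S V : Type}

/-- the inverse letter -/
def iv (a : S × Bool) : S × Bool := (a.1, !a.2)

@[simp] theorem iv_iv (a : S × Bool) : iv (iv a) = a := by simp [iv]

theorem iv_ne (a : S × Bool) : iv a ≠ a := by
  intro h
  have := congrArg Prod.snd h
  simp [iv] at this

theorem step_iv {X : LG S V} {x y : V} {a : S × Bool} : X.Step x a y ↔ X.Step y (iv a) x := by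
  rcases a with ⟨s, b⟩
  cases b <;> simp [LG.Step, iv]

theorem step_det {X : LG S V} {x y y' : V} {a : S × Bool} (h : X.Step x a y)
    (h' : X.Step x a y') : y = y' := by
  rcases a with ⟨s, b⟩
  cases b
  · simp only [LG.Step] at h h'
    exact X.codet h h'
  · simp only [LG.Step] at h h'
    exact X.det h h'

theorem step_codet {X : LG S V} {x x' y : V} {a : S × Bool} (h : X.Step x a y)
    (h' : X.Step x' a y) : x = x' :=
  step_det (step_iv.1 h) (step_iv.1 h')

/-- positions along a path of darts -/
theorem pos_path {X : LG S V} {φ : ℕ → ℕ} {l : ℕ → S × Bool} {c t : ℕ} {H : List ℕ}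
    (hnd : (c :: H).Nodup) (hp : Pa φ (φ c) H t) (pos : ℕ → V) {x0 x1 : V}
    (hr : X.Reads x0 ((c :: H).map l) x1) :
    ∃ pos' : ℕ → V, (∀ y, y ∉ c :: H → pos' y = pos y) ∧ pos' c = x0 ∧
      ∃ z ∈ c :: H, φ z = t ∧ X.Step (pos' z) (l z) x1 ∧
        ∀ y ∈ c :: H, y ≠ z → φ y ∈ H ∧ X.Step (pos' y) (l y) (pos' (φ y)) := by
  induction H generalizing c x0 with
  | nil =>
    simp only [List.map_cons, List.map_nil] at hr
    cases hr with
    | cons h1 h2 =>
      cases h2
      refine ⟨Function.update pos c x0, ?_, by simp, c, by simp, hp, by simpa using h1, ?_⟩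
      · intro y hy
        simp only [List.mem_singleton] at hy
        simp [hy]
      · intro y hy hne
        simp only [List.mem_singleton] at hy
        exact absurd hy hne
  | cons c' H ih =>
    obtain ⟨h1, h2⟩ := hp
    simp only [List.map_cons] at hr
    cases hr with
    | cons h3 h4 =>
      rename_i y0
      have hnd' := (List.nodup_cons.1 hnd).2
      have hc := (List.nodup_cons.1 hnd).1
      obtain ⟨p, p1, p2, z, p3, p4, p5, p6⟩ := ih hnd' h2 (by simpa using h4)
      have hzc : z ≠ c := by rintro rfl; exact hc p3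
      have hcc : c' ≠ c := by rintro rfl; simp at hc
      refine ⟨Function.update p c x0, ?_, by simp, z, List.mem_cons_of_mem _ p3, p4, ?_, ?_⟩
      · intro y hy
        have hyc : y ≠ c := by rintro rfl; simp at hy
        rw [Function.update_of_ne hyc]
        exact p1 y (fun hy' => hy (List.mem_cons_of_mem _ hy'))
      · rw [Function.update_of_ne hzc]; exact p5
      · intro y hy hne
        rcases List.mem_cons.1 hy with h | h
        · subst h
          rw [h1]
          refine ⟨by simp, ?_⟩
          rw [Function.update_of_ne hcc, Function.update_self, p2]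
          exact h3
        · obtain ⟨q1, q2⟩ := p6 y h hne
          refine ⟨List.mem_cons_of_mem _ q1, ?_⟩
          have hyc : y ≠ c := by rintro rfl; exact hc h
          have hfc : φ y ≠ c := by
            intro hh
            rw [hh] at q1
            exact hc (List.mem_cons_of_mem _ q1)
          rw [Function.update_of_ne hyc, Function.update_of_ne hfc]
          exact q2

/-- A diagram with a hole; the hole is the face of the marked corner `b`. -/
structure Hole (X : LG S V) (A : Finset ℕ) (φ α : ℕ → ℕ) (l : ℕ → S × Bool) (pos : ℕ → V)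
    (b : ℕ) (H : List ℕ) : Prop where
  raw : Raw A φ α
  bA : b ∈ A
  αb : α b = b
  αne : ∀ d ∈ A, d ≠ b → α d ≠ d
  lα : ∀ d ∈ A, d ≠ b → l (α d) = iv (l d)
  nd : (b :: H).Nodup
  pa : Pa φ (φ b) H b
  reg : ∀ d ∈ A, d ∉ b :: H → X.Step (pos d) (l d) (pos (φ d))

/-- the words around the holes -/
def W (X : LG S V) (w : List (S × Bool)) : Prop :=
  ∃ A φ α l pos b H, Hole X A φ α l pos b H ∧ H.map l = w

theorem w_nil (X : LG S V) (x : V) (s : S × Bool) : W X [] := by
  refine ⟨{0}, id, id, fun _ => s, fun _ => x, 0, [], ⟨⟨by simp, by simp, by simp, by simp, ?_⟩,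
    by simp, rfl, by simp, by simp, by simp, rfl, by simp⟩, rfl⟩
  intro h f1 h1 h2
  refine ⟨fun _ => 0, ?_⟩
  intro d hd
  have a1 := h1 d hd
  simp only [id] at a1
  have : h d = 0 := by linarith
  simp [this]

theorem w_ins {X : LG S V} {w1 w2 : List (S × Bool)} (a : S × Bool) (h : W X (w1 ++ w2)) :
    W X (w1 ++ a :: iv a :: w2) := by
  obtain ⟨A, φ, α, l, pos, b, H, hh, hm⟩ := h
  obtain ⟨H1, H2, rfl, rfl, rfl⟩ := List.map_eq_append_iff.1 hm
  obtain ⟨d, hd⟩ := Infinite.exists_notMem_finset A
  obtain ⟨d', hd'⟩ := Infinite.exists_notMem_finset (insert d A)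
  simp only [mem_insert, not_or] at hd'
  obtain ⟨hdd, hd'A⟩ := hd'
  have hpa := hh.pa
  rw [pa_append] at hpa
  obtain ⟨z, hz1, hz2⟩ := hpa
  have hHA : ∀ x ∈ b :: (H1 ++ H2), x ∈ A := by
    intro x hx
    rcases List.mem_cons.1 hx with h | h
    · rw [h]; exact hh.bA
    · exact pa_mem hh.raw.mφ hh.pa (hh.raw.mφ _ hh.bA) x h
  have hnd : (b :: H1).Nodup ∧ H2.Nodup ∧ ∀ x ∈ b :: H1, x ∉ H2 := by
    have := hh.nd
    rw [← List.cons_append, List.nodup_append] at this
    refine ⟨this.1, this.2.1, ?_⟩
    intro x hx hx2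
    exact this.2.2 x hx x hx2 rfl
  obtain ⟨e, he, he1, he2, he3, he4⟩ := pa_last hnd.1 hz1
  have heA : e ∈ A := hHA e (by
    rcases List.mem_cons.1 he with h | h
    · simp [h]
    · simp [h])
  have hR := raw_ins hh.raw heA hd hd'A (Ne.symm hdd)
  have hbd : b ≠ d := by rintro rfl; exact hd hh.bA
  have hbd' : b ≠ d' := by rintro rfl; exact hd'A hh.bA
  have hed : e ≠ d := by rintro rfl; exact hd heA
  have hed' : e ≠ d' := by rintro rfl; exact hd'A heA
  refine ⟨insert d (insert d' A), iφ φ e d d', iα α d d',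
    fun x => if x = d then a else if x = d' then iv a else l x, pos, b, H1 ++ d :: d' :: H2,
    ⟨hR, by simp [hh.bA], ?_, ?_, ?_, ?_, ?_, ?_⟩, ?_⟩
  · simp [iα, hbd, hbd', hh.αb]
  · intro x hx hxb
    simp only [mem_insert] at hx
    have := hh.αne x
    unfold iα
    grind
  · intro x hx hxb
    simp only [mem_insert] at hx
    have h1 := hh.lα x
    have h2 := hh.raw.mα x
    have h3 := iv_iv a
    unfold iα
    grind
  · have h1 : d ∉ b :: (H1 ++ H2) := fun h => hd (hHA d h)
    have h2 : d' ∉ b :: (H1 ++ H2) := fun h => hd'A (hHA d' h)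
    have h3 := hh.nd
    simp only [List.nodup_cons, List.nodup_append, List.mem_cons, List.mem_append, not_or] at *
    grind
  · rw [pa_append]
    refine ⟨d, he4 _ _ ?_ ?_, rfl, ?_⟩
    · intro x hx hxe
      have hxA := hHA x (by
        rcases List.mem_cons.1 hx with h | h
        · simp [h]
        · simp [h])
      unfold iφ
      grind
    · simp [iφ]
    · have e1 : iφ φ e d d' d = d' := by unfold iφ; grind
      have e2 : iφ φ e d d' d' = φ e := by unfold iφ; grind
      rw [e1]
      refine ⟨rfl, ?_⟩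
      rw [e2, he1]
      refine pa_congr hz2 ?_
      intro x hx
      have hxA := hHA x (by simp [hx])
      have hxe : x ≠ e := by rintro rfl; exact hnd.2.2 _ he hx
      unfold iφ
      grind
  · intro x hx hxH
    simp only [mem_insert] at hx
    simp only [List.mem_cons, List.mem_append, not_or] at hxH
    have hxA : x ∈ A := by tauto
    have hxe : x ≠ e := by
      rintro rfl
      rcases List.mem_cons.1 he with h | h
      · exact hxH.1 h
      · exact hxH.2.1 h
    have := hh.reg x hxA (by simp only [List.mem_cons, List.mem_append, not_or]; tauto)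
    have e1 : iφ φ e d d' x = φ x := by unfold iφ; grind
    rw [e1]
    simp only [hxH.2.2.1, hxH.2.2.2.1, if_false]
    exact this
  · have e1 : ∀ x ∈ H1 ++ H2, (if x = d then a else if x = d' then iv a else l x) = l x := by
      intro x hx
      have hxA := hHA x (List.mem_cons_of_mem _ hx)
      grind
    rw [List.map_append, List.map_cons, List.map_cons]
    congr 1
    · exact List.map_congr_left (fun x hx => e1 x (by simp [hx]))
    · congr 1
      · simp
      · congr 1
        · simp [hdd]
        · exact List.map_congr_left (fun x hx => e1 x (by simp [hx]))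

theorem w_zip {X : LG S V} {w1 w2 : List (S × Bool)} (a : S × Bool)
    (h : W X (w1 ++ a :: iv a :: w2)) : W X (w1 ++ w2) := by
  obtain ⟨A, φ, α, l, pos, b, H, hh, hm⟩ := h
  obtain ⟨H1, H2', rfl, rfl, hm2⟩ := List.map_eq_append_iff.1 hm
  obtain ⟨d, H2'', rfl, hla, hm3⟩ := List.map_eq_cons_iff.1 hm2
  obtain ⟨d', H2, rfl, hla', rfl⟩ := List.map_eq_cons_iff.1 hm3
  have hpa := hh.pa
  rw [pa_append] at hpa
  obtain ⟨z, hz1, hz2, hz3, hz4⟩ := hpa
  subst hz2
  subst hz3
  have hHA : ∀ x ∈ b :: (H1 ++ z :: φ z :: H2), x ∈ A := by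
    intro x hx
    rcases List.mem_cons.1 hx with h | h
    · rw [h]; exact hh.bA
    · exact pa_mem hh.raw.mφ hh.pa (hh.raw.mφ _ hh.bA) x h
  have hnd : (b :: H1).Nodup ∧ H2.Nodup ∧ (∀ x ∈ b :: H1, x ∉ H2) ∧ z ∉ b :: H1 ∧ z ∉ H2 ∧
      φ z ∉ b :: H1 ∧ φ z ∉ H2 ∧ φ z ≠ z := by
    have := hh.nd
    rw [← List.cons_append, List.nodup_append] at this
    obtain ⟨t1, t2, t3⟩ := this
    simp only [List.nodup_cons] at t2
    refine ⟨t1, t2.2.2, ?_, ?_, ?_, ?_, t2.2.1, ?_⟩
    · intro x hx hx2
      exact t3 x hx x (by simp [hx2]) rfl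
    · intro hx
      exact t3 z hx z (by simp) rfl
    · intro hx
      exact t2.1 (by simp [hx])
    · intro hx
      exact t3 _ hx (φ z) (by simp) rfl
    · intro hx
      apply t2.1
      rw [hx]; simp
  obtain ⟨n1, n2, n3, n4, n5, n6, n7, n8⟩ := hnd
  obtain ⟨e, he, he1, he2, he3, he4⟩ := pa_last n1 hz1
  have hzA : z ∈ A := hHA z (by simp)
  have hz'A : φ z ∈ A := hHA (φ z) (by simp)
  have hbz : z ≠ b := by rintro rfl; simp at n4
  have hbz' : φ z ≠ b := by intro h; rw [h] at n6; simp at n6
  have heA : e ∈ A := hHA e (by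
    rcases List.mem_cons.1 he with h | h
    · simp [h]
    · simp [h])
  have hR := raw_zip hh.raw hzA n8 (hh.αne z hzA hbz) (hh.αne _ hz'A hbz')
  have hlz : l (φ z) = iv (l z) := by rw [hla, hla']
  have hααz := hh.raw.αα z hzA
  have hααz' := hh.raw.αα _ hz'A
  have hαb := hh.αb
  refine ⟨A \ {z, φ z}, zφ φ z, zα φ α z, l, pos, b, H1 ++ H2,
    ⟨hR, ?_, ?_, ?_, ?_, ?_, ?_, ?_⟩, by simp⟩
  · simp only [mem_sdiff, mem_insert, mem_singleton, not_or]
    exact ⟨hh.bA, Ne.symm hbz, Ne.symm hbz'⟩
  · unfold zα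
    grind
  · intro x hx hxb
    simp only [mem_sdiff, mem_insert, mem_singleton, not_or] at hx
    have h1 := hh.αne x hx.1 hxb
    unfold zα
    grind
  · intro x hx hxb
    simp only [mem_sdiff, mem_insert, mem_singleton, not_or] at hx
    have h1 := hh.lα x hx.1 hxb
    have h2 := hh.lα z hzA hbz
    have h3 := hh.lα _ hz'A hbz'
    have h4 := iv_iv (l z)
    have h5 := iv_iv (l (φ z))
    unfold zα
    grind
  · rw [← List.cons_append, List.nodup_append]
    refine ⟨n1, n2, ?_⟩
    rintro x hx y hy rfl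
    exact n3 x hx hy
  · rw [pa_append]
    refine ⟨φ (φ z), he4 _ _ ?_ ?_, ?_⟩
    · intro x hx hxe
      have hxA := hHA x (by
        rcases List.mem_cons.1 hx with h | h
        · simp [h]
        · simp [h])
      have := hh.raw.inj x hxA e heA
      unfold zφ
      grind
    · simp [zφ, he1]
    · refine pa_congr hz4 ?_
      intro x hx
      have hxA := hHA x (by simp [hx])
      have hxe : x ≠ e := by rintro rfl; exact n3 _ he hx
      have := hh.raw.inj x hxA e heA
      unfold zφ
      grind
  · intro x hx hxH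
    simp only [mem_sdiff, mem_insert, mem_singleton, not_or] at hx
    simp only [List.mem_cons, List.mem_append, not_or] at hxH
    have hxe : x ≠ e := by
      rintro rfl
      rcases List.mem_cons.1 he with h | h
      · exact hxH.1 h
      · exact hxH.2.1 h
    have h1 := hh.reg x hx.1 (by
      simp only [List.mem_cons, List.mem_append, not_or]; tauto)
    have h2 := hh.raw.inj x hx.1 e heA
    have e1 : zφ φ z x = φ x := by unfold zφ; grind
    rw [e1]
    exact h1

end Pool.Agent.Helper784WE.E
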