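import Mathlib
import Pool.Agent.Helper784WE.E3

/-!
Module E, part 4: cutting off a face with given positions; the words around the holes contain
the normal closure.
-/

set_option autoImplicit false

open Finset
open scoped Classical

namespace Pool.Agent.Helper784WE.E

variable {S V : Type}

theorem cut_main {X : LG S V} {A : Finset ℕ} {φ α : ℕ → ℕ} {l : ℕ → S × Bool} {pos : ℕ → V}
    {b : ℕ} {H1 Hu H2 : List ℕ} (hh : Hole X A φ α l pos b (H1 ++ Hu ++ H2)) (hu0 : Hu ≠ [])
    {x0 x1 : V} (hr : X.Reads x0 (Hu.map l) x1) :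
    ∃ (φ' : ℕ → ℕ) (pos' : ℕ → V) (z : ℕ), Raw A φ' α ∧ Pa φ' (φ' b) (H1 ++ H2) b ∧
      z ∈ Hu ∧ X.Step (pos' z) (l z) x1 ∧ pos' (φ' z) = x0 ∧
      ∀ d ∈ A, d ∉ b :: (H1 ++ H2) → d ≠ z → X.Step (pos' d) (l d) (pos' (φ' d)) := by
  have hpa := hh.pa
  rw [pa_append, ] at hpa
  obtain ⟨t, hpa1, ht2⟩ := hpa
  rw [pa_append] at hpa1
  obtain ⟨s, hs1, hs2⟩ := hpa1
  have hHA : ∀ x ∈ b :: (H1 ++ Hu ++ H2), x ∈ A := by
    intro x hx
    rcases List.mem_cons.1 hx with h | h
    · rw [h]; exact hh.bA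
    · exact pa_mem hh.raw.mφ hh.pa (hh.raw.mφ _ hh.bA) x h
  obtain ⟨c, Hc, rfl⟩ := List.exists_cons_of_ne_nil hu0
  obtain ⟨rfl, hs3⟩ := hs2
  have hnd : (b :: H1).Nodup ∧ (s :: Hc).Nodup ∧ H2.Nodup ∧ (∀ x ∈ b :: H1, x ∉ H2) ∧
      (∀ x ∈ b :: H1, x ∉ s :: Hc) ∧ (∀ x ∈ s :: Hc, x ∉ H2) := by
    have := hh.nd
    rw [← List.cons_append, ← List.cons_append, List.nodup_append, List.nodup_append] at this
    obtain ⟨⟨t1, t2, t3⟩, t4, t5⟩ := this
    refine ⟨t1, t2, t4, ?_, ?_, ?_⟩
    · intro x hx hx2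
      exact t5 x (List.mem_append_left _ hx) x hx2 rfl
    · intro x hx hx2
      exact t3 x hx x hx2 rfl
    · intro x hx hx2
      exact t5 x (List.mem_append_right _ hx) x hx2 rfl
  obtain ⟨n1, n2, n3, n4, n5, n6⟩ := hnd
  obtain ⟨e, he, he1, he2, he3, he4⟩ := pa_last n1 hs1
  obtain ⟨z, hz, hz1, hz2, hz3, hz4⟩ := pa_last n2 hs3
  have heA : e ∈ A := hHA e (by
    rcases List.mem_cons.1 he with h | h
    · simp [h]
    · simp [h])
  have huA : ∀ x ∈ s :: Hc, x ∈ A := fun x hx => hHA x (by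
    simp only [List.mem_cons, List.mem_append] at hx ⊢; tauto)
  have hzA := huA z hz
  have heu : e ∉ s :: Hc := n5 e he
  have hez : e ≠ z := by rintro rfl; exact heu hz
  have hsA : s ∈ A := huA s (by simp)
  -- the new face
  have hp' : Pa (cφ φ e z) (cφ φ e z s) Hc s := by
    refine hz4 _ _ ?_ ?_
    · intro x hx hxz
      have hxe : x ≠ e := by rintro rfl; exact heu hx
      simp [cφ, hxe, hxz]
    · simp [cφ, hez.symm, he1]
  have hp'' : Pa (cφ φ e z) (φ e) (s :: Hc) (φ e) := by
    rw [he1]; exact ⟨rfl, hp'⟩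
  have hout : ∀ x ∈ A, x ∉ s :: Hc → x ≠ e → φ x ∉ s :: Hc := by
    -- every element of the face is the image of `e` or of an element of the face
    have key : ∀ (L : List ℕ) (y t' : ℕ), Pa φ (φ y) L t' → ∀ x ∈ L, ∃ x' ∈ y :: L, φ x' = x := by
      intro L
      induction L with
      | nil => simp
      | cons c L ih =>
        rintro y t' ⟨h1, h2⟩ x hx
        rcases List.mem_cons.1 hx with h | h
        · exact ⟨y, by simp, by rw [h1, h]⟩
        · obtain ⟨x', hx', hx''⟩ := ih c t' h2 x h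
          exact ⟨x', List.mem_cons_of_mem _ hx', hx''⟩
    intro x hx hxu hxe hφ
    obtain ⟨x', hx', hx''⟩ := key (s :: Hc) e t (by rw [he1]; exact ⟨rfl, hs3⟩) (φ x) hφ
    rcases List.mem_cons.1 hx' with h | h
    · subst h
      exact hxe (hh.raw.inj x hx _ heA hx''.symm)
    · have := hh.raw.inj x hx _ (huA x' h) hx''.symm
      subst this
      exact hxu h
  have hφz : φ z ∉ s :: Hc := by
    rw [hz1]
    cases H2 with
    | nil =>
      have : t = b := ht2
      rw [this]
      intro h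
      exact n5 b (by simp) h
    | cons c2 H2 =>
      have : t = c2 := ht2.1
      rw [this]
      intro h
      exact n6 _ h (by simp)
  have hR := raw_cut hh.raw heA hz heu huA
    (fun x hx hxz => List.mem_cons_of_mem _ (hz2 x hx hxz))
    (by rw [he1, hz1]; exact ⟨rfl, hs3⟩) hp'' (by rw [he1]; simp) hout hφz
  obtain ⟨pos', q1, q2, z', q3, q4, q5, q6⟩ := pos_path n2 hp' pos hr
  have hzz : z' = z := by
    refine hR.inj z' (huA z' q3) z hzA ?_
    rw [q4]
    simp [cφ, hez.symm, he1]
  subst hzz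
  refine ⟨cφ φ e z', pos', z', hR, ?_, q3, q5, by rw [q4, q2], ?_⟩
  · rw [pa_append]
    refine ⟨t, he4 _ _ ?_ ?_, ?_⟩
    · intro x hx hxe
      have hxz : x ≠ z' := by rintro rfl; exact n5 _ hx hz
      simp [cφ, hxe, hxz]
    · simp [cφ, hz1]
    · refine pa_congr ht2 ?_
      intro x hx
      have hxe : x ≠ e := by rintro rfl; exact n4 _ he hx
      have hxz : x ≠ z' := by rintro rfl; exact n6 _ hz hx
      simp [cφ, hxe, hxz]
  · intro d hd hdH hdz
    by_cases hdu : d ∈ s :: Hc
    · exact (q6 d hdu hdz).2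
    · have hde : d ≠ e := by
        rintro rfl
        apply hdH
        simp only [List.mem_cons, List.mem_append] at he ⊢
        tauto
      have e1 : cφ φ e z' d = φ d := by simp [cφ, hde, hdz]
      rw [e1, q1 d hdu, q1 (φ d) (hout d hd hdu hde)]
      refine hh.reg d hd ?_
      simp only [List.mem_cons, List.mem_append, not_or] at hdH hdu ⊢
      tauto

theorem w_cut {X : LG S V} {w1 u w2 : List (S × Bool)} (hu : X.Closed u)
    (h : W X (w1 ++ u ++ w2)) : W X (w1 ++ w2) := by
  by_cases hu0 : u = []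
  · subst hu0; simpa using h
  obtain ⟨A, φ, α, l, pos, b, H, hh, hm⟩ := h
  obtain ⟨H', H2, rfl, hm1, rfl⟩ := List.map_eq_append_iff.1 hm
  obtain ⟨H1, Hu, rfl, rfl, rfl⟩ := List.map_eq_append_iff.1 hm1
  obtain ⟨x, hx⟩ := hu
  obtain ⟨φ', pos', z, c1, c2, c3, c4, c5, c6⟩ := cut_main hh (by rintro rfl; simp at hu0) hx
  refine ⟨A, φ', α, l, pos', b, H1 ++ H2, ⟨c1, hh.bA, hh.αb, hh.αne, hh.lα, ?_, c2, ?_⟩, by simp⟩
  · have := hh.nd
    refine List.Nodup.sublist ?_ this
    refine List.Sublist.cons_cons _ ?_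
    rw [List.append_assoc]
    exact List.Sublist.append (List.Sublist.refl _) (List.sublist_append_right _ _)
  · intro d hd hdH
    by_cases hdz : d = z
    · subst hdz
      rw [c5]; exact c4
    · exact c6 d hd hdH hdz

/-! ### Words and elements of the free group -/

theorem w_red {X : LG S V} {w w' : List (S × Bool)} (h : FreeGroup.Red.Step w w') :
    W X w ↔ W X w' := by
  cases h with
  | @not L1 L2 s b =>
    constructor
    · intro h
      exact w_zip (s, b) h
    · intro h
      exact w_ins (s, b) h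

theorem w_mk {X : LG S V} {w w' : List (S × Bool)} (h : FreeGroup.mk w = FreeGroup.mk w') :
    W X w ↔ W X w' := by
  have key : ∀ u v : List (S × Bool), FreeGroup.Red u v → (W X u ↔ W X v) := by
    intro u v huv
    induction huv with
    | refl => rfl
    | tail _ h2 ih => exact ih.trans (w_red h2)
  obtain ⟨c, h1, h2⟩ := FreeGroup.Red.exact.1 h
  exact (key _ _ h1).trans (key _ _ h2).symm

theorem reads_append {X : LG S V} {x z : V} {w1 w2 : List (S × Bool)} :
    X.Reads x (w1 ++ w2) z ↔ ∃ y, X.Reads x w1 y ∧ X.Reads y w2 z := by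
  induction w1 generalizing x with
  | nil =>
    constructor
    · intro h; exact ⟨x, LG.Reads.nil x, h⟩
    · rintro ⟨y, h1, h2⟩; cases h1; exact h2
  | cons a w ih =>
    constructor
    · intro h
      cases h with
      | cons h1 h2 =>
        obtain ⟨y, h3, h4⟩ := ih.1 h2
        exact ⟨y, LG.Reads.cons h1 h3, h4⟩
    · rintro ⟨y, h1, h2⟩
      cases h1 with
      | cons h3 h4 => exact LG.Reads.cons h3 (ih.2 ⟨y, h4, h2⟩)

theorem reads_rev {X : LG S V} {x y : V} {w : List (S × Bool)} (h : X.Reads x w y) :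
    X.Reads y (FreeGroup.invRev w) x := by
  induction h with
  | nil x => exact LG.Reads.nil x
  | @cons x y z a w h1 h2 ih =>
    have e : FreeGroup.invRev (a :: w) = FreeGroup.invRev w ++ [iv a] := by
      simp [FreeGroup.invRev, iv]
    rw [e, reads_append]
    exact ⟨y, ih, LG.Reads.cons (step_iv.1 h1) (LG.Reads.nil x)⟩

theorem closed_rev {X : LG S V} {w : List (S × Bool)} (h : X.Closed w) :
    X.Closed (FreeGroup.invRev w) := by
  obtain ⟨x, hx⟩ := h
  exact ⟨x, reads_rev hx⟩

/-- multiplication by an element of the normal closure does not change the property `W` -/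
theorem w_ncl {X : LG S V} {n : FreeGroup S} (hn : n ∈ ncl X.Closed) :
    ∀ w w' : List (S × Bool), FreeGroup.mk w' = n * FreeGroup.mk w → (W X w ↔ W X w') := by
  unfold ncl Subgroup.normalClosure at hn
  induction hn using Subgroup.closure_induction with
  | mem n hn =>
    intro w w' h
    rw [Group.mem_conjugatesOfSet_iff] at hn
    obtain ⟨r, ⟨u, hu, rfl⟩, hc⟩ := hn
    obtain ⟨c, hc⟩ := isConj_iff.1 hc
    obtain ⟨v, rfl⟩ : ∃ v, c = FreeGroup.mk v := ⟨c.toWord, FreeGroup.mk_toWord.symm⟩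
    subst hc
    constructor
    · intro hw
      have h1 : W X (v ++ FreeGroup.invRev u ++ (u ++ FreeGroup.invRev v ++ w)) := by
        refine (w_mk ?_).1 hw
        simp only [← FreeGroup.mul_mk, ← FreeGroup.inv_mk]
        group
      have h2 := w_cut (closed_rev hu) h1
      refine (w_mk ?_).1 h2
      rw [h]
      simp only [← FreeGroup.mul_mk, ← FreeGroup.inv_mk]
      group
    · intro hw
      have h1 : W X (v ++ u ++ (FreeGroup.invRev v ++ w)) := by
        refine (w_mk ?_).1 hw
        rw [h]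
        simp only [← FreeGroup.mul_mk, ← FreeGroup.inv_mk]
        group
      have h2 := w_cut hu h1
      refine (w_mk ?_).1 h2
      simp only [← FreeGroup.mul_mk, ← FreeGroup.inv_mk]
      group
  | one =>
    intro w w' h
    rw [one_mul] at h
    exact w_mk h.symm
  | mul n m _ _ ih1 ih2 =>
    intro w w' h
    have h1 := ih2 w (m * FreeGroup.mk w).toWord FreeGroup.mk_toWord
    have h2 := ih1 (m * FreeGroup.mk w).toWord w' (by rw [FreeGroup.mk_toWord, h, mul_assoc])
    exact h1.trans h2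
  | inv n _ ih =>
    intro w w' h
    exact (ih w' w (by rw [h]; group)).symm

end Pool.Agent.Helper784WE.E
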