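import Mathlib
import Pool.Agent.Helper784WE.E4

/-!
Module E, part 5: closed diagrams with exactly one irregular dart; reductions.
-/

set_option autoImplicit false

open Finset
open scoped Classical

namespace Pool.Agent.Helper784WE.E

variable {S V : Type}

/-- A diagram with exactly one irregular dart `e0`. -/
structure Dia (X : LG S V) (A : Finset ℕ) (φ α : ℕ → ℕ) (l : ℕ → S × Bool) (pos : ℕ → V)
    (e0 : ℕ) : Prop where
  raw : Raw A φ α
  αne : ∀ d ∈ A, α d ≠ d
  lα : ∀ d ∈ A, l (α d) = iv (l d)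
  e0A : e0 ∈ A
  reg : ∀ d ∈ A, d ≠ e0 → X.Step (pos d) (l d) (pos (φ d))
  irr : ∃ y, y ≠ pos (φ e0) ∧ X.Step (pos e0) (l e0) y

theorem dia_exists {X : LG S V} {x y : V} {w : List (S × Bool)} (hr : X.Reads x w y)
    (hw : FreeGroup.mk w ∈ ncl X.Closed) (hne : x ≠ y) :
    ∃ A φ α l pos e0, Dia X A φ α l pos e0 := by
  have hw0 : w ≠ [] := by
    rintro rfl
    cases hr
    exact hne rfl
  obtain ⟨s, w', rfl⟩ := List.exists_cons_of_ne_nil hw0
  have h1 : W X (s :: w') := (w_ncl hw [] (s :: w') (by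
    rw [← FreeGroup.one_eq_mk, mul_one])).1 (w_nil X x s)
  obtain ⟨A, φ, α, l, pos, b, H, hh, hm⟩ := h1
  have hh' : Hole X A φ α l pos b ([] ++ H ++ []) := by simpa using hh
  obtain ⟨φ', pos', z, c1, c2, c3, c4, c5, c6⟩ :=
    cut_main hh' (by rintro rfl; simp at hm) (by rw [hm]; exact hr)
  have hb : φ' b = b := c2
  have hzb : z ≠ b := by
    rintro rfl
    exact (List.nodup_cons.1 hh.nd).1 c3
  have hzA : z ∈ A := pa_mem hh.raw.mφ hh.pa (hh.raw.mφ _ hh.bA) z c3
  refine ⟨A.erase b, φ', α, l, pos', z, raw_rmb c1 hh.bA hb hh.αb, ?_, ?_, ?_, ?_, ?_⟩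
  · intro d hd
    rw [mem_erase] at hd
    exact hh.αne d hd.2 hd.1
  · intro d hd
    rw [mem_erase] at hd
    exact hh.lα d hd.2 hd.1
  · rw [mem_erase]; exact ⟨hzb, hzA⟩
  · intro d hd hdz
    rw [mem_erase] at hd
    exact c6 d hd.2 (by simp [hd.1]) hdz
  · exact ⟨y, by rw [c5]; exact hne.symm, c4⟩

theorem raw_surj {A : Finset ℕ} {φ α : ℕ → ℕ} (R : Raw A φ α) {d : ℕ} (hd : d ∈ A) :
    ∃ e ∈ A, φ e = d := by
  have := Finset.surj_on_of_inj_on_of_card_le (s := A) (t := A) (fun x _ => φ x)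
    (fun x hx => R.mφ x hx) (fun x y hx hy h => R.inj x hx y hy h) le_rfl d hd
  obtain ⟨e, he, h⟩ := this
  exact ⟨e, he, h.symm⟩

/-- removing a backtrack -/
theorem dia_zip {X : LG S V} {A : Finset ℕ} {φ α : ℕ → ℕ} {l : ℕ → S × Bool} {pos : ℕ → V}
    {e0 : ℕ} (D : Dia X A φ α l pos e0) {d : ℕ} (hd : d ∈ A) (hl : l (φ d) = iv (l d)) :
    ∃ A' φ' α' e0', Dia X A' φ' α' l pos e0' ∧ A'.card < A.card := by
  have hφd := D.raw.mφ d hd
  have hne : φ d ≠ d := by
    intro h
    rw [h] at hl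
    exact iv_ne _ hl.symm
  have hR := raw_zip D.raw hd hne (D.αne d hd) (D.αne _ hφd)
  have hααd := D.raw.αα d hd
  have hααd' := D.raw.αα _ hφd
  have hmem : ∀ x, x ∈ A \ {d, φ d} ↔ x ∈ A ∧ x ≠ d ∧ x ≠ φ d := by
    intro x; simp
  have hcard : (A \ {d, φ d}).card < A.card := by
    apply Finset.card_lt_card
    rw [Finset.ssubset_iff_of_subset sdiff_subset]
    exact ⟨d, hd, by simp⟩
  have h1 : ∀ x ∈ A \ {d, φ d}, zα φ α d x ≠ x := by
    intro x hx
    rw [hmem] at hx
    have h1 := D.αne x hx.1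
    unfold zα
    grind
  have h2 : ∀ x ∈ A \ {d, φ d}, l (zα φ α d x) = iv (l x) := by
    intro x hx
    rw [hmem] at hx
    have h1 := D.lα x hx.1
    have h2 := D.lα d hd
    have h3 := D.lα _ hφd
    have h4 := iv_iv (l d)
    unfold zα
    grind
  obtain ⟨e, he, hed⟩ := raw_surj D.raw hd
  obtain ⟨y, hy1, hy2⟩ := D.irr
  have hstep : ∀ u v : V, X.Step u (l d) v ↔ X.Step v (l (φ d)) u := by
    intro u v
    rw [hl]; exact step_iv
  by_cases hp : pos (φ (φ d)) = pos d
  · -- both darts are regular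
    have hd1 : d ≠ e0 := by
      rintro rfl
      have h3 := D.reg _ hφd hne
      rw [hp, ← hstep] at h3
      exact hy1 (step_det hy2 h3)
    have hd2 : φ d ≠ e0 := by
      intro h
      have h3 := D.reg d hd hd1
      rw [hstep, h] at h3
      rw [← h] at h3
      rw [← h] at hy1 hy2
      exact hy1 (by rw [hp]; exact step_det hy2 h3)
    have hpos : ∀ x, pos (zφ φ d x) = pos (φ x) := by
      intro x
      unfold zφ
      split_ifs with h
      · rw [hp, h]
      · rfl
    refine ⟨_, _, _, e0, ⟨hR, h1, h2, ?_, ?_, ?_⟩, hcard⟩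
    · rw [hmem]; exact ⟨D.e0A, Ne.symm hd1, Ne.symm hd2⟩
    · intro x hx hxe
      rw [hmem] at hx
      rw [hpos]
      exact D.reg x hx.1 hxe
    · exact ⟨y, by rw [hpos]; exact hy1, hy2⟩
  · have he0 : e0 = d ∨ e0 = φ d := by
      by_contra hcon
      push Not at hcon
      have h3 := D.reg d hd (Ne.symm hcon.1)
      have h4 := D.reg _ hφd (Ne.symm hcon.2)
      rw [hstep] at h3
      exact hp (step_det h4 h3)
    have hee : e ≠ d := by rintro rfl; exact hne hed
    have hee' : e ≠ φ d := by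
      rintro rfl
      exact hp (by rw [hed])
    have hee0 : e ≠ e0 := by rcases he0 with h | h <;> rw [h] <;> assumption
    refine ⟨_, _, _, e, ⟨hR, h1, h2, ?_, ?_, ?_⟩, hcard⟩
    · rw [hmem]; exact ⟨he, hee, hee'⟩
    · intro x hx hxe
      rw [hmem] at hx
      have hxe0 : x ≠ e0 := by rcases he0 with h | h <;> rw [h] <;> tauto
      have h5 : zφ φ d x = φ x := by
        have := D.raw.inj x hx.1 e he
        unfold zφ
        grind
      rw [h5]
      exact D.reg x hx.1 hxe0
    · refine ⟨pos d, ?_, ?_⟩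
      · have : zφ φ d e = φ (φ d) := by simp [zφ, hed]
        rw [this]; exact Ne.symm hp
      · have := D.reg e he hee0
        rwa [hed] at this

/-- deleting a reducible edge -/
theorem dia_del {X : LG S V} {A : Finset ℕ} {φ α : ℕ → ℕ} {l : ℕ → S × Bool} {pos : ℕ → V}
    {e0 : ℕ} (D : Dia X A φ α l pos e0) (ha : ∀ d ∈ A, l (φ d) ≠ iv (l d)) {d : ℕ} (hd : d ∈ A)
    (hde : d ≠ e0) (hpc : pos (α d) = pos (φ d)) :
    ∃ A' φ' α' e0', Dia X A' φ' α' l pos e0' ∧ A'.card < A.card := by
  have hφd := D.raw.mφ d hd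
  have hαd := D.raw.mα d hd
  have hφαd := D.raw.mφ _ hαd
  have hααd := D.raw.αα d hd
  have hne1 : φ d ≠ α d := by
    intro h
    apply ha d hd
    rw [h]; exact D.lα d hd
  have hne2 : φ (α d) ≠ d := by
    intro h
    apply ha _ hαd
    rw [h, D.lα d hd]; simp
  have hR := raw_del D.raw hd (D.αne d hd) hne1 hne2
  have hmem : ∀ x, x ∈ A \ {d, α d} ↔ x ∈ A ∧ x ≠ d ∧ x ≠ α d := by
    intro x; simp
  have hcard : (A \ {d, α d}).card < A.card := by
    apply Finset.card_lt_card
    rw [Finset.ssubset_iff_of_subset sdiff_subset]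
    exact ⟨d, hd, by simp⟩
  have h1 : ∀ x ∈ A \ {d, α d}, α x ≠ x := by
    intro x hx
    rw [hmem] at hx
    exact D.αne x hx.1
  have h2 : ∀ x ∈ A \ {d, α d}, l (α x) = iv (l x) := by
    intro x hx
    rw [hmem] at hx
    exact D.lα x hx.1
  obtain ⟨y, hy1, hy2⟩ := D.irr
  have hsd : X.Step (pos (α d)) (l (α d)) (pos d) := by
    rw [D.lα d hd, ← step_iv, hpc]
    exact D.reg d hd hde
  by_cases hp : pos (φ (α d)) = pos d
  · -- both darts are regular
    have hd2 : α d ≠ e0 := by
      intro h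
      rw [← h] at hy1 hy2
      exact hy1 (by rw [hp]; exact step_det hy2 hsd)
    have hpos : ∀ x, pos (dφ φ α d x) = pos (φ x) := by
      intro x
      unfold dφ
      grind
    refine ⟨_, _, _, e0, ⟨hR, h1, h2, ?_, ?_, ?_⟩, hcard⟩
    · rw [hmem]; exact ⟨D.e0A, Ne.symm hde, Ne.symm hd2⟩
    · intro x hx hxe
      rw [hmem] at hx
      rw [hpos]
      exact D.reg x hx.1 hxe
    · exact ⟨y, by rw [hpos]; exact hy1, hy2⟩
  · have he0 : e0 = α d := by
      by_contra hcon
      have h3 := D.reg _ hαd (Ne.symm hcon)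
      exact hp (step_det h3 hsd)
    by_cases hdd : φ d = d
    · -- the face of `d` is a loop
      obtain ⟨e, he, hec⟩ := raw_surj D.raw hαd
      have hee : e ≠ d := by rintro rfl; exact hne1 hec
      have hee' : e ≠ α d := by
        rintro rfl
        apply hp
        rw [hec, hpc, hdd]
      refine ⟨_, _, _, e, ⟨hR, h1, h2, ?_, ?_, ?_⟩, hcard⟩
      · rw [hmem]; exact ⟨he, hee, hee'⟩
      · intro x hx hxe
        rw [hmem] at hx
        have h5 : dφ φ α d x = φ x := by
          have i1 := D.raw.inj x hx.1 e he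
          have i2 := D.raw.inj x hx.1 d hd
          unfold dφ
          grind
        rw [h5]
        exact D.reg x hx.1 (by rw [he0]; exact hx.2.2)
      · refine ⟨pos (α d), ?_, ?_⟩
        · have : dφ φ α d e = φ (α d) := by
            unfold dφ
            have := D.αne d hd
            grind
          rw [this, hpc, hdd]
          exact Ne.symm hp
        · have := D.reg e he (by rw [he0]; exact hee')
          rwa [hec] at this
    · obtain ⟨e, he, hec⟩ := raw_surj D.raw hd
      have hee : e ≠ d := by rintro rfl; exact hdd hec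
      have hee' : e ≠ α d := by rintro rfl; exact hne2 hec
      refine ⟨_, _, _, e, ⟨hR, h1, h2, ?_, ?_, ?_⟩, hcard⟩
      · rw [hmem]; exact ⟨he, hee, hee'⟩
      · intro x hx hxe
        rw [hmem] at hx
        by_cases hxc : φ x = α d
        · have h5 : dφ φ α d x = φ d := by
            unfold dφ
            have := D.αne d hd
            grind
          have h6 := D.reg x hx.1 (by rw [he0]; exact hx.2.2)
          rw [hxc, hpc] at h6
          rw [h5]; exact h6
        · have h5 : dφ φ α d x = φ x := by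
            have i1 := D.raw.inj x hx.1 e he
            unfold dφ
            grind
          rw [h5]
          exact D.reg x hx.1 (by rw [he0]; exact hx.2.2)
      · refine ⟨pos d, ?_, ?_⟩
        · by_cases hcc : φ (α d) = α d
          · have : dφ φ α d e = φ d := by
              unfold dφ
              grind
            rw [this, ← hpc, ← hcc]
            exact Ne.symm hp
          · have : dφ φ α d e = φ (α d) := by
              unfold dφ
              grind
            rw [this]
            exact Ne.symm hp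
        · have := D.reg e he (by rw [he0]; exact hee')
          rwa [hec] at this

/-- a reduced diagram -/
theorem dia_min {X : LG S V} (h : ∃ A φ α l pos e0, Dia X A φ α l pos e0) :
    ∃ A φ α l pos e0, Dia X A φ α l pos e0 ∧ (∀ d ∈ A, l (φ d) ≠ iv (l d)) ∧
      ∀ d ∈ A, d ≠ e0 → pos (α d) ≠ pos (φ d) := by
  have hex : ∃ n : ℕ, ∃ A φ α l pos e0, Dia X A φ α l pos e0 ∧ A.card = n := by
    obtain ⟨A, φ, α, l, pos, e0, D⟩ := h
    exact ⟨_, A, φ, α, l, pos, e0, D, rfl⟩
  obtain ⟨A, φ, α, l, pos, e0, D, hc⟩ := Nat.find_spec hex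
  have ha : ∀ d ∈ A, l (φ d) ≠ iv (l d) := by
    intro d hd hl
    obtain ⟨A', φ', α', e0', D', h'⟩ := dia_zip D hd hl
    exact Nat.find_min hex (by rw [← hc]; exact h') ⟨A', φ', α', l, pos, e0', D', rfl⟩
  refine ⟨A, φ, α, l, pos, e0, D, ha, ?_⟩
  intro d hd hde hp
  obtain ⟨A', φ', α', e0', D', h'⟩ := dia_del D ha hd hde hp
  exact Nat.find_min hex (by rw [← hc]; exact h') ⟨A', φ', α', l, pos, e0', D', rfl⟩

end Pool.Agent.Helper784WE.E
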