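import Mathlib

/-!
Module E, part 6: Euler characteristic of combinatorial maps with vanishing first cohomology.
-/

set_option autoImplicit false

open Finset
open scoped Classical

namespace Pool.Agent.Helper784WE.E

/-- the set of cycles (fixed points included) of a permutation -/
abbrev Orb {D : Type} (π : Equiv.Perm D) : Type := Quotient (Equiv.Perm.SameCycle.setoid π)

/-- `f ↦ f ∘ π - f` -/
noncomputable def TT {D : Type} (π : Equiv.Perm D) : (D → ℚ) →ₗ[ℚ] (D → ℚ) :=
  LinearMap.funLeft ℚ ℚ π - LinearMap.id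

theorem TT_apply {D : Type} (π : Equiv.Perm D) (f : D → ℚ) (d : D) :
    TT π f d = f (π d) - f d := rfl

theorem mem_ker_TT {D : Type} (π : Equiv.Perm D) (f : D → ℚ) :
    f ∈ LinearMap.ker (TT π) ↔ ∀ d, f (π d) = f d := by
  rw [LinearMap.mem_ker]
  constructor
  · intro h d
    have := congrFun h d
    rw [TT_apply] at this
    simpa [sub_eq_zero] using this
  · intro h
    funext d
    rw [TT_apply, h d]; simp

theorem inv_sameCycle {D : Type} (π : Equiv.Perm D) (f : D → ℚ) (h : ∀ d, f (π d) = f d)
    {x y : D} (hxy : π.SameCycle x y) : f x = f y := by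
  obtain ⟨i, hi⟩ := hxy
  rw [← hi]
  induction i using Int.induction_on generalizing y with
  | zero => simp
  | succ n ih =>
    rw [add_comm, zpow_add, zpow_one, Equiv.Perm.mul_apply, h]
    exact ih rfl
  | pred n ih =>
    have h' : ∀ d, f (π⁻¹ d) = f d := by
      intro d
      have := h (π⁻¹ d)
      rw [show π (π⁻¹ d) = d from Equiv.apply_symm_apply π d] at this
      exact this.symm
    rw [sub_eq_add_neg, add_comm, zpow_add, zpow_neg_one, Equiv.Perm.mul_apply, h']
    exact ih rfl

theorem finrank_ker_TT {D : Type} [Fintype D] (π : Equiv.Perm D) :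
    Module.finrank ℚ (LinearMap.ker (TT π)) = Fintype.card (Orb π) := by
  have h1 : LinearMap.ker (TT π) =
      LinearMap.range (LinearMap.funLeft ℚ ℚ (Quotient.mk (Equiv.Perm.SameCycle.setoid π))) := by
    ext f
    rw [mem_ker_TT, LinearMap.mem_range]
    constructor
    · intro h
      refine ⟨Quotient.lift f (fun x y hxy => inv_sameCycle π f h hxy), ?_⟩
      funext d
      rfl
    · rintro ⟨g, rfl⟩ d
      simp only [LinearMap.funLeft_apply]
      congr 1
      apply Quotient.sound
      show π.SameCycle (π d) d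
      exact Equiv.Perm.sameCycle_apply_left.2 (Equiv.Perm.SameCycle.refl _ _)
  rw [h1, LinearMap.finrank_range_of_inj (LinearMap.funLeft_injective_of_surjective ℚ ℚ _
    Quotient.mk_surjective)]
  simp

/-- Euler characteristic at least two. -/
theorem euler {D : Type} [Fintype D] [Nonempty D] (φ α : Equiv.Perm D) (hαα : ∀ d, α (α d) = d)
    (hex : ∀ h f1 : D → ℚ, (∀ d, h (α d) = - h d) → (∀ d, f1 (φ d) = f1 d + h d) →
      ∃ f : D → ℚ, ∀ d, f (φ d) = f d + h d ∧ f (α d) = f d + h d) :
    Fintype.card D + 2 ≤ Fintype.card (Orb (φ * α)) + Fintype.card (Orb φ) +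
      Fintype.card (Orb α) := by
  -- antisymmetric functions
  set C1 : Submodule ℚ (D → ℚ) := LinearMap.ker (LinearMap.funLeft ℚ ℚ α + LinearMap.id) with hC1
  have mC1 : ∀ h : D → ℚ, h ∈ C1 ↔ ∀ d, h (α d) = - h d := by
    intro h
    rw [hC1, LinearMap.mem_ker]
    constructor
    · intro hh d
      have := congrFun hh d
      simp only [LinearMap.add_apply, LinearMap.id_apply, Pi.add_apply, LinearMap.funLeft_apply,
        Pi.zero_apply] at this
      linarith
    · intro hh
      funext d
      simp only [LinearMap.add_apply, LinearMap.id_apply, Pi.add_apply, LinearMap.funLeft_apply,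
        Pi.zero_apply]
      rw [hh d]; ring
  set C0 : Submodule ℚ (D → ℚ) := LinearMap.ker (TT (φ * α)) with hC0
  have rkD : Module.finrank ℚ (D → ℚ) = Fintype.card D := by simp
  -- dimension of C1
  have d1 : Fintype.card D ≤ Module.finrank ℚ C1 + Fintype.card (Orb α) := by
    have e1 := LinearMap.finrank_range_add_finrank_ker (TT α)
    rw [finrank_ker_TT, rkD] at e1
    have e2 : LinearMap.range (TT α) ≤ C1 := by
      rintro _ ⟨f, rfl⟩
      rw [mC1]
      intro d
      rw [TT_apply, TT_apply, hαα]; ring
    have e3 := Submodule.finrank_mono e2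
    omega
  -- the range of TT φ
  have d2 := LinearMap.finrank_range_add_finrank_ker (TT φ)
  rw [finrank_ker_TT, rkD] at d2
  -- the hyperplane
  set Z : Submodule ℚ (D → ℚ) := LinearMap.ker (Fintype.linearCombination ℚ (fun _ : D => (1 : ℚ)))
    with hZ
  have mZ : ∀ h : D → ℚ, h ∈ Z ↔ ∑ d, h d = 0 := by
    intro h
    rw [hZ, LinearMap.mem_ker, Fintype.linearCombination_apply]
    simp
  have d3 : Module.finrank ℚ Z + 1 ≤ Fintype.card D := by
    have h1 : Z < ⊤ := by
      rw [lt_top_iff_ne_top]
      intro h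
      have h2 : (fun _ : D => (1 : ℚ)) ∈ Z := by rw [h]; trivial
      rw [mZ] at h2
      simp at h2
    have h2 := Submodule.finrank_lt_finrank_of_lt h1
    rw [finrank_top, rkD] at h2
    omega
  have d4 : C1 ⊔ LinearMap.range (TT φ) ≤ Z := by
    rw [sup_le_iff]
    constructor
    · intro h hh
      rw [mC1] at hh
      rw [mZ]
      have h1 : ∑ d, h (α d) = ∑ d, h d := Equiv.sum_comp α h
      have h2 : ∑ d, h (α d) = - ∑ d, h d := by
        rw [← Finset.sum_neg_distrib]
        exact Finset.sum_congr rfl (fun d _ => hh d)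
      linarith
    · rintro _ ⟨f, rfl⟩
      rw [mZ]
      simp only [TT_apply, Finset.sum_sub_distrib]
      rw [Equiv.sum_comp φ f]; ring
  have d5 := Submodule.finrank_mono d4
  have d6 := Submodule.finrank_sup_add_finrank_inf_eq C1 (LinearMap.range (TT φ))
  -- exactness
  have d7 : C1 ⊓ LinearMap.range (TT φ) ≤ Submodule.map (TT φ) C0 := by
    rintro h ⟨h1, f1, h2⟩
    have h1' := (mC1 h).1 h1
    obtain ⟨f, hf⟩ := hex h f1 h1' (by
      intro d
      have := congrFun h2 d
      rw [TT_apply] at this
      linarith)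
    refine ⟨f, ?_, ?_⟩
    · show f ∈ C0
      rw [hC0, mem_ker_TT]
      intro d
      rw [Equiv.Perm.mul_apply, (hf (α d)).1, ← (hf (α d)).2, hαα]
    · funext d
      rw [TT_apply, (hf d).1]; ring
  have d8 := Submodule.finrank_mono d7
  -- rank of the coboundary
  have d9 : Module.finrank ℚ (Submodule.map (TT φ) C0) + 1 ≤ Module.finrank ℚ C0 := by
    have e1 := LinearMap.finrank_range_add_finrank_ker ((TT φ).domRestrict C0)
    have e2 : LinearMap.range ((TT φ).domRestrict C0) = Submodule.map (TT φ) C0 :=
      LinearMap.range_domRestrict _ _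
    rw [e2] at e1
    have e3 : 1 ≤ Module.finrank ℚ (LinearMap.ker ((TT φ).domRestrict C0)) := by
      rw [Submodule.one_le_finrank_iff, Submodule.ne_bot_iff]
      have hc : (fun _ : D => (1 : ℚ)) ∈ C0 := by
        rw [hC0, mem_ker_TT]; intro d; rfl
      refine ⟨⟨fun _ => 1, hc⟩, ?_, ?_⟩
      · rw [LinearMap.mem_ker]
        funext d
        simp [LinearMap.domRestrict_apply, TT_apply]
      · intro h
        have h1 := congrArg (fun z => (z.1 : D → ℚ)) h
        have h2 := congrFun h1 (Classical.arbitrary D)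
        simp at h2
    omega
  have d10 : Module.finrank ℚ C0 = Fintype.card (Orb (φ * α)) := finrank_ker_TT _
  omega

/-- counting over the cycles -/
theorem weight {D : Type} [Fintype D] (π : Equiv.Perm D) (K : Orb π → ℕ) (w : D → ℕ)
    (h : ∀ d : D, K (Quotient.mk _ d) ≤ ∑ x ∈ univ.filter (fun x => π.SameCycle d x), w x) :
    ∑ q, K q ≤ ∑ x, w x := by
  rw [← Finset.sum_fiberwise (s := (univ : Finset D))
    (g := fun x => (Quotient.mk (Equiv.Perm.SameCycle.setoid π) x)) (f := w)]
  apply Finset.sum_le_sum
  intro q _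
  induction q using Quotient.inductionOn with
  | h d =>
    refine (h d).trans (le_of_eq ?_)
    apply Finset.sum_congr _ (fun _ _ => rfl)
    ext x
    simp only [mem_filter, mem_univ, true_and]
    rw [Quotient.eq]
    exact Equiv.Perm.sameCycle_comm

end Pool.Agent.Helper784WE.E
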