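import Mathlib
import Pool.Agent.Helper784WE.E5
import Pool.Agent.Helper784WE.E6

/-!
Module E, part 7: the curvature count.
-/

set_option autoImplicit false

open Finset
open scoped Classical

namespace Pool.Agent.Helper784WE.E

variable {S V : Type}

theorem reads_det {X : LG S V} {x y y' : V} {w : List (S × Bool)} (h : X.Reads x w y)
    (h' : X.Reads x w y') : y = y' := by
  induction h generalizing y' with
  | nil x => cases h'; rfl
  | cons h1 h2 ih =>
    cases h' with
    | cons h3 h4 =>
      have := step_det h1 h3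
      subst this
      exact ih h4

theorem step_g {X : LG S V} {g : V → ℕ} (hg : ∀ x s y, X.E x s y → g x = g y) {x y : V}
    {a : S × Bool} (h : X.Step x a y) : g x = g y := by
  rcases a with ⟨s, b⟩
  cases b
  · exact (hg _ _ _ h).symm
  · exact hg _ _ _ h

/-- reduced diagrams on a finite type -/
structure Red (X : LG S V) (D : Type) [Fintype D] (φ α : Equiv.Perm D) (l : D → S × Bool)
    (pos : D → V) (e0 : D) : Prop where
  αα : ∀ d, α (α d) = d
  αne : ∀ d, α d ≠ d
  lα : ∀ d, l (α d) = iv (l d)
  reg : ∀ d, d ≠ e0 → X.Step (pos d) (l d) (pos (φ d))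
  irr : ∃ y, y ≠ pos (φ e0) ∧ X.Step (pos e0) (l e0) y
  ha : ∀ d, l (φ d) ≠ iv (l d)
  hb : ∀ d, d ≠ e0 → pos (α d) ≠ pos (φ d)
  ex : ∀ h f1 : D → ℚ, (∀ d, h (α d) = - h d) → (∀ d, f1 (φ d) = f1 d + h d) →
      ∃ f : D → ℚ, ∀ d, f (φ d) = f d + h d ∧ f (α d) = f d + h d

/-- the word read along `m` darts -/
def wd {D : Type} (φ : D → D) (l : D → S × Bool) : ℕ → D → List (S × Bool)
  | 0, _ => []
  | m + 1, d => l d :: wd φ l m (φ d)

theorem wd_length {D : Type} (φ : D → D) (l : D → S × Bool) (m : ℕ) (d : D) :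
    (wd φ l m d).length = m := by
  induction m generalizing d with
  | zero => rfl
  | succ m ih => simp [wd, ih]

variable {X : LG S V} {D : Type} [Fintype D] {φ α : Equiv.Perm D} {l : D → S × Bool}
  {pos : D → V} {e0 : D}

/-- the origin has degree at least three -/
def Big (φ α : Equiv.Perm D) (d : D) : Prop := φ (α (φ (α d))) ≠ d

theorem wd_reduced (R : Red X D φ α l pos e0) (m : ℕ) (d : D) :
    FreeGroup.IsReduced (wd φ l m d) := by
  induction m generalizing d with
  | zero => exact FreeGroup.IsReduced.nil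
  | succ m ih =>
    cases m with
    | zero => exact FreeGroup.IsReduced.singleton
    | succ m =>
      have h1 := ih (φ d)
      simp only [wd] at h1 ⊢
      rw [FreeGroup.isReduced_cons_cons]
      refine ⟨?_, h1⟩
      intro h2
      by_contra h3
      apply R.ha d
      refine Prod.ext ?_ ?_
      · simp [iv, h2]
      · simp only [iv]
        revert h3
        cases (l d).2 <;> cases (l (φ d)).2 <;> simp

theorem wd_reads (R : Red X D φ α l pos e0) (m : ℕ) (d : D) (h : ∀ i < m, φ^[i] d ≠ e0) :
    X.Reads (pos d) (wd φ l m d) (pos (φ^[m] d)) := by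
  induction m generalizing d with
  | zero => exact LG.Reads.nil _
  | succ m ih =>
    refine LG.Reads.cons (R.reg d (h 0 (Nat.succ_pos _))) ?_
    rw [Function.iterate_succ_apply]
    refine ih (φ d) (fun i hi => ?_)
    rw [← Function.iterate_succ_apply]
    exact h (i + 1) (by omega)

theorem not_big {R : Red X D φ α l pos e0} {d : D} (h : ¬ Big φ α (φ d)) :
    φ (α (φ d)) = α d := by
  unfold Big at h
  push Not at h
  have h1 := φ.injective h
  have h2 := congrArg α h1
  rw [R.αα] at h2
  exact h2

theorem wd_other (R : Red X D φ α l pos e0) (m : ℕ) (d : D) (u : V)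
    (hu : X.Step u (l d) (pos (α d)))
    (h1 : ∀ i, 1 ≤ i → i < m + 1 → ¬ Big φ α (φ^[i] d))
    (h2 : ∀ i, 1 ≤ i → i < m + 1 → α (φ^[i] d) ≠ e0) :
    X.Reads u (wd φ l (m + 1) d) (pos (α (φ^[m] d))) := by
  induction m generalizing d u with
  | zero => exact LG.Reads.cons hu (LG.Reads.nil _)
  | succ m ih =>
    refine LG.Reads.cons hu ?_
    rw [Function.iterate_succ_apply]
    refine ih (φ d) (pos (α d)) ?_ ?_ ?_
    · have e1 := h2 1 le_rfl (by omega)
      have e2 := h1 1 le_rfl (by omega)
      rw [Function.iterate_one] at e1 e2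
      have e3 := R.reg _ e1
      rw [not_big (R := R) e2, R.lα] at e3
      exact step_iv.2 e3
    · intro i hi1 hi2
      rw [← Function.iterate_succ_apply]
      exact h1 (i + 1) (by omega) (by omega)
    · intro i hi1 hi2
      rw [← Function.iterate_succ_apply]
      exact h2 (i + 1) (by omega) (by omega)

section run

variable {g : V → ℕ} (hg : ∀ x s y, X.E x s y → g x = g y)
  (girth : ∀ x w, X.Reads x w x → FreeGroup.IsReduced w → w ≠ [] → g x ≤ w.length)
  (piece : ∀ x y w u v, x ≠ y → FreeGroup.IsReduced w → X.Reads x w u → X.Reads y w v →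
      12 * w.length < g x)

include piece in
theorem run1 (R : Red X D φ α l pos e0) (m : ℕ) (d : D)
    (h0 : ∀ i < m + 1, φ^[i] d ≠ e0)
    (h1 : ∀ i, 1 ≤ i → i < m + 1 → ¬ Big φ α (φ^[i] d))
    (h2 : ∀ i, 1 ≤ i → i < m + 1 → α (φ^[i] d) ≠ e0) : 12 * (m + 1) < g (pos d) := by
  obtain ⟨u, hu⟩ : ∃ u, X.Step u (l d) (pos (α d)) := by
    by_cases h : α d = e0
    · obtain ⟨y, _, hy⟩ := R.irr
      rw [← h, R.lα] at hy
      exact ⟨y, step_iv.2 hy⟩
    · have := R.reg _ h
      rw [R.lα] at this
      exact ⟨_, step_iv.2 this⟩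
  have r1 := wd_reads R (m + 1) d h0
  have r2 := wd_other R m d u hu h1 h2
  have hne : u ≠ pos d := by
    rintro rfl
    have h3 := reads_det r1 r2
    rw [Function.iterate_succ_apply'] at h3
    exact R.hb _ (h0 m (by omega)) h3.symm
  have := piece (pos d) u _ _ _ hne.symm (wd_reduced R (m + 1) d) r1 r2
  rwa [wd_length] at this

include hg in
theorem g_iter (R : Red X D φ α l pos e0) (m : ℕ) (d : D) (h : ∀ i < m, φ^[i] d ≠ e0) :
    g (pos (φ^[m] d)) = g (pos d) := by
  induction m with
  | zero => rfl
  | succ m ih =>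
    rw [Function.iterate_succ_apply', ← ih (fun i hi => h i (by omega))]
    exact (step_g hg (R.reg _ (h m (by omega)))).symm

include hg piece in
theorem run2 (R : Red X D φ α l pos e0) (m : ℕ) (d : D)
    (h0 : ∀ i < m + 1, φ^[i] d ≠ e0)
    (h1 : ∀ i, 1 ≤ i → i < m + 1 → ¬ Big φ α (φ^[i] d))
    (h2 : ∀ i < m + 1, ∀ j < m + 1, φ^[i] d = φ^[j] d → i = j) : 6 * (m + 1) < g (pos d) := by
  by_cases hj : ∃ j, 1 ≤ j ∧ j < m + 1 ∧ α (φ^[j] d) = e0
  · obtain ⟨j, j1, j2, j3⟩ := hj
    have huniq : ∀ i < m + 1, α (φ^[i] d) = e0 → i = j := by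
      intro i hi hi'
      exact h2 i hi j j2 (α.injective (hi'.trans j3.symm))
    have a1 := run1 piece R (j - 1) d (fun i hi => h0 i (by omega))
      (fun i hi1 hi2 => h1 i hi1 (by omega))
      (fun i hi1 hi2 h => by have := huniq i (by omega) h; omega)
    have a2 := run1 piece R (m - j) (φ^[j] d)
      (fun i hi => by rw [← Function.iterate_add_apply]; exact h0 _ (by omega))
      (fun i hi1 hi2 => by rw [← Function.iterate_add_apply]; exact h1 _ (by omega) (by omega))
      (fun i hi1 hi2 h => by
        rw [← Function.iterate_add_apply] at h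
        have := huniq _ (by omega) h
        omega)
    rw [g_iter hg R j d (fun i hi => h0 i (by omega))] at a2
    omega
  · push Not at hj
    have := run1 piece R m d h0 h1 (fun i hi1 hi2 => hj i hi1 hi2)
    omega

omit [Fintype D] in
theorem sameCycle_iter (d : D) (i : ℕ) : φ.SameCycle d (φ^[i] d) := by
  refine ⟨i, ?_⟩
  rw [zpow_natCast, ← Equiv.Perm.iterate_eq_pow]

theorem per_pos (d : D) : 0 < Function.minimalPeriod φ d :=
  Function.minimalPeriod_pos_of_mem_periodicPts
    (Function.Injective.mem_periodicPts φ.injective d)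

include girth in
theorem face_len (R : Red X D φ α l pos e0) (d : D) (hd : ¬ φ.SameCycle e0 d) :
    g (pos d) ≤ Function.minimalPeriod φ d := by
  have h0 : ∀ i, φ^[i] d ≠ e0 := by
    intro i hi
    apply hd
    rw [← hi]
    exact (sameCycle_iter d i).symm
  have r1 := wd_reads R (Function.minimalPeriod φ d) d (fun i _ => h0 i)
  rw [Function.iterate_minimalPeriod] at r1
  have := girth _ _ r1 (wd_reduced R _ d) (by
    intro h
    have h' := congrArg List.length h
    rw [wd_length] at h'
    have := per_pos (φ := φ) d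
    simp at h'
    omega)
  rwa [wd_length] at this

include hg girth piece in
theorem face_big (R : Red X D φ α l pos e0) (d : D) (hd : ¬ φ.SameCycle e0 d) :
    7 ≤ (univ.filter (fun x => φ.SameCycle d x ∧ Big φ α x)).card := by
  set F := univ.filter (fun x => φ.SameCycle d x) with hF
  set B := univ.filter (fun x => φ.SameCycle d x ∧ Big φ α x) with hB
  have h0 : ∀ x, φ.SameCycle d x → ∀ i, φ^[i] x ≠ e0 := by
    intro x hx i hi
    apply hd
    rw [← hi]
    exact ((hx.trans (sameCycle_iter x i))).symm
  have hgF : ∀ x, φ.SameCycle d x → g (pos x) = g (pos d) := by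
    intro x hx
    obtain ⟨i, _, hi⟩ := hx.exists_pow_eq'
    rw [← hi, ← Equiv.Perm.iterate_eq_pow]
    exact g_iter hg R i d (fun i _ => h0 d (Equiv.Perm.SameCycle.refl _ _) i)
  have hlen : ∀ x, φ.SameCycle d x → g (pos d) ≤ Function.minimalPeriod φ x := by
    intro x hx
    rw [← hgF x hx]
    exact face_len girth R x (fun h => hd (h.trans hx.symm))
  have hsize : Function.minimalPeriod φ d ≤ F.card := by
    rw [← Finset.card_range (Function.minimalPeriod φ d)]
    apply Finset.card_le_card_of_injOn (fun i => φ^[i] d)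
    · intro i _
      simp only [hF, coe_filter, mem_univ, true_and]
      exact sameCycle_iter d i
    · intro i hi j hj hij
      simp only [coe_range] at hi hj
      exact Function.iterate_injOn_Iio_minimalPeriod hi hj hij
  have hrun : ∀ m x, φ.SameCycle d x → m + 1 ≤ g (pos d) →
      (∀ i, 1 ≤ i → i < m + 1 → ¬ Big φ α (φ^[i] x)) → 6 * (m + 1) < g (pos d) := by
    intro m x hx hm hbig
    rw [← hgF x hx]
    refine run2 hg piece R m x (fun i _ => h0 x hx i) hbig ?_
    intro i hi j hj hij
    have := hlen x hx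
    exact Function.iterate_injOn_Iio_minimalPeriod (f := φ) (x := x)
      (Set.mem_Iio.2 (by omega)) (Set.mem_Iio.2 (by omega)) hij
  have hg0 : 0 < g (pos d) := by
    have := run1 piece R 0 d (fun i _ => h0 d (Equiv.Perm.SameCycle.refl _ _) i)
      (fun i h1 h2 => by omega) (fun i h1 h2 => by omega)
    omega
  set M := (g (pos d) - 1) / 6 with hM
  have hM1 : 6 * M < g (pos d) := by omega
  have hM2 : g (pos d) ≤ 6 * (M + 1) := by omega
  have hcover : F ⊆ (range M).biUnion (fun i => B.image (fun x => φ^[i] x)) := by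
    intro x hx
    simp only [hF, mem_filter, mem_univ, true_and] at hx
    obtain ⟨b, hb⟩ : ∃ b, φ^[M] b = x := (φ.surjective.iterate M) x
    have hb' : φ.SameCycle d b := by
      rw [← hb] at hx
      exact hx.trans (sameCycle_iter b M).symm
    have hex : ∃ i, 1 ≤ i ∧ i < M + 1 ∧ Big φ α (φ^[i] b) := by
      by_contra hcon
      push Not at hcon
      have := hrun M b hb' (by omega) hcon
      omega
    obtain ⟨i, i1, i2, i3⟩ := hex
    simp only [mem_biUnion, mem_range, mem_image]
    refine ⟨M - i, by omega, φ^[i] b, ?_, ?_⟩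
    · simp only [hB, mem_filter, mem_univ, true_and]
      exact ⟨hb'.trans (sameCycle_iter b i), i3⟩
    · rw [← Function.iterate_add_apply]
      rw [show M - i + i = M by omega, hb]
  have hcard : F.card ≤ M * B.card := by
    refine (card_le_card hcover).trans (card_biUnion_le.trans ?_)
    calc ∑ i ∈ range M, (B.image (fun x => φ^[i] x)).card ≤ ∑ i ∈ range M, B.card :=
          sum_le_sum (fun i _ => card_image_le)
      _ = M * B.card := by simp
  have hfin := hlen d (Equiv.Perm.SameCycle.refl _ _)
  by_contra hcon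
  push Not at hcon
  have : M * B.card ≤ M * 6 := Nat.mul_le_mul_left _ (by omega)
  omega

end run

end Pool.Agent.Helper784WE.E
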