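import Mathlib
import Pool.Agent.Helper784WE.E7

/-!
Module E: injectivity for graphical small cancellation, `theorem specE : SpecE`.
-/

set_option autoImplicit false

open Finset
open scoped Classical

namespace Pool.Agent.Helper784WE.E

variable {S V : Type}

theorem red_false {X : LG S V} {D : Type} [Fintype D] {φ α : Equiv.Perm D} {l : D → S × Bool}
    {pos : D → V} {e0 : D} {g : V → ℕ} (hg : ∀ x s y, X.E x s y → g x = g y)
    (girth : ∀ x w, X.Reads x w x → FreeGroup.IsReduced w → w ≠ [] → g x ≤ w.length)
    (piece : ∀ x y w u v, x ≠ y → FreeGroup.IsReduced w → X.Reads x w u → X.Reads y w v →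
      12 * w.length < g x)
    (R : Red X D φ α l pos e0) : False := by
  have : Nonempty D := ⟨e0⟩
  have hE := euler φ α R.αα R.ex
  -- no vertex of degree one
  have hdeg : ∀ d, φ (α d) ≠ d := by
    intro d h
    apply R.ha (α d)
    rw [h, R.lα, iv_iv]
  set B := (univ.filter (fun x => Big φ α x)).card with hB
  -- vertices
  have hV : 6 * Fintype.card (Orb (φ * α)) + B ≤ 3 * Fintype.card D := by
    have h1 := weight (φ * α) (fun _ => 6) (fun x => if Big φ α x then 2 else 3) (by
      intro d
      have hs : ∀ i : ℕ, (φ * α).SameCycle d (((φ * α) ^ i) d) := fun i => ⟨i, by simp⟩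
      have s0 := hs 0
      have s1 := hs 1
      have s2 := hs 2
      rw [pow_zero] at s0
      rw [pow_one] at s1
      rw [pow_two] at s2
      simp only [Equiv.Perm.mul_apply, Equiv.Perm.one_apply] at s0 s1 s2
      by_cases hd : Big φ α d
      · have h2 : ({d, φ (α d), φ (α (φ (α d)))} : Finset D) ⊆
            univ.filter (fun x => (φ * α).SameCycle d x) := by
          intro x hx
          simp only [mem_insert, mem_singleton] at hx
          simp only [mem_filter, mem_univ, true_and]
          rcases hx with rfl | rfl | rfl <;> assumption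
        have h3 : ({d, φ (α d), φ (α (φ (α d)))} : Finset D).card = 3 := by
          rw [card_eq_three]
          refine ⟨_, _, _, (hdeg d).symm, Ne.symm hd, ?_, rfl⟩
          intro h
          exact hdeg d (α.injective (φ.injective h.symm))
        calc 6 = ∑ x ∈ ({d, φ (α d), φ (α (φ (α d)))} : Finset D), 2 := by
              rw [sum_const, h3]; rfl
          _ ≤ ∑ x ∈ ({d, φ (α d), φ (α (φ (α d)))} : Finset D),
                (if Big φ α x then 2 else 3) := by
              apply sum_le_sum
              intro x _
              split_ifs <;> omega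
          _ ≤ _ := sum_le_sum_of_subset h2
      · have h2 : ({d, φ (α d)} : Finset D) ⊆
            univ.filter (fun x => (φ * α).SameCycle d x) := by
          intro x hx
          simp only [mem_insert, mem_singleton] at hx
          simp only [mem_filter, mem_univ, true_and]
          rcases hx with rfl | rfl <;> assumption
        have h4 : ¬ Big φ α (φ (α d)) := by
          intro h
          apply h
          unfold Big at hd
          push Not at hd
          rw [hd]
        calc 6 = ∑ x ∈ ({d, φ (α d)} : Finset D), (if Big φ α x then 2 else 3) := by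
              rw [sum_pair (hdeg d).symm, if_neg hd, if_neg h4]
          _ ≤ _ := sum_le_sum_of_subset h2)
    have h2 : ∑ x : D, (if Big φ α x then 2 else 3) + B = 3 * Fintype.card D := by
      rw [hB, card_filter, ← sum_add_distrib]
      calc ∑ x : D, ((if Big φ α x then 2 else 3) + if Big φ α x then 1 else 0) =
          ∑ x : D, 3 := by
            apply sum_congr rfl
            intro x _
            split_ifs <;> rfl
        _ = _ := by simp [mul_comm]
    have h3 : ∑ q : Orb (φ * α), 6 = 6 * Fintype.card (Orb (φ * α)) := by
      simp [mul_comm]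
    omega
  -- faces
  have hF : 7 * Fintype.card (Orb φ) ≤ B + 7 := by
    have h1 := weight φ (fun q => if q = Quotient.mk _ e0 then 0 else 7)
      (fun x => if Big φ α x then 1 else 0) (by
      intro d
      by_cases hd : φ.SameCycle e0 d
      · have : (Quotient.mk (Equiv.Perm.SameCycle.setoid φ) d) = Quotient.mk _ e0 :=
          Quotient.sound hd.symm
        simp [this]
      · have h2 : (Quotient.mk (Equiv.Perm.SameCycle.setoid φ) d) ≠ Quotient.mk _ e0 := by
          intro h
          exact hd (Quotient.exact h).symm
        rw [if_neg h2]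
        refine (face_big hg girth piece R d hd).trans (le_of_eq ?_)
        rw [← filter_filter, card_filter])
    rw [← card_filter] at h1
    have h2 : ∑ q : Orb φ, (if q = Quotient.mk _ e0 then 0 else 7) + 7 =
        7 * Fintype.card (Orb φ) := by
      have e1 : ∑ q : Orb φ, (if q = Quotient.mk _ e0 then 7 else 0) = 7 := by simp
      calc ∑ q : Orb φ, (if q = Quotient.mk _ e0 then 0 else 7) + 7 =
          ∑ q : Orb φ, (if q = Quotient.mk _ e0 then 0 else 7) +
            ∑ q : Orb φ, (if q = Quotient.mk _ e0 then 7 else 0) := by rw [e1]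
        _ = ∑ q : Orb φ, 7 := by
            rw [← sum_add_distrib]
            apply sum_congr rfl
            intro x _
            split_ifs <;> rfl
        _ = _ := by simp [mul_comm]
    omega
  -- edges
  have hA : 2 * Fintype.card (Orb α) ≤ Fintype.card D := by
    have h1 := weight α (fun _ => 2) (fun _ => 1) (by
      intro d
      have h2 : ({d, α d} : Finset D) ⊆ univ.filter (fun x => α.SameCycle d x) := by
        intro x hx
        simp only [mem_insert, mem_singleton] at hx
        simp only [mem_filter, mem_univ, true_and]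
        rcases hx with rfl | rfl
        · exact Equiv.Perm.SameCycle.refl _ _
        · exact sameCycle_iter d 1
      calc 2 = ∑ x ∈ ({d, α d} : Finset D), 1 := by
            rw [sum_pair (R.αne d).symm]
        _ ≤ _ := sum_le_sum_of_subset h2)
    simp only [sum_const, card_univ, smul_eq_mul, mul_one] at h1
    omega
  have hF1 : 0 < Fintype.card (Orb φ) := Fintype.card_pos_iff.2 ⟨Quotient.mk _ e0⟩
  omega

theorem dia_false {X : LG S V} {g : V → ℕ} (hg : ∀ x s y, X.E x s y → g x = g y)
    (girth : ∀ x w, X.Reads x w x → FreeGroup.IsReduced w → w ≠ [] → g x ≤ w.length)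
    (piece : ∀ x y w u v, x ≠ y → FreeGroup.IsReduced w → X.Reads x w u → X.Reads y w v →
      12 * w.length < g x)
    {A : Finset ℕ} {φ α : ℕ → ℕ} {l : ℕ → S × Bool} {pos : ℕ → V} {e0 : ℕ}
    (D : Dia X A φ α l pos e0) (ha : ∀ d ∈ A, l (φ d) ≠ iv (l d))
    (hb : ∀ d ∈ A, d ≠ e0 → pos (α d) ≠ pos (φ d)) : False := by
  have i1 : Function.Injective (fun x : {x // x ∈ A} => (⟨φ x.1, D.raw.mφ x.1 x.2⟩ :
      {x // x ∈ A})) := by
    intro x y h
    exact Subtype.ext (D.raw.inj x.1 x.2 y.1 y.2 (congrArg Subtype.val h))
  have i2 : Function.Involutive (fun x : {x // x ∈ A} => (⟨α x.1, D.raw.mα x.1 x.2⟩ :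
      {x // x ∈ A})) := by
    intro x
    exact Subtype.ext (D.raw.αα x.1 x.2)
  refine red_false (X := X) (D := {x // x ∈ A})
    (φ := Equiv.ofBijective _ (Finite.injective_iff_bijective.1 i1))
    (α := i2.toPerm) (l := fun x => l x.1) (pos := fun x => pos x.1) (e0 := ⟨e0, D.e0A⟩)
    hg girth piece ⟨?_, ?_, ?_, ?_, ?_, ?_, ?_, ?_⟩
  · intro d; exact i2 d
  · intro d h
    exact D.αne d.1 d.2 (congrArg Subtype.val h)
  · intro d; exact D.lα d.1 d.2
  · intro d hd
    exact D.reg d.1 d.2 (fun h => hd (Subtype.ext h))
  · exact D.irr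
  · intro d; exact ha d.1 d.2
  · intro d hd
    exact hb d.1 d.2 (fun h => hd (Subtype.ext h))
  · intro h f1 h1 h2
    obtain ⟨f, hf⟩ := D.raw.ex (fun x => if hx : x ∈ A then h ⟨x, hx⟩ else 0)
      (fun x => if hx : x ∈ A then f1 ⟨x, hx⟩ else 0) (by
      intro x hx
      have := h1 ⟨x, hx⟩
      simp only [hx, D.raw.mα x hx, dif_pos]
      exact this) (by
      intro x hx
      have := h2 ⟨x, hx⟩
      simp only [hx, D.raw.mφ x hx, dif_pos]
      exact this)
    refine ⟨fun x => f x.1, ?_⟩
    intro x
    have := hf x.1 x.2
    simp only [x.2, dif_pos] at this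
    exact this

end Pool.Agent.Helper784WE.E

namespace Pool.Agent.Helper784WE

/-- Module E: graphical small cancellation, injectivity. -/
theorem specE : SpecE := by
  intro S V X g hg girth piece x y w hr hw
  by_contra hne
  obtain ⟨A, φ, α, l, pos, e0, D, ha, hb⟩ := E.dia_min (E.dia_exists hr hw hne)
  exact E.dia_false hg girth piece D ha hb

end Pool.Agent.Helper784WE
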