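import Mathlib
import Pool.Agent.Helper784WE.Spec

/-!
Module F, part 1: words read in labelled graphs, counting lemmas.
-/

set_option autoImplicit false

open Finset
open scoped Classical

namespace Pool.Agent.Helper784WE.F

variable {S V : Type}

/-! ### Reading words -/

/-- a step is determined by its origin and its letter -/
theorem step_det (X : LG S V) {x y y' : V} {a : S × Bool} (h : X.Step x a y)
    (h' : X.Step x a y') : y = y' := by
  unfold LG.Step at h h'
  split_ifs at h h' with hb
  · exact X.det h h'
  · exact X.codet h h'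

/-- a step is determined by its end and its letter -/
theorem step_codet (X : LG S V) {x x' y : V} {a : S × Bool} (h : X.Step x a y)
    (h' : X.Step x' a y) : x = x' := by
  unfold LG.Step at h h'
  split_ifs at h h' with hb
  · exact X.codet h h'
  · exact X.det h h'

theorem reads_nil_iff (X : LG S V) {x z : V} : X.Reads x [] z ↔ x = z := by
  constructor
  · intro h; cases h; rfl
  · rintro rfl; exact LG.Reads.nil x

theorem reads_cons_iff (X : LG S V) {x z : V} {a : S × Bool} {w : List (S × Bool)} :
    X.Reads x (a :: w) z ↔ ∃ y, X.Step x a y ∧ X.Reads y w z := by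
  constructor
  · intro h
    cases h with
    | cons h1 h2 => exact ⟨_, h1, h2⟩
  · rintro ⟨y, h1, h2⟩; exact LG.Reads.cons h1 h2

theorem reads_append_iff (X : LG S V) {x z : V} {w w' : List (S × Bool)} :
    X.Reads x (w ++ w') z ↔ ∃ y, X.Reads x w y ∧ X.Reads y w' z := by
  induction w generalizing x with
  | nil =>
    rw [List.nil_append]
    constructor
    · intro h; exact ⟨x, LG.Reads.nil x, h⟩
    · rintro ⟨y, h1, h2⟩
      rw [reads_nil_iff] at h1
      subst h1; exact h2
  | cons a w ih =>
    rw [List.cons_append, reads_cons_iff]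
    constructor
    · rintro ⟨y, h1, h2⟩
      obtain ⟨y', h3, h4⟩ := ih.mp h2
      exact ⟨y', (reads_cons_iff X).mpr ⟨y, h1, h3⟩, h4⟩
    · rintro ⟨y', h1, h2⟩
      obtain ⟨y, h3, h4⟩ := (reads_cons_iff X).mp h1
      exact ⟨y, h3, ih.mpr ⟨y', h4, h2⟩⟩

theorem reads_det (X : LG S V) {w : List (S × Bool)} : ∀ {x z z' : V},
    X.Reads x w z → X.Reads x w z' → z = z' := by
  induction w with
  | nil =>
    intro x z z' h h'
    rw [reads_nil_iff] at h h'
    exact h.symm.trans h'
  | cons a w ih =>
    intro x z z' h h'
    obtain ⟨y, h1, h2⟩ := (reads_cons_iff X).mp h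
    obtain ⟨y', h3, h4⟩ := (reads_cons_iff X).mp h'
    rw [step_det X h1 h3] at h2
    exact ih h2 h4

/-- an initial segment of a word is read -/
theorem reads_take (X : LG S V) {x z : V} {w : List (S × Bool)} (h : X.Reads x w z) (l : ℕ) :
    ∃ y, X.Reads x (w.take l) y := by
  rw [← List.take_append_drop l w, reads_append_iff] at h
  obtain ⟨y, h1, _⟩ := h
  exact ⟨y, h1⟩

/-! ### Pullback of a labelled graph -/

/-- the induced labelled graph along an injective map -/
def pull {V' : Type} (X : LG S V) (φ : V' → V) (hφ : Function.Injective φ) : LG S V' where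
  E x s y := X.E (φ x) s (φ y)
  det h h' := hφ (X.det h h')
  codet h h' := hφ (X.codet h h')

theorem pull_step {V' : Type} (X : LG S V) (φ : V' → V) (hφ : Function.Injective φ) {x y : V'}
    {a : S × Bool} : (pull X φ hφ).Step x a y ↔ X.Step (φ x) a (φ y) := by
  unfold LG.Step pull
  split_ifs <;> rfl

theorem pull_reads {V' : Type} (X : LG S V) (φ : V' → V) (hφ : Function.Injective φ)
    {w : List (S × Bool)} : ∀ {x y : V'}, (pull X φ hφ).Reads x w y → X.Reads (φ x) w (φ y) := by
  induction w with
  | nil =>
    intro x y h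
    rw [reads_nil_iff] at h ⊢
    rw [h]
  | cons a w ih =>
    intro x y h
    rw [reads_cons_iff] at h ⊢
    obtain ⟨z, h1, h2⟩ := h
    exact ⟨φ z, (pull_step X φ hφ).mp h1, ih h2⟩

/-! ### The words of a given length read from a vertex -/

/-- a letter can be read at a vertex -/
def Rd (X : LG S V) (x : V) (a : S × Bool) : Prop := ∃ y, X.Step x a y

/-- at most `D` letters can be read at each vertex -/
def Deg [Fintype S] (X : LG S V) (D : ℕ) : Prop :=
  ∀ x, (univ.filter (fun a : S × Bool => Rd X x a)).card ≤ D

/-- the words of length `l` read from `x` -/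
noncomputable def wds [Fintype S] (X : LG S V) : ℕ → V → Finset (List (S × Bool))
  | 0, _ => {[]}
  | l + 1, x => (univ.filter (fun a : S × Bool => Rd X x a)).biUnion
      (fun a => if h : ∃ y, X.Step x a y then (wds X l h.choose).image (fun w => a :: w) else ∅)

theorem mem_wds [Fintype S] (X : LG S V) (l : ℕ) : ∀ (x : V) (w : List (S × Bool)),
    w ∈ wds X l x ↔ w.length = l ∧ ∃ y, X.Reads x w y := by
  induction l with
  | zero =>
    intro x w
    unfold wds
    rw [mem_singleton]
    constructor
    · rintro rfl
      exact ⟨rfl, x, LG.Reads.nil x⟩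
    · rintro ⟨h, _⟩
      exact List.length_eq_zero_iff.mp h
  | succ l ih =>
    intro x w
    unfold wds
    simp only [mem_biUnion, mem_filter, mem_univ, true_and, Rd]
    constructor
    · rintro ⟨a, ha, hw⟩
      rw [dif_pos ha, mem_image] at hw
      obtain ⟨w', hw', rfl⟩ := hw
      rw [ih] at hw'
      obtain ⟨h1, z, h2⟩ := hw'
      exact ⟨by rw [List.length_cons, h1], z, LG.Reads.cons ha.choose_spec h2⟩
    · rintro ⟨h1, z, h2⟩
      cases w with
      | nil => simp at h1
      | cons a w' =>
        obtain ⟨y, h3, h4⟩ := (reads_cons_iff X).mp h2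
        have ha : ∃ y, X.Step x a y := ⟨y, h3⟩
        refine ⟨a, ha, ?_⟩
        rw [dif_pos ha, mem_image]
        refine ⟨w', ?_, rfl⟩
        rw [ih]
        refine ⟨by simpa using h1, z, ?_⟩
        rw [step_det X ha.choose_spec h3]
        exact h4

theorem card_wds [Fintype S] (X : LG S V) (D : ℕ) (hd : Deg X D) (l : ℕ) :
    ∀ x : V, (wds X l x).card ≤ D ^ l := by
  induction l with
  | zero =>
    intro x
    unfold wds
    simp
  | succ l ih =>
    intro x
    unfold wds
    calc _ ≤ ∑ a ∈ univ.filter (fun a : S × Bool => Rd X x a),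
          (if h : ∃ y, X.Step x a y then (wds X l h.choose).image (fun w => a :: w)
            else ∅ : Finset (List (S × Bool))).card := card_biUnion_le
      _ ≤ ∑ a ∈ univ.filter (fun a : S × Bool => Rd X x a), D ^ l := by
          apply sum_le_sum
          intro a ha
          rw [mem_filter] at ha
          have ha2 : ∃ y, X.Step x a y := ha.2
          rw [dif_pos ha2]
          exact card_image_le.trans (ih _)
      _ = (univ.filter (fun a : S × Bool => Rd X x a)).card * D ^ l := by
          rw [sum_const, smul_eq_mul]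
      _ ≤ D * D ^ l := Nat.mul_le_mul_right _ (hd x)
      _ = D ^ (l + 1) := by ring

/-! ### Walks with distinct edges -/

theorem red_mid {α : Type} {L : List (α × Bool)} (h : FreeGroup.IsReduced L)
    (a b c : List (α × Bool)) (hL : L = a ++ b ++ c) : FreeGroup.IsReduced b := by
  subst hL
  unfold FreeGroup.IsReduced at *
  rw [List.isChain_append] at h
  have h1 := h.1
  rw [List.isChain_append] at h1
  exact h1.2.1

theorem red_take {α : Type} {L : List (α × Bool)} (h : FreeGroup.IsReduced L) (l : ℕ) :
    FreeGroup.IsReduced (L.take l) :=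
  red_mid h [] (L.take l) (L.drop l) (by simp)

theorem split_dup {α : Type} : ∀ (L : List (α × Bool)), ¬ (L.map Prod.fst).Nodup →
    ∃ a e b c b' d, L = a ++ (e, b) :: (c ++ (e, b') :: d) := by
  intro L
  induction L with
  | nil => intro h; simp at h
  | cons x t ih =>
    intro h
    rw [List.map_cons, List.nodup_cons, not_and_or, not_not] at h
    rcases h with h | h
    · rw [List.mem_map] at h
      obtain ⟨y, hy, hxy⟩ := h
      obtain ⟨c, d, hcd⟩ := List.append_of_mem hy
      refine ⟨[], x.1, x.2, c, y.2, d, ?_⟩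
      rw [hcd, ← hxy]
      simp only [List.nil_append, Prod.mk.eta]
      rw [hxy]
    · obtain ⟨a, e, b, c, b', d, hL⟩ := ih h
      exact ⟨x :: a, e, b, c, b', d, by rw [hL, List.cons_append]⟩

/-- every label is on at most one edge -/
def Uniq (Y : LG S V) : Prop := ∀ {e : S} {x y x' y' : V}, Y.E x e y → Y.E x' e y' → x = x' ∧ y = y'

theorem dup_closed (Y : LG S V) (hu : Uniq Y) {x y : V} {p : List (S × Bool)}
    (hr : Y.Reads x p y) (hred : FreeGroup.IsReduced p) (hd : ¬ (p.map Prod.fst).Nodup) :
    ∃ x' p', p' ≠ [] ∧ FreeGroup.IsReduced p' ∧ Y.Reads x' p' x' ∧ p'.length < p.length := by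
  obtain ⟨a, e, b, c, b', d, rfl⟩ := split_dup p hd
  rw [reads_append_iff] at hr
  obtain ⟨x1, h1, hr⟩ := hr
  rw [reads_cons_iff] at hr
  obtain ⟨x2, h2, hr⟩ := hr
  rw [reads_append_iff] at hr
  obtain ⟨x3, h3, hr⟩ := hr
  rw [reads_cons_iff] at hr
  obtain ⟨x4, h4, hr⟩ := hr
  by_cases hb : b = b'
  · subst hb
    have hx : x1 = x3 := by
      unfold LG.Step at h2 h4
      split_ifs at h2 h4 with hb
      · exact (hu h2 h4).1
      · exact (hu h2 h4).2
    subst hx
    refine ⟨x1, (e, b) :: c, by simp, ?_, LG.Reads.cons h2 h3, ?_⟩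
    · exact red_mid hred a _ ((e, b) :: d) (by simp)
    · simp only [List.length_append, List.length_cons]; omega
  · have hx : x2 = x3 := by
      unfold LG.Step at h2 h4
      split_ifs at h2 h4 with hb1 hb2 hb2
      · exact absurd (by simp only at hb1 hb2; rw [hb1, hb2]) hb
      · exact (hu h2 h4).2
      · exact (hu h2 h4).1
      · exact absurd (by simp only [Bool.not_eq_true] at hb1 hb2; rw [hb1, hb2]) hb
    subst hx
    refine ⟨x2, c, ?_, ?_, h3, ?_⟩
    · rintro rfl
      have h5 : FreeGroup.IsReduced ((e, b) :: (e, b') :: d) := red_mid hred a _ [] (by simp)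
      rw [FreeGroup.isReduced_cons_cons] at h5
      exact hb (h5.1 rfl)
    · exact red_mid hred (a ++ [(e, b)]) _ ((e, b') :: d) (by simp)
    · simp only [List.length_append, List.length_cons]; omega

/-- a reduced closed walk contains a closed walk with distinct edges -/
theorem exists_nodup_closed (Y : LG S V) (hu : Uniq Y) : ∀ (n : ℕ) (x : V) (p : List (S × Bool)),
    p.length ≤ n → p ≠ [] → FreeGroup.IsReduced p → Y.Reads x p x →
    ∃ x' p', p' ≠ [] ∧ (p'.map Prod.fst).Nodup ∧ Y.Reads x' p' x' ∧ p'.length ≤ p.length := by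
  intro n
  induction n with
  | zero =>
    intro x p h hne
    exact absurd (List.length_eq_zero_iff.mp (by omega)) hne
  | succ n ih =>
    intro x p h hne hred hr
    by_cases hd : (p.map Prod.fst).Nodup
    · exact ⟨x, p, hne, hd, hr, le_rfl⟩
    · obtain ⟨x', p', h1, h2, h3, h4⟩ := dup_closed Y hu hr hred hd
      obtain ⟨x'', p'', h5, h6, h7, h8⟩ := ih x' p' (by omega) h1 h2 h3
      exact ⟨x'', p'', h5, h6, h7, by omega⟩

/-- no closed walk with distinct edges and length less than `g` -/
def Gir (Y : LG S V) (g : ℕ) : Prop :=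
  ∀ x p, p ≠ [] → (p.map Prod.fst).Nodup → Y.Reads x p x → g ≤ p.length

theorem girth_of_Gir (Y : LG S V) (hu : Uniq Y) {g : ℕ} (hg : Gir Y g) {x : V}
    {p : List (S × Bool)} (hne : p ≠ []) (hred : FreeGroup.IsReduced p) (hr : Y.Reads x p x) :
    g ≤ p.length := by
  obtain ⟨x', p', h1, h2, h3, h4⟩ := exists_nodup_closed Y hu p.length x p le_rfl hne hred hr
  exact (hg x' p' h1 h2 h3).trans h4

theorem nodup_of_Gir (Y : LG S V) (hu : Uniq Y) {g : ℕ} (hg : Gir Y g) {x y : V}
    {p : List (S × Bool)} (hred : FreeGroup.IsReduced p) (hr : Y.Reads x p y)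
    (hl : p.length ≤ g) : (p.map Prod.fst).Nodup := by
  by_contra hd
  obtain ⟨x', p', h1, h2, h3, h4⟩ := dup_closed Y hu hr hred hd
  have := girth_of_Gir Y hu hg h1 h2 h3
  omega

/-! ### Counting -/

/-- Functions determined by their values outside `T`. -/
theorem count_det {E K : Type} [Fintype E] [DecidableEq E] [Fintype K] (P : (E → K) → Prop) (T : Finset E)
    (h : ∀ f f', P f → P f' → (∀ e, e ∉ T → f e = f' e) → f = f') :
    (univ.filter P).card * Fintype.card K ^ T.card ≤ Fintype.card K ^ Fintype.card E := by
  have h1 : (univ.filter P).card ≤ Fintype.card ({e // e ∉ T} → K) := by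
    rw [← Finset.card_univ]
    apply Finset.card_le_card_of_injOn (fun f e => f e.1)
    · intro f _; simp
    · intro f hf f' hf' hff
      simp only [coe_filter, mem_univ, true_and, Set.mem_ofPred_eq] at hf hf'
      exact h f f' hf hf' (fun e he => congrFun hff ⟨e, he⟩)
  have h2 : Fintype.card ({e // e ∉ T} → K) = Fintype.card K ^ (Fintype.card E - T.card) := by
    rw [Fintype.card_fun]
    congr 1
    rw [Fintype.card_subtype_compl]
    simp
  have h3 : T.card ≤ Fintype.card E := card_le_univ T
  calc (univ.filter P).card * Fintype.card K ^ T.card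
      ≤ Fintype.card K ^ (Fintype.card E - T.card) * Fintype.card K ^ T.card :=
        Nat.mul_le_mul_right _ (h1.trans h2.le)
    _ = Fintype.card K ^ Fintype.card E := by rw [← pow_add, Nat.sub_add_cancel h3]

/-- average bound -/
def Av {Ω : Type} [Fintype Ω] (W : Ω → ℝ) (M : ℝ) : Prop := ∑ ω, W ω ≤ M * Fintype.card Ω

theorem Av.add {Ω : Type} [Fintype Ω] {W W' : Ω → ℝ} {M M' : ℝ} (h : Av W M) (h' : Av W' M') :
    Av (fun ω => W ω + W' ω) (M + M') := by
  unfold Av at *
  rw [sum_add_distrib, add_mul]
  exact add_le_add h h'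

theorem Av.sum {Ω ι : Type} [Fintype Ω] {s : Finset ι} {W : ι → Ω → ℝ} {M : ι → ℝ}
    (h : ∀ i ∈ s, Av (W i) (M i)) : Av (fun ω => ∑ i ∈ s, W i ω) (∑ i ∈ s, M i) := by
  unfold Av at *
  rw [sum_comm, sum_mul]
  exact sum_le_sum h

theorem Av.mul {Ω : Type} [Fintype Ω] {W : Ω → ℝ} {M c : ℝ} (hc : 0 ≤ c) (h : Av W M) :
    Av (fun ω => c * W ω) (c * M) := by
  unfold Av at *
  rw [← mul_sum, mul_assoc]
  exact mul_le_mul_of_nonneg_left h hc

theorem Av.mono {Ω : Type} [Fintype Ω] {W : Ω → ℝ} {M M' : ℝ} (h : Av W M) (hM : M ≤ M') :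
    Av W M' := by
  unfold Av at *
  exact h.trans (mul_le_mul_of_nonneg_right hM (Nat.cast_nonneg _))

theorem Av.exists {Ω : Type} [Fintype Ω] [Nonempty Ω] {W : Ω → ℝ} {M : ℝ} (h : Av W M) :
    ∃ ω, W ω ≤ M := by
  unfold Av at h
  by_contra hcon
  push Not at hcon
  have : ∑ ω : Ω, M < ∑ ω, W ω := sum_lt_sum_of_nonempty univ_nonempty (fun ω _ => hcon ω)
  rw [sum_const, nsmul_eq_mul, card_univ] at this
  linarith [mul_comm M (Fintype.card Ω : ℝ)]

/-- first moment of the number of configurations -/
theorem Av.cfg {Ω ι : Type} [Fintype Ω] (C : Finset ι) (R : ι → Ω → Prop) (Q : ℝ) (hQ : 0 < Q)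
    (h : ∀ c ∈ C, ((univ.filter (R c)).card : ℝ) * Q ≤ Fintype.card Ω) :
    Av (fun ω => ((C.filter (fun c => R c ω)).card : ℝ)) (C.card / Q) := by
  unfold Av
  have h1 : ∑ ω, ((C.filter (fun c => R c ω)).card : ℝ) = ∑ c ∈ C, ((univ.filter (R c)).card : ℝ) := by
    have : ∀ ω, ((C.filter (fun c => R c ω)).card : ℝ) = ∑ c ∈ C, if R c ω then (1 : ℝ) else 0 := by
      intro ω; rw [sum_boole]
    simp only [this]
    rw [sum_comm]
    apply sum_congr rfl
    intro c _
    rw [sum_boole]
  rw [h1]
  calc ∑ c ∈ C, ((univ.filter (R c)).card : ℝ) ≤ ∑ c ∈ C, (Fintype.card Ω : ℝ) / Q := by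
        apply sum_le_sum
        intro c hc
        rw [le_div_iff₀ hQ]
        exact h c hc
    _ = C.card / Q * Fintype.card Ω := by
        rw [sum_const, nsmul_eq_mul]; ring

/-- the label word of a walk -/
def lab {E K : Type} (lam : E → K) (p : List (E × Bool)) : List (K × Bool) :=
  p.map (fun d => (lam d.1, d.2))

theorem lab_length {E K : Type} (lam : E → K) (p : List (E × Bool)) :
    (lab lam p).length = p.length := by
  unfold lab; rw [List.length_map]

/-- two walks have the same label word -/
def SameW {E K : Type} (p p' : List (E × Bool)) (lam : E → K) : Prop := lab lam p = lab lam p'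

/-- a walk has a given label word -/
def IsW {E K : Type} (p : List (E × Bool)) (w : List (K × Bool)) (lam : E → K) : Prop :=
  lab lam p = w

/-- Labellings for which two walks without common edges at the same place have the same label
word. -/
theorem count_pair {E K : Type} [Fintype E] [DecidableEq E] [Fintype K] (s : ℕ) (hK : Fintype.card K = s ^ 2)
    (hs : 1 ≤ s)
    (p p' : List (E × Bool)) (hl : p.length = p'.length) (hp : (p.map Prod.fst).Nodup)
    (hp' : (p'.map Prod.fst).Nodup) (hne : ∀ z ∈ p.zip p', z.1.1 ≠ z.2.1) :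
    (univ.filter (fun lam : E → K => SameW p p' lam)).card * s ^ p.length
      ≤ Fintype.card K ^ Fintype.card E := by
  -- the constraints
  have hcon : ∀ lam : E → K, SameW p p' lam →
      ∀ z ∈ p.zip p', lam z.1.1 = lam z.2.1 := by
    intro lam hlam z hz
    unfold SameW lab at hlam
    obtain ⟨i, hi, rfl⟩ := List.mem_iff_getElem.mp hz
    rw [List.getElem_zip]
    have hi1 : i < p.length := by
      rw [List.length_zip] at hi; omega
    have hi2 : i < p'.length := by
      rw [List.length_zip] at hi; omega
    have h1 : (p.map (fun d => (lam d.1, d.2)))[i]'(by rw [List.length_map]; exact hi1) =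
      (p'.map (fun d => (lam d.1, d.2)))[i]'(by rw [List.length_map]; exact hi2) := by
      simp only [hlam]
    rw [List.getElem_map, List.getElem_map] at h1
    exact congrArg Prod.fst h1
  -- rank function
  obtain ⟨r, hr⟩ : ∃ r : E → ℕ, Function.Injective r :=
    ⟨fun e => (Fintype.equivFin E e : ℕ), fun a b h => by
      exact (Fintype.equivFin E).injective (Fin.ext h)⟩
  -- general counting for a list of edges determined by smaller ones
  have key : ∀ T : Finset E, p.length ≤ 2 * T.card →
      (∀ e ∈ T, ∃ e', r e' < r e ∧ ∀ lam : E → K, SameW p p' lam → lam e = lam e') →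
      (univ.filter (fun lam : E → K => SameW p p' lam)).card * s ^ p.length
      ≤ Fintype.card K ^ Fintype.card E := by
    intro T hT hTe
    refine le_trans ?_ (count_det (fun lam : E → K => SameW p p' lam) T ?_)
    · apply Nat.mul_le_mul_left
      rw [hK, ← pow_mul]
      exact Nat.pow_le_pow_right hs hT
    · intro f f' hf hf' hff
      have : ∀ n e, r e = n → f e = f' e := by
        intro n
        induction n using Nat.strong_induction_on with
        | _ n ih =>
          intro e he
          by_cases heT : e ∈ T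
          · obtain ⟨e', he', hlam⟩ := hTe e heT
            rw [hlam f hf, hlam f' hf']
            exact ih (r e') (by omega) e' rfl
          · exact hff e heT
      funext e
      exact this (r e) e rfl
  set z := p.zip p' with hz
  have hzl : z.length = p.length := by rw [hz, List.length_zip]; omega
  set L1 := z.filter (fun z => decide (r z.1.1 < r z.2.1)) with hL1
  set L2 := z.filter (fun z => !decide (r z.1.1 < r z.2.1)) with hL2
  have hL : L1.length + L2.length = z.length := by
    rw [hL1, hL2]
    exact (List.length_eq_length_filter_add (l := z) (fun z => decide (r z.1.1 < r z.2.1))).symm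
  have hfst : z.map (fun z => z.1.1) = p.map Prod.fst := by
    have : z.map Prod.fst = p := List.map_fst_zip hl.le
    calc z.map (fun z => z.1.1) = (z.map Prod.fst).map Prod.fst := by
          rw [List.map_map]; rfl
      _ = _ := by rw [this]
  have hsnd : z.map (fun z => z.2.1) = p'.map Prod.fst := by
    have : z.map Prod.snd = p' := List.map_snd_zip hl.ge
    calc z.map (fun z => z.2.1) = (z.map Prod.snd).map Prod.fst := by
          rw [List.map_map]; rfl
      _ = _ := by rw [this]
  by_cases hcase : z.length ≤ 2 * L1.length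
  · apply key (L1.map (fun z => z.2.1)).toFinset
    · rw [List.toFinset_card_of_nodup]
      · rw [List.length_map]; omega
      · have : (L1.map (fun z => z.2.1)).Sublist (z.map (fun z => z.2.1)) :=
          (List.filter_sublist (l := z)).map _
        exact this.nodup (by rw [hsnd]; exact hp')
    · intro e he
      rw [List.mem_toFinset, List.mem_map] at he
      obtain ⟨y, hy, rfl⟩ := he
      rw [hL1, List.mem_filter] at hy
      refine ⟨y.1.1, by simpa using hy.2, fun lam hlam => ?_⟩
      exact (hcon lam hlam y hy.1).symm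
  · apply key (L2.map (fun z => z.1.1)).toFinset
    · rw [List.toFinset_card_of_nodup]
      · rw [List.length_map]; omega
      · have : (L2.map (fun z => z.1.1)).Sublist (z.map (fun z => z.1.1)) :=
          (List.filter_sublist (l := z)).map _
        exact this.nodup (by rw [hfst]; exact hp)
    · intro e he
      rw [List.mem_toFinset, List.mem_map] at he
      obtain ⟨y, hy, rfl⟩ := he
      rw [hL2, List.mem_filter] at hy
      refine ⟨y.2.1, ?_, fun lam hlam => hcon lam hlam y hy.1⟩
      have h1 : ¬ r y.1.1 < r y.2.1 := by simpa using hy.2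
      have h2 : r y.1.1 ≠ r y.2.1 := fun h => hne y hy.1 (hr h)
      omega

/-- Labellings for which a walk with distinct edges reads a given word. -/
theorem count_word {E K : Type} [Fintype E] [DecidableEq E] [Fintype K] (p : List (E × Bool))
    (w : List (K × Bool)) (hp : (p.map Prod.fst).Nodup) :
    (univ.filter (fun lam : E → K => IsW p w lam)).card
      * Fintype.card K ^ p.length ≤ Fintype.card K ^ Fintype.card E := by
  have h := count_det (fun lam : E → K => IsW p w lam) (p.map Prod.fst).toFinset ?_
  · rwa [List.toFinset_card_of_nodup hp, List.length_map] at h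
  · intro f f' hf hf' hff
    funext e
    by_cases he : e ∈ (p.map Prod.fst).toFinset
    · rw [List.mem_toFinset, List.mem_map] at he
      obtain ⟨d, hd, rfl⟩ := he
      have h1 : p.map (fun d => (f d.1, d.2)) = p.map (fun d => (f' d.1, d.2)) := by
        unfold IsW lab at hf hf'
        rw [hf, hf']
      have h2 := (List.map_inj_left.mp h1) d hd
      exact congrArg Prod.fst h2
    · exact hff e he

end Pool.Agent.Helper784WE.F
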