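import Mathlib
import Pool.Agent.Helper784WE.F1

/-!
Module F, part 2: random graphs of bounded out-degree: expansion of large sets, few short cycles,
few vertices of large in-degree.
-/

set_option autoImplicit false

open Finset
open scoped Classical

namespace Pool.Agent.Helper784WE.F

section gr

variable {k : ℕ} {V : Type}

/-- the graph with the edges `e = (a, v)` from `v` to `f e`, those in `Bad` removed -/
def gr (f : Fin k × V → V) (Bad : Finset (Fin k × V)) : LG (Fin k × V) V where
  E x e y := e ∉ Bad ∧ e.2 = x ∧ f e = y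
  det h h' := h.2.2.symm.trans h'.2.2
  codet h h' := h.2.1.symm.trans h'.2.1

theorem gr_uniq (f : Fin k × V → V) (Bad : Finset (Fin k × V)) : Uniq (gr f Bad) := by
  intro e x y x' y' h h'
  exact ⟨h.2.1.symm.trans h'.2.1, h.2.2.symm.trans h'.2.2⟩

/-- edges and prescribed targets of a pattern -/
def cns : V → List (Fin k × Bool × V) → List ((Fin k × V) × V)
  | _, [] => []
  | x, (a, o, y) :: t => (if o then ((a, x), y) else ((a, y), x)) :: cns y t

/-- last vertex of a pattern -/
def lst : V → List (Fin k × Bool × V) → V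
  | x, [] => x
  | _, (_, _, y) :: t => lst y t

theorem length_cns : ∀ (τ : List (Fin k × Bool × V)) (x : V), (cns x τ).length = τ.length := by
  intro τ
  induction τ with
  | nil => intro x; rfl
  | cons a τ ih =>
    intro x
    obtain ⟨a, o, y⟩ := a
    unfold cns
    rw [List.length_cons, List.length_cons, ih]

theorem trace (f : Fin k × V → V) (Bad : Finset (Fin k × V)) :
    ∀ (p : List ((Fin k × V) × Bool)) (x y : V), (gr f Bad).Reads x p y →
    ∃ τ : List (Fin k × Bool × V), τ.length = p.length ∧
      (cns x τ).map Prod.fst = p.map Prod.fst ∧ (∀ c ∈ cns x τ, f c.1 = c.2) ∧ lst x τ = y := by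
  intro p
  induction p with
  | nil =>
    intro x y h
    rw [reads_nil_iff] at h
    exact ⟨[], rfl, rfl, by simp [cns], h⟩
  | cons d p ih =>
    intro x y h
    obtain ⟨y', h1, h2⟩ := (reads_cons_iff _).mp h
    obtain ⟨τ, h3, h4, h5, h6⟩ := ih y' y h2
    obtain ⟨⟨a, v⟩, b⟩ := d
    unfold LG.Step at h1
    cases b with
    | true =>
      rw [if_pos rfl] at h1
      obtain ⟨_, hv, hf⟩ := h1
      simp only at hv hf
      subst hv
      refine ⟨(a, true, y') :: τ, by simp [h3], ?_, ?_, ?_⟩
      · simp only [cns, if_true, List.map_cons, h4]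
      · intro c hc
        simp only [cns, if_true, List.mem_cons] at hc
        rcases hc with rfl | hc
        · exact hf
        · exact h5 c hc
      · exact h6
    | false =>
      rw [if_neg (by simp)] at h1
      obtain ⟨_, hv, hf⟩ := h1
      simp only at hv hf
      subst hv
      refine ⟨(a, false, v) :: τ, by simp [h3], ?_, ?_, ?_⟩
      · simp only [cns, Bool.false_eq_true, if_false, List.map_cons, h4]
      · intro c hc
        simp only [cns, Bool.false_eq_true, if_false, List.mem_cons] at hc
        rcases hc with rfl | hc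
        · exact hf
        · exact h5 c hc
      · exact h6

/-- the pattern is realised -/
def Real (L : List ((Fin k × V) × V)) (f : Fin k × V → V) : Prop := ∀ c ∈ L, f c.1 = c.2

theorem count_real [Fintype V] [DecidableEq V] (L : List ((Fin k × V) × V)) (hL : (L.map Prod.fst).Nodup) :
    (univ.filter (fun f : Fin k × V → V => Real L f)).card * Fintype.card V ^ L.length
      ≤ Fintype.card V ^ Fintype.card (Fin k × V) := by
  have h := count_det (fun f : Fin k × V → V => Real L f) (L.map Prod.fst).toFinset ?_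
  · rwa [List.toFinset_card_of_nodup hL, List.length_map] at h
  · intro f f' hf hf' hff
    funext e
    by_cases he : e ∈ (L.map Prod.fst).toFinset
    · rw [List.mem_toFinset, List.mem_map] at he
      obtain ⟨c, hc, rfl⟩ := he
      rw [hf c hc, hf' c hc]
    · exact hff e he

/-- the list of constraints of a closed pattern -/
def cc (z : V) {j : ℕ} (τ : List.Vector (Fin k × Bool × V) j) : List ((Fin k × V) × V) :=
  cns (lst z τ.1) τ.1

theorem length_cc (z : V) {j : ℕ} (τ : List.Vector (Fin k × Bool × V) j) :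
    (cc z τ).length = j := by
  unfold cc
  rw [length_cns]
  exact τ.2

/-- closed patterns with distinct edges -/
noncomputable def CP [Fintype V] [DecidableEq V] (k : ℕ) (z : V) (j : ℕ) :
    Finset (List.Vector (Fin k × Bool × V) j) :=
  univ.filter (fun τ => ((cc z τ).map Prod.fst).Nodup)

theorem av_cyc [Fintype V] [DecidableEq V] (z : V) (j : ℕ) :
    Av (fun f : Fin k × V → V => (((CP k z j).filter (fun τ => Real (cc z τ) f)).card : ℝ))
      ((2 * k : ℝ) ^ j) := by
  have hn : (0 : ℝ) < Fintype.card V := by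
    have : 0 < Fintype.card V := Fintype.card_pos_iff.mpr ⟨z⟩
    exact_mod_cast this
  refine (Av.cfg (CP k z j) (fun τ f => Real (cc z τ) f) ((Fintype.card V : ℝ) ^ j)
    (by positivity) ?_).mono ?_
  · intro τ hτ
    unfold CP at hτ
    rw [mem_filter] at hτ
    have h := count_real (cc z τ) hτ.2
    rw [length_cc] at h
    have h2 : Fintype.card (Fin k × V → V) = Fintype.card V ^ Fintype.card (Fin k × V) := by
      rw [Fintype.card_fun]
    rw [h2]
    exact_mod_cast h
  · rw [div_le_iff₀ (by positivity)]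
    have h1 : (CP k z j).card ≤ (k * (2 * Fintype.card V)) ^ j := by
      refine (card_le_univ _).trans ?_
      rw [card_vector]
      simp
    calc ((CP k z j).card : ℝ) ≤ ((k * (2 * Fintype.card V)) ^ j : ℕ) := by exact_mod_cast h1
      _ = (2 * k : ℝ) ^ j * (Fintype.card V : ℝ) ^ j := by
          rw [← mul_pow]; push_cast; ring

/-- first edge -/
def hd1 (e0 : Fin k × V) (L : List ((Fin k × V) × V)) : Fin k × V := (L.map Prod.fst).headD e0

/-- first edges of the realised closed patterns of length less than `g` -/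
noncomputable def BadC [Fintype V] [DecidableEq V] (z : V) (e0 : Fin k × V) (g : ℕ) (f : Fin k × V → V) :
    Finset (Fin k × V) :=
  (Finset.Ico 1 g).biUnion (fun j =>
    ((CP k z j).filter (fun τ => Real (cc z τ) f)).image (fun τ => hd1 e0 (cc z τ)))

theorem card_BadC [Fintype V] [DecidableEq V] (z : V) (e0 : Fin k × V) (g : ℕ) (f : Fin k × V → V) :
    ((BadC z e0 g f).card : ℝ) ≤
      ∑ j ∈ Finset.Ico 1 g, (((CP k z j).filter (fun τ => Real (cc z τ) f)).card : ℝ) := by
  unfold BadC
  have h := card_biUnion_le (s := Finset.Ico 1 g) (t := fun j =>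
    ((CP k z j).filter (fun τ => Real (cc z τ) f)).image (fun τ => hd1 e0 (cc z τ)))
  have h2 : ∑ j ∈ Finset.Ico 1 g, (((CP k z j).filter (fun τ => Real (cc z τ) f)).image
      (fun τ => hd1 e0 (cc z τ))).card ≤
      ∑ j ∈ Finset.Ico 1 g, ((CP k z j).filter (fun τ => Real (cc z τ) f)).card :=
    sum_le_sum (fun j _ => card_image_le)
  exact_mod_cast h.trans h2

theorem lst_indep : ∀ (τ : List (Fin k × Bool × V)) (x z : V), τ ≠ [] → lst x τ = lst z τ := by
  intro τ x z h
  cases τ with
  | nil => exact absurd rfl h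
  | cons a τ => rfl

theorem gir_of_BadC [Fintype V] [DecidableEq V] (z : V) (e0 : Fin k × V) (g : ℕ) (f : Fin k × V → V)
    (Bad : Finset (Fin k × V)) (hB : BadC z e0 g f ⊆ Bad) : Gir (gr f Bad) g := by
  intro x p hne hnd hr
  by_contra hlt
  push Not at hlt
  obtain ⟨τ, h1, h2, h3, h4⟩ := trace f Bad p x x hr
  have hτ : τ ≠ [] := by
    rintro rfl
    exact hne (List.length_eq_zero_iff.mp h1.symm)
  have hx : lst z τ = x := by rw [← lst_indep τ x z hτ]; exact h4
  set v : List.Vector (Fin k × Bool × V) p.length := ⟨τ, h1⟩ with hv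
  have hcc : cc z v = cns x τ := by
    unfold cc
    rw [hv]
    simp only [hx]
  have hmem : hd1 e0 (cc z v) ∈ BadC z e0 g f := by
    unfold BadC
    rw [mem_biUnion]
    refine ⟨p.length, ?_, ?_⟩
    · rw [mem_Ico]
      exact ⟨List.length_pos_iff.mpr hne, hlt⟩
    · rw [mem_image]
      refine ⟨v, ?_, rfl⟩
      rw [mem_filter]
      unfold CP
      rw [mem_filter]
      refine ⟨⟨mem_univ _, ?_⟩, ?_⟩
      · rw [hcc, h2]; exact hnd
      · rw [hcc]; exact h3
  have hhd : hd1 e0 (cc z v) ∉ Bad := by
    unfold hd1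
    rw [hcc, h2]
    cases p with
    | nil => exact absurd rfl hne
    | cons d p =>
      obtain ⟨y', h5, h6⟩ := (reads_cons_iff _).mp hr
      simp only [List.map_cons, List.headD_cons]
      unfold LG.Step at h5
      split_ifs at h5
      · exact h5.1
      · exact h5.1
  exact hhd (hB hmem)

/-! ### In-degrees -/

/-- a pair of edges with the same target -/
def Col (p : (Fin k × V) × (Fin k × V)) (f : Fin k × V → V) : Prop := f p.1 = f p.2

/-- the pairs of different edges -/
noncomputable def PP (k : ℕ) (V : Type) [Fintype V] [DecidableEq V] :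
    Finset ((Fin k × V) × (Fin k × V)) :=
  univ.filter (fun p => p.1 ≠ p.2)

theorem av_col [Fintype V] [DecidableEq V] [Nonempty V] :
    Av (fun f : Fin k × V → V => (((PP k V).filter (fun p => Col p f)).card : ℝ))
      ((k : ℝ) ^ 2 * Fintype.card V) := by
  have hn : (0 : ℝ) < Fintype.card V := by exact_mod_cast Fintype.card_pos
  refine (Av.cfg (PP k V) Col (Fintype.card V : ℝ) hn ?_).mono ?_
  · intro p hp
    unfold PP at hp
    rw [mem_filter] at hp
    have h := count_det (fun f : Fin k × V → V => Col p f) {p.1} ?_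
    · rw [card_singleton, pow_one] at h
      have h2 : Fintype.card (Fin k × V → V) = Fintype.card V ^ Fintype.card (Fin k × V) := by
        rw [Fintype.card_fun]
      rw [h2]
      exact_mod_cast h
    · intro f f' hf hf' hff
      unfold Col at hf hf'
      funext e
      by_cases he : e = p.1
      · rw [he, hf, hf']
        exact hff p.2 (by rw [mem_singleton]; exact hp.2.symm)
      · exact hff e (by rw [mem_singleton]; exact he)
  · rw [div_le_iff₀ hn]
    have h1 : (PP k V).card ≤ (k * Fintype.card V) * (k * Fintype.card V) := by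
      refine (card_le_univ _).trans ?_
      simp
    calc ((PP k V).card : ℝ)
        ≤ ((k * Fintype.card V) * (k * Fintype.card V) : ℕ) := by exact_mod_cast h1
      _ = _ := by push_cast; ring

/-- edges into vertices with large in-degree -/
noncomputable def High [Fintype V] (D : ℕ) (f : Fin k × V → V) : Finset (Fin k × V) :=
  univ.filter (fun e => D < (univ.filter (fun e' => f e' = f e)).card)

theorem card_High [Fintype V] [DecidableEq V] (D : ℕ) (f : Fin k × V → V) :
    D * (High D f).card ≤ ((PP k V).filter (fun p => Col p f)).card := by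
  have h1 : (High D f).biUnion (fun e => ((univ.filter (fun e' => f e' = f e)).erase e).image
      (fun e' => (e, e'))) ⊆ (PP k V).filter (fun p => Col p f) := by
    intro p hp
    unfold PP Col
    simp only [mem_biUnion, mem_image, mem_erase, mem_filter, mem_univ, true_and] at hp ⊢
    obtain ⟨e, _, e', ⟨h2, h3⟩, rfl⟩ := hp
    exact ⟨h2.symm, h3.symm⟩
  refine le_trans ?_ (card_le_card h1)
  rw [card_biUnion]
  · calc D * (High D f).card = ∑ e ∈ High D f, D := by rw [sum_const, smul_eq_mul, mul_comm]
      _ ≤ _ := by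
        apply sum_le_sum
        intro e he
        unfold High at he
        rw [mem_filter] at he
        have he2 := he.2
        rw [card_image_of_injective _ (fun a b h => (Prod.mk.inj h).2),
          card_erase_of_mem (by rw [mem_filter]; exact ⟨mem_univ _, rfl⟩)]
        apply Nat.le_sub_one_of_lt
        convert he2
  · intro e _ e' _ hee
    change Disjoint _ _
    rw [Finset.disjoint_left]
    intro p hp hp'
    rw [mem_image] at hp hp'
    obtain ⟨a, _, rfl⟩ := hp
    obtain ⟨b, _, hb⟩ := hp'
    exact hee (Prod.mk.inj hb).1.symm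

theorem deg_gr [Fintype V] (D : ℕ) (f : Fin k × V → V) (Bad : Finset (Fin k × V))
    (hB : High D f ⊆ Bad) : Deg (gr f Bad) (k + D) := by
  intro x
  have h1 : univ.filter (fun a : (Fin k × V) × Bool => Rd (gr f Bad) x a) ⊆
      (univ : Finset (Fin k)).image (fun a => ((a, x), true)) ∪
      (univ.filter (fun e => e ∉ Bad ∧ f e = x)).image (fun e => (e, false)) := by
    rintro ⟨e, b⟩ h
    rw [mem_filter] at h
    obtain ⟨_, y, hy⟩ := h
    rw [mem_union, mem_image, mem_image]
    unfold LG.Step at hy
    cases b with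
    | true =>
      rw [if_pos rfl] at hy
      left
      exact ⟨e.1, mem_univ _, by rw [← hy.2.1]⟩
    | false =>
      rw [if_neg (by simp)] at hy
      right
      exact ⟨e, by rw [mem_filter]; exact ⟨mem_univ _, hy.1, hy.2.2⟩, rfl⟩
  have h2 : (univ.filter (fun e => e ∉ Bad ∧ f e = x)).card ≤ D := by
    rcases (univ.filter (fun e => e ∉ Bad ∧ f e = x)).eq_empty_or_nonempty with h | ⟨e, he⟩
    · rw [h]; simp
    · rw [mem_filter] at he
      have h3 : e ∉ High D f := fun h => he.2.1 (hB h)
      unfold High at h3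
      rw [mem_filter] at h3
      push Not at h3
      refine le_trans (card_le_card ?_) (h3 (mem_univ _))
      intro e' he'
      rw [mem_filter] at he' ⊢
      exact ⟨mem_univ _, by rw [he'.2.2, he.2.2]⟩
  refine (card_le_card h1).trans ((card_union_le _ _).trans (add_le_add ?_ ?_))
  · refine card_image_le.trans ?_
    simp
  · exact card_image_le.trans h2

/-! ### Expansion of large sets -/

/-- all out-edges of `A'` end in `A` -/
def Stay {n : ℕ} (A' A : Finset (Fin n)) (f : Fin k × Fin n → Fin n) : Prop :=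
  ∀ e : Fin k × Fin n, e.2 ∈ A' → f e ∈ A

theorem count_stay {n : ℕ} (A' A : Finset (Fin n)) (h2 : 2 * A.card ≤ n) :
    (univ.filter (fun f : Fin k × Fin n → Fin n => Stay A' A f)).card * 2 ^ (k * A'.card)
      ≤ n ^ Fintype.card (Fin k × Fin n) := by
  have h1 : univ.filter (fun f : Fin k × Fin n → Fin n => Stay A' A f)
      = Fintype.piFinset (fun e : Fin k × Fin n => if e.2 ∈ A' then A else univ) := by
    ext f
    simp only [mem_filter, mem_univ, true_and, Fintype.mem_piFinset]
    constructor
    · intro h e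
      by_cases he : e.2 ∈ A'
      · rw [if_pos he]; exact h e he
      · rw [if_neg he]; exact mem_univ _
    · intro h e he
      have := h e
      rwa [if_pos he] at this
  rw [h1, Fintype.card_piFinset]
  have h3 : ∀ e : Fin k × Fin n, (if e.2 ∈ A' then A else (univ : Finset (Fin n))).card
      = if e.2 ∈ A' then A.card else n := by
    intro e; split_ifs <;> simp
  simp only [h3]
  rw [prod_ite, prod_const, prod_const]
  have c1 : (univ.filter (fun e : Fin k × Fin n => e.2 ∈ A')) = univ ×ˢ A' := by
    ext e; simp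
  have c2 : (univ.filter (fun e : Fin k × Fin n => ¬ e.2 ∈ A')) = (univ ×ˢ A')ᶜ := by
    ext e; simp
  rw [c1, c2, card_compl]
  have c3 : ((univ : Finset (Fin k)) ×ˢ A').card = k * A'.card := by
    rw [card_product]; simp
  have c4 : ((univ : Finset (Fin k)) ×ˢ A').card ≤ Fintype.card (Fin k × Fin n) := card_le_univ _
  rw [c3] at c4 ⊢
  calc A.card ^ (k * A'.card) * n ^ (Fintype.card (Fin k × Fin n) - k * A'.card)
        * 2 ^ (k * A'.card)
      = (2 * A.card) ^ (k * A'.card) * n ^ (Fintype.card (Fin k × Fin n) - k * A'.card) := by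
        rw [mul_pow]; ring
    _ ≤ n ^ (k * A'.card) * n ^ (Fintype.card (Fin k × Fin n) - k * A'.card) :=
        Nat.mul_le_mul_right _ (Nat.pow_le_pow_left h2 _)
    _ = _ := by rw [← pow_add, Nat.add_sub_cancel' c4]

/-- expansion of large sets -/
def Iso1 {n : ℕ} (f : Fin k × Fin n → Fin n) : Prop :=
  ∀ A : Finset (Fin n), n ≤ 4 * A.card → 2 * A.card ≤ n →
    n ≤ 8 * (A.filter (fun v => ∃ a, f (a, v) ∉ A)).card

theorem av_iso {n : ℕ} (hk : 24 ≤ k) :
    Av (fun f : Fin k × Fin n → Fin n => if Iso1 f then (0 : ℝ) else 1) (1 / 2 ^ n) := by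
  set Pr : Finset (Finset (Fin n) × Finset (Fin n)) :=
    univ.filter (fun p => n ≤ 8 * p.1.card ∧ 2 * p.2.card ≤ n) with hPr
  have h1 : Av (fun f : Fin k × Fin n → Fin n =>
      ((Pr.filter (fun p => Stay p.1 p.2 f)).card : ℝ)) (1 / 2 ^ n) := by
    refine (Av.cfg Pr (fun p f => Stay p.1 p.2 f) ((2 : ℝ) ^ (3 * n)) (by positivity) ?_).mono ?_
    · intro p hp
      rw [hPr, mem_filter] at hp
      have h := count_stay (k := k) p.1 p.2 hp.2.2
      have h2 : Fintype.card (Fin k × Fin n → Fin n) = n ^ Fintype.card (Fin k × Fin n) := by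
        rw [Fintype.card_fun, Fintype.card_fin]
      rw [h2]
      have h3 : (univ.filter (fun f : Fin k × Fin n → Fin n => Stay p.1 p.2 f)).card *
          2 ^ (3 * n) ≤ n ^ Fintype.card (Fin k × Fin n) := by
        refine le_trans ?_ h
        apply Nat.mul_le_mul_left
        apply Nat.pow_le_pow_right (by norm_num)
        have : 24 * p.1.card ≤ k * p.1.card := Nat.mul_le_mul_right _ hk
        omega
      exact_mod_cast h3
    · have h2 : Pr.card ≤ 2 ^ n * 2 ^ n := by
        refine (card_le_univ _).trans ?_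
        simp
      rw [div_le_div_iff₀ (by positivity) (by positivity)]
      calc (Pr.card : ℝ) * 2 ^ n ≤ (2 ^ n * 2 ^ n : ℕ) * 2 ^ n := by
            apply mul_le_mul_of_nonneg_right _ (by positivity)
            exact_mod_cast h2
        _ = 1 * 2 ^ (3 * n) := by
            push_cast
            rw [← pow_add, ← pow_add, one_mul]
            congr 1
            ring
  unfold Av at h1 ⊢
  refine le_trans (sum_le_sum ?_) h1
  intro f _
  split_ifs with hf
  · exact Nat.cast_nonneg _
  · unfold Iso1 at hf
    push Not at hf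
    obtain ⟨A, hA1, hA2, hA3⟩ := hf
    have h2 : 1 ≤ (Pr.filter (fun p => Stay p.1 p.2 f)).card := by
      apply Finset.card_pos.mpr
      refine ⟨(A.filter (fun v => ¬ ∃ a, f (a, v) ∉ A), A), ?_⟩
      rw [mem_filter, hPr, mem_filter]
      refine ⟨⟨mem_univ _, ?_, hA2⟩, ?_⟩
      · have := card_filter_add_card_filter_not (s := A) (fun v => ∃ a, f (a, v) ∉ A)
        simp only
        omega
      · intro e he
        rw [mem_filter] at he
        have := he.2
        push Not at this
        exact this e.1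
    exact_mod_cast h2

/-! ### Existence -/

theorem geom_bound (x : ℝ) (hx : 2 ≤ x) (g : ℕ) : ∑ j ∈ Finset.Ico 1 g, x ^ j ≤ x ^ g := by
  induction g with
  | zero => simp
  | succ g ih =>
    rcases Nat.eq_zero_or_pos g with h | h
    · subst h; simp; linarith
    · rw [sum_Ico_succ_top (by omega)]
      have : 0 ≤ x ^ g := by positivity
      calc _ ≤ x ^ g + x ^ g := by linarith
        _ = 2 * x ^ g := by ring
        _ ≤ x * x ^ g := mul_le_mul_of_nonneg_right hx this
        _ = x ^ (g + 1) := by ring

theorem stage1 (n g D : ℕ) (hn : n = 9216 ^ g) (hg : 1 ≤ g) (hD : D = 110592) :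
    ∃ (f : Fin 24 × Fin n → Fin n) (Bad : Finset (Fin 24 × Fin n)),
      32 * Bad.card ≤ n ∧
      Deg (gr f Bad) (24 + D) ∧ Gir (gr f Bad) g ∧ Iso1 f := by
  have hn1 : 9216 ≤ n := by
    rw [hn]
    calc 9216 = 9216 ^ 1 := by norm_num
      _ ≤ 9216 ^ g := Nat.pow_le_pow_right (by norm_num) hg
  have : Nonempty (Fin n) := ⟨⟨0, by omega⟩⟩
  set z : Fin n := ⟨0, by omega⟩ with hz
  set e0 : Fin 24 × Fin n := (0, z) with he0
  have hnR : (9216 : ℝ) ≤ n := by exact_mod_cast hn1
  have hnpos : (0 : ℝ) < n := by linarith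
  have hDR : (D : ℝ) = 110592 := by rw [hD]; norm_num
  have a1 := (av_iso (k := 24) (n := n) le_rfl).mul (c := 2304 * n) (by positivity)
  have a2 := av_col (k := 24) (V := Fin n)
  have a3 := (Av.sum (s := Finset.Ico 1 g) (fun j _ => av_cyc (k := 24) z j)).mul
    (c := D) (by positivity)
  obtain ⟨f, hf⟩ := ((a1.add a2).add a3).exists
  have b1 : (2304 * n : ℝ) * (1 / 2 ^ n) ≤ 576 * n := by
    have h4 : (4 : ℝ) ≤ 2 ^ n := by
      calc (4 : ℝ) = 2 ^ 2 := by norm_num
        _ ≤ 2 ^ n := pow_le_pow_right₀ (by norm_num) (by omega)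
    rw [mul_one_div, div_le_iff₀ (by positivity)]
    have : (0 : ℝ) ≤ 576 * n := by positivity
    nlinarith
  have b2 : (((24 : ℕ) : ℝ) ^ 2 * (Fintype.card (Fin n) : ℝ)) ≤ 576 * n := by
    rw [Fintype.card_fin]; norm_num
  have b3 : (D : ℝ) * ∑ j ∈ Finset.Ico 1 g, (2 * ((24 : ℕ) : ℝ)) ^ j ≤ 576 * n := by
    have h1 := geom_bound (2 * ((24 : ℕ) : ℝ)) (by norm_num) g
    have h2 : (192 : ℝ) * (2 * ((24 : ℕ) : ℝ)) ^ g ≤ n := by
      have : (n : ℝ) = 9216 ^ g := by rw [hn]; push_cast; rfl
      rw [this]
      calc (192 : ℝ) * (2 * ((24 : ℕ) : ℝ)) ^ g ≤ 192 ^ g * (2 * ((24 : ℕ) : ℝ)) ^ g := by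
            apply mul_le_mul_of_nonneg_right _ (by positivity)
            calc (192 : ℝ) = 192 ^ 1 := by norm_num
              _ ≤ 192 ^ g := pow_le_pow_right₀ (by norm_num) hg
        _ = 9216 ^ g := by rw [← mul_pow]; norm_num
    rw [hDR]
    generalize (∑ j ∈ Finset.Ico 1 g, (2 * ((24 : ℕ) : ℝ)) ^ j) = X at h1 ⊢
    generalize (2 * ((24 : ℕ) : ℝ)) ^ g = Y at h1 h2
    linarith
  set N2 : ℝ := (((PP 24 (Fin n)).filter (fun p => Col p f)).card : ℝ) with hN2
  set N3 : ℝ := ∑ j ∈ Finset.Ico 1 g,
        (((CP 24 z j).filter (fun τ => Real (cc z τ) f)).card : ℝ) with hN3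
  have htot : (2304 * (n : ℝ)) * (if Iso1 f then (0 : ℝ) else 1) + N2 + D * N3 ≤ 1728 * n :=
    calc _ ≤ _ := hf
      _ ≤ 576 * n + 576 * n + 576 * (n : ℝ) := add_le_add (add_le_add b1 b2) b3
      _ = 1728 * n := by ring
  have hN20 : (0 : ℝ) ≤ N2 := Nat.cast_nonneg _
  have hN30 : (0 : ℝ) ≤ N3 := sum_nonneg (fun _ _ => Nat.cast_nonneg _)
  have hN30' : (0 : ℝ) ≤ D * N3 := mul_nonneg (Nat.cast_nonneg _) hN30
  have hiso : Iso1 f := by
    by_contra hcon
    rw [if_neg hcon] at htot
    linarith
  rw [if_pos hiso] at htot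
  have hC := card_BadC z e0 g f
  have hH := card_High D f
  have h2 : (D : ℝ) * ((High D f).card : ℝ) ≤ N2 := by
    rw [hN2]; exact_mod_cast hH
  have h3 : (D : ℝ) * ((BadC z e0 g f).card : ℝ) ≤ D * N3 :=
    mul_le_mul_of_nonneg_left hC (Nat.cast_nonneg _)
  refine ⟨f, BadC z e0 g f ∪ High D f, ?_, ?_, ?_, hiso⟩
  · have h1 := card_union_le (BadC z e0 g f) (High D f)
    have h4 : 64 * (High D f).card ≤ n := by
      have : (64 : ℝ) * ((High D f).card : ℝ) ≤ n := by
        rw [hDR] at h2
        linarith
      exact_mod_cast this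
    have h5 : 64 * (BadC z e0 g f).card ≤ n := by
      have : (64 : ℝ) * ((BadC z e0 g f).card : ℝ) ≤ n := by
        rw [hDR] at h3 htot
        linarith
      exact_mod_cast this
    omega
  · exact deg_gr D f (BadC z e0 g f ∪ High D f) subset_union_right
  · exact gir_of_BadC z e0 g f _ subset_union_left

end gr

end Pool.Agent.Helper784WE.F
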