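import Mathlib
import Pool.Agent.Helper784WE.F1

/-!
Module F, part 3: random labels.
-/

set_option autoImplicit false

open Finset
open scoped Classical

namespace Pool.Agent.Helper784WE.F

section st

variable {V E : Type} [Fintype V] [Fintype E] [DecidableEq E]

/-- no common edge at the same place -/
def Dj (c : List (E × Bool) × List (E × Bool)) : Prop :=
  (c.1.map Prod.fst).Nodup ∧ (c.2.map Prod.fst).Nodup ∧ ∀ z ∈ c.1.zip c.2, z.1.1 ≠ z.2.1

/-- pairs of walks of length `l` -/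
noncomputable def CW (Y : LG E V) (l : ℕ) : Finset (List (E × Bool) × List (E × Bool)) :=
  ((univ : Finset (V × V)).biUnion (fun x => wds Y l x.1 ×ˢ wds Y l x.2)).filter Dj

/-- pairs of walks of length one with the same origin -/
noncomputable def CF (Y : LG E V) : Finset (List (E × Bool) × List (E × Bool)) :=
  ((univ : Finset V).biUnion (fun x => wds Y 1 x ×ˢ wds Y 1 x)).filter Dj

/-- walks of length `l` and words of length `l` in another graph -/
noncomputable def CX {K V' : Type} [Fintype K] [DecidableEq K] [Fintype V'] (Y : LG E V) (X : LG K V') (l : ℕ) :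
    Finset (List (E × Bool) × List (K × Bool)) :=
  ((univ : Finset (V × V')).biUnion (fun x => wds Y l x.1 ×ˢ wds X l x.2)).filter
    (fun c => (c.1.map Prod.fst).Nodup)

theorem card_CW (Y : LG E V) (D l : ℕ) (hd : Deg Y D) :
    (CW Y l).card ≤ Fintype.card V * Fintype.card V * (D ^ l * D ^ l) := by
  unfold CW
  calc _ ≤ ((univ : Finset (V × V)).biUnion (fun x => wds Y l x.1 ×ˢ wds Y l x.2)).card :=
        card_filter_le _ _
    _ ≤ ∑ x : V × V, (wds Y l x.1 ×ˢ wds Y l x.2).card := card_biUnion_le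
    _ ≤ ∑ x : V × V, D ^ l * D ^ l := by
        apply sum_le_sum
        intro x _
        rw [card_product]
        exact Nat.mul_le_mul (card_wds Y D hd l _) (card_wds Y D hd l _)
    _ = _ := by
        rw [sum_const, smul_eq_mul, card_univ, Fintype.card_prod]

theorem card_CF (Y : LG E V) (D : ℕ) (hd : Deg Y D) :
    (CF Y).card ≤ Fintype.card V * (D * D) := by
  unfold CF
  calc _ ≤ ((univ : Finset V).biUnion (fun x => wds Y 1 x ×ˢ wds Y 1 x)).card :=
        card_filter_le _ _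
    _ ≤ ∑ x : V, (wds Y 1 x ×ˢ wds Y 1 x).card := card_biUnion_le
    _ ≤ ∑ x : V, D * D := by
        apply sum_le_sum
        intro x _
        rw [card_product]
        have := card_wds Y D hd 1 x
        rw [pow_one] at this
        exact Nat.mul_le_mul this this
    _ = _ := by
        rw [sum_const, smul_eq_mul, card_univ]

theorem card_CX {K V' : Type} [Fintype K] [DecidableEq K] [Fintype V'] (Y : LG E V) (X : LG K V') (D l : ℕ)
    (hd : Deg Y D) (hd' : Deg X D) :
    (CX Y X l).card ≤ Fintype.card V * Fintype.card V' * (D ^ l * D ^ l) := by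
  unfold CX
  calc _ ≤ ((univ : Finset (V × V')).biUnion (fun x => wds Y l x.1 ×ˢ wds X l x.2)).card :=
        card_filter_le _ _
    _ ≤ ∑ x : V × V', (wds Y l x.1 ×ˢ wds X l x.2).card := card_biUnion_le
    _ ≤ ∑ x : V × V', D ^ l * D ^ l := by
        apply sum_le_sum
        intro x _
        rw [card_product]
        exact Nat.mul_le_mul (card_wds Y D hd l _) (card_wds X D hd' l _)
    _ = _ := by
        rw [sum_const, smul_eq_mul, card_univ, Fintype.card_prod]

/-- first edge of a walk -/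
def hdw {K : Type} (e0 : E) (c : List (E × Bool) × K) : E := (c.1.map Prod.fst).headD e0

omit [Fintype V] [Fintype E] [DecidableEq E] in
theorem hdw_mem {K : Type} (e0 : E) (c : List (E × Bool) × K) (h : c.1 ≠ []) :
    hdw e0 c ∈ c.1.map Prod.fst := by
  unfold hdw
  obtain ⟨p, k⟩ := c
  cases p with
  | nil => exact absurd rfl h
  | cons d p => simp

theorem av_pair (s q : ℕ) (hq : q = s ^ 2) (hs : 1 ≤ s) (l : ℕ)
    (C : Finset (List (E × Bool) × List (E × Bool)))
    (hC : ∀ c ∈ C, c.1.length = l ∧ c.2.length = l ∧ Dj c) :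
    Av (fun lam : E → Fin q => ((C.filter (fun c => SameW c.1 c.2 lam)).card : ℝ))
      (C.card / (s : ℝ) ^ l) := by
  have hsR : (0 : ℝ) < s := by exact_mod_cast hs
  refine Av.cfg C (fun c lam => SameW c.1 c.2 lam) ((s : ℝ) ^ l) (by positivity) ?_
  intro c hc
  obtain ⟨h1, h2, h3, h4, h5⟩ := hC c hc
  have h := count_pair (K := Fin q) s (by rw [Fintype.card_fin, hq]) hs c.1 c.2
    (by rw [h1, h2]) h3 h4 h5
  rw [h1] at h
  have h6 : Fintype.card (E → Fin q) = Fintype.card (Fin q) ^ Fintype.card E := by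
    rw [Fintype.card_fun]
  rw [h6]
  exact_mod_cast h

theorem av_cross (q l : ℕ) (hq : 1 ≤ q) (C : Finset (List (E × Bool) × List (Fin q × Bool)))
    (hC : ∀ c ∈ C, c.1.length = l ∧ (c.1.map Prod.fst).Nodup) :
    Av (fun lam : E → Fin q => ((C.filter (fun c => IsW c.1 c.2 lam)).card : ℝ))
      (C.card / (q : ℝ) ^ l) := by
  have hsR : (0 : ℝ) < q := by exact_mod_cast hq
  refine Av.cfg C (fun c lam => IsW c.1 c.2 lam) ((q : ℝ) ^ l) (by positivity) ?_
  intro c hc
  obtain ⟨h1, h2⟩ := hC c hc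
  have h := count_word c.1 c.2 h2
  rw [h1] at h
  have h6 : Fintype.card (E → Fin q) = Fintype.card (Fin q) ^ Fintype.card E := by
    rw [Fintype.card_fun]
  rw [h6]
  rw [Fintype.card_fin] at h ⊢
  exact_mod_cast h

theorem geom_small (m : ℕ) (g : Fin m → ℕ) (hg : StrictMono g) (h1 : ∀ i, 1 ≤ g i) :
    ∑ i, ((1 : ℝ) / 385) ^ (g i) ≤ 1 / 384 := by
  have h2 : ∀ (j : ℕ) (hj : j < m), j + 1 ≤ g ⟨j, hj⟩ := by
    intro j
    induction j with
    | zero => intro hj; exact h1 _
    | succ j ih =>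
      intro hj
      have h3 := ih (by omega)
      have h4 : g ⟨j, by omega⟩ < g ⟨j + 1, hj⟩ := hg (by
        rw [Fin.mk_lt_mk]; omega)
      omega
  calc ∑ i, ((1 : ℝ) / 385) ^ (g i) ≤ ∑ i : Fin m, ((1 : ℝ) / 385) ^ (i.1 + 1) := by
        apply sum_le_sum
        intro i _
        exact pow_le_pow_of_le_one (by norm_num) (by norm_num) (h2 i.1 i.2)
    _ = ∑ j ∈ Finset.range m, ((1 : ℝ) / 385) ^ (j + 1) :=
        Fin.sum_univ_eq_sum_range (fun j => ((1 : ℝ) / 385) ^ (j + 1)) m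
    _ ≤ 1 / 384 := by
        have h5 : ∀ m : ℕ, ∑ j ∈ Finset.range m, ((1 : ℝ) / 385) ^ (j + 1) =
            1 / 384 - (1 / 384) * (1 / 385) ^ m := by
          intro m
          induction m with
          | zero => simp
          | succ m ih => rw [sum_range_succ, ih]; ring
        rw [h5]
        have : (0 : ℝ) ≤ (1 / 384) * (1 / 385) ^ m := by positivity
        linarith

/-- Stage 2: random labels. -/
theorem stage2 (Y : LG E V) (e0 : E) (D0 C0 g l s q : ℕ) (hD : 1 ≤ D0) (hC : 1 ≤ C0)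
    (hdeg : Deg Y D0) (hV : Fintype.card V ≤ C0 ^ g) (hl : g ≤ 12 * l) (hl1 : 1 ≤ l)
    (hs : s = C0 ^ 12 * D0 ^ 2 * 385 ^ 12) (hq : q = s ^ 2)
    (m : ℕ) (n' g' l' : Fin m → ℕ) (X : ∀ i, LG (Fin q) (Fin (n' i)))
    (hg' : StrictMono g') (hg1 : ∀ i, 1 ≤ g' i) (hn' : ∀ i, n' i ≤ C0 ^ g' i)
    (hX : ∀ i, Deg (X i) D0) (hl' : ∀ i, g' i ≤ 12 * l' i) :
    ∃ (lam : E → Fin q) (Bad : Finset E), 128 * Bad.card ≤ Fintype.card V ∧
      (∀ x (d d' : E × Bool) y y', Y.Step x d y → Y.Step x d' y' → d.1 ∉ Bad → d.2 = d'.2 →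
        lam d.1 = lam d'.1 → d.1 = d'.1) ∧
      (∀ x x' p p' y y', p.length = l → p'.length = l → Y.Reads x p y → Y.Reads x' p' y' →
        Dj (p, p') → lab lam p = lab lam p' → ∃ e ∈ p.map Prod.fst, e ∈ Bad) ∧
      (∀ i x p y u w v, Y.Reads x p y → (p.map Prod.fst).Nodup → (X i).Reads u w v →
        w.length = l' i → lab lam p = w → ∃ e ∈ p.map Prod.fst, e ∈ Bad) := by
  have hs1 : 1 ≤ s := by
    rw [hs]
    have h1 : 0 < C0 ^ 12 := pow_pos (by omega) _
    have h2 : 0 < D0 ^ 2 := pow_pos (by omega) _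
    have h3 : 0 < 385 ^ 12 := by norm_num
    exact Nat.mul_pos (Nat.mul_pos h1 h2) h3
  have hq1 : 1 ≤ q := by rw [hq]; exact Nat.one_le_pow _ _ hs1
  have hsR : (0 : ℝ) < s := by exact_mod_cast hs1
  have hqR : (q : ℝ) = (s : ℝ) ^ 2 := by rw [hq]; push_cast; rfl
  have hDR : (1 : ℝ) ≤ D0 := by exact_mod_cast hD
  have hCR : (1 : ℝ) ≤ C0 := by exact_mod_cast hC
  have hsR' : (s : ℝ) = (C0 : ℝ) ^ 12 * (D0 : ℝ) ^ 2 * 385 ^ 12 := by
    rw [hs]; push_cast; norm_num
  have : Nonempty (Fin q) := ⟨⟨0, hq1⟩⟩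
  obtain ⟨v, hv⟩ : ∃ v : ℝ, v = (Fintype.card V : ℝ) := ⟨_, rfl⟩
  have hv0 : 0 ≤ v := by rw [hv]; exact Nat.cast_nonneg _
  -- the three bounds
  have hbF : ((CF Y).card : ℝ) / (s : ℝ) ^ 1 ≤ v / 384 := by
    have h1 : ((CF Y).card : ℝ) ≤ v * (D0 * D0) := by
      rw [hv]; exact_mod_cast card_CF Y D0 hdeg
    rw [pow_one, div_le_div_iff₀ hsR (by norm_num)]
    have h2 : (D0 : ℝ) * D0 * 384 ≤ s := by
      rw [hsR']
      have h3 : (1 : ℝ) ≤ (C0 : ℝ) ^ 12 := one_le_pow₀ hCR
      have h4 : (0 : ℝ) ≤ (D0 : ℝ) ^ 2 := by positivity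
      nlinarith [mul_le_mul h3 (le_refl ((D0 : ℝ) ^ 2)) h4 (by positivity)]
    calc ((CF Y).card : ℝ) * 384 ≤ v * (D0 * D0) * 384 :=
          mul_le_mul_of_nonneg_right h1 (by norm_num)
      _ = v * (D0 * D0 * 384) := by ring
      _ ≤ v * s := mul_le_mul_of_nonneg_left h2 hv0
  have hbW : ((CW Y l).card : ℝ) / (s : ℝ) ^ l ≤ v / 384 := by
    have h1 : ((CW Y l).card : ℝ) ≤ v * v * (D0 ^ l * D0 ^ l) := by
      rw [hv]; exact_mod_cast card_CW Y D0 l hdeg
    have h2 : v ≤ (C0 : ℝ) ^ (12 * l) := by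
      calc v ≤ ((C0 ^ g : ℕ) : ℝ) := by rw [hv]; exact_mod_cast hV
        _ = (C0 : ℝ) ^ g := by push_cast; rfl
        _ ≤ (C0 : ℝ) ^ (12 * l) := pow_le_pow_right₀ hCR hl
    have h3 : (385 : ℝ) ≤ (385 ^ 12) ^ l := by
      rw [← pow_mul]
      calc (385 : ℝ) = 385 ^ 1 := by norm_num
        _ ≤ 385 ^ (12 * l) := pow_le_pow_right₀ (by norm_num) (by omega)
    rw [div_le_div_iff₀ (by positivity) (by norm_num)]
    calc ((CW Y l).card : ℝ) * 384 ≤ v * v * (D0 ^ l * D0 ^ l) * 384 :=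
          mul_le_mul_of_nonneg_right h1 (by norm_num)
      _ ≤ v * (C0 : ℝ) ^ (12 * l) * (D0 ^ l * D0 ^ l) * (385 ^ 12) ^ l := by
          gcongr
          linarith
      _ = v * (s : ℝ) ^ l := by
          rw [hsR', mul_pow, mul_pow, ← pow_mul, ← pow_mul, ← pow_mul, two_mul, pow_add]
          ring
  have hbX : ∑ i, ((CX Y (X i) (l' i)).card : ℝ) / (q : ℝ) ^ (l' i) ≤ v / 384 := by
    have h1 : ∀ i, ((CX Y (X i) (l' i)).card : ℝ) / (q : ℝ) ^ (l' i) ≤
        v * (1 / 385) ^ (g' i) := by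
      intro i
      have h2 : ((CX Y (X i) (l' i)).card : ℝ) ≤ v * n' i * (D0 ^ (l' i) * D0 ^ (l' i)) := by
        have := card_CX Y (X i) D0 (l' i) hdeg (hX i)
        rw [Fintype.card_fin] at this
        rw [hv]
        exact_mod_cast this
      have h3 : ((n' i : ℕ) : ℝ) ≤ (C0 : ℝ) ^ (12 * l' i) := by
        calc ((n' i : ℕ) : ℝ) ≤ ((C0 ^ (g' i) : ℕ) : ℝ) := by exact_mod_cast hn' i
          _ = (C0 : ℝ) ^ (g' i) := by push_cast; rfl
          _ ≤ (C0 : ℝ) ^ (12 * l' i) := pow_le_pow_right₀ hCR (hl' i)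
      have h4 : ((385 : ℝ)) ^ (g' i) ≤ (385 ^ 12) ^ (l' i) := by
        rw [← pow_mul]
        exact pow_le_pow_right₀ (by norm_num) (hl' i)
      have h5 : (s : ℝ) ^ (l' i) ≤ (q : ℝ) ^ (l' i) := by
        apply pow_le_pow_left₀ hsR.le
        rw [hqR]
        have : (1 : ℝ) ≤ s := by exact_mod_cast hs1
        nlinarith
      rw [one_div, inv_pow, ← div_eq_mul_inv, div_le_div_iff₀ (by positivity) (by positivity)]
      calc ((CX Y (X i) (l' i)).card : ℝ) * 385 ^ (g' i)
          ≤ v * n' i * (D0 ^ (l' i) * D0 ^ (l' i)) * 385 ^ (g' i) :=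
            mul_le_mul_of_nonneg_right h2 (by positivity)
        _ ≤ v * (C0 : ℝ) ^ (12 * l' i) * (D0 ^ (l' i) * D0 ^ (l' i)) * (385 ^ 12) ^ (l' i) := by
            gcongr
        _ = v * (s : ℝ) ^ (l' i) := by
            rw [hsR', mul_pow, mul_pow, ← pow_mul, ← pow_mul, ← pow_mul, two_mul, pow_add]
            ring
        _ ≤ v * (q : ℝ) ^ (l' i) := mul_le_mul_of_nonneg_left h5 hv0
    calc ∑ i, ((CX Y (X i) (l' i)).card : ℝ) / (q : ℝ) ^ (l' i)
        ≤ ∑ i, v * (1 / 385) ^ (g' i) := sum_le_sum (fun i _ => h1 i)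
      _ = v * ∑ i, (1 / 385) ^ (g' i) := by rw [mul_sum]
      _ ≤ v * (1 / 384) := mul_le_mul_of_nonneg_left (geom_small m g' hg' hg1) hv0
      _ = v / 384 := by ring
  -- averages
  have aF := (av_pair s q hq hs1 1 (CF Y) (by
    intro c hc
    unfold CF at hc
    simp only [mem_filter, mem_biUnion, mem_univ, true_and, mem_product, mem_wds] at hc
    obtain ⟨⟨x, h1, h2⟩, h3⟩ := hc
    exact ⟨h1.1, h2.1, h3⟩)).mono hbF
  have aW := (av_pair s q hq hs1 l (CW Y l) (by
    intro c hc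
    unfold CW at hc
    simp only [mem_filter, mem_biUnion, mem_univ, true_and, mem_product, mem_wds] at hc
    obtain ⟨⟨x, h1, h2⟩, h3⟩ := hc
    exact ⟨h1.1, h2.1, h3⟩)).mono hbW
  have aX := (Av.sum (s := univ) (fun i _ => av_cross q (l' i) hq1 (CX Y (X i) (l' i)) (by
    intro c hc
    unfold CX at hc
    simp only [mem_filter, mem_biUnion, mem_univ, true_and, mem_product, mem_wds] at hc
    obtain ⟨⟨x, h1, h2⟩, h3⟩ := hc
    exact ⟨h1.1, h3⟩))).mono hbX
  obtain ⟨lam, hlam⟩ := ((aF.add aW).add aX).exists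
  set BF := ((CF Y).filter (fun c => SameW c.1 c.2 lam)).image (hdw e0) with hBF
  set BW := ((CW Y l).filter (fun c => SameW c.1 c.2 lam)).image (hdw e0) with hBW
  set BX := (univ : Finset (Fin m)).biUnion (fun i =>
    ((CX Y (X i) (l' i)).filter (fun c => IsW c.1 c.2 lam)).image (hdw e0)) with hBX
  refine ⟨lam, (BF ∪ BW) ∪ BX, ?_, ?_, ?_, ?_⟩
  · have h1 : ((BF ∪ BW) ∪ BX).card ≤ BF.card + BW.card + BX.card :=
      (card_union_le _ _).trans (Nat.add_le_add_right (card_union_le _ _) _)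
    have h2 : BF.card ≤ ((CF Y).filter (fun c => SameW c.1 c.2 lam)).card := card_image_le
    have h3 : BW.card ≤ ((CW Y l).filter (fun c => SameW c.1 c.2 lam)).card := card_image_le
    have h4 : BX.card ≤ ∑ i, ((CX Y (X i) (l' i)).filter (fun c => IsW c.1 c.2 lam)).card :=
      card_biUnion_le.trans (sum_le_sum (fun i _ => card_image_le))
    have h5 : (((BF ∪ BW) ∪ BX).card : ℝ) ≤
        ((CF Y).filter (fun c => SameW c.1 c.2 lam)).card +
        ((CW Y l).filter (fun c => SameW c.1 c.2 lam)).card +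
        ∑ i, (((CX Y (X i) (l' i)).filter (fun c => IsW c.1 c.2 lam)).card : ℝ) := by
      have : ((BF ∪ BW) ∪ BX).card ≤
        ((CF Y).filter (fun c => SameW c.1 c.2 lam)).card +
        ((CW Y l).filter (fun c => SameW c.1 c.2 lam)).card +
        ∑ i, ((CX Y (X i) (l' i)).filter (fun c => IsW c.1 c.2 lam)).card := by omega
      exact_mod_cast this
    have h6 : (128 : ℝ) * (((BF ∪ BW) ∪ BX).card : ℝ) ≤ v := by linarith
    rw [hv] at h6
    exact_mod_cast h6
  · intro x d d' y y' hd hd' hB hdd hll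
    by_contra hne
    apply hB
    rw [mem_union, mem_union]
    left; left
    rw [hBF, mem_image]
    refine ⟨([d], [d']), ?_, ?_⟩
    · rw [mem_filter]
      constructor
      · unfold CF
        rw [mem_filter, mem_biUnion]
        refine ⟨⟨x, mem_univ _, ?_⟩, ?_⟩
        · rw [mem_product, mem_wds, mem_wds]
          exact ⟨⟨rfl, y, LG.Reads.cons hd (LG.Reads.nil y)⟩,
            ⟨rfl, y', LG.Reads.cons hd' (LG.Reads.nil y')⟩⟩
        · refine ⟨by simp, by simp, ?_⟩
          intro z hz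
          simp only [List.zip_cons_cons, List.zip_nil_left, List.mem_singleton] at hz
          rw [hz]
          exact hne
      · unfold SameW lab
        simp only [List.map_cons, List.map_nil, hll, hdd]
    · simp [hdw]
  · intro x x' p p' y y' h1 h2 h3 h4 h5 h6
    have hne : p ≠ [] := by
      rintro rfl
      rw [List.length_nil] at h1; omega
    refine ⟨hdw e0 (p, p'), hdw_mem e0 (p, p') hne, ?_⟩
    rw [mem_union, mem_union]
    left; right
    rw [hBW, mem_image]
    refine ⟨(p, p'), ?_, rfl⟩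
    rw [mem_filter]
    refine ⟨?_, h6⟩
    unfold CW
    rw [mem_filter, mem_biUnion]
    refine ⟨⟨(x, x'), mem_univ _, ?_⟩, h5⟩
    rw [mem_product, mem_wds, mem_wds]
    exact ⟨⟨h1, y, h3⟩, ⟨h2, y', h4⟩⟩
  · intro i x p y u w v' h1 h2 h3 h4 h5
    have hpl : p.length = l' i := by rw [← h4, ← h5, lab_length]
    have hne : p ≠ [] := by
      rintro rfl
      rw [List.length_nil] at hpl
      have := hl' i
      have := hg1 i
      omega
    refine ⟨hdw e0 (p, w), hdw_mem e0 (p, w) hne, ?_⟩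
    rw [mem_union]
    right
    rw [hBX, mem_biUnion]
    refine ⟨i, mem_univ _, ?_⟩
    rw [mem_image]
    refine ⟨(p, w), ?_, rfl⟩
    rw [mem_filter]
    refine ⟨?_, h5⟩
    unfold CX
    rw [mem_filter, mem_biUnion]
    refine ⟨⟨(x, u), mem_univ _, ?_⟩, h2⟩
    rw [mem_product, mem_wds, mem_wds]
    exact ⟨⟨hpl, y, h1⟩, ⟨h4, v', h3⟩⟩

end st

/-! ### The relabelled graph -/

section rel

variable {V E : Type} {q : ℕ}

/-- condition for determinism -/
def NoFold (Y : LG E V) (lam : E → Fin q) (Bad : Finset E) : Prop :=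
  ∀ x (d d' : E × Bool) y y', Y.Step x d y → Y.Step x d' y' → d.1 ∉ Bad → d.2 = d'.2 →
        lam d.1 = lam d'.1 → d.1 = d'.1

/-- the labelled graph -/
def rel (Y : LG E V) (lam : E → Fin q) (Bad : Finset E) (hf : NoFold Y lam Bad) :
    LG (Fin q) V where
  E x s y := ∃ e, e ∉ Bad ∧ lam e = s ∧ Y.E x e y
  det := by
    rintro x s y y' ⟨e, h1, h2, h3⟩ ⟨e', h1', h2', h3'⟩
    have : e = e' := hf x (e, true) (e', true) y y' h3 h3' h1 rfl (h2.trans h2'.symm)
    subst this
    exact Y.det h3 h3'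
  codet := by
    rintro x x' s y ⟨e, h1, h2, h3⟩ ⟨e', h1', h2', h3'⟩
    have : e = e' := hf y (e, false) (e', false) x x' h3 h3' h1 rfl (h2.trans h2'.symm)
    subst this
    exact Y.codet h3 h3'

theorem rel_step (Y : LG E V) (lam : E → Fin q) (Bad : Finset E) (hf : NoFold Y lam Bad)
    {x y : V} {a : Fin q × Bool} : (rel Y lam Bad hf).Step x a y ↔
      ∃ d : E × Bool, d.1 ∉ Bad ∧ (lam d.1, d.2) = a ∧ Y.Step x d y := by
  obtain ⟨s, b⟩ := a
  unfold LG.Step
  constructor
  · intro h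
    cases b with
    | true =>
      rw [if_pos rfl] at h
      obtain ⟨e, h1, h2, h3⟩ := h
      simp only at h2
      exact ⟨(e, true), h1, by rw [← h2], by rw [if_pos rfl]; exact h3⟩
    | false =>
      rw [if_neg (by simp)] at h
      obtain ⟨e, h1, h2, h3⟩ := h
      simp only at h2
      exact ⟨(e, false), h1, by rw [← h2], by rw [if_neg (by simp)]; exact h3⟩
  · rintro ⟨⟨e, b'⟩, h1, h2, h3⟩
    rw [Prod.mk.injEq] at h2
    obtain ⟨h2, h2'⟩ := h2
    simp only at h1 h2 h2' h3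
    subst h2'
    cases b' with
    | true =>
      rw [if_pos rfl] at h3 ⊢
      exact ⟨e, h1, h2, h3⟩
    | false =>
      rw [if_neg (by simp)] at h3 ⊢
      exact ⟨e, h1, h2, h3⟩

theorem rel_lift (Y : LG E V) (lam : E → Fin q) (Bad : Finset E) (hf : NoFold Y lam Bad)
    {w : List (Fin q × Bool)} : ∀ {x y : V}, (rel Y lam Bad hf).Reads x w y →
      ∃ p, Y.Reads x p y ∧ lab lam p = w ∧ ∀ d ∈ p, d.1 ∉ Bad := by
  induction w with
  | nil =>
    intro x y h
    rw [reads_nil_iff] at h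
    subst h
    exact ⟨[], LG.Reads.nil x, rfl, by simp⟩
  | cons a w ih =>
    intro x y h
    obtain ⟨z, h1, h2⟩ := (reads_cons_iff _).mp h
    obtain ⟨p, h3, h4, h5⟩ := ih h2
    obtain ⟨d, h6, h7, h8⟩ := (rel_step Y lam Bad hf).mp h1
    refine ⟨d :: p, LG.Reads.cons h8 h3, ?_, ?_⟩
    · unfold lab at h4 ⊢
      rw [List.map_cons, h4, h7]
    · intro d' hd'
      rw [List.mem_cons] at hd'
      rcases hd' with rfl | hd'
      · exact h6
      · exact h5 d' hd'

theorem red_of_lab (lam : E → Fin q) (p : List (E × Bool))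
    (h : FreeGroup.IsReduced (lab lam p)) : FreeGroup.IsReduced p := by
  unfold FreeGroup.IsReduced lab at h
  rw [List.isChain_map] at h
  unfold FreeGroup.IsReduced
  refine h.imp ?_
  intro a b hab h'
  exact hab (by rw [h'])

/-- two lifts with a common edge at the same place have the same origin -/
theorem common_edge (Y : LG E V) (hu : Uniq Y) (lam : E → Fin q) (Bad : Finset E)
    (hf : NoFold Y lam Bad) : ∀ (p p' : List (E × Bool)) (x x' y y' : V), Y.Reads x p y →
    Y.Reads x' p' y' → lab lam p = lab lam p' → (∀ d ∈ p, d.1 ∉ Bad) → (∀ d ∈ p', d.1 ∉ Bad) →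
    (∃ z ∈ p.zip p', z.1.1 = z.2.1) → x = x' := by
  intro p
  induction p with
  | nil =>
    rintro p' x x' y y' _ _ _ _ _ ⟨z, hz, _⟩
    simp at hz
  | cons d p ih =>
    rintro p' x x' y y' h1 h2 h3 h4 h5 ⟨z, hz, hzz⟩
    cases p' with
    | nil => simp at hz
    | cons d' p' =>
      obtain ⟨u, h6, h7⟩ := (reads_cons_iff _).mp h1
      obtain ⟨u', h6', h7'⟩ := (reads_cons_iff _).mp h2
      unfold lab at h3
      rw [List.map_cons, List.map_cons, List.cons.injEq] at h3
      obtain ⟨h3, h3'⟩ := h3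
      have hb : d.2 = d'.2 := (Prod.mk.inj h3).2
      rw [List.zip_cons_cons, List.mem_cons] at hz
      rcases hz with rfl | hz
      · have hd : d = d' := Prod.ext hzz hb
        subst hd
        unfold LG.Step at h6 h6'
        split_ifs at h6 h6'
        · exact (hu h6 h6').1
        · exact (hu h6 h6').2
      · have huu : u = u' := ih p' u u' y y' h7 h7' h3'
          (fun d hd => h4 d (List.mem_cons_of_mem _ hd))
          (fun d hd => h5 d (List.mem_cons_of_mem _ hd)) ⟨z, hz, hzz⟩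
        subst huu
        have s1 : (rel Y lam Bad hf).Step x (lam d.1, d.2) u :=
          (rel_step Y lam Bad hf).mpr ⟨d, h4 d List.mem_cons_self, rfl, h6⟩
        have s2 : (rel Y lam Bad hf).Step x' (lam d.1, d.2) u :=
          (rel_step Y lam Bad hf).mpr ⟨d', h5 d' List.mem_cons_self, h3.symm, h6'⟩
        exact step_codet _ s1 s2

theorem rel_deg [Fintype E] (Y : LG E V) (lam : E → Fin q) (Bad : Finset E)
    (hf : NoFold Y lam Bad) (D : ℕ) (hd : Deg Y D) : Deg (rel Y lam Bad hf) D := by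
  intro x
  refine le_trans ?_ (hd x)
  have h1 : univ.filter (fun a => Rd (rel Y lam Bad hf) x a) ⊆
      (univ.filter (fun d => Rd Y x d)).image (fun d => (lam d.1, d.2)) := by
    intro a ha
    rw [mem_filter] at ha
    obtain ⟨_, y, hy⟩ := ha
    obtain ⟨d, _, h2, h3⟩ := (rel_step Y lam Bad hf).mp hy
    rw [mem_image]
    exact ⟨d, by rw [mem_filter]; exact ⟨mem_univ _, y, h3⟩, h2⟩
  exact (card_le_card h1).trans card_image_le

theorem rel_girth (Y : LG E V) (hu : Uniq Y) (lam : E → Fin q) (Bad : Finset E)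
    (hf : NoFold Y lam Bad) {g : ℕ} (hg : Gir Y g) (x : V) (w : List (Fin q × Bool))
    (hr : (rel Y lam Bad hf).Reads x w x) (hred : FreeGroup.IsReduced w) (hne : w ≠ []) :
    g ≤ w.length := by
  obtain ⟨p, h1, h2, h3⟩ := rel_lift Y lam Bad hf hr
  rw [← h2] at hred hne ⊢
  rw [lab_length]
  refine girth_of_Gir Y hu hg ?_ (red_of_lab lam p hred) h1
  rintro rfl
  exact hne rfl

theorem rel_piece (Y : LG E V) (hu : Uniq Y) (lam : E → Fin q) (Bad : Finset E)
    (hf : NoFold Y lam Bad) {g l : ℕ} (hg : Gir Y g) (hlg : l ≤ g) (hl : ∀ j, g ≤ 12 * j → l ≤ j)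
    (hW : ∀ x x' p p' y y', p.length = l → p'.length = l → Y.Reads x p y → Y.Reads x' p' y' →
        Dj (p, p') → lab lam p = lab lam p' → ∃ e ∈ p.map Prod.fst, e ∈ Bad)
    (x y : V) (w : List (Fin q × Bool)) (u v : V) (hxy : x ≠ y) (hred : FreeGroup.IsReduced w)
    (h1 : (rel Y lam Bad hf).Reads x w u) (h2 : (rel Y lam Bad hf).Reads y w v) :
    12 * w.length < g := by
  by_contra hcon
  push Not at hcon
  have hlw := hl _ hcon
  obtain ⟨u', h1'⟩ := reads_take _ h1 l
  obtain ⟨v', h2'⟩ := reads_take _ h2 l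
  have hred' : FreeGroup.IsReduced (w.take l) := red_take hred l
  have hlen : (w.take l).length = l := by rw [List.length_take]; omega
  obtain ⟨p, a1, a2, a3⟩ := rel_lift Y lam Bad hf h1'
  obtain ⟨p', b1, b2, b3⟩ := rel_lift Y lam Bad hf h2'
  have pl : p.length = l := by rw [← lab_length lam p, a2, hlen]
  have pl' : p'.length = l := by rw [← lab_length lam p', b2, hlen]
  have pr : FreeGroup.IsReduced p := red_of_lab lam p (by rw [a2]; exact hred')
  have pr' : FreeGroup.IsReduced p' := red_of_lab lam p' (by rw [b2]; exact hred')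
  have pn := nodup_of_Gir Y hu hg pr a1 (by omega)
  have pn' := nodup_of_Gir Y hu hg pr' b1 (by omega)
  obtain ⟨e, he, heB⟩ := hW x y p p' u' v' pl pl' a1 b1 ⟨pn, pn', fun z hz hzz =>
    hxy (common_edge Y hu lam Bad hf p p' x y u' v' a1 b1 (a2.trans b2.symm) a3 b3
      ⟨z, hz, hzz⟩)⟩ (a2.trans b2.symm)
  rw [List.mem_map] at he
  obtain ⟨d, hd, rfl⟩ := he
  exact a3 d hd heB

theorem rel_cross {V' : Type} (Y : LG E V) (hu : Uniq Y) (lam : E → Fin q) (Bad : Finset E)
    (hf : NoFold Y lam Bad) (X : LG (Fin q) V') {g g' l : ℕ} (hg : Gir Y g) (hlg : l ≤ g)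
    (hl : ∀ j, g' ≤ 12 * j → l ≤ j)
    (hW : ∀ x p y u w v, Y.Reads x p y → (p.map Prod.fst).Nodup → X.Reads u w v →
        w.length = l → lab lam p = w → ∃ e ∈ p.map Prod.fst, e ∈ Bad)
    (x : V') (y : V) (w : List (Fin q × Bool)) (u : V') (v : V) (hred : FreeGroup.IsReduced w)
    (h1 : X.Reads x w u) (h2 : (rel Y lam Bad hf).Reads y w v) :
    12 * w.length < g' := by
  by_contra hcon
  push Not at hcon
  have hlw := hl _ hcon
  obtain ⟨u', h1'⟩ := reads_take _ h1 l
  obtain ⟨v', h2'⟩ := reads_take _ h2 l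
  have hred' : FreeGroup.IsReduced (w.take l) := red_take hred l
  have hlen : (w.take l).length = l := by rw [List.length_take]; omega
  obtain ⟨p, a1, a2, a3⟩ := rel_lift Y lam Bad hf h2'
  have pl : p.length = l := by rw [← lab_length lam p, a2, hlen]
  have pr : FreeGroup.IsReduced p := red_of_lab lam p (by rw [a2]; exact hred')
  have pn := nodup_of_Gir Y hu hg pr a1 (by omega)
  obtain ⟨e, he, heB⟩ := hW y p v' x (w.take l) u' a1 pn h1' hlen a2
  rw [List.mem_map] at he
  obtain ⟨d, hd, rfl⟩ := he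
  exact a3 d hd heB

end rel

end Pool.Agent.Helper784WE.F
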