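import Mathlib
import Pool.Agent.Helper784WE.F2
import Pool.Agent.Helper784WE.F3

/-!
Module F, part 4: pruning, assembly.
-/

set_option autoImplicit false

open Finset
open scoped Classical

namespace Pool.Agent.Helper784WE.F

/-- Pruning a graph in which large sets expand. -/
theorem prune2 {V : Type} [Fintype V] (n : ℕ) (hn : 0 < n) (hV : Fintype.card V = n)
    (Gr : SimpleGraph V)
    (hiso : ∀ A C : Finset V, (∀ v, v ∈ C ↔ v ∉ A) → n ≤ 4 * A.card → 2 * A.card ≤ n →
      11 * n ≤ 128 * ed Gr A C) :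
    ∃ U : Finset V, 3 * n ≤ 4 * U.card ∧ ∀ A C : Finset V, A ⊆ U →
      (∀ v, v ∈ C ↔ v ∈ U ∧ v ∉ A) → 2 * A.card ≤ U.card → A.card ≤ 16 * ed Gr A C := by
  obtain ⟨B, hB, hBmax⟩ := Finset.exists_max_image
    (univ.filter (fun B : Finset V => 2 * B.card ≤ n ∧ 16 * ed Gr B Bᶜ ≤ B.card))
    Finset.card ⟨∅, by simp [ed]⟩
  simp only [mem_filter, mem_univ, true_and] at hB hBmax
  obtain ⟨hB2, hBe⟩ := hB
  have hB4 : 4 * B.card < n := by
    by_contra hcon
    push Not at hcon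
    have := hiso B Bᶜ (fun v => mem_compl) hcon hB2
    omega
  have hU : Bᶜ.card + B.card = n := by
    have := card_compl_add_card B
    rwa [hV] at this
  refine ⟨Bᶜ, by omega, ?_⟩
  intro A C hA hC hA2
  have hC' : C = Bᶜ \ A := by
    ext v
    rw [hC, mem_sdiff]
  subst hC'
  by_contra hcon
  push Not at hcon
  have hdisj : Disjoint A B := by
    rw [Finset.disjoint_left]
    intro v hv hvB
    exact (mem_compl.mp (hA hv)) hvB
  have hcu : (A ∪ B).card = A.card + B.card := card_union_of_disjoint hdisj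
  have hcAB : (A ∪ B)ᶜ = Bᶜ \ A := by
    ext v
    simp only [mem_compl, mem_union, mem_sdiff]
    tauto
  by_cases hs : 2 * (A ∪ B).card ≤ n
  · have h1 : ed Gr (A ∪ B) (A ∪ B)ᶜ ≤ ed Gr A (Bᶜ \ A) + ed Gr B Bᶜ := by
      rw [hcAB]
      exact le_trans (ed_union_left _ _ _) (add_le_add le_rfl
        (ed_mono (Subset.refl _) sdiff_subset))
    have := hBmax (A ∪ B) ⟨hs, by omega⟩
    omega
  · have hC : ((A ∪ B)ᶜ).card + (A ∪ B).card = n := by
      have := card_compl_add_card (A ∪ B)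
      rwa [hV] at this
    have h1 := hiso (A ∪ B)ᶜ (A ∪ B) (fun v => by rw [mem_compl, not_not]) (by omega) (by omega)
    have h2 : ed Gr (A ∪ B)ᶜ (A ∪ B) ≤ ed Gr (A ∪ B)ᶜ A + ed Gr (A ∪ B)ᶜ B :=
      ed_union_right _ _ _
    have h3 : ed Gr (A ∪ B)ᶜ A = ed Gr A (Bᶜ \ A) := by rw [ed_comm, hcAB]
    have h4 : ed Gr (A ∪ B)ᶜ B ≤ ed Gr B Bᶜ := by
      rw [ed_comm, hcAB]
      exact ed_mono (Subset.refl _) sdiff_subset
    omega

/-- the simple graph of a labelled graph -/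
def sg {S V : Type} (X : LG S V) : SimpleGraph V where
  Adj u v := u ≠ v ∧ ∃ a, X.Step u a v
  symm := ⟨by
    rintro u v ⟨h, a, ha⟩
    refine ⟨h.symm, (a.1, !a.2), ?_⟩
    unfold LG.Step at ha ⊢
    cases hb : a.2 with
    | true =>
      rw [hb, if_pos rfl] at ha
      simpa using ha
    | false =>
      rw [hb, if_neg (by simp)] at ha
      simpa using ha⟩
  loopless := ⟨fun v h => h.1 rfl⟩

/-- ordered edge from `A` to `C` -/
def InB {V : Type} (Gr : SimpleGraph V) (A C : Finset V) (p : V × V) : Prop :=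
  p.1 ∈ A ∧ p.2 ∈ C ∧ Gr.Adj p.1 p.2

theorem ed_eq {V : Type} [Fintype V] (Gr : SimpleGraph V) (A C : Finset V) :
    ed Gr A C = (univ.filter (fun p => InB Gr A C p)).card := by
  unfold ed InB
  congr!

/-- the number of good vertices bounds the boundary -/
theorem iso_rel {n q : ℕ} (f : Fin 24 × Fin n → Fin n) (Bad1 : Finset (Fin 24 × Fin n))
    (lam : Fin 24 × Fin n → Fin q) (Bad2 : Finset (Fin 24 × Fin n))
    (hf : NoFold (gr f Bad1) lam Bad2) (hiso : Iso1 f) (h1 : 32 * Bad1.card ≤ n)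
    (h2 : 128 * Bad2.card ≤ n) (A C : Finset (Fin n)) (hC : ∀ v, v ∈ C ↔ v ∉ A)
    (hA : n ≤ 4 * A.card)
    (hA2 : 2 * A.card ≤ n) : 11 * n ≤ 128 * ed (sg (rel (gr f Bad1) lam Bad2 hf)) A C := by
  have h3 := hiso A hA hA2
  set G1 := A.filter (fun v => ∃ a, f (a, v) ∉ A) with hG1
  set G2 := A.filter (fun v => ∃ a, (a, v) ∉ Bad1 ∧ (a, v) ∉ Bad2 ∧ f (a, v) ∉ A) with hG2
  have h4 : G1 ⊆ G2 ∪ (Bad1.image Prod.snd ∪ Bad2.image Prod.snd) := by
    intro v hv
    rw [hG1, mem_filter] at hv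
    obtain ⟨hvA, a, ha⟩ := hv
    rw [mem_union, mem_union, mem_image, mem_image, hG2, mem_filter]
    by_cases hb1 : (a, v) ∈ Bad1
    · right; left; exact ⟨(a, v), hb1, rfl⟩
    · by_cases hb2 : (a, v) ∈ Bad2
      · right; right; exact ⟨(a, v), hb2, rfl⟩
      · left; exact ⟨hvA, a, hb1, hb2, ha⟩
  have h5 : G1.card ≤ G2.card + (Bad1.card + Bad2.card) := by
    refine (card_le_card h4).trans ((card_union_le _ _).trans (Nat.add_le_add_left ?_ _))
    exact (card_union_le _ _).trans (add_le_add card_image_le card_image_le)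
  have h6 : G2.card ≤ ed (sg (rel (gr f Bad1) lam Bad2 hf)) A C := by
    have hch : ∀ v ∈ G2, ∃ a, (a, v) ∉ Bad1 ∧ (a, v) ∉ Bad2 ∧ f (a, v) ∉ A := by
      intro v hv
      rw [hG2, mem_filter] at hv
      exact hv.2
    choose! c hc using hch
    rw [ed_eq]
    apply card_le_card_of_injOn (fun v => (v, f (c v, v)))
    · intro v hv
      have hvA : v ∈ A := by
        rw [mem_coe, hG2, mem_filter] at hv
        exact hv.1
      obtain ⟨k1, k2, k3⟩ := hc v hv
      rw [mem_coe, mem_filter]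
      refine ⟨mem_univ _, hvA, (hC _).mpr k3, ?_, (lam (c v, v), true), ?_⟩
      · intro h
        simp only at h
        rw [← h] at k3
        exact k3 hvA
      · rw [rel_step]
        refine ⟨((c v, v), true), k2, rfl, ?_⟩
        unfold LG.Step
        rw [if_pos rfl]
        exact ⟨k1, rfl, rfl⟩
    · intro u _ v _ huv
      exact (Prod.mk.inj huv).1
  omega

/-- predicate in the Cheeger bound -/
def InP {q n : ℕ} (X : LG (Fin q) (Fin n)) (A : Finset (Fin n)) (p : Fin n × Fin n) : Prop :=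
  p.1 ∈ A ∧ p.2 ∉ A ∧ ∃ a, X.Step p.1 a p.2

theorem specF : SpecF := by
  obtain ⟨D, hD⟩ : ∃ D : ℕ, D = 110592 := ⟨_, rfl⟩
  obtain ⟨s, hs⟩ : ∃ s : ℕ, s = 9216 ^ 12 * (24 + D) ^ 2 * 385 ^ 12 := ⟨_, rfl⟩
  obtain ⟨q, hq⟩ : ∃ q : ℕ, q = s ^ 2 := ⟨_, rfl⟩
  refine ⟨q, 24 + D, 16, 9216, 1, ?_⟩
  intro m n g X hg hg0 hn hdeg B
  -- the girth parameter
  obtain ⟨g', hg'⟩ : ∃ g' : ℕ, g' = B + (∑ i, g i) + 1 := ⟨_, rfl⟩
  have hgg : ∀ i, g i ≤ g' := by
    intro i
    have := single_le_sum (f := g) (fun _ _ => Nat.zero_le _) (mem_univ i)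
    omega
  obtain ⟨N, hN⟩ : ∃ N : ℕ, N = 9216 ^ g' := ⟨_, rfl⟩
  have hN1 : 9216 ≤ N := by
    rw [hN]
    calc 9216 = 9216 ^ 1 := by norm_num
      _ ≤ 9216 ^ g' := Nat.pow_le_pow_right (by norm_num) (by omega)
  have hNB : 2 * g' ≤ N := by
    rw [hN]
    have h1 : g' < 2 ^ g' := Nat.lt_two_pow_self
    have h2 : 2 ^ g' * 2 ≤ 9216 ^ g' := by
      rw [← pow_succ]
      calc 2 ^ (g' + 1) ≤ 2 ^ (2 * g') := Nat.pow_le_pow_right (by norm_num) (by omega)
        _ = 4 ^ g' := by rw [pow_mul]; norm_num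
        _ ≤ 9216 ^ g' := Nat.pow_le_pow_left (by norm_num) _
    omega
  obtain ⟨f, Bad1, hb1, hd1, hgir, hiso⟩ := stage1 N g' D hN (by omega) hD
  have hu : Uniq (gr f Bad1) := gr_uniq f Bad1
  have hXd : ∀ i, Deg (X i) (24 + D) := by
    intro i x
    have := hdeg i x
    unfold Rd
    convert this
  obtain ⟨lam, Bad2, hb2, hfold, hpair, hcross⟩ := stage2 (gr f Bad1)
    ((0, ⟨0, by omega⟩) : Fin 24 × Fin N) (24 + D) 9216 g' ((g' + 11) / 12)
    s q (by omega) (by norm_num) hd1 (by rw [Fintype.card_fin, hN]) (by omega) (by omega)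
    hs hq m n g (fun i => (g i + 11) / 12) X hg hg0 hn hXd (by intro i; omega)
  rw [Fintype.card_fin] at hb2
  have hnf : NoFold (gr f Bad1) lam Bad2 := hfold
  obtain ⟨U, hU, hUc⟩ := prune2 N (by omega) (Fintype.card_fin N)
    (sg (rel (gr f Bad1) lam Bad2 hnf))
    (fun A C hC hA hA2 => iso_rel f Bad1 lam Bad2 hnf hiso hb1 hb2 A C hC hA hA2)
  have hUN : U.card ≤ N := by simpa using card_le_univ U
  obtain ⟨φ, hφi, hφU, hφs⟩ : ∃ φ : Fin U.card → Fin N, Function.Injective φ ∧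
      (∀ i, φ i ∈ U) ∧ ∀ v ∈ U, ∃ i, φ i = v :=
    ⟨fun i => (U.equivFin.symm i).1, fun i j h => U.equivFin.symm.injective (Subtype.ext h),
      fun i => (U.equivFin.symm i).2, fun v hv => ⟨U.equivFin ⟨v, hv⟩, by simp⟩⟩
  obtain ⟨Z, hZ⟩ : ∃ Z, Z = rel (gr f Bad1) lam Bad2 hnf := ⟨_, rfl⟩
  refine ⟨U.card, g', pull Z φ hφi, by omega, by omega, ?_, ?_⟩
  · constructor
    · omega
    · exact hUN.trans hN.le
    · intro x
      have h1 := rel_deg (gr f Bad1) lam Bad2 hnf (24 + D) hd1 (φ x)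
      rw [← hZ] at h1
      refine le_trans (card_le_card ?_) h1
      intro a ha
      simp only [mem_filter, mem_univ, true_and] at ha ⊢
      obtain ⟨y, hy⟩ := ha
      exact ⟨φ y, (pull_step Z φ hφi).mp hy⟩
    · intro x w hr hred hne
      have h1 := pull_reads Z φ hφi hr
      rw [hZ] at h1
      exact rel_girth (gr f Bad1) hu lam Bad2 hnf hgir (φ x) w h1 hred hne
    · intro x y w u v hxy hred h1 h2
      have h1' := pull_reads Z φ hφi h1
      have h2' := pull_reads Z φ hφi h2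
      rw [hZ] at h1' h2'
      exact rel_piece (gr f Bad1) hu lam Bad2 hnf hgir (l := (g' + 11) / 12) (by omega)
        (fun j hj => by omega) hpair (φ x) (φ y) w (φ u) (φ v) (fun h => hxy (hφi h)) hred
        h1' h2'
    · intro A hA
      have h1 : (A.image φ).card = A.card := card_image_of_injective _ hφi
      have h2 : A.image φ ⊆ U := by
        intro v hv
        rw [mem_image] at hv
        obtain ⟨i, _, rfl⟩ := hv
        exact hφU i
      have h3 := hUc (A.image φ) (U \ A.image φ) h2 (fun v => mem_sdiff) (by rw [h1]; exact hA)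
      rw [h1, ed_eq, ← hZ] at h3
      refine h3.trans (Nat.mul_le_mul_left _ ?_)
      have h4 : univ.filter (fun p => InB (sg Z) (A.image φ) (U \ A.image φ) p) ⊆
          (univ.filter (fun p : Fin U.card × Fin U.card => InP (pull Z φ hφi) A p)).image
            (fun p => (φ p.1, φ p.2)) := by
        rintro ⟨u, v⟩ h
        rw [mem_filter] at h
        obtain ⟨_, h5, h6, _, a, h7⟩ := h
        simp only at h5 h6 h7
        rw [mem_image] at h5
        obtain ⟨i, hi, rfl⟩ := h5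
        rw [mem_sdiff] at h6
        obtain ⟨j, rfl⟩ := hφs v h6.1
        rw [mem_image]
        refine ⟨(i, j), ?_, rfl⟩
        rw [mem_filter]
        refine ⟨mem_univ _, hi, ?_, a, (pull_step Z φ hφi).mpr h7⟩
        intro hj
        exact h6.2 (mem_image_of_mem _ hj)
      have h6 : (univ.filter (fun p : Fin U.card × Fin U.card => InP (pull Z φ hφi) A p)).card =
          (univ.filter (fun p : Fin U.card × Fin U.card => p.1 ∈ A ∧ p.2 ∉ A ∧
            ∃ a, (pull Z φ hφi).Step p.1 a p.2)).card := by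
        unfold InP
        congr!
      exact (card_le_card h4).trans (card_image_le.trans h6.le)
  · intro i x y w u v hred h1 h2
    have h2' := pull_reads Z φ hφi h2
    rw [hZ] at h2'
    exact rel_cross (gr f Bad1) hu lam Bad2 hnf (X i) hgir (l := (g i + 11) / 12)
      (by have := hgg i; omega) (fun j hj => by omega) (hcross i) x (φ y) w u (φ v) hred h1
      h2'

end Pool.Agent.Helper784WE.F
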