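import Mathlib
import Pool.Agent.Helper784WE.Spec
import Pool.Agent.Helper446.RE

/-!
Module G, second part: the squares of a recursively enumerable normal subgroup.
-/

set_option autoImplicit false

namespace Pool.Agent.Helper784WE.G

open Pool.Agent.Helper446

/-- words -/
abbrev W (q : ℕ) := List (Fin q × Bool)

section reduce

variable {q : ℕ}

/-- one step of the reduction -/
def redStep (x : Fin q × Bool) (ih : W q) : W q :=
  List.casesOn ih [x] fun hd tl => if x.1 = hd.1 ∧ x.2 = not hd.2 then tl else x :: hd :: tl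

theorem reduce_eq_foldr (l : W q) :
    FreeGroup.reduce l = l.foldr (fun b s => redStep b s) [] := by
  induction l with
  | nil => rfl
  | cons x l ih =>
    rw [List.foldr_cons, ← ih]
    rfl

theorem primrec_redStep : Primrec₂ (redStep (q := q)) := by
  unfold redStep
  refine Primrec.list_casesOn (f := fun p : (Fin q × Bool) × W q => p.2)
    (g := fun p => [p.1]) (h := fun (p : (Fin q × Bool) × W q) (r : (Fin q × Bool) × W q) =>
      if p.1.1 = r.1.1 ∧ p.1.2 = not r.1.2 then r.2 else p.1 :: r.1 :: r.2) Primrec.snd ?_ ?_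
  · exact Primrec.list_cons.comp Primrec.fst (Primrec.const [])
  · refine Primrec.ite ?_ ?_ ?_
    · refine PrimrecPred.and ?_ ?_
      · exact Primrec.eq.comp (Primrec.fst.comp (Primrec.fst.comp Primrec.fst))
          (Primrec.fst.comp (Primrec.fst.comp Primrec.snd))
      · exact Primrec.eq.comp (Primrec.snd.comp (Primrec.fst.comp Primrec.fst))
          (Primrec.not.comp (Primrec.snd.comp (Primrec.fst.comp Primrec.snd)))
    · exact Primrec.snd.comp Primrec.snd
    · exact Primrec.list_cons.comp (Primrec.fst.comp Primrec.fst)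
        (Primrec.list_cons.comp (Primrec.fst.comp Primrec.snd) (Primrec.snd.comp Primrec.snd))

theorem primrec_reduce : Primrec (FreeGroup.reduce : W q → W q) := by
  refine (Primrec.list_foldr (f := fun l : W q => l) (g := fun _ => ([] : W q))
    (h := fun _ p => redStep p.1 p.2) Primrec.id (Primrec.const []) ?_).of_eq
      (fun l => (reduce_eq_foldr l).symm)
  exact primrec_redStep.comp (Primrec.fst.comp Primrec.snd) (Primrec.snd.comp Primrec.snd)

theorem primrec_invRev : Primrec (FreeGroup.invRev : W q → W q) := by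
  unfold FreeGroup.invRev
  refine Primrec.list_reverse.comp (Primrec.list_map Primrec.id ?_)
  exact Primrec.pair (Primrec.fst.comp Primrec.snd)
    (Primrec.not.comp (Primrec.snd.comp Primrec.snd))

end reduce

/-- a conjugate `u r u⁻¹` or `u r⁻¹ u⁻¹` of a word -/
abbrev Ct (q : ℕ) := W q × Bool × W q

variable {q : ℕ}

/-- the word of a conjugate -/
def cw (t : Ct q) : W q :=
  t.1 ++ (cond t.2.1 t.2.2 (FreeGroup.invRev t.2.2) ++ FreeGroup.invRev t.1)

theorem mk_cw (t : Ct q) : FreeGroup.mk (cw t) =
    FreeGroup.mk t.1 * (cond t.2.1 (FreeGroup.mk t.2.2) (FreeGroup.mk t.2.2)⁻¹) *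
      (FreeGroup.mk t.1)⁻¹ := by
  obtain ⟨u, b, r⟩ := t
  cases b <;> simp only [cw, cond_true, cond_false, ← FreeGroup.mul_mk, FreeGroup.inv_mk, mul_assoc]

theorem primrec_cw : Primrec (cw (q := q)) := by
  have h1 : Primrec (fun t : Ct q => t.1) := Primrec.fst
  have h2 : Primrec (fun t : Ct q => t.2.1) := Primrec.fst.comp Primrec.snd
  have h3 : Primrec (fun t : Ct q => t.2.2) := Primrec.snd.comp Primrec.snd
  exact Primrec.list_append.comp h1 (Primrec.list_append.comp
    (Primrec.cond h2 h3 (primrec_invRev.comp h3)) (primrec_invRev.comp h1))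

/-- the word of a product of conjugates -/
def pr (l : List (Ct q)) : W q := l.flatMap cw

theorem primrec_pr : Primrec (pr (q := q)) :=
  Primrec.list_flatMap Primrec.id (primrec_cw.comp Primrec.snd)

theorem mk_pr_nil : FreeGroup.mk (pr ([] : List (Ct q))) = 1 := rfl

theorem mk_pr_append (l l' : List (Ct q)) :
    FreeGroup.mk (pr (l ++ l')) = FreeGroup.mk (pr l) * FreeGroup.mk (pr l') := by
  unfold pr
  rw [List.flatMap_append, FreeGroup.mul_mk]

theorem mk_pr_single (t : Ct q) : FreeGroup.mk (pr [t]) = FreeGroup.mk (cw t) := by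
  unfold pr
  rw [List.flatMap_cons, List.flatMap_nil, List.append_nil]

/-- inverse of a product of conjugates -/
def il (l : List (Ct q)) : List (Ct q) := (l.map (fun t => (t.1, !t.2.1, t.2.2))).reverse

theorem mk_pr_il (l : List (Ct q)) : FreeGroup.mk (pr (il l)) = (FreeGroup.mk (pr l))⁻¹ := by
  induction l with
  | nil => exact inv_one.symm
  | cons t l ih =>
    have h1 : il (t :: l) = il l ++ [(t.1, !t.2.1, t.2.2)] := by simp [il]
    have h2 : t :: l = [t] ++ l := rfl
    rw [h1, mk_pr_append, ih, mk_pr_single, h2, mk_pr_append, mk_pr_single, mul_inv_rev, mk_cw,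
      mk_cw]
    congr 1
    obtain ⟨u, b, r⟩ := t
    cases b <;> simp

/-- the certificate uses only words of `P` -/
def Good (P : W q → Prop) (l : List (Ct q)) : Prop := ∀ t ∈ l, P t.2.2

theorem Good.nil (P : W q → Prop) : Good P [] := by simp [Good]

theorem Good.append {P : W q → Prop} {l l' : List (Ct q)} (h : Good P l) (h' : Good P l') :
    Good P (l ++ l') := by
  intro t ht
  rcases List.mem_append.1 ht with ht | ht
  exacts [h t ht, h' t ht]

theorem Good.il {P : W q → Prop} {l : List (Ct q)} (h : Good P l) : Good P (il l) := by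
  intro t ht
  simp only [G.il, List.mem_reverse, List.mem_map] at ht
  obtain ⟨s, hs, rfl⟩ := ht
  exact h s hs

theorem mem_ncl {P : W q → Prop} {g : FreeGroup (Fin q)} :
    g ∈ ncl P ↔ ∃ l : List (Ct q), Good P l ∧ FreeGroup.mk (pr l) = g := by
  constructor
  · intro hg
    unfold ncl Subgroup.normalClosure at hg
    induction hg using Subgroup.closure_induction with
    | mem x hx =>
      obtain ⟨a, ⟨r, hr, rfl⟩, hc⟩ := Group.mem_conjugatesOfSet_iff.1 hx
      obtain ⟨c, hc⟩ := isConj_iff.1 hc
      refine ⟨[(c.toWord, true, r)], ?_, ?_⟩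
      · intro t ht
        rw [List.mem_singleton] at ht
        subst ht
        exact hr
      · rw [mk_pr_single, mk_cw]
        simp only [cond_true, FreeGroup.mk_toWord]
        exact hc
    | one => exact ⟨[], Good.nil P, rfl⟩
    | mul x y _ _ hx hy =>
      obtain ⟨l, hl, rfl⟩ := hx
      obtain ⟨l', hl', rfl⟩ := hy
      exact ⟨l ++ l', hl.append hl', mk_pr_append l l'⟩
    | inv x _ hx =>
      obtain ⟨l, hl, rfl⟩ := hx
      exact ⟨G.il l, hl.il, mk_pr_il l⟩
  · rintro ⟨l, hl, rfl⟩
    induction l with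
    | nil => exact (ncl P).one_mem
    | cons t l ih =>
      have h2 : t :: l = [t] ++ l := rfl
      rw [h2, mk_pr_append, mk_pr_single]
      refine (ncl P).mul_mem ?_ (ih (fun s hs => hl s (List.mem_cons_of_mem _ hs)))
      have h3 : P t.2.2 := hl t List.mem_cons_self
      have h4 : FreeGroup.mk t.2.2 ∈ ncl P := Subgroup.subset_normalClosure ⟨_, h3, rfl⟩
      have h5 : (ncl P).Normal := Subgroup.normalClosure_normal
      rw [mk_cw]
      refine h5.conj_mem _ ?_ _
      cases t.2.1
      · exact (ncl P).inv_mem h4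
      · exact h4

/-- the word of a product of squares -/
def sqw (L : List (List (Ct q))) : W q := L.flatMap (fun l => pr l ++ pr l)

theorem primrec_sqw : Primrec (sqw (q := q)) := by
  refine Primrec.list_flatMap Primrec.id ?_
  exact Primrec.list_append.comp (primrec_pr.comp Primrec.snd) (primrec_pr.comp Primrec.snd)

theorem mk_sqw_append (L L' : List (List (Ct q))) :
    FreeGroup.mk (sqw (L ++ L')) = FreeGroup.mk (sqw L) * FreeGroup.mk (sqw L') := by
  unfold sqw
  rw [List.flatMap_append, FreeGroup.mul_mk]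

theorem mk_sqw_single (l : List (Ct q)) : FreeGroup.mk (sqw [l]) = FreeGroup.mk (pr l) ^ 2 := by
  unfold sqw
  rw [List.flatMap_cons, List.flatMap_nil, List.append_nil, ← FreeGroup.mul_mk, pow_two]

theorem mk_sqw_inv (L : List (List (Ct q))) :
    FreeGroup.mk (sqw (L.map il).reverse) = (FreeGroup.mk (sqw L))⁻¹ := by
  induction L with
  | nil => exact inv_one.symm
  | cons l L ih =>
    have h1 : ((l :: L).map il).reverse = (L.map il).reverse ++ [il l] := by simp
    have h2 : l :: L = [l] ++ L := rfl
    rw [h1, mk_sqw_append, ih, mk_sqw_single, h2, mk_sqw_append, mk_sqw_single, mk_pr_il,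
      mul_inv_rev, inv_pow]

theorem mem_sq {P : W q → Prop} {g : FreeGroup (Fin q)} :
    g ∈ sq (ncl P) ↔
      ∃ L : List (List (Ct q)), (∀ l ∈ L, Good P l) ∧ FreeGroup.mk (sqw L) = g := by
  constructor
  · intro hg
    unfold sq at hg
    induction hg using Subgroup.closure_induction with
    | mem x hx =>
      obtain ⟨n, hn, rfl⟩ := hx
      obtain ⟨l, hl, rfl⟩ := mem_ncl.1 hn
      refine ⟨[l], ?_, mk_sqw_single l⟩
      intro l' hl'
      rw [List.mem_singleton] at hl'
      subst hl'
      exact hl
    | one => exact ⟨[], by simp, rfl⟩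
    | mul x y _ _ hx hy =>
      obtain ⟨L, hL, rfl⟩ := hx
      obtain ⟨L', hL', rfl⟩ := hy
      refine ⟨L ++ L', ?_, mk_sqw_append L L'⟩
      intro l hl
      rcases List.mem_append.1 hl with hl | hl
      exacts [hL l hl, hL' l hl]
    | inv x _ hx =>
      obtain ⟨L, hL, rfl⟩ := hx
      refine ⟨(L.map il).reverse, ?_, mk_sqw_inv L⟩
      intro l hl
      simp only [List.mem_reverse, List.mem_map] at hl
      obtain ⟨l', hl', rfl⟩ := hl
      exact (hL l' hl').il
  · rintro ⟨L, hL, rfl⟩
    induction L with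
    | nil => exact (sq (ncl P)).one_mem
    | cons l L ih =>
      have h2 : l :: L = [l] ++ L := rfl
      rw [h2, mk_sqw_append, mk_sqw_single]
      refine (sq (ncl P)).mul_mem ?_ (ih (fun s hs => hL s (List.mem_cons_of_mem _ hs)))
      exact Subgroup.subset_closure ⟨_, mem_ncl.2 ⟨l, hL l List.mem_cons_self, rfl⟩, rfl⟩

theorem re_good {α : Type} [Primcodable α] {P : W q → Prop} (hP : REPred P)
    {f : α → List (Ct q)} (hf : Computable f) : REPred fun a => Good P (f a) := by
  unfold Good
  refine RE.all_mem (p := fun _ t => P t.2.2) ?_ hf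
  exact RE.comp hP (Computable.snd.comp (Computable.snd.comp Computable.snd))

theorem specG2 : SpecG2 := by
  intro q P hP
  have h1 : REPred fun w : W q => ∃ L : List (List (Ct q)),
      (∀ l ∈ L, Good P l) ∧ FreeGroup.reduce (sqw L) = FreeGroup.reduce w := by
    refine RE.ex (p := fun (w : W q) (L : List (List (Ct q))) =>
      (∀ l ∈ L, Good P l) ∧ FreeGroup.reduce (sqw L) = FreeGroup.reduce w) ?_
    refine RE.and ?_ ?_
    · refine RE.all_mem (p := fun (_ : W q × List (List (Ct q))) l => Good P l) ?_ Computable.snd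
      exact re_good hP Computable.snd
    · exact RE.eq ((primrec_reduce.comp (primrec_sqw.comp Primrec.snd)).to_comp)
        ((primrec_reduce.comp Primrec.fst).to_comp)
  refine h1.of_eq fun w => ?_
  rw [mem_sq]
  constructor
  · rintro ⟨L, hL, h⟩
    exact ⟨L, hL, FreeGroup.reduce.exact h⟩
  · rintro ⟨L, hL, h⟩
    refine ⟨L, hL, ?_⟩
    have := congrArg FreeGroup.toWord h
    rwa [FreeGroup.toWord_mk, FreeGroup.toWord_mk] at this

end Pool.Agent.Helper784WE.G
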