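import Mathlib
import Pool.Agent.Helper784WE.G2

/-!
Module G, first part: a computable sequence. Here: the recursion, and the words read in a coded
labelled graph.
-/

set_option autoImplicit false

namespace Pool.Agent.Helper784WE.G

open Pool.Agent.Helper446

/-- A computable sequence chosen step by step along a recursively enumerable relation. -/
theorem exists_seq {C : Type} [Primcodable C] (R : List C → C → Prop)
    (hR : REPred fun x : List C × C => R x.1 x.2) (Inv : List C → Prop) (h0 : Inv [])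
    (hs : ∀ L, Inv L → ∃ c, R L c) (hi : ∀ L c, Inv L → R L c → Inv (L ++ [c])) :
    ∃ c : ℕ → C, Computable c ∧ (∀ k, Inv ((List.range k).map c)) ∧
      ∀ k, R ((List.range k).map c) (c k) := by
  obtain ⟨f, hf, hfd, hfr⟩ := RE.uniformize hR
  let G : ℕ →. List C := fun k => Nat.rec (motive := fun _ => Part (List C)) (Part.some [])
    (fun _ IH => IH.bind fun L => (f L).map fun c => L ++ [c]) k
  have hG : Partrec G := by
    refine Partrec.nat_rec (α := ℕ) (f := fun k => k) (g := fun _ => Part.some ([] : List C))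
      (h := fun _ (p : ℕ × List C) => (f p.2).map fun c => p.2 ++ [c]) Computable.id
      (Computable.const ([] : List C)).partrec ?_
    refine Partrec.map (hf.comp (Computable.snd.comp Computable.snd)) ?_
    refine Computable.list_append.comp
      (Computable.snd.comp (Computable.snd.comp Computable.fst)) ?_
    exact Computable.list_cons.comp Computable.snd (Computable.const [])
  have h1 : ∀ k, ∃ L, L ∈ G k ∧ Inv L := by
    intro k
    induction k with
    | zero => exact ⟨[], Part.mem_some _, h0⟩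
    | succ k ih =>
      obtain ⟨L, hL, hI⟩ := ih
      obtain ⟨c, hc⟩ := Part.dom_iff_mem.1 ((hfd L).2 (hs L hI))
      refine ⟨L ++ [c], ?_, hi L c hI (hfr L c hc)⟩
      show L ++ [c] ∈ (G k).bind fun L => (f L).map fun c => L ++ [c]
      exact Part.mem_bind hL (Part.mem_map (fun c => L ++ [c]) hc)
  choose S hS hSI using h1
  have hSc : Computable S := hG.of_eq_tot hS
  have hS0 : S 0 = [] := Part.mem_unique (hS 0) (Part.mem_some _)
  have hS1 : ∀ k, ∃ c, R (S k) c ∧ S (k + 1) = S k ++ [c] := by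
    intro k
    have h2 : S (k + 1) ∈ (G k).bind fun L => (f L).map fun c => L ++ [c] := hS (k + 1)
    obtain ⟨L, hL, h3⟩ := Part.mem_bind_iff.1 h2
    obtain ⟨c, hc, h4⟩ := (Part.mem_map_iff _).1 h3
    have h5 : L = S k := Part.mem_unique hL (hS k)
    subst h5
    exact ⟨c, hfr _ _ hc, h4.symm⟩
  have hSl : ∀ k, (S k).length = k := by
    intro k
    induction k with
    | zero => rw [hS0]; rfl
    | succ k ih =>
      obtain ⟨c, -, hc⟩ := hS1 k
      rw [hc, List.length_append, ih]
      rfl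
  obtain ⟨c0, -⟩ := hs [] h0
  refine ⟨fun k => ((S (k + 1))[k]?).getD c0, ?_, ?_⟩
  · exact Primrec.option_getD.to_comp.comp
      (Computable.list_getElem?.comp (hSc.comp Computable.succ) Computable.id) (Computable.const c0)
  have hS2 : ∀ k, R (S k) (((S (k + 1))[k]?).getD c0) ∧
      S (k + 1) = S k ++ [((S (k + 1))[k]?).getD c0] := by
    intro k
    obtain ⟨c, hc, h2⟩ := hS1 k
    have h3 : ((S (k + 1))[k]?).getD c0 = c := by
      rw [h2]
      have := hSl k
      rw [List.getElem?_append_right (by omega)]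
      simp [this]
    rw [h3]
    exact ⟨hc, h2⟩
  have hS3 : ∀ k, S k = (List.range k).map (fun k => ((S (k + 1))[k]?).getD c0) := by
    intro k
    induction k with
    | zero => rw [hS0]; rfl
    | succ k ih =>
      rw [List.range_succ, List.map_append, ← ih]
      exact (hS2 k).2
  refine ⟨fun k => ?_, fun k => ?_⟩
  · rw [← hS3]; exact hSI k
  · rw [← hS3]; exact (hS2 k).1

variable {q : ℕ}

/-- a coded edge: source, label, target -/
abbrev Tr (q : ℕ) := ℕ × Fin q × ℕ

/-- the list of edges is a labelled graph on `{0, ..., n - 1}` -/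
def Val (n : ℕ) (l : List (Tr q)) : Prop :=
  (∀ t ∈ l, t.1 < n ∧ t.2.2 < n) ∧
  (∀ t ∈ l, ∀ t' ∈ l, t.1 ≠ t'.1 ∨ t.2.1 ≠ t'.2.1 ∨ t.2.2 = t'.2.2) ∧
  (∀ t ∈ l, ∀ t' ∈ l, t.2.2 ≠ t'.2.2 ∨ t.2.1 ≠ t'.2.1 ∨ t.1 = t'.1)

/-- the coded labelled graph -/
def toLG (n : ℕ) (l : List (Tr q)) : LG (Fin q) (Fin n) where
  E x s y := Val n l ∧ ((x : ℕ), s, (y : ℕ)) ∈ l
  det := by
    rintro x s y y' ⟨hv, h1⟩ ⟨-, h2⟩
    rcases hv.2.1 _ h1 _ h2 with h | h | h
    · exact absurd rfl h
    · exact absurd rfl h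
    · exact Fin.ext h
  codet := by
    rintro x x' s y ⟨hv, h1⟩ ⟨-, h2⟩
    rcases hv.2.2 _ h1 _ h2 with h | h | h
    · exact absurd rfl h
    · exact absurd rfl h
    · exact Fin.ext h

theorem exists_code {n : ℕ} (X : LG (Fin q) (Fin n)) :
    ∃ l : List (Tr q), Val n l ∧ toLG n l = X := by
  classical
  let l : List (Tr q) := ((Finset.univ : Finset (Fin n × Fin q × Fin n)).filter
    (fun p => X.E p.1 p.2.1 p.2.2)).toList.map (fun p => ((p.1 : ℕ), p.2.1, (p.2.2 : ℕ)))
  have hl : ∀ t : Tr q, t ∈ l ↔ ∃ x y : Fin n, X.E x t.2.1 y ∧ (x : ℕ) = t.1 ∧ (y : ℕ) = t.2.2 := by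
    rintro ⟨x, s, y⟩
    simp only [l, List.mem_map, Finset.mem_toList, Finset.mem_filter, Finset.mem_univ, true_and,
      Prod.exists, Prod.mk.injEq]
    constructor
    · rintro ⟨a, b, c, h, h1, h2, h3⟩
      subst h2
      exact ⟨a, c, h, h1, h3⟩
    · rintro ⟨a, c, h, h1, h3⟩
      exact ⟨a, s, c, h, h1, rfl, h3⟩
  have hv : Val n l := by
    refine ⟨?_, ?_, ?_⟩
    · intro t ht
      obtain ⟨x, y, -, h1, h2⟩ := (hl t).1 ht
      exact ⟨h1 ▸ x.2, h2 ▸ y.2⟩
    · rintro ⟨t1, t2, t3⟩ ht ⟨u1, u2, u3⟩ hu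
      obtain ⟨x, y, h, h1, h2⟩ := (hl _).1 ht
      obtain ⟨x', y', h', h1', h2'⟩ := (hl _).1 hu
      simp only at h h1 h2 h' h1' h2' ⊢
      by_cases e1 : t1 = u1
      · by_cases e2 : t2 = u2
        · right; right
          subst e2
          have : x = x' := Fin.ext (by omega)
          subst this
          have := X.det h h'
          subst this
          omega
        · exact Or.inr (Or.inl e2)
      · exact Or.inl e1
    · rintro ⟨t1, t2, t3⟩ ht ⟨u1, u2, u3⟩ hu
      obtain ⟨x, y, h, h1, h2⟩ := (hl _).1 ht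
      obtain ⟨x', y', h', h1', h2'⟩ := (hl _).1 hu
      simp only at h h1 h2 h' h1' h2' ⊢
      by_cases e1 : t3 = u3
      · by_cases e2 : t2 = u2
        · right; right
          subst e2
          have : y = y' := Fin.ext (by omega)
          subst this
          have := X.codet h h'
          subst this
          omega
        · exact Or.inr (Or.inl e2)
      · exact Or.inl e1
  refine ⟨l, hv, ?_⟩
  have h1 : (toLG n l).E = X.E := by
    funext x s y
    apply propext
    show (Val n l ∧ ((x : ℕ), s, (y : ℕ)) ∈ l) ↔ _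
    rw [hl]
    constructor
    · rintro ⟨-, a, b, h, h1, h2⟩
      have e1 : a = x := Fin.ext h1
      have e2 : b = y := Fin.ext h2
      subst e1 e2
      exact h
    · intro h
      exact ⟨hv, x, y, h, rfl, rfl⟩
  cases X with
  | mk E d c =>
    show LG.mk _ _ _ = _
    congr 1

/-- the neighbours along a letter -/
def nb (l : List (Tr q)) (x : ℕ) (a : Fin q × Bool) : List ℕ :=
  l.filterMap (fun t => if a.2 = true then (if t.1 = x ∧ t.2.1 = a.1 then some t.2.2 else none)
    else (if t.2.2 = x ∧ t.2.1 = a.1 then some t.1 else none))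

theorem mem_nb {l : List (Tr q)} {x : ℕ} {a : Fin q × Bool} {y : ℕ} :
    y ∈ nb l x a ↔ (if a.2 = true then (x, a.1, y) ∈ l else (y, a.1, x) ∈ l) := by
  unfold nb
  rw [List.mem_filterMap]
  by_cases h : a.2 = true
  · simp only [h, if_true]
    constructor
    · rintro ⟨⟨t1, t2, t3⟩, ht, h1⟩
      split_ifs at h1 with h2
      simp only [Option.some.injEq] at h1 h2
      obtain ⟨rfl, rfl⟩ := h2
      subst h1
      exact ht
    · intro h1
      exact ⟨_, h1, by simp⟩
  · simp only [h]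
    constructor
    · rintro ⟨⟨t1, t2, t3⟩, ht, h1⟩
      simp only [Bool.false_eq_true, if_false] at h1
      split_ifs at h1 with h2
      simp only [Option.some.injEq] at h1 h2
      obtain ⟨rfl, rfl⟩ := h2
      subst h1
      exact ht
    · intro h1
      exact ⟨_, h1, by simp⟩

theorem mem_nb_iff {n : ℕ} {l : List (Tr q)} (hv : Val n l) (x : Fin n) (a : Fin q × Bool) (y : ℕ) :
    y ∈ nb l x a ↔ ∃ y' : Fin n, (y' : ℕ) = y ∧ (toLG n l).Step x a y' := by
  rw [mem_nb]
  unfold LG.Step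
  by_cases h : a.2 = true
  · simp only [h, if_true]
    constructor
    · intro h1
      exact ⟨⟨y, (hv.1 _ h1).2⟩, rfl, hv, h1⟩
    · rintro ⟨y', rfl, -, h1⟩
      exact h1
  · simp only [h]
    constructor
    · intro h1
      exact ⟨⟨y, (hv.1 _ h1).1⟩, rfl, hv, h1⟩
    · rintro ⟨y', rfl, -, h1⟩
      exact h1

/-- the endpoints of the paths labelled `w` which start in `S` -/
def runs (l : List (Tr q)) (S : List ℕ) (w : W q) : List ℕ :=
  w.foldl (fun S a => S.flatMap (fun z => nb l z a)) S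

/-- the endpoints of the paths labelled `w` which start in `x` -/
def run (l : List (Tr q)) (x : ℕ) (w : W q) : List ℕ := runs l [x] w

theorem mem_runs_iff {n : ℕ} {l : List (Tr q)} (hv : Val n l) (w : W q) :
    ∀ (S : List ℕ), (∀ x ∈ S, x < n) → ∀ y : ℕ,
    (y ∈ runs l S w ↔ ∃ x' y' : Fin n, (x' : ℕ) ∈ S ∧ (y' : ℕ) = y ∧ (toLG n l).Reads x' w y') := by
  induction w with
  | nil =>
    intro S hS y
    show y ∈ S ↔ _
    constructor
    · intro h
      exact ⟨⟨y, hS y h⟩, ⟨y, hS y h⟩, h, rfl, LG.Reads.nil _⟩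
    · rintro ⟨x', y', h1, rfl, h2⟩
      cases h2
      exact h1
  | cons a w ih =>
    intro S hS y
    show y ∈ runs l (S.flatMap (fun z => nb l z a)) w ↔ _
    rw [ih]
    · constructor
      · rintro ⟨z, y', h1, h2, h3⟩
        obtain ⟨x, hx, h4⟩ := List.mem_flatMap.1 h1
        obtain ⟨z', h5, h6⟩ := (mem_nb_iff hv ⟨x, hS x hx⟩ a z).1 h4
        have : z' = z := Fin.ext h5
        subst this
        exact ⟨⟨x, hS x hx⟩, y', hx, h2, LG.Reads.cons h6 h3⟩
      · rintro ⟨x, y', h1, h2, h3⟩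
        cases h3 with
        | cons h4 h5 =>
          rename_i z
          exact ⟨z, y', List.mem_flatMap.2 ⟨x, h1, (mem_nb_iff hv x a z).2 ⟨z, rfl, h4⟩⟩, h2, h5⟩
    · intro z hz
      obtain ⟨x, hx, h4⟩ := List.mem_flatMap.1 hz
      obtain ⟨z', h5, h6⟩ := (mem_nb_iff hv ⟨x, hS x hx⟩ a z).1 h4
      exact h5 ▸ z'.2

theorem mem_run_iff {n : ℕ} {l : List (Tr q)} (hv : Val n l) (x : Fin n) (w : W q) (y : ℕ) :
    y ∈ run l x w ↔ ∃ y' : Fin n, (y' : ℕ) = y ∧ (toLG n l).Reads x w y' := by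
  unfold run
  rw [mem_runs_iff hv w [(x : ℕ)] (by simp)]
  constructor
  · rintro ⟨x', y', h1, h2, h3⟩
    rw [List.mem_singleton] at h1
    have : x' = x := Fin.ext h1
    subst this
    exact ⟨y', h2, h3⟩
  · rintro ⟨y', h2, h3⟩
    exact ⟨x, y', List.mem_singleton.2 rfl, h2, h3⟩

theorem run_eq_nil_iff {n : ℕ} {l : List (Tr q)} (hv : Val n l) (x : Fin n) (w : W q) :
    run l x w = [] ↔ ∀ y : Fin n, ¬ (toLG n l).Reads x w y := by
  rw [List.eq_nil_iff_forall_not_mem]
  constructor
  · intro h y h1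
    exact h y ((mem_run_iff hv x w y).2 ⟨y, rfl, h1⟩)
  · intro h y h1
    obtain ⟨y', -, h2⟩ := (mem_run_iff hv x w y).1 h1
    exact h y' h2

end Pool.Agent.Helper784WE.G
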