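import Mathlib
import Pool.Agent.Helper784WE.G1

/-!
Module G, first part: a computable sequence. The conditions on the graphs are finite checks.
-/

set_option autoImplicit false

namespace Pool.Agent.Helper784WE.G

open Pool.Agent.Helper446

variable {q : ℕ}

/-! ### primitive recursive functions -/

theorem primrec_nb : Primrec (fun p : (List (Tr q) × ℕ) × (Fin q × Bool) => nb p.1.1 p.1.2 p.2) := by
  unfold nb
  refine Primrec.listFilterMap (f := fun p : (List (Tr q) × ℕ) × (Fin q × Bool) => p.1.1)
    (g := fun p t => if p.2.2 = true then (if t.1 = p.1.2 ∧ t.2.1 = p.2.1 then some t.2.2 else none)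
    else (if t.2.2 = p.1.2 ∧ t.2.1 = p.2.1 then some t.1 else none))
    (Primrec.fst.comp Primrec.fst) ?_
  have h1 : Primrec (fun x : ((List (Tr q) × ℕ) × (Fin q × Bool)) × Tr q => x.1.2.2) :=
    Primrec.snd.comp (Primrec.snd.comp Primrec.fst)
  have h2 : Primrec (fun x : ((List (Tr q) × ℕ) × (Fin q × Bool)) × Tr q => x.1.2.1) :=
    Primrec.fst.comp (Primrec.snd.comp Primrec.fst)
  have h3 : Primrec (fun x : ((List (Tr q) × ℕ) × (Fin q × Bool)) × Tr q => x.1.1.2) :=
    Primrec.snd.comp (Primrec.fst.comp Primrec.fst)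
  have h4 : Primrec (fun x : ((List (Tr q) × ℕ) × (Fin q × Bool)) × Tr q => x.2.1) :=
    Primrec.fst.comp Primrec.snd
  have h5 : Primrec (fun x : ((List (Tr q) × ℕ) × (Fin q × Bool)) × Tr q => x.2.2.1) :=
    Primrec.fst.comp (Primrec.snd.comp Primrec.snd)
  have h6 : Primrec (fun x : ((List (Tr q) × ℕ) × (Fin q × Bool)) × Tr q => x.2.2.2) :=
    Primrec.snd.comp (Primrec.snd.comp Primrec.snd)
  refine Primrec.ite (Primrec.eq.comp h1 (Primrec.const true)) ?_ ?_
  · exact Primrec.ite (PrimrecPred.and (Primrec.eq.comp h4 h3) (Primrec.eq.comp h5 h2))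
      (Primrec.option_some.comp h6) (Primrec.const none)
  · exact Primrec.ite (PrimrecPred.and (Primrec.eq.comp h6 h3) (Primrec.eq.comp h5 h2))
      (Primrec.option_some.comp h4) (Primrec.const none)

theorem primrec_runs :
    Primrec (fun p : (List (Tr q) × List ℕ) × W q => runs p.1.1 p.1.2 p.2) := by
  unfold runs
  refine Primrec.list_foldl (f := fun p : (List (Tr q) × List ℕ) × W q => p.2)
    (g := fun p => p.1.2)
    (h := fun p (x : List ℕ × (Fin q × Bool)) => x.1.flatMap (fun z => nb p.1.1 z x.2))
    Primrec.snd (Primrec.snd.comp Primrec.fst) ?_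
  refine Primrec.list_flatMap (Primrec.fst.comp Primrec.snd) ?_
  exact primrec_nb.comp (Primrec.pair (Primrec.pair
    (Primrec.fst.comp (Primrec.fst.comp (Primrec.fst.comp Primrec.fst))) Primrec.snd)
    (Primrec.snd.comp (Primrec.snd.comp Primrec.fst)))

theorem computable_run {α : Type} [Primcodable α] {l : α → List (Tr q)} {x : α → ℕ} {w : α → W q}
    (hl : Computable l) (hx : Computable x) (hw : Computable w) :
    Computable fun a => run (l a) (x a) (w a) :=
  primrec_runs.to_comp.comp
    ((hl.pair (Computable.list_cons.comp hx (Computable.const []))).pair hw)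

/-- all letters -/
noncomputable def letters (q : ℕ) : List (Fin q × Bool) :=
  (Finset.univ : Finset (Fin q × Bool)).toList

theorem mem_letters (a : Fin q × Bool) : a ∈ letters q := by
  unfold letters
  simp

/-- all words of length `k` -/
noncomputable def words (q k : ℕ) : List (W q) :=
  Nat.rec (motive := fun _ => List (W q)) [[]]
    (fun _ ih => ih.flatMap (fun w => (letters q).map (fun a => a :: w))) k

theorem mem_words (k : ℕ) (w : W q) : w ∈ words q k ↔ w.length = k := by
  induction k generalizing w with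
  | zero =>
    show w ∈ [[]] ↔ _
    rw [List.mem_singleton, List.length_eq_zero_iff]
  | succ k ih =>
    show w ∈ (words q k).flatMap (fun w => (letters q).map (fun a => a :: w)) ↔ _
    rw [List.mem_flatMap]
    constructor
    · rintro ⟨w', hw', h⟩
      obtain ⟨a, -, rfl⟩ := List.mem_map.1 h
      rw [List.length_cons, (ih w').1 hw']
    · intro h
      cases w with
      | nil => simp at h
      | cons a w =>
        refine ⟨w, (ih w).2 (by simpa using h), List.mem_map.2 ⟨a, mem_letters a, rfl⟩⟩

theorem primrec_words : Primrec (words q) := by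
  unfold words
  refine Primrec.nat_rec₁ _ ?_
  refine Primrec.list_flatMap Primrec.snd ?_
  refine Primrec.list_map (Primrec.const (letters q)) ?_
  exact Primrec.list_cons.comp Primrec.snd (Primrec.snd.comp Primrec.fst)

theorem primrec_sublists {β : Type} [Primcodable β] : Primrec (List.sublists : List β → _) := by
  have h1 : Primrec (fun l : List β => l.foldr
      (fun a acc => acc.flatMap fun x => [x, a :: x]) [[]]) := by
    refine Primrec.list_foldr (f := fun l : List β => l) (g := fun _ => [[]])
      (h := fun _ (p : β × List (List β)) => p.2.flatMap fun x => [x, p.1 :: x]) Primrec.id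
      (Primrec.const [[]]) ?_
    refine Primrec.list_flatMap (Primrec.snd.comp Primrec.snd) ?_
    refine Primrec.list_cons.comp Primrec.snd (Primrec.list_cons.comp
      (Primrec.list_cons.comp (Primrec.fst.comp (Primrec.snd.comp Primrec.fst)) Primrec.snd)
      (Primrec.const []))
  refine h1.of_eq fun l => ?_
  rfl

/-- number of letters readable at a vertex -/
noncomputable def dg (l : List (Tr q)) (x : ℕ) : ℕ :=
  ((letters q).filter (fun a => decide (nb l x a ≠ []))).length

theorem computable_dg {α : Type} [Primcodable α] {l : α → List (Tr q)} {x : α → ℕ}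
    (hl : Computable l) (hx : Computable x) : Computable fun a => dg (l a) (x a) := by
  have h1 : PrimrecRel (fun (a : Fin q × Bool) (p : List (Tr q) × ℕ) => nb p.1 p.2 a ≠ []) := by
    have h0 : Primrec (fun x : (Fin q × Bool) × (List (Tr q) × ℕ) => nb x.2.1 x.2.2 x.1) :=
      primrec_nb.comp (Primrec.pair Primrec.snd Primrec.fst)
    exact PrimrecPred.not (Primrec.eq.comp h0 (Primrec.const []))
  have h2 : Primrec (fun p : List (Tr q) × ℕ =>
      ((letters q).filter (fun a => decide (nb p.1 p.2 a ≠ []))).length) :=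
    Primrec.list_length.comp (h1.listFilter.comp (Primrec.const (letters q)) Primrec.id)
  exact h2.to_comp.comp (hl.pair hx)

/-- the pairs of vertices -/
def prs (n : ℕ) : List (ℕ × ℕ) :=
  (List.range n).flatMap (fun x => (List.range n).map (fun y => (x, y)))

theorem mem_prs {n : ℕ} {p : ℕ × ℕ} : p ∈ prs n ↔ p.1 < n ∧ p.2 < n := by
  obtain ⟨x, y⟩ := p
  simp [prs]

theorem nodup_prs (n : ℕ) : (prs n).Nodup := by
  have : prs n = (List.range n) ×ˢ (List.range n) := rfl
  rw [this]
  exact List.Nodup.product List.nodup_range List.nodup_range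

/-- there is an edge from a vertex of `A` to a vertex outside -/
def Out (l : List (Tr q)) (A : List ℕ) (p : ℕ × ℕ) : Prop :=
  p.1 ∈ A ∧ p.2 ∉ A ∧ ∃ a ∈ letters q, p.2 ∈ nb l p.1 a

noncomputable instance (l : List (Tr q)) (A : List ℕ) (p : ℕ × ℕ) : Decidable (Out l A p) :=
  Classical.propDecidable _

/-- number of edges which leave `A` -/
noncomputable def cnt (n : ℕ) (l : List (Tr q)) (A : List ℕ) : ℕ :=
  ((prs n).filter (fun p => decide (Out l A p))).length

theorem primrecPred_mem {β : Type} [Primcodable β] :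
    PrimrecPred (fun p : β × List β => p.1 ∈ p.2) := by
  have h1 : PrimrecRel (fun (x y : β) => x = y) := Primrec.eq
  refine (PrimrecRel.comp (h1.exists_mem_list) Primrec.snd Primrec.fst).of_eq ?_
  rintro ⟨x, L⟩
  simp

theorem primrecRel_out :
    PrimrecRel (fun (p : ℕ × ℕ) (b : List (Tr q) × List ℕ) => Out b.1 b.2 p) := by
  unfold Out
  have h1 : Primrec (fun x : (ℕ × ℕ) × (List (Tr q) × List ℕ) => x.1.1) :=
    Primrec.fst.comp Primrec.fst
  have h2 : Primrec (fun x : (ℕ × ℕ) × (List (Tr q) × List ℕ) => x.1.2) :=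
    Primrec.snd.comp Primrec.fst
  have h3 : Primrec (fun x : (ℕ × ℕ) × (List (Tr q) × List ℕ) => x.2.1) :=
    Primrec.fst.comp Primrec.snd
  have h4 : Primrec (fun x : (ℕ × ℕ) × (List (Tr q) × List ℕ) => x.2.2) :=
    Primrec.snd.comp Primrec.snd
  refine PrimrecPred.and ?_ (PrimrecPred.and ?_ ?_)
  · exact primrecPred_mem.comp (h1.pair h4)
  · exact (primrecPred_mem.comp (h2.pair h4)).not
  · have h5 : PrimrecRel (fun (a : Fin q × Bool) (x : (ℕ × ℕ) × (List (Tr q) × List ℕ)) =>
        x.1.2 ∈ nb x.2.1 x.1.1 a) := by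
      have h6 : Primrec (fun z : (Fin q × Bool) × ((ℕ × ℕ) × (List (Tr q) × List ℕ)) =>
          nb z.2.2.1 z.2.1.1 z.1) := primrec_nb.comp
        (Primrec.pair (Primrec.pair (h3.comp Primrec.snd) (h1.comp Primrec.snd)) Primrec.fst)
      exact (primrecPred_mem (β := ℕ)).comp (Primrec.pair (h2.comp Primrec.snd) h6)
    exact PrimrecRel.comp h5.exists_mem_list (Primrec.const (letters q)) Primrec.id

theorem primrec_prs : Primrec prs := by
  unfold prs
  refine Primrec.list_flatMap Primrec.list_range ?_
  refine Primrec.list_map (Primrec.list_range.comp Primrec.fst) ?_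
  exact Primrec.pair (Primrec.snd.comp Primrec.fst) Primrec.snd

theorem computable_cnt {α : Type} [Primcodable α] {n : α → ℕ} {l : α → List (Tr q)}
    {A : α → List ℕ} (hn : Computable n) (hl : Computable l) (hA : Computable A) :
    Computable fun a => cnt (n a) (l a) (A a) := by
  have h2 : Primrec (fun p : ℕ × (List (Tr q) × List ℕ) =>
      ((prs p.1).filter (fun z => decide (Out p.2.1 p.2.2 z))).length) :=
    Primrec.list_length.comp
      (primrecRel_out.listFilter.comp (primrec_prs.comp Primrec.fst) Primrec.snd)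
  exact h2.to_comp.comp (hn.pair (hl.pair hA))

theorem computable_pow {α : Type} [Primcodable α] {f g : α → ℕ} (hf : Computable f)
    (hg : Computable g) : Computable (fun a => f a ^ g a) :=
  (Primrec₂.unpaired'.1 Nat.Primrec.pow).to_comp.comp hf hg

/-! ### the checks -/

/-- the check of one graph -/
def Chk (D0 M C0 : ℕ) (n g : ℕ) (l : List (Tr q)) : Prop :=
  Val n l ∧ 0 < n ∧ n ≤ C0 ^ g ∧
  (∀ x ∈ List.range n, dg l x ≤ D0) ∧
  (∀ x ∈ List.range n, ∀ k ∈ List.range g, ∀ w ∈ words q k,
    FreeGroup.reduce w ≠ w ∨ w = [] ∨ x ∉ run l x w) ∧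
  (∀ x ∈ List.range n, ∀ y ∈ List.range n, x = y ∨
    ∀ w ∈ words q ((g + 11) / 12), FreeGroup.reduce w ≠ w ∨ run l x w = [] ∨ run l y w = []) ∧
  (∀ A ∈ (List.range n).sublists, n < 2 * A.length ∨ A.length ≤ M * cnt n l A)

/-- the check of a pair of graphs -/
def Crs (g n : ℕ) (l : List (Tr q)) (n' : ℕ) (l' : List (Tr q)) : Prop :=
  ∀ x ∈ List.range n, ∀ y ∈ List.range n', ∀ w ∈ words q ((g + 11) / 12),
    FreeGroup.reduce w ≠ w ∨ run l x w = [] ∨ run l' y w = []

section re

variable {α : Type} [Primcodable α]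

theorem re_val {n : α → ℕ} {l : α → List (Tr q)} (hn : Computable n) (hl : Computable l) :
    REPred fun a => Val (n a) (l a) := by
  unfold Val
  refine RE.and ?_ (RE.and ?_ ?_)
  · refine RE.all_mem (p := fun a (t : Tr q) => t.1 < n a ∧ t.2.2 < n a) ?_ hl
    exact RE.and (RE.lt (Computable.fst.comp Computable.snd) (hn.comp Computable.fst))
      (RE.lt (Computable.snd.comp (Computable.snd.comp Computable.snd)) (hn.comp Computable.fst))
  · refine RE.all_mem (p := fun a (t : Tr q) => ∀ t' ∈ l a,
      t.1 ≠ t'.1 ∨ t.2.1 ≠ t'.2.1 ∨ t.2.2 = t'.2.2) ?_ hl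
    refine RE.all_mem (p := fun (b : α × Tr q) (t' : Tr q) =>
      b.2.1 ≠ t'.1 ∨ b.2.2.1 ≠ t'.2.1 ∨ b.2.2.2 = t'.2.2) ?_ (hl.comp Computable.fst)
    have h1 : Computable (fun x : (α × Tr q) × Tr q => x.1.2.1) :=
      Computable.fst.comp (Computable.snd.comp Computable.fst)
    have h2 : Computable (fun x : (α × Tr q) × Tr q => x.1.2.2.1) :=
      Computable.fst.comp (Computable.snd.comp (Computable.snd.comp Computable.fst))
    have h3 : Computable (fun x : (α × Tr q) × Tr q => x.1.2.2.2) :=
      Computable.snd.comp (Computable.snd.comp (Computable.snd.comp Computable.fst))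
    have h4 : Computable (fun x : (α × Tr q) × Tr q => x.2.1) :=
      Computable.fst.comp Computable.snd
    have h5 : Computable (fun x : (α × Tr q) × Tr q => x.2.2.1) :=
      Computable.fst.comp (Computable.snd.comp Computable.snd)
    have h6 : Computable (fun x : (α × Tr q) × Tr q => x.2.2.2) :=
      Computable.snd.comp (Computable.snd.comp Computable.snd)
    exact RE.or (RE.ne h1 h4) (RE.or (RE.ne h2 h5) (RE.eq h3 h6))
  · refine RE.all_mem (p := fun a (t : Tr q) => ∀ t' ∈ l a,
      t.2.2 ≠ t'.2.2 ∨ t.2.1 ≠ t'.2.1 ∨ t.1 = t'.1) ?_ hl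
    refine RE.all_mem (p := fun (b : α × Tr q) (t' : Tr q) =>
      b.2.2.2 ≠ t'.2.2 ∨ b.2.2.1 ≠ t'.2.1 ∨ b.2.1 = t'.1) ?_ (hl.comp Computable.fst)
    have h1 : Computable (fun x : (α × Tr q) × Tr q => x.1.2.1) :=
      Computable.fst.comp (Computable.snd.comp Computable.fst)
    have h2 : Computable (fun x : (α × Tr q) × Tr q => x.1.2.2.1) :=
      Computable.fst.comp (Computable.snd.comp (Computable.snd.comp Computable.fst))
    have h3 : Computable (fun x : (α × Tr q) × Tr q => x.1.2.2.2) :=
      Computable.snd.comp (Computable.snd.comp (Computable.snd.comp Computable.fst))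
    have h4 : Computable (fun x : (α × Tr q) × Tr q => x.2.1) :=
      Computable.fst.comp Computable.snd
    have h5 : Computable (fun x : (α × Tr q) × Tr q => x.2.2.1) :=
      Computable.fst.comp (Computable.snd.comp Computable.snd)
    have h6 : Computable (fun x : (α × Tr q) × Tr q => x.2.2.2) :=
      Computable.snd.comp (Computable.snd.comp Computable.snd)
    exact RE.or (RE.ne h3 h6) (RE.or (RE.ne h2 h5) (RE.eq h1 h4))

/-- the check of one word -/
theorem re_pair {l l' : α → List (Tr q)} {x y : α → ℕ} {g : α → ℕ}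
    (hl : Computable l) (hl' : Computable l') (hx : Computable x) (hy : Computable y)
    (hg : Computable g) : REPred fun a => ∀ w ∈ words q ((g a + 11) / 12),
      FreeGroup.reduce w ≠ w ∨ run (l a) (x a) w = [] ∨ run (l' a) (y a) w = [] := by
  refine RE.all_mem (p := fun a (w : W q) =>
      FreeGroup.reduce w ≠ w ∨ run (l a) (x a) w = [] ∨ run (l' a) (y a) w = []) ?_ ?_
  · refine RE.or ?_ (RE.or ?_ ?_)
    · exact RE.ne (primrec_reduce.to_comp.comp Computable.snd) Computable.snd
    · exact RE.eq (computable_run (hl.comp Computable.fst) (hx.comp Computable.fst) Computable.snd)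
        (Computable.const [])
    · exact RE.eq (computable_run (hl'.comp Computable.fst) (hy.comp Computable.fst) Computable.snd)
        (Computable.const [])
  · refine primrec_words.to_comp.comp ?_
    exact Primrec.nat_div.to_comp.comp (Primrec.nat_add.to_comp.comp hg (Computable.const 11))
      (Computable.const 12)

theorem re_crs {g n : α → ℕ} {l : α → List (Tr q)} {n' : α → ℕ} {l' : α → List (Tr q)}
    (hg : Computable g) (hn : Computable n) (hl : Computable l) (hn' : Computable n')
    (hl' : Computable l') : REPred fun a => Crs (g a) (n a) (l a) (n' a) (l' a) := by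
  unfold Crs
  refine RE.all_mem (p := fun a x => ∀ y ∈ List.range (n' a), ∀ w ∈ words q ((g a + 11) / 12),
    FreeGroup.reduce w ≠ w ∨ run (l a) x w = [] ∨ run (l' a) y w = []) ?_
    (Primrec.list_range.to_comp.comp hn)
  refine RE.all_mem (p := fun (b : α × ℕ) y => ∀ w ∈ words q ((g b.1 + 11) / 12),
    FreeGroup.reduce w ≠ w ∨ run (l b.1) b.2 w = [] ∨ run (l' b.1) y w = []) ?_
    (Primrec.list_range.to_comp.comp (hn'.comp Computable.fst))
  have h1 : Computable (fun x : (α × ℕ) × ℕ => x.1.1) := Computable.fst.comp Computable.fst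
  exact re_pair (hl.comp h1) (hl'.comp h1) (Computable.snd.comp Computable.fst) Computable.snd
    (hg.comp h1)

theorem re_chk (D0 M C0 : ℕ) {n g : α → ℕ} {l : α → List (Tr q)}
    (hn : Computable n) (hg : Computable g) (hl : Computable l) :
    REPred fun a => Chk D0 M C0 (n a) (g a) (l a) := by
  unfold Chk
  have hr : Computable (fun a => List.range (n a)) := Primrec.list_range.to_comp.comp hn
  refine RE.and (re_val hn hl) (RE.and ?_ (RE.and ?_ (RE.and ?_ (RE.and ?_ (RE.and ?_ ?_)))))
  · exact RE.lt (Computable.const 0) hn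
  · exact RE.le hn (computable_pow (Computable.const C0) hg)
  · refine RE.all_mem (p := fun a x => dg (l a) x ≤ D0) ?_ hr
    exact RE.le (computable_dg (hl.comp Computable.fst) Computable.snd) (Computable.const D0)
  · refine RE.all_mem (p := fun a x => ∀ k ∈ List.range (g a), ∀ w ∈ words q k,
      FreeGroup.reduce w ≠ w ∨ w = [] ∨ x ∉ run (l a) x w) ?_ hr
    refine RE.all_mem (p := fun (b : α × ℕ) k => ∀ w ∈ words q k,
      FreeGroup.reduce w ≠ w ∨ w = [] ∨ b.2 ∉ run (l b.1) b.2 w) ?_
      (Primrec.list_range.to_comp.comp (hg.comp Computable.fst))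
    refine RE.all_mem (p := fun (b : (α × ℕ) × ℕ) w =>
      FreeGroup.reduce w ≠ w ∨ w = [] ∨ b.1.2 ∉ run (l b.1.1) b.1.2 w) ?_
      (primrec_words.to_comp.comp Computable.snd)
    have h1 : Computable (fun x : ((α × ℕ) × ℕ) × W q => x.1.1.1) :=
      Computable.fst.comp (Computable.fst.comp Computable.fst)
    have h2 : Computable (fun x : ((α × ℕ) × ℕ) × W q => x.1.1.2) :=
      Computable.snd.comp (Computable.fst.comp Computable.fst)
    refine RE.or (RE.ne (primrec_reduce.to_comp.comp Computable.snd) Computable.snd)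
      (RE.or (RE.eq Computable.snd (Computable.const [])) ?_)
    exact RE.not_mem_list h2 (computable_run (hl.comp h1) h2 Computable.snd)
  · refine RE.all_mem (p := fun a x => ∀ y ∈ List.range (n a), x = y ∨
      ∀ w ∈ words q ((g a + 11) / 12),
        FreeGroup.reduce w ≠ w ∨ run (l a) x w = [] ∨ run (l a) y w = []) ?_ hr
    refine RE.all_mem (p := fun (b : α × ℕ) y => b.2 = y ∨
      ∀ w ∈ words q ((g b.1 + 11) / 12),
        FreeGroup.reduce w ≠ w ∨ run (l b.1) b.2 w = [] ∨ run (l b.1) y w = []) ?_
      (hr.comp Computable.fst)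
    have h1 : Computable (fun x : (α × ℕ) × ℕ => x.1.1) := Computable.fst.comp Computable.fst
    refine RE.or (RE.eq (Computable.snd.comp Computable.fst) Computable.snd) ?_
    exact re_pair (hl.comp h1) (hl.comp h1) (Computable.snd.comp Computable.fst) Computable.snd
      (hg.comp h1)
  · refine RE.all_mem (p := fun a (A : List ℕ) =>
      n a < 2 * A.length ∨ A.length ≤ M * cnt (n a) (l a) A) ?_ (primrec_sublists.to_comp.comp hr)
    refine RE.or ?_ ?_
    · exact RE.lt (hn.comp Computable.fst) (Primrec.nat_mul.to_comp.comp (Computable.const 2)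
        (Computable.list_length.comp Computable.snd))
    · exact RE.le (Computable.list_length.comp Computable.snd)
        (Primrec.nat_mul.to_comp.comp (Computable.const M)
          (computable_cnt (hn.comp Computable.fst) (hl.comp Computable.fst) Computable.snd))

end re

end Pool.Agent.Helper784WE.G
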