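import Mathlib
import Pool.Agent.Helper784WE.G

/-!
Module G, first part: a computable sequence. The checks express the conditions on the graphs, and
the assembly.
-/

set_option autoImplicit false

namespace Pool.Agent.Helper784WE.G

open Pool.Agent.Helper446
open scoped Classical

variable {q : ℕ}

theorem dg_eq {n : ℕ} {l : List (Tr q)} (hv : Val n l) (x : Fin n) :
    (Finset.univ.filter (fun a : Fin q × Bool => ∃ y, (toLG n l).Step x a y)).card = dg l x := by
  have hnd : ((letters q).filter (fun a => decide (nb l x a ≠ []))).Nodup :=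
    (Finset.nodup_toList _).filter _
  unfold dg
  rw [← List.toFinset_card_of_nodup hnd]
  congr 1
  ext a
  simp only [Finset.mem_filter, Finset.mem_univ, true_and, List.mem_toFinset, List.mem_filter,
    mem_letters, decide_eq_true_eq]
  constructor
  · rintro ⟨y, hy⟩ h
    have h1 : (y : ℕ) ∈ nb l x a := (mem_nb_iff hv x a y).2 ⟨y, rfl, hy⟩
    rw [h] at h1
    exact absurd h1 List.not_mem_nil
  · intro h
    obtain ⟨z, hz⟩ := List.exists_mem_of_ne_nil _ h
    obtain ⟨y, -, hy⟩ := (mem_nb_iff hv x a z).1 hz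
    exact ⟨y, hy⟩

theorem cnt_eq {n : ℕ} {l : List (Tr q)} (hv : Val n l) (A : List ℕ) :
    (Finset.univ.filter (fun p : Fin n × Fin n => (p.1 : ℕ) ∈ A ∧ (p.2 : ℕ) ∉ A ∧
      ∃ a, (toLG n l).Step p.1 a p.2)).card = cnt n l A := by
  have hnd : ((prs n).filter (fun p => decide (Out l A p))).Nodup := (nodup_prs n).filter _
  unfold cnt
  rw [← List.toFinset_card_of_nodup hnd]
  have hinj : Function.Injective (fun p : Fin n × Fin n => ((p.1 : ℕ), (p.2 : ℕ))) := by
    rintro ⟨a, b⟩ ⟨c, d⟩ h
    simp only [Prod.mk.injEq] at h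
    exact Prod.ext (Fin.ext h.1) (Fin.ext h.2)
  rw [← Finset.card_image_of_injective _ hinj]
  congr 1
  ext ⟨x, y⟩
  simp only [Finset.mem_image, Finset.mem_filter, Finset.mem_univ, true_and, List.mem_toFinset,
    List.mem_filter, decide_eq_true_eq, Prod.exists, Prod.mk.injEq, mem_prs, Out]
  constructor
  · rintro ⟨a, b, ⟨h1, h2, c, e, h3⟩, rfl, rfl⟩
    exact ⟨⟨a.2, b.2⟩, h1, h2, c, e, mem_letters (c, e),
      (mem_nb_iff hv a (c, e) b).2 ⟨b, rfl, h3⟩⟩
  · rintro ⟨⟨hx, hy⟩, h1, h2, c, e, -, h3⟩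
    obtain ⟨y', h4, h5⟩ := (mem_nb_iff hv ⟨x, hx⟩ (c, e) y).1 h3
    exact ⟨⟨x, hx⟩, y', ⟨h1, h4 ▸ h2, c, e, h5⟩, rfl, h4⟩

theorem card_sub {n : ℕ} {A : List ℕ} (hA : A ∈ (List.range n).sublists) :
    (Finset.univ.filter (fun x : Fin n => (x : ℕ) ∈ A)).card = A.length := by
  have hs : A.Sublist (List.range n) := List.mem_sublists.1 hA
  have hnd : A.Nodup := hs.nodup List.nodup_range
  have hlt : ∀ x ∈ A, x < n := fun x hx => List.mem_range.1 (hs.subset hx)
  rw [← List.toFinset_card_of_nodup hnd, ← Finset.card_image_of_injective _ Fin.val_injective]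
  congr 1
  ext x
  simp only [Finset.mem_image, Finset.mem_filter, Finset.mem_univ, true_and, List.mem_toFinset]
  constructor
  · rintro ⟨a, h, rfl⟩
    exact h
  · intro h
    exact ⟨⟨x, hlt x h⟩, h, rfl⟩

theorem exists_sub {n : ℕ} (A : Finset (Fin n)) : ∃ A' ∈ (List.range n).sublists,
    Finset.univ.filter (fun x : Fin n => (x : ℕ) ∈ A') = A := by
  refine ⟨(List.range n).filter (fun x => decide (∃ h : x < n, (⟨x, h⟩ : Fin n) ∈ A)),
    List.mem_sublists.2 List.filter_sublist, ?_⟩
  ext x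
  simp only [Finset.mem_filter, Finset.mem_univ, true_and, List.mem_filter, List.mem_range,
    decide_eq_true_eq]
  constructor
  · rintro ⟨-, h, h1⟩
    exact h1
  · intro h
    exact ⟨x.2, x.2, h⟩

theorem Reads_take {V : Type} (X : LG (Fin q) V) {x y : V} {w : W q} (h : X.Reads x w y) :
    ∀ k, ∃ z, X.Reads x (w.take k) z := by
  induction h with
  | nil x => intro k; rw [List.take_nil]; exact ⟨x, LG.Reads.nil x⟩
  | cons h1 h2 ih =>
    intro k
    cases k with
    | zero => exact ⟨_, LG.Reads.nil _⟩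
    | succ k =>
      obtain ⟨z, hz⟩ := ih k
      exact ⟨z, LG.Reads.cons h1 hz⟩

theorem red_iff (w : W q) : FreeGroup.IsReduced w ↔ FreeGroup.reduce w = w :=
  FreeGroup.isReduced_iff_reduce_eq

/-- No common reduced word of length `⌈g / 12⌉` iff none with at least `g / 12` letters. -/
theorem common_iff {n n' : ℕ} {l l' : List (Tr q)} (hv : Val n l) (hv' : Val n' l') (g : ℕ)
    (x : Fin n) (y : Fin n') :
    (∀ w ∈ words q ((g + 11) / 12), FreeGroup.reduce w ≠ w ∨ run l x w = [] ∨ run l' y w = []) ↔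
    ∀ w u v, FreeGroup.IsReduced w → (toLG n l).Reads x w u → (toLG n' l').Reads y w v →
      12 * w.length < g := by
  constructor
  · intro h w u v hw h1 h2
    by_contra hcon
    have hlen : (w.take ((g + 11) / 12)).length = (g + 11) / 12 := by
      rw [List.length_take]; omega
    obtain ⟨u', hu'⟩ := Reads_take _ h1 ((g + 11) / 12)
    obtain ⟨v', hv2⟩ := Reads_take _ h2 ((g + 11) / 12)
    rcases h _ ((mem_words _ _).2 hlen) with h3 | h3 | h3
    · exact h3 ((red_iff _).1 (List.IsChain.take hw _))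
    · exact (run_eq_nil_iff hv x _).1 h3 u' hu'
    · exact (run_eq_nil_iff hv' y _).1 h3 v' hv2
  · intro h w hw
    have hlen := (mem_words _ _).1 hw
    by_contra hcon
    push Not at hcon
    obtain ⟨h1, h2, h3⟩ := hcon
    rw [Ne, run_eq_nil_iff hv x] at h2
    rw [Ne, run_eq_nil_iff hv' y] at h3
    push Not at h2 h3
    obtain ⟨u, hu⟩ := h2
    obtain ⟨v, hv2⟩ := h3
    have := h w u v ((red_iff w).2 h1) hu hv2
    omega

theorem crs_iff {n n' : ℕ} {l l' : List (Tr q)} (hv : Val n l) (hv' : Val n' l') (g : ℕ) :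
    Crs g n l n' l' ↔ Cross g (toLG n l) (toLG n' l') := by
  unfold Crs Cross
  constructor
  · intro h x y
    exact (common_iff hv hv' g x y).1 (h x (List.mem_range.2 x.2) y (List.mem_range.2 y.2))
  · intro h x hx y hy
    exact (common_iff hv hv' g ⟨x, List.mem_range.1 hx⟩ ⟨y, List.mem_range.1 hy⟩).2
      (h ⟨x, List.mem_range.1 hx⟩ ⟨y, List.mem_range.1 hy⟩)

theorem chk_iff {D0 M C0 n g : ℕ} {l : List (Tr q)} :
    Chk D0 M C0 n g l ↔ Val n l ∧ Fine q D0 M C0 n g (toLG n l) := by
  constructor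
  · rintro ⟨hv, h1, h2, h3, h4, h5, h6⟩
    refine ⟨hv, h1, h2, ?_, ?_, ?_, ?_⟩
    · intro x
      rw [dg_eq hv x]
      exact h3 x (List.mem_range.2 x.2)
    · intro x w hw hr hne
      by_contra hcon
      push Not at hcon
      rcases h4 x (List.mem_range.2 x.2) w.length (List.mem_range.2 hcon) w
        ((mem_words _ _).2 rfl) with h | h | h
      · exact h ((red_iff w).1 hr)
      · exact hne h
      · exact h ((mem_run_iff hv x w x).2 ⟨x, rfl, hw⟩)
    · intro x y w u v hxy hr hu hv2
      rcases h5 x (List.mem_range.2 x.2) y (List.mem_range.2 y.2) with h | h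
      · exact absurd (Fin.ext h) hxy
      · exact (common_iff hv hv g x y).1 h w u v hr hu hv2
    · intro A hA
      obtain ⟨A', hA', hAA⟩ := exists_sub A
      have hc := card_sub hA'
      rw [hAA] at hc
      rcases h6 A' hA' with h | h
      · omega
      · rw [← cnt_eq hv A', ← hc] at h
        refine h.trans (Nat.mul_le_mul_left M (le_of_eq ?_))
        congr 1
        ext p
        simp only [Finset.mem_filter, Finset.mem_univ, true_and]
        rw [← hAA]
        simp
  · rintro ⟨hv, hf⟩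
    refine ⟨hv, hf.pos, hf.size, ?_, ?_, ?_, ?_⟩
    · intro x hx
      have := hf.deg ⟨x, List.mem_range.1 hx⟩
      rwa [dg_eq hv ⟨x, List.mem_range.1 hx⟩] at this
    · intro x hx k hk w hw
      by_contra hcon
      push Not at hcon
      obtain ⟨h1, h2, h3⟩ := hcon
      have hlen := (mem_words _ _).1 hw
      obtain ⟨x', h4, h5⟩ := (mem_run_iff hv ⟨x, List.mem_range.1 hx⟩ w x).1 h3
      have h6 : x' = ⟨x, List.mem_range.1 hx⟩ := Fin.ext h4
      subst h6
      have := hf.girth _ w h5 ((red_iff w).2 h1) h2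
      have := List.mem_range.1 hk
      omega
    · intro x hx y hy
      by_cases hxy : x = y
      · exact Or.inl hxy
      · right
        refine (common_iff hv hv g ⟨x, List.mem_range.1 hx⟩ ⟨y, List.mem_range.1 hy⟩).2 ?_
        intro w u v hr hu hv2
        exact hf.piece _ _ w u v (fun h => hxy (congrArg Fin.val h)) hr hu hv2
    · intro A hA
      by_cases h : n < 2 * A.length
      · exact Or.inl h
      · right
        have hc := card_sub hA
        have h1 := hf.cheeger (Finset.univ.filter (fun x : Fin n => (x : ℕ) ∈ A)) (by omega)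
        rw [hc] at h1
        rw [← cnt_eq hv A]
        refine h1.trans (Nat.mul_le_mul_left M (le_of_eq ?_))
        congr 1
        ext p
        simp

/-- a code: number of vertices, girth bound, edges -/
abbrev Cd (q : ℕ) := ℕ × ℕ × List (Tr q)

/-- the next graph -/
def Nxt (D0 M C0 g0 : ℕ) (L : List (Cd q)) (c : Cd q) : Prop :=
  Chk D0 M C0 c.1 c.2.1 c.2.2 ∧ g0 ≤ c.2.1 ∧ (∀ d ∈ L, d.2.1 < c.2.1) ∧
  (∀ d ∈ L, Crs d.2.1 d.1 d.2.2 c.1 c.2.2) ∧ L.length ≤ c.1

theorem re_nxt (D0 M C0 g0 : ℕ) :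
    REPred fun x : List (Cd q) × Cd q => Nxt D0 M C0 g0 x.1 x.2 := by
  unfold Nxt
  have h1 : Computable (fun x : List (Cd q) × Cd q => x.2.1) := Computable.fst.comp Computable.snd
  have h2 : Computable (fun x : List (Cd q) × Cd q => x.2.2.1) :=
    Computable.fst.comp (Computable.snd.comp Computable.snd)
  have h3 : Computable (fun x : List (Cd q) × Cd q => x.2.2.2) :=
    Computable.snd.comp (Computable.snd.comp Computable.snd)
  refine RE.and (re_chk D0 M C0 h1 h2 h3) (RE.and ?_ (RE.and ?_ (RE.and ?_ ?_)))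
  · exact RE.le (Computable.const g0) h2
  · refine RE.all_mem (p := fun (x : List (Cd q) × Cd q) (d : Cd q) => d.2.1 < x.2.2.1) ?_
      Computable.fst
    exact RE.lt (Computable.fst.comp (Computable.snd.comp Computable.snd))
      (h2.comp Computable.fst)
  · refine RE.all_mem (p := fun (x : List (Cd q) × Cd q) (d : Cd q) =>
      Crs d.2.1 d.1 d.2.2 x.2.1 x.2.2.2) ?_ Computable.fst
    exact re_crs (Computable.fst.comp (Computable.snd.comp Computable.snd))
      (Computable.fst.comp Computable.snd) (Computable.snd.comp (Computable.snd.comp Computable.snd))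
      (h1.comp Computable.fst) (h3.comp Computable.fst)
  · exact RE.le (Computable.list_length.comp Computable.fst) h1

theorem specG : SpecG := by
  intro q D0 M C0 g0 H
  let Inv : List (Cd q) → Prop := fun L =>
    (∀ c ∈ L, Chk D0 M C0 c.1 c.2.1 c.2.2 ∧ g0 ≤ c.2.1) ∧ L.Pairwise (fun c d => c.2.1 < d.2.1)
  have h0 : Inv [] := ⟨by simp, List.Pairwise.nil⟩
  have hs : ∀ L, Inv L → ∃ c, Nxt D0 M C0 g0 L c := by
    intro L hL
    obtain ⟨n', g', X', hg', hn', hF, hC⟩ := H L.length (fun i => (L.get i).1)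
      (fun i => (L.get i).2.1) (fun i => toLG (L.get i).1 (L.get i).2.2)
      (fun i j hij => by
        have := List.pairwise_iff_get.1 hL.2
        exact this i j hij)
      (fun i => (hL.1 _ (List.get_mem L i)).2)
      (fun i => (chk_iff.1 (hL.1 _ (List.get_mem L i)).1).2.size)
      (fun i => (chk_iff.1 (hL.1 _ (List.get_mem L i)).1).2.deg)
      (g0 + L.length + ((L.map (fun d => d.2.1)).sum + 1))
    obtain ⟨l', hv', rfl⟩ := exists_code X'
    refine ⟨(n', g', l'), chk_iff.2 ⟨hv', hF⟩, ?_, ?_, ?_, ?_⟩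
    · show g0 ≤ g'
      omega
    · intro d hd
      show d.2.1 < g'
      have : d.2.1 ≤ (L.map (fun d => d.2.1)).sum := List.le_sum_of_mem (List.mem_map_of_mem hd)
      omega
    · intro d hd
      obtain ⟨i, rfl⟩ := List.get_of_mem hd
      exact (crs_iff (chk_iff.1 (hL.1 _ (List.get_mem L i)).1).1 hv' _).2 (hC i)
    · show L.length ≤ n'
      omega
  have hi : ∀ L c, Inv L → Nxt D0 M C0 g0 L c → Inv (L ++ [c]) := by
    intro L c hL hc
    refine ⟨?_, ?_⟩
    · intro d hd
      rcases List.mem_append.1 hd with hd | hd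
      · exact hL.1 d hd
      · rw [List.mem_singleton] at hd
        subst hd
        exact ⟨hc.1, hc.2.1⟩
    · rw [List.pairwise_append]
      refine ⟨hL.2, List.pairwise_singleton _ _, ?_⟩
      intro d hd e he
      rw [List.mem_singleton] at he
      subst he
      exact hc.2.2.1 d hd
  obtain ⟨c, hcc, -, hcR⟩ := exists_seq (Nxt D0 M C0 g0) (re_nxt D0 M C0 g0) Inv h0 hs hi
  have hmem : ∀ k l, k < l → c k ∈ (List.range l).map c := fun k l h =>
    List.mem_map_of_mem (List.mem_range.2 h)
  refine ⟨fun k => (c k).1, fun k => (c k).2.1, fun k => toLG (c k).1 (c k).2.2, ?_, ?_, ?_, ?_, ?_⟩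
  · exact strictMono_nat_of_lt_succ fun k => (hcR (k + 1)).2.2.1 _ (hmem k (k + 1) (Nat.lt_succ_self k))
  · intro k
    have := (hcR k).2.2.2.2
    simpa using this
  · intro k
    exact (chk_iff.1 (hcR k).1).2
  · intro k l hkl
    exact (crs_iff (chk_iff.1 (hcR k).1).1 (chk_iff.1 (hcR l).1).1 _).1
      ((hcR l).2.2.2.1 _ (hmem k l hkl))
  · have h1 : REPred fun w : W q => ∃ k, ∃ x ∈ List.range (c k).1, x ∈ run (c k).2.2 x w := by
      refine RE.exN (p := fun (w : W q) k => ∃ x ∈ List.range (c k).1, x ∈ run (c k).2.2 x w) ?_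
      have h2 : Computable (fun x : W q × ℕ => c x.2) := hcc.comp Computable.snd
      refine RE.ex_mem (p := fun (x : W q × ℕ) y => y ∈ run (c x.2).2.2 y x.1) ?_
        (Primrec.list_range.to_comp.comp (Computable.fst.comp h2))
      refine RE.mem_list Computable.snd (computable_run ?_ Computable.snd
        (Computable.fst.comp Computable.fst))
      exact Computable.snd.comp (Computable.snd.comp (h2.comp Computable.fst))
    refine h1.of_eq fun w => exists_congr fun k => ?_
    have hv := (chk_iff.1 (hcR k).1).1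
    constructor
    · rintro ⟨x, hx, h⟩
      obtain ⟨x', h4, h5⟩ := (mem_run_iff hv ⟨x, List.mem_range.1 hx⟩ w x).1 h
      have h6 : x' = ⟨x, List.mem_range.1 hx⟩ := Fin.ext h4
      subst h6
      exact ⟨_, h5⟩
    · rintro ⟨x, hx⟩
      exact ⟨x, List.mem_range.2 x.2, (mem_run_iff hv x w x).2 ⟨x, rfl, hx⟩⟩

end Pool.Agent.Helper784WE.G
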