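import Mathlib
import Pool.Agent.Helper784WE.A2

/-!
`Conc` passes to HNN extensions.
-/

set_option autoImplicit false

open Finset
open scoped Classical

namespace Pool.Agent.Helper784WE

theorem exists_longest {α : Type} (P : List α → Prop) (L : ℕ) (h0 : P [])
    (hL : ∀ l, P l → l.length ≤ L) : ∃ l₀, P l₀ ∧ ∀ l, P l → l.length ≤ l₀.length := by
  by_contra hcon
  push Not at hcon
  have key : ∀ n : ℕ, ∃ l, P l ∧ n ≤ l.length := by
    intro n
    induction n with
    | zero => exact ⟨[], h0, Nat.zero_le _⟩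
    | succ n ih =>
      obtain ⟨l, hl, hn⟩ := ih
      obtain ⟨l', hl', hn'⟩ := hcon l hl
      exact ⟨l', hl', by omega⟩
  obtain ⟨l, hl, hn⟩ := key (L + 1)
  have := hL l hl
  omega

/-- Groups with tree-like cosets. -/
theorem tree_conc {E α : Type} [Group E] (K : Subgroup E) (hK : Conc K) (ν : E → List α)
    (hν : ∀ g h : E, ν g = ν h → ∃ k ∈ K, g * k = h)
    (hcr : ∀ s : E, ∃ P : Finset E, ∀ (l₀ : List α) (g : E),
      branch l₀ (ν g) ≠ branch l₀ (ν (g * s)) → branch l₀ (ν g) ≠ some l₀ →
      ∃ p ∈ P, ν (g * p) = l₀) : Conc E := by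
  intro T D ε hε
  choose Pf hPf using hcr
  obtain ⟨P, hP⟩ : ∃ P : Finset E, P = insert 1 (T.biUnion Pf) := ⟨_, rfl⟩
  have hpos : 0 < ε / (ε + D) := by positivity
  obtain ⟨δ, hδ, h⟩ := relConc K hK (P.image (fun p => p⁻¹)) T D ε (ε / (ε + D)) hε hpos
  refine ⟨δ, hδ, ?_⟩
  intro V _ _ Gr hGr g hg
  have hV : 0 < Fintype.card V := Fintype.card_pos
  -- a longest list with a majority
  have hbdd : ∃ L : ℕ, ∀ v, (ν (g v)).length ≤ L :=
    ⟨univ.sup (fun v => (ν (g v)).length), fun v =>
      Finset.le_sup (f := fun v => (ν (g v)).length) (mem_univ v)⟩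
  obtain ⟨L, hL⟩ := hbdd
  obtain ⟨maj, hmaj⟩ : ∃ maj : List α → Prop, ∀ l, maj l ↔
    Fintype.card V < 2 * (univ.filter (fun v => l <:+ ν (g v))).card := ⟨_, fun _ => Iff.rfl⟩
  have hmajL : ∀ l, maj l → l.length ≤ L := by
    intro l hl
    rw [hmaj] at hl
    have : 0 < (univ.filter (fun v => l <:+ ν (g v))).card := by omega
    obtain ⟨v, hv⟩ := Finset.card_pos.mp this
    exact (mem_filter.mp hv).2.length_le.trans (hL v)
  have hnil : maj [] := by
    rw [hmaj]
    simp only [List.nil_suffix, filter_true, card_univ]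
    omega
  obtain ⟨l₀, hl₀, hmax⟩ := exists_longest maj L hnil hmajL
  obtain ⟨Z, hZ⟩ : ∃ Z : Finset V, Z = univ.filter (fun v => ∃ p ∈ P, ν (g v * p) = l₀) :=
    ⟨_, rfl⟩
  have hpart := cheeger_partition hε hGr (fun v => branch l₀ (ν (g v))) (some l₀) Z
    (by
      intro v hv
      rw [hZ, mem_filter]
      refine ⟨mem_univ _, 1, by rw [hP]; exact mem_insert_self _ _, ?_⟩
      rw [mul_one]
      exact branch_eq_self hv)
    (by
      intro k hk A hA
      cases k with
      | none =>
        have h1 : A.card + (univ.filter (fun v => l₀ <:+ ν (g v))).card ≤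
            Fintype.card V := by
          rw [← card_union_of_disjoint]
          · exact card_le_univ _
          · rw [Finset.disjoint_left]
            intro v hv hv'
            have hv := hA v hv
            simp only [mem_filter, mem_univ, true_and] at hv'
            rw [branch, if_pos hv'] at hv
            exact absurd hv (by simp)
        rw [hmaj] at hl₀
        omega
      | some k =>
        by_cases he : ∃ v, v ∈ A
        · obtain ⟨v, hv⟩ := he
          have hk' : k ≠ l₀ := fun h => hk (by rw [h])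
          have h1 := branch_length (hA v hv) hk'
          have h2 : ¬ maj k := fun h => by have := hmax k h; omega
          rw [hmaj, not_lt] at h2
          refine le_trans (Nat.mul_le_mul_left 2 (card_le_card ?_)) h2
          intro w hw
          rw [mem_filter]
          exact ⟨mem_univ _, branch_suffix (hA w hw)⟩
        · have : A = ∅ := by
            rw [Finset.eq_empty_iff_forall_notMem]
            exact fun v hv => he ⟨v, hv⟩
          rw [this]
          simp)
    (by
      intro u v huv h1 h2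
      obtain ⟨p, hp, e⟩ := hPf ((g u)⁻¹ * g v) l₀ (g u) (by
        rw [mul_inv_cancel_left]; exact h2) h1
      rw [hZ, mem_filter]
      exact ⟨mem_univ _, p, by
        rw [hP]; exact mem_insert_of_mem (mem_biUnion.mpr ⟨_, hg u v huv, hp⟩), e⟩)
  have hZ' : ε / (ε + D) * (Fintype.card V : ℝ) ≤ Z.card := by
    rw [div_mul_eq_mul_div, div_le_iff₀ (by positivity)]
    linarith
  have hZpos : 0 < Z.card := by
    have hV' : (0 : ℝ) < Fintype.card V := by exact_mod_cast hV
    have := lt_of_lt_of_le (mul_pos hpos hV') hZ'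
    exact_mod_cast this
  obtain ⟨v₀, hv₀⟩ := Finset.card_pos.mp hZpos
  have hmemZ : ∀ v, v ∈ Z → ∃ p ∈ P, ν (g v * p) = l₀ := by
    intro v hv
    rw [hZ, mem_filter] at hv
    exact hv.2
  obtain ⟨p₀, hp₀, e₀⟩ := hmemZ v₀ hv₀
  refine h V Gr hGr g hg (g v₀ * p₀) (hZ'.trans ?_)
  rw [Nat.cast_le]
  apply card_le_card
  intro v hv
  rw [mem_filter]
  obtain ⟨p, hp, e⟩ := hmemZ v hv
  obtain ⟨k, hk, hx⟩ := hν (g v₀ * p₀) (g v * p) (by rw [e₀, e])
  refine ⟨mem_univ _, k, hk, p⁻¹, mem_image_of_mem _ hp, ?_⟩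
  rw [hx]; group

section HNN

open Pool.Agent.Helper270.HNN HNNExtension NormalWord

variable {G : Type} [Group G] {A B : Subgroup G} {φ : A ≃* B}

theorem conc_base (hG : Conc G) : Conc (of.range : Subgroup (HNNExtension G A B φ)) := by
  refine conc_of_injective
    (MonoidHom.ofInjective (of_injective (G := G) (φ := φ))).symm.toMonoidHom ?_ hG
  exact (MonoidHom.ofInjective (of_injective (G := G) (φ := φ))).symm.injective

theorem conc_hnn (hG : Conc G) : Conc (HNNExtension G A B φ) := by
  obtain ⟨d⟩ := TransversalPair.nonempty G A B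
  refine tree_conc of.range (conc_base hG) (fun g => nf d (vt g)) ?_ (crossing d)
  intro g h hgh
  have h1 : vt g = vt h := by
    have e1 := vt_pr_nf d (vt g)
    have e2 := vt_pr_nf d (vt h)
    rw [← e1, ← e2]
    exact congrArg (fun l => vt (pr l)⁻¹) hgh
  obtain ⟨x, hx⟩ := vt_eq_iff.mp h1
  exact ⟨of x, ⟨x, rfl⟩, hx⟩

end HNN

end Pool.Agent.Helper784WE
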