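import Mathlib
import Pool.Agent.Helper784WE.A3

/-!
Free groups, and the summary of the permanence properties.
-/

set_option autoImplicit false

open Finset
open scoped Classical

namespace Pool.Agent.Helper784WE

theorem conc_free_option {α : Type} (h : Conc (FreeGroup α)) : Conc (FreeGroup (Option α)) := by
  let E := HNNExtension (FreeGroup α) ⊥ ⊥ (MulEquiv.refl _)
  have hE : Conc E := conc_hnn h
  let f : FreeGroup (Option α) →* E := FreeGroup.lift (fun o => match o with
    | none => HNNExtension.t
    | some a => HNNExtension.of (FreeGroup.of a))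
  let r : E →* FreeGroup (Option α) := HNNExtension.lift (FreeGroup.map some)
    (FreeGroup.of none) (by
      rintro ⟨a, ha⟩
      have : a = 1 := by simpa using ha
      subst this
      simp)
  have hrf : ∀ x, r (f x) = x := by
    have : r.comp f = MonoidHom.id _ := by
      apply FreeGroup.ext_hom
      intro o
      cases o with
      | none =>
        simp only [MonoidHom.comp_apply, f, FreeGroup.lift_apply_of, r, MonoidHom.id_apply]
        exact HNNExtension.lift_t _ _ _
      | some a =>
        simp only [MonoidHom.comp_apply, f, FreeGroup.lift_apply_of, r, MonoidHom.id_apply]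
        rw [HNNExtension.lift_of]
        simp
    intro x
    exact DFunLike.congr_fun this x
  exact conc_of_injective f (Function.LeftInverse.injective hrf) hE

theorem conc_free_finite (α : Type) [Finite α] : Conc (FreeGroup α) := by
  refine Finite.induction_empty_option (P := fun α => Conc (FreeGroup α)) ?_ ?_ ?_ α
  · intro α β e h
    exact conc_of_injective (FreeGroup.freeGroupCongr e.symm).toMonoidHom
      (FreeGroup.freeGroupCongr e.symm).injective h
  · exact conc_finite
  · intro α _ h
    exact conc_free_option h

theorem mem_range_map {α : Type} (S : Finset α) (w : List (α × Bool))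
    (h : ∀ a ∈ w, a.1 ∈ S) :
    FreeGroup.mk w ∈ (FreeGroup.map (Subtype.val : {x // x ∈ S} → α)).range := by
  induction w with
  | nil => exact ⟨1, by simp; rfl⟩
  | cons a w ih =>
    obtain ⟨v, hv⟩ := ih (fun b hb => h b (List.mem_cons_of_mem _ hb))
    refine ⟨FreeGroup.mk [(⟨a.1, h a List.mem_cons_self⟩, a.2)] * v, ?_⟩
    rw [map_mul, hv, FreeGroup.map.mk]
    simp [FreeGroup.mul_mk]

theorem conc_free (α : Type) : Conc (FreeGroup α) := by
  apply conc_local
  intro T
  set S : Finset α := T.biUnion (fun t => (t.toWord.map Prod.fst).toFinset) with hS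
  refine ⟨(FreeGroup.map (Subtype.val : {x // x ∈ S} → α)).range, ?_, ?_⟩
  · intro t ht
    rw [← FreeGroup.mk_toWord (x := t)]
    apply mem_range_map
    intro a ha
    rw [hS, mem_biUnion]
    refine ⟨t, ht, ?_⟩
    rw [List.mem_toFinset]
    exact List.mem_map_of_mem ha
  · have hinj : Function.Injective (FreeGroup.map (Subtype.val : {x // x ∈ S} → α)) :=
      FreeGroup.map_injective Subtype.val_injective
    exact conc_of_injective (MonoidHom.ofInjective hinj).symm.toMonoidHom
      (MonoidHom.ofInjective hinj).symm.injective (conc_free_finite _)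

theorem specA : SpecA := by
  refine ⟨?_, ?_, ?_, ?_, ?_⟩
  · intro G H _ _ f hf hH
    exact conc_of_injective f hf hH
  · intro G H _ _ hG hH
    exact conc_prod hG hH
  · intro G _ N _ hN hQ
    exact conc_ext N hN hQ
  · intro G _ A B φ hG
    exact conc_hnn hG
  · exact conc_free

end Pool.Agent.Helper784WE
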