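import Mathlib
import Pool.Agent.Helper784WE.A4

/-!
The recursively presented group receiving expanders injectively.
-/

set_option autoImplicit false

open Finset
open scoped Classical

namespace Pool.Agent.Helper784WE

namespace LG

variable {S V : Type} (X : LG S V)

theorem Reads.append {x y z : V} {w w' : List (S × Bool)} (h : X.Reads x w y)
    (h' : X.Reads y w' z) : X.Reads x (w ++ w') z := by
  induction h with
  | nil x => exact h'
  | cons h1 _ ih => exact Reads.cons h1 (ih h')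

theorem Step.inv {x y : V} {a : S × Bool} (h : X.Step x a y) : X.Step y (a.1, !a.2) x := by
  obtain ⟨s, b⟩ := a
  cases b
  · simpa [Step] using h
  · simpa [Step] using h

theorem Step.det {x y y' : V} {a : S × Bool} (h : X.Step x a y) (h' : X.Step x a y') :
    y = y' := by
  obtain ⟨s, b⟩ := a
  cases b
  · simp only [Step, Bool.false_eq_true, if_false] at h h'
    exact X.codet h h'
  · simp only [Step, if_true] at h h'
    exact X.det h h'

theorem Reads.single {x y : V} {a : S × Bool} (h : X.Step x a y) : X.Reads x [a] y :=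
  Reads.cons h (Reads.nil y)

theorem Reads.rev {x y : V} {w : List (S × Bool)} (h : X.Reads x w y) :
    X.Reads y (FreeGroup.invRev w) x := by
  induction h with
  | nil x => exact Reads.nil x
  | @cons x y z a w h1 _ ih =>
    have h2 : FreeGroup.invRev (a :: w) = FreeGroup.invRev w ++ [(a.1, !a.2)] := by
      simp [FreeGroup.invRev]
    rw [h2]
    exact Reads.append X ih (Reads.single X (Step.inv X h1))

end LG

section Sigma

variable {S : Type} {n : ℕ → ℕ} (X : ∀ k, LG S (Fin (n k)))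

/-- the disjoint union -/
def sgm : LG S (Σ k, Fin (n k)) where
  E p s p' := ∃ (k : ℕ) (x y : Fin (n k)), p = ⟨k, x⟩ ∧ p' = ⟨k, y⟩ ∧ (X k).E x s y
  det := by
    rintro p s p' p'' ⟨k, x, y, rfl, rfl, h⟩ ⟨k', x', y', he, rfl, h'⟩
    obtain ⟨rfl, hx⟩ := Sigma.mk.inj_iff.mp he
    obtain rfl := eq_of_heq hx
    rw [(X k).det h h']
  codet := by
    rintro p p'' s p' ⟨k, x, y, rfl, rfl, h⟩ ⟨k', x', y', rfl, he, h'⟩
    obtain ⟨rfl, hx⟩ := Sigma.mk.inj_iff.mp he
    obtain rfl := eq_of_heq hx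
    rw [(X k).codet h h']

theorem sgm_step {k : ℕ} {x : Fin (n k)} {a : S × Bool} {p : Σ k, Fin (n k)} :
    (sgm X).Step ⟨k, x⟩ a p ↔ ∃ y, p = ⟨k, y⟩ ∧ (X k).Step x a y := by
  obtain ⟨s, b⟩ := a
  cases b
  · simp only [LG.Step, Bool.false_eq_true, if_false]
    constructor
    · rintro ⟨k', x', y', rfl, he, h⟩
      obtain ⟨rfl, hx⟩ := Sigma.mk.inj_iff.mp he
      obtain rfl := eq_of_heq hx
      exact ⟨x', rfl, h⟩
    · rintro ⟨y, rfl, h⟩
      exact ⟨k, y, x, rfl, rfl, h⟩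
  · simp only [LG.Step, if_true]
    constructor
    · rintro ⟨k', x', y', he, rfl, h⟩
      obtain ⟨rfl, hx⟩ := Sigma.mk.inj_iff.mp he
      obtain rfl := eq_of_heq hx
      exact ⟨y', rfl, h⟩
    · rintro ⟨y, rfl, h⟩
      exact ⟨k, x, y, rfl, rfl, h⟩

theorem sgm_reads {k : ℕ} {w : List (S × Bool)} : ∀ {x : Fin (n k)} {p : Σ k, Fin (n k)},
    (sgm X).Reads ⟨k, x⟩ w p ↔ ∃ y, p = ⟨k, y⟩ ∧ (X k).Reads x w y := by
  induction w with
  | nil =>
    intro x p
    constructor
    · intro h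
      cases h
      exact ⟨x, rfl, LG.Reads.nil x⟩
    · rintro ⟨y, rfl, h⟩
      cases h
      exact LG.Reads.nil _
  | cons a w ih =>
    intro x p
    constructor
    · intro h
      cases h with
      | cons h1 h2 =>
        obtain ⟨z, rfl, h3⟩ := (sgm_step X).mp h1
        obtain ⟨y, rfl, h4⟩ := ih.mp h2
        exact ⟨y, rfl, LG.Reads.cons h3 h4⟩
    · rintro ⟨y, rfl, h⟩
      cases h with
      | cons h1 h2 =>
        exact LG.Reads.cons ((sgm_step X).mpr ⟨_, rfl, h1⟩) (ih.mpr ⟨y, rfl, h2⟩)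

theorem sgm_closed (w : List (S × Bool)) : (sgm X).Closed w ↔ ∃ k, (X k).Closed w := by
  constructor
  · rintro ⟨⟨k, x⟩, h⟩
    obtain ⟨y, he, h'⟩ := (sgm_reads X).mp h
    obtain ⟨_, hx⟩ := Sigma.mk.inj_iff.mp he
    obtain rfl := eq_of_heq hx
    exact ⟨k, x, h'⟩
  · rintro ⟨k, x, h⟩
    exact ⟨⟨k, x⟩, (sgm_reads X).mpr ⟨x, rfl, h⟩⟩

end Sigma

/-- the expanders in the group `F / N` -/
def Receives {q : ℕ} (N : Subgroup (FreeGroup (Fin q))) [N.Normal] : Prop :=
  ∃ (D : ℕ) (ε : ℝ) (T : Finset (FreeGroup (Fin q) ⧸ N)), 0 < ε ∧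
    ∀ δ : ℝ, 0 < δ → ∃ (V : Type) (_ : Fintype V) (_ : Nonempty V) (Gr : SimpleGraph V)
      (g : V → FreeGroup (Fin q) ⧸ N), IsExp Gr D ε ∧
      (∀ u v, Gr.Adj u v → (g u)⁻¹ * g v ∈ T) ∧
      ∀ x, ((univ.filter (fun v => g v = x)).card : ℝ) ≤ δ * Fintype.card V

instance ncl_normal {S : Type} (P : List (S × Bool) → Prop) : (ncl P).Normal :=
  Subgroup.normalClosure_normal

/-- the adjacency graph of a labelled graph -/
def adjG {S V : Type} (X : LG S V) : SimpleGraph V where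
  Adj x y := x ≠ y ∧ ∃ a, X.Step x a y
  symm := ⟨fun _ _ h => ⟨h.1.symm, by obtain ⟨a, ha⟩ := h.2; exact ⟨_, LG.Step.inv X ha⟩⟩⟩
  loopless := ⟨fun _ h => h.1 rfl⟩

theorem adjG_exp {q D0 M C0 n g : ℕ} {X : LG (Fin q) (Fin n)} (h : Fine q D0 M C0 n g X) :
    IsExp (adjG X) D0 (1 / (M + 1)) := by
  constructor
  · intro v
    refine le_trans ?_ (h.deg v)
    obtain ⟨F, hF⟩ : ∃ F : Fin q × Bool → Fin n, ∀ a u, X.Step v a u → F a = u := by
      refine ⟨fun a => if h : ∃ u, X.Step v a u then h.choose else v, ?_⟩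
      intro a u hu
      have hex : ∃ u, X.Step v a u := ⟨u, hu⟩
      simp only [dif_pos hex]
      exact LG.Step.det X hex.choose_spec hu
    refine le_trans (card_le_card ?_) (card_image_le (f := F))
    intro u hu
    rw [mem_filter] at hu
    obtain ⟨_, _, a, ha⟩ := hu
    rw [mem_image]
    exact ⟨a, mem_filter.mpr ⟨mem_univ _, u, ha⟩, hF a u ha⟩
  · intro A hA
    rw [Fintype.card_fin] at hA
    have h1 := h.cheeger A hA
    have h2 : (univ.filter (fun p : Fin n × Fin n => p.1 ∈ A ∧ p.2 ∉ A ∧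
        ∃ a, X.Step p.1 a p.2)).card = bd (adjG X) A := by
      unfold bd
      congr 1
      ext p
      simp only [mem_filter, mem_univ, true_and, adjG]
      constructor
      · rintro ⟨h1, h2, h3⟩
        refine ⟨h1, h2, ?_, h3⟩
        intro he
        rw [he] at h1
        exact h2 h1
      · rintro ⟨h1, h2, _, h3⟩
        exact ⟨h1, h2, h3⟩
    rw [h2] at h1
    have h3 : (A.card : ℝ) ≤ M * (bd (adjG X) A : ℝ) := by exact_mod_cast h1
    rw [one_div, inv_mul_le_iff₀ (by positivity)]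
    have h4 : (0 : ℝ) ≤ bd (adjG X) A := Nat.cast_nonneg _
    nlinarith

theorem exists_monster (hE : SpecE) (hF : SpecF) (hG : SpecG) :
    ∃ (q : ℕ) (P : List (Fin q × Bool) → Prop), REPred P ∧ P [] ∧ Receives (ncl P) := by
  obtain ⟨q, D0, M, C0, g0, hF⟩ := hF
  obtain ⟨n, g, X, hg, hn, hfine, hcross, hre⟩ := hG q D0 M C0 g0 hF
  have hcl : (sgm X).Closed = fun w => ∃ k, (X k).Closed w := by
    funext w
    exact propext (sgm_closed X w)
  set P : List (Fin q × Bool) → Prop := fun w => ∃ k, (X k).Closed w with hP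
  have hEX := hE (Fin q) (Σ k, Fin (n k)) (sgm X) (fun p => g p.1) (by
    rintro p s p' ⟨k, x, y, rfl, rfl, h⟩
    rfl) (by
    rintro ⟨k, x⟩ w h hw hne
    obtain ⟨y, he, h'⟩ := (sgm_reads X).mp h
    obtain ⟨_, hx⟩ := Sigma.mk.inj_iff.mp he
    obtain rfl := eq_of_heq hx
    exact (hfine k).girth x w h' hw hne) (by
    rintro ⟨k, x⟩ ⟨l, y⟩ w u v hxy hw h1 h2
    obtain ⟨u', rfl, h1'⟩ := (sgm_reads X).mp h1
    obtain ⟨v', rfl, h2'⟩ := (sgm_reads X).mp h2
    rcases lt_trichotomy k l with hkl | hkl | hkl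
    · exact hcross k l hkl x y w u' v' hw h1' h2'
    · subst hkl
      refine (hfine k).piece x y w u' v' ?_ hw h1' h2'
      rintro rfl
      exact hxy rfl
    · exact (hcross l k hkl y x w v' u' hw h2' h1').trans (hg hkl))
  rw [hcl] at hEX
  refine ⟨q, P, hre, ?_, ?_⟩
  · exact ⟨0, ⟨0, (hfine 0).pos⟩, LG.Reads.nil _⟩
  · refine ⟨D0, 1 / (M + 1), univ.image (fun a : Fin q × Bool =>
      (QuotientGroup.mk (FreeGroup.mk [a]) : FreeGroup (Fin q) ⧸ ncl P)), by positivity, ?_⟩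
    intro δ hδ
    obtain ⟨k, hk⟩ := exists_nat_gt (1 / δ)
    have hkpos : 0 < k := by
      have : (0 : ℝ) < 1 / δ := by positivity
      exact_mod_cast this.trans hk
    have hexp := adjG_exp (hfine k)
    have hn0 := (hfine k).pos
    have hneV : Nonempty (Fin (n k)) := ⟨⟨0, hn0⟩⟩
    -- connectivity: every vertex is reached from the base point
    have hconn : ∀ y : Fin (n k), ∃ w, (X k).Reads ⟨0, hn0⟩ w y := by
      refine conn (by positivity) hexp (fun y => ∃ w, (X k).Reads ⟨0, hn0⟩ w y) ?_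
        (v₀ := ⟨0, hn0⟩) ⟨[], LG.Reads.nil _⟩
      rintro u v ⟨_, a, ha⟩ ⟨w, hw⟩
      exact ⟨w ++ [a], LG.Reads.append _ hw (LG.Reads.single _ ha)⟩
    choose w hw using hconn
    refine ⟨Fin (n k), inferInstance, hneV, adjG (X k),
      fun y => (QuotientGroup.mk (FreeGroup.mk (w y)) : FreeGroup (Fin q) ⧸ ncl P), hexp, ?_, ?_⟩
    · rintro u v ⟨_, a, ha⟩
      rw [mem_image]
      refine ⟨a, mem_univ _, ?_⟩
      have hmem : FreeGroup.mk ((w u ++ [a]) ++ FreeGroup.invRev (w v)) ∈ ncl P := by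
        apply Subgroup.subset_normalClosure
        exact ⟨_, ⟨k, ⟨0, hn0⟩, LG.Reads.append _ (LG.Reads.append _ (hw u)
          (LG.Reads.single _ ha)) (LG.Reads.rev _ (hw v))⟩, rfl⟩
      have h1 : (QuotientGroup.mk (FreeGroup.mk ((w u ++ [a]) ++ FreeGroup.invRev (w v))) :
          FreeGroup (Fin q) ⧸ ncl P) = 1 := (QuotientGroup.eq_one_iff _).mpr hmem
      rw [← FreeGroup.mul_mk, ← FreeGroup.mul_mk, ← FreeGroup.inv_mk, QuotientGroup.mk_mul,
        QuotientGroup.mk_mul, QuotientGroup.mk_inv, mul_inv_eq_one] at h1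
      beta_reduce
      rw [← h1, inv_mul_cancel_left]
    · intro x
      have hle : (univ.filter (fun v =>
          (QuotientGroup.mk (FreeGroup.mk (w v)) : FreeGroup (Fin q) ⧸ ncl P) = x)).card ≤ 1 := by
        rw [card_le_one]
        intro u hu v hv
        rw [mem_filter] at hu hv
        have h1 : (QuotientGroup.mk (FreeGroup.mk (w u)) : FreeGroup (Fin q) ⧸ ncl P) =
          QuotientGroup.mk (FreeGroup.mk (w v)) := hu.2.trans hv.2.symm
        have h2 : FreeGroup.mk (FreeGroup.invRev (w u) ++ w v) ∈ ncl P := by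
          rw [← QuotientGroup.eq_one_iff, ← FreeGroup.mul_mk, ← FreeGroup.inv_mk,
            QuotientGroup.mk_mul, QuotientGroup.mk_inv, h1, inv_mul_cancel]
        have h3 := hEX ⟨k, u⟩ ⟨k, v⟩ (FreeGroup.invRev (w u) ++ w v)
          ((sgm_reads X).mpr ⟨v, rfl, LG.Reads.append _ (LG.Reads.rev _ (hw u)) (hw v)⟩) h2
        obtain ⟨_, hx⟩ := Sigma.mk.inj_iff.mp h3
        exact eq_of_heq hx
      have h1 : ((univ.filter (fun v =>
          (QuotientGroup.mk (FreeGroup.mk (w v)) : FreeGroup (Fin q) ⧸ ncl P) = x)).card : ℝ) ≤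
          1 := by exact_mod_cast hle
      have h2 : (k : ℝ) ≤ n k := by exact_mod_cast hn k
      have h3 : 1 ≤ δ * k := by
        rw [div_lt_iff₀ hδ] at hk
        linarith
      rw [Fintype.card_fin]
      nlinarith

end Pool.Agent.Helper784WE
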