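import Mathlib
import Pool.Agent.Helper784WE.Spec

/-!
The mod 2 Magnus embedding: `F / sq N` acts faithfully through chains mod 2 of the Cayley graph
of `F / N`.
-/

set_option autoImplicit false

open scoped Classical

namespace Pool.Agent.Helper784WE

section Magnus

variable {α : Type} (N : Subgroup (FreeGroup α)) [N.Normal]

/-- chains mod 2 on the edges of the Cayley graph -/
abbrev Ch : Type := ((FreeGroup α ⧸ N) × α) →₀ ZMod 2

/-- translation of chains -/
noncomputable def actE (g : FreeGroup α ⧸ N) : Ch N ≃+ Ch N :=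
  Finsupp.domCongr (Equiv.prodCongr (Equiv.mulLeft g) (Equiv.refl α))

theorem actE_apply (g : FreeGroup α ⧸ N) (c : Ch N) (h : FreeGroup α ⧸ N) (a : α) :
    actE N g c (h, a) = c (g⁻¹ * h, a) := by
  simp [actE, Finsupp.domCongr_apply, Finsupp.equivMapDomain_apply]

theorem actE_single (g h : FreeGroup α ⧸ N) (a : α) (z : ZMod 2) :
    actE N g (Finsupp.single (h, a) z) = Finsupp.single (g * h, a) z := by
  simp [actE, Finsupp.domCongr_apply]

theorem actE_one (c : Ch N) : actE N 1 c = c := by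
  ext ⟨h, a⟩
  rw [actE_apply, inv_one, one_mul]

theorem actE_mul (g g' : FreeGroup α ⧸ N) (c : Ch N) :
    actE N (g * g') c = actE N g (actE N g' c) := by
  ext ⟨h, a⟩
  rw [actE_apply, actE_apply, actE_apply, mul_inv_rev, mul_assoc]

/-- translation of chains, multiplicatively -/
noncomputable def act : (FreeGroup α ⧸ N) →* MulAut (Multiplicative (Ch N)) where
  toFun g := AddEquiv.toMultiplicative (actE N g)
  map_one' := by
    apply MulEquiv.ext
    intro c
    change Multiplicative.ofAdd (actE N 1 c.toAdd) = c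
    rw [actE_one]; rfl
  map_mul' g g' := by
    apply MulEquiv.ext
    intro c
    change Multiplicative.ofAdd (actE N (g * g') c.toAdd) =
      Multiplicative.ofAdd (actE N g (actE N g' c.toAdd))
    rw [actE_mul]

theorem act_apply (g : FreeGroup α ⧸ N) (c : Multiplicative (Ch N)) :
    act N g c = Multiplicative.ofAdd (actE N g c.toAdd) := rfl

/-- the semidirect product -/
abbrev WW : Type := Multiplicative (Ch N) ⋊[act N] (FreeGroup α ⧸ N)

/-- the mod 2 Magnus map -/
noncomputable def mu : FreeGroup α →* WW N :=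
  FreeGroup.lift (fun a => ⟨Multiplicative.ofAdd (Finsupp.single (1, a) 1),
    QuotientGroup.mk (FreeGroup.of a)⟩)

theorem mu_of (a : α) : mu N (FreeGroup.of a) =
    ⟨Multiplicative.ofAdd (Finsupp.single (1, a) 1), QuotientGroup.mk (FreeGroup.of a)⟩ := by
  rw [mu, FreeGroup.lift_apply_of]

theorem mu_right (x : FreeGroup α) : (mu N x).right = (x : FreeGroup α ⧸ N) := by
  have : SemidirectProduct.rightHom.comp (mu N) = QuotientGroup.mk' N := by
    apply FreeGroup.ext_hom
    intro a
    rw [MonoidHom.comp_apply, mu_of]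
    rfl
  exact DFunLike.congr_fun this x

/-- the chain of an element of the free group -/
noncomputable def ch (x : FreeGroup α) : Ch N := (mu N x).left.toAdd

theorem ch_one : ch N 1 = 0 := by
  rw [ch, map_one]; rfl

theorem ch_of (a : α) : ch N (FreeGroup.of a) = Finsupp.single (1, a) 1 := by
  rw [ch, mu_of]; rfl

theorem ch_mul (x y : FreeGroup α) : ch N (x * y) = ch N x + actE N x (ch N y) := by
  have h : (mu N (x * y)).left = (mu N x).left * act N (mu N x).right (mu N y).left := by
    rw [map_mul]; rfl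
  rw [ch, h, mu_right, act_apply]
  rfl

theorem ch_inv (x : FreeGroup α) : ch N x⁻¹ = - actE N (x⁻¹ : FreeGroup α) (ch N x) := by
  have h := ch_mul N x⁻¹ x
  rw [inv_mul_cancel, ch_one] at h
  exact eq_neg_of_add_eq_zero_left h.symm

theorem ch_sq {n : FreeGroup α} (hn : n ∈ N) : ch N (n ^ 2) = 0 := by
  have h1 : ((n : FreeGroup α) : FreeGroup α ⧸ N) = 1 := (QuotientGroup.eq_one_iff n).mpr hn
  rw [pow_two, ch_mul, h1, actE_one]
  ext x
  rw [Finsupp.add_apply]
  exact CharTwo.add_self_eq_zero _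

/-- the image of `N` in `F / sq N` -/
abbrev Kb : Subgroup (FreeGroup α ⧸ sq N) := N.map (QuotientGroup.mk' (sq N))

theorem Kb_sq (x : Kb N) : x * x = 1 := by
  obtain ⟨x, n, hn, rfl⟩ := x
  apply Subtype.ext
  change (QuotientGroup.mk' (sq N)) n * (QuotientGroup.mk' (sq N)) n = 1
  rw [← map_mul, ← pow_two]
  exact (QuotientGroup.eq_one_iff _).mpr (Subgroup.subset_closure ⟨n, hn, rfl⟩)

theorem Kb_comm (x y : Kb N) : x * y = y * x := by
  have hx : x⁻¹ = x := inv_eq_of_mul_eq_one_left (Kb_sq N x)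
  have hy : y⁻¹ = y := inv_eq_of_mul_eq_one_left (Kb_sq N y)
  have hxy : (x * y)⁻¹ = x * y := inv_eq_of_mul_eq_one_left (Kb_sq N (x * y))
  rw [← hxy, mul_inv_rev, hx, hy]

noncomputable instance kbComm : CommGroup (Kb N) :=
  { (inferInstance : Group (Kb N)) with mul_comm := Kb_comm N }

/-- representatives -/
noncomputable def sg (g : FreeGroup α ⧸ N) : FreeGroup α := Quotient.out g

theorem sg_mk (g : FreeGroup α ⧸ N) : ((sg N g : FreeGroup α) : FreeGroup α ⧸ N) = g :=
  Quotient.out_eq g

theorem el_mem (g : FreeGroup α ⧸ N) (x : FreeGroup α) :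
    sg N g * x * (sg N (g * x))⁻¹ ∈ N := by
  rw [← QuotientGroup.eq_one_iff]
  rw [QuotientGroup.mk_mul, QuotientGroup.mk_mul, QuotientGroup.mk_inv, sg_mk, sg_mk]
  group

/-- the element of the kernel attached to a path -/
noncomputable def el (g : FreeGroup α ⧸ N) (x : FreeGroup α) : Kb N :=
  ⟨(QuotientGroup.mk' (sq N)) (sg N g * x * (sg N (g * x))⁻¹), _, el_mem N g x, rfl⟩

theorem el_mul (g : FreeGroup α ⧸ N) (x y : FreeGroup α) :
    el N g (x * y) = el N g x * el N (g * x) y := by
  apply Subtype.ext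
  simp only [el, Subgroup.coe_mul, ← map_mul]
  congr 1
  rw [QuotientGroup.mk_mul, mul_assoc g]
  group

theorem el_one (g : FreeGroup α ⧸ N) : el N g 1 = 1 := by
  apply Subtype.ext
  simp only [el, QuotientGroup.mk_one, mul_one, mul_inv_cancel, map_one, Subgroup.coe_one]

/-- the linear extension -/
noncomputable def Phi : Ch N →+ Additive (Kb N) :=
  Finsupp.liftAddHom (fun e => ZMod.lift 2 ⟨zmultiplesHom (Additive (Kb N))
    (Additive.ofMul (el N e.1 (FreeGroup.of e.2))), by
      change ((2 : ℕ) : ℤ) • (Additive.ofMul (el N e.1 (FreeGroup.of e.2))) = 0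
      rw [natCast_zsmul, two_nsmul, ← ofMul_mul, Kb_sq]
      rfl⟩)

theorem Phi_single (g : FreeGroup α ⧸ N) (a : α) :
    Phi N (Finsupp.single (g, a) 1) = Additive.ofMul (el N g (FreeGroup.of a)) := by
  rw [Phi, Finsupp.liftAddHom_apply_single]
  have : (1 : ZMod 2) = ((1 : ℤ) : ZMod 2) := by simp
  rw [this, ZMod.lift_coe]
  simp

theorem Phi_ch (x : FreeGroup α) : ∀ g : FreeGroup α ⧸ N,
    Phi N (actE N g (ch N x)) = Additive.ofMul (el N g x) := by
  induction x using FreeGroup.induction_on with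
  | C1 =>
    intro g
    rw [ch_one, map_zero, map_zero, el_one]; rfl
  | of a =>
    intro g
    rw [ch_of, actE_single, mul_one, Phi_single]
  | inv_of a ih =>
    intro g
    rw [ch_inv, map_neg, ← actE_mul, map_neg, ih]
    have h := el_mul N (g * (((FreeGroup.of a)⁻¹ : FreeGroup α) : FreeGroup α ⧸ N))
      (FreeGroup.of a) (FreeGroup.of a)⁻¹
    rw [mul_inv_cancel, el_one] at h
    have e : g * (((FreeGroup.of a)⁻¹ : FreeGroup α) : FreeGroup α ⧸ N) *
        ((FreeGroup.of a : FreeGroup α) : FreeGroup α ⧸ N) = g := by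
      rw [QuotientGroup.mk_inv, inv_mul_cancel_right]
    rw [e] at h
    rw [← ofMul_inv, eq_comm]
    congr 1
    exact eq_inv_of_mul_eq_one_right h.symm
  | mul x y hx hy =>
    intro g
    rw [ch_mul, map_add, map_add, ← actE_mul, hx, hy, el_mul]; rfl

theorem mem_sq_iff (x : FreeGroup α) : x ∈ sq N ↔ x ∈ N ∧ ch N x = 0 := by
  constructor
  · intro hx
    have h : ∀ x ∈ sq N, x ∈ N ∧ ch N x = 0 := by
      intro x hx
      induction hx using Subgroup.closure_induction with
      | mem x hx =>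
        obtain ⟨n, hn, rfl⟩ := hx
        exact ⟨N.pow_mem hn 2, ch_sq N hn⟩
      | one => exact ⟨N.one_mem, ch_one N⟩
      | mul x y _ _ hx hy =>
        refine ⟨N.mul_mem hx.1 hy.1, ?_⟩
        rw [ch_mul, hx.2, hy.2, map_zero, add_zero]
      | inv x _ hx =>
        refine ⟨N.inv_mem hx.1, ?_⟩
        rw [ch_inv, hx.2, map_zero, neg_zero]
    exact h x hx
  · rintro ⟨h1, h2⟩
    have h3 := Phi_ch N x 1
    rw [h2, map_zero, map_zero] at h3
    have h4 : el N 1 x = 1 := (Additive.ofMul.injective h3.symm)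
    have h5 := congrArg Subtype.val h4
    have h6 : ((x : FreeGroup α) : FreeGroup α ⧸ N) = 1 := (QuotientGroup.eq_one_iff x).mpr h1
    simp only [el, h6, mul_one] at h5
    have h7 : sg N 1 * x * (sg N 1)⁻¹ ∈ sq N := (QuotientGroup.eq_one_iff _).mp h5
    have h8 := (sq_normal N).conj_mem _ h7 (sg N 1)⁻¹
    have h9 : (sg N 1)⁻¹ * (sg N 1 * x * (sg N 1)⁻¹) * ((sg N 1)⁻¹)⁻¹ = x := by group
    rwa [h9] at h8

theorem mem_ker_mu (x : FreeGroup α) : x ∈ (mu N).ker ↔ x ∈ N ∧ ch N x = 0 := by
  rw [MonoidHom.mem_ker]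
  constructor
  · intro h
    refine ⟨?_, ?_⟩
    · rw [← QuotientGroup.eq_one_iff, ← mu_right, h]; rfl
    · rw [ch, h]; rfl
  · rintro ⟨h1, h2⟩
    apply SemidirectProduct.ext
    · exact h2
    · rw [mu_right]; exact (QuotientGroup.eq_one_iff x).mpr h1

theorem ker_mu : (mu N).ker = sq N := by
  ext x
  rw [mem_ker_mu, mem_sq_iff]

/-- the embedding of `F / sq N` -/
noncomputable def muM : (FreeGroup α ⧸ sq N) →* WW N :=
  QuotientGroup.lift (sq N) (mu N) (fun x hx => by rwa [← ker_mu N] at hx)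

theorem muM_mk (x : FreeGroup α) : muM N (x : FreeGroup α ⧸ sq N) = mu N x := rfl

theorem muM_injective : Function.Injective (muM N) := by
  rw [injective_iff_map_eq_one]
  intro m hm
  obtain ⟨x, rfl⟩ := QuotientGroup.mk_surjective m
  rw [muM_mk] at hm
  rw [QuotientGroup.eq_one_iff, ← ker_mu]
  exact hm

end Magnus

end Pool.Agent.Helper784WE
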