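import Mathlib
import Pool.Agent.Helper784WE.A4
import Pool.Agent.Helper784WE.B0

/-!
`F / sq N` contains no weakly embedded expander.
-/

set_option autoImplicit false

open Finset
open scoped Classical

namespace Pool.Agent.Helper784WE

section Boundary

variable {α : Type} (N : Subgroup (FreeGroup α)) [N.Normal]

/-- the end of an edge -/
def tgt (e : (FreeGroup α ⧸ N) × α) : FreeGroup α ⧸ N :=
  e.1 * (QuotientGroup.mk (FreeGroup.of e.2) : FreeGroup α ⧸ N)

/-- the boundary of a chain -/
noncomputable def bdr : Ch N →+ ((FreeGroup α ⧸ N) →₀ ZMod 2) :=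
  Finsupp.mapDomain.addMonoidHom Prod.fst + Finsupp.mapDomain.addMonoidHom (tgt N)

theorem bdr_single (e : (FreeGroup α ⧸ N) × α) (z : ZMod 2) :
    bdr N (Finsupp.single e z) = Finsupp.single e.1 z + Finsupp.single (tgt N e) z := by
  simp [bdr, Finsupp.mapDomain.addMonoidHom, Finsupp.mapDomain_single]

theorem bdr_act (g : FreeGroup α ⧸ N) (c : Ch N) :
    bdr N (actE N g c) = Finsupp.mapDomain (fun h => g * h) (bdr N c) := by
  have : (bdr N).comp (actE N g).toAddMonoidHom =
      (Finsupp.mapDomain.addMonoidHom (fun h => g * h)).comp (bdr N) := by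
    apply Finsupp.addHom_ext
    rintro ⟨h, a⟩ z
    simp only [AddMonoidHom.comp_apply, AddEquiv.coe_toAddMonoidHom, actE_single, bdr_single,
      map_add, tgt]
    simp only [Finsupp.mapDomain.addMonoidHom, AddMonoidHom.coe_mk, ZeroHom.coe_mk,
      Finsupp.mapDomain_single, mul_assoc]
  exact DFunLike.congr_fun this c

theorem add_self_fs {ι : Type} (c : ι →₀ ZMod 2) : c + c = 0 := by
  ext x
  rw [Finsupp.add_apply]
  exact CharTwo.add_self_eq_zero _

theorem neg_fs {ι : Type} (c : ι →₀ ZMod 2) : -c = c :=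
  neg_eq_of_add_eq_zero_left (add_self_fs c)

theorem bdr_ch (x : FreeGroup α) : bdr N (ch N x) =
    Finsupp.single 1 1 + Finsupp.single (x : FreeGroup α ⧸ N) 1 := by
  induction x using FreeGroup.induction_on with
  | C1 =>
    rw [ch_one, map_zero, QuotientGroup.mk_one, add_self_fs]
  | of a =>
    rw [ch_of, bdr_single, tgt, one_mul]
  | inv_of a ih =>
    rw [ch_inv, map_neg, neg_fs, bdr_act, ih]
    rw [Finsupp.mapDomain_add, Finsupp.mapDomain_single, Finsupp.mapDomain_single, mul_one,
      QuotientGroup.mk_inv, inv_mul_cancel, add_comm]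
  | mul x y hx hy =>
    rw [ch_mul, map_add, bdr_act, hx, hy]
    rw [Finsupp.mapDomain_add, Finsupp.mapDomain_single, Finsupp.mapDomain_single, mul_one,
      QuotientGroup.mk_mul]
    rw [add_assoc, ← add_assoc (Finsupp.single (x : FreeGroup α ⧸ N) 1), add_self_fs, zero_add]

/-- the generators and their inverses -/
noncomputable def gens [Fintype α] : Finset (FreeGroup α ⧸ N) :=
  univ.image (fun a : α => (QuotientGroup.mk (FreeGroup.of a) : FreeGroup α ⧸ N)) ∪
  univ.image (fun a : α => (QuotientGroup.mk (FreeGroup.of a) : FreeGroup α ⧸ N)⁻¹)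

/-- balls -/
noncomputable def bl [Fintype α] : ℕ → Finset (FreeGroup α ⧸ N)
  | 0 => {1}
  | k + 1 => bl k ∪ image₂ (fun s x => s * x) (gens N) (bl k)

theorem one_mem_bl [Fintype α] (k : ℕ) : (1 : FreeGroup α ⧸ N) ∈ bl N k := by
  induction k with
  | zero => exact mem_singleton_self _
  | succ k ih => exact mem_union_left _ ih

theorem ball_of_bdr [Fintype α] (k : ℕ) : ∀ (c : Ch N) (y z : FreeGroup α ⧸ N),
    c.support.card ≤ k → bdr N c = Finsupp.single y 1 + Finsupp.single z 1 →
    z⁻¹ * y ∈ bl N k := by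
  induction k with
  | zero =>
    intro c y z hc h
    have : c = 0 := by
      rw [← Finsupp.support_eq_empty, ← card_eq_zero]; omega
    rw [this, map_zero] at h
    have h1 : Finsupp.single y (1 : ZMod 2) = Finsupp.single z 1 := by
      rw [← neg_fs (Finsupp.single z 1)]
      exact eq_neg_of_add_eq_zero_left h.symm
    have h2 : y = z := by
      have := (Finsupp.single_eq_single_iff _ _ _ _).mp h1
      rcases this with h | h
      · exact h.1
      · exact absurd h.1 one_ne_zero
    rw [h2, inv_mul_cancel]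
    exact one_mem_bl N 0
  | succ k ih =>
    intro c y z hc h
    by_cases hyz : y = z
    · rw [hyz, inv_mul_cancel]
      exact one_mem_bl N _
    have hz : z ∈ (bdr N c).support := by
      rw [Finsupp.mem_support_iff, h, Finsupp.add_apply, Finsupp.single_eq_same,
        Finsupp.single_eq_of_ne (fun h => hyz h.symm), zero_add]
      exact one_ne_zero
    have hz' : ∃ e ∈ c.support, e.1 = z ∨ tgt N e = z := by
      have h1 : (bdr N c).support ⊆ c.support.image Prod.fst ∪ c.support.image (tgt N) := by
        have : bdr N c = Finsupp.mapDomain Prod.fst c + Finsupp.mapDomain (tgt N) c := rfl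
        rw [this]
        exact Finsupp.support_add.trans (union_subset_union Finsupp.mapDomain_support
          Finsupp.mapDomain_support)
      rcases mem_union.mp (h1 hz) with h2 | h2
      · obtain ⟨e, he, h3⟩ := mem_image.mp h2
        exact ⟨e, he, Or.inl h3⟩
      · obtain ⟨e, he, h3⟩ := mem_image.mp h2
        exact ⟨e, he, Or.inr h3⟩
    obtain ⟨e, he, hez⟩ := hz'
    have hce : c e = 1 := by
      have h1 := Finsupp.mem_support_iff.mp he
      generalize c e = x at h1
      revert h1; revert x; decide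
    have hc' : (c + Finsupp.single e 1).support.card ≤ k := by
      have h1 : (c + Finsupp.single e 1).support ⊆ c.support.erase e := by
        intro f hf
        rw [Finsupp.mem_support_iff, Finsupp.add_apply] at hf
        rw [mem_erase]
        have hfe : f ≠ e := by
          rintro rfl
          rw [hce, Finsupp.single_eq_same] at hf
          exact hf (by decide)
        refine ⟨hfe, ?_⟩
        rw [Finsupp.single_eq_of_ne hfe, add_zero] at hf
        exact Finsupp.mem_support_iff.mpr hf
      have h2 := card_le_card h1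
      rw [card_erase_of_mem he] at h2
      omega
    have hs : ∀ a : α, (QuotientGroup.mk (FreeGroup.of a) : FreeGroup α ⧸ N) ∈ gens N :=
      fun a => mem_union_left _ (mem_image_of_mem _ (mem_univ a))
    have hs' : ∀ a : α, (QuotientGroup.mk (FreeGroup.of a) : FreeGroup α ⧸ N)⁻¹ ∈ gens N :=
      fun a => mem_union_right _ (mem_image_of_mem _ (mem_univ a))
    rcases hez with hez | hez
    · have h1 := ih _ y (tgt N e) hc' (by
        rw [map_add, bdr_single, h, hez, add_assoc, ← add_assoc (Finsupp.single z 1),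
          add_self_fs, zero_add])
      have h2 : z⁻¹ * y = (QuotientGroup.mk (FreeGroup.of e.2) : FreeGroup α ⧸ N) *
          ((tgt N e)⁻¹ * y) := by
        rw [tgt, hez]; group
      rw [h2]
      exact mem_union_right _ (mem_image₂_of_mem (hs _) h1)
    · have h1 := ih _ y e.1 hc' (by
        rw [map_add, bdr_single, h, hez, add_assoc, add_comm (Finsupp.single e.1 1),
          ← add_assoc (Finsupp.single z 1), add_self_fs, zero_add])
      have h2 : z⁻¹ * y = (QuotientGroup.mk (FreeGroup.of e.2) : FreeGroup α ⧸ N)⁻¹ *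
          (e.1⁻¹ * y) := by
        rw [← hez, tgt]; group
      rw [h2]
      exact mem_union_right _ (mem_image₂_of_mem (hs' _) h1)

theorem conc_Kb : Conc (Kb N) := by
  apply conc_local
  intro T
  refine ⟨Subgroup.closure (T : Set (Kb N)), fun t ht => Subgroup.subset_closure ht, ?_⟩
  have hfg : Group.FG (Subgroup.closure (T : Set (Kb N))) :=
    (Group.fg_iff_subgroup_fg _).mpr ⟨T, rfl⟩
  have htor : IsMulTorsion (Subgroup.closure (T : Set (Kb N))) := by
    intro x
    rw [isOfFinOrder_iff_pow_eq_one]
    refine ⟨2, by norm_num, ?_⟩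
    apply Subtype.ext
    rw [pow_two]
    exact Kb_sq N _
  have := CommGroup.finite_of_fg_isMulTorsion _ htor
  exact conc_finite

/-- the projection to `F / N` -/
noncomputable def prM : (FreeGroup α ⧸ sq N) →* (FreeGroup α ⧸ N) :=
  SemidirectProduct.rightHom.comp (muM N)

theorem prM_mk (x : FreeGroup α) : prM N (x : FreeGroup α ⧸ sq N) = (x : FreeGroup α ⧸ N) := by
  rw [prM, MonoidHom.comp_apply, muM_mk]
  exact mu_right N x

theorem conc_ker : Conc (prM N).ker := by
  have hle : (prM N).ker ≤ Kb N := by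
    intro m hm
    obtain ⟨x, rfl⟩ := QuotientGroup.mk_surjective m
    rw [MonoidHom.mem_ker, prM_mk, QuotientGroup.eq_one_iff] at hm
    exact ⟨x, hm, rfl⟩
  exact conc_of_injective (Subgroup.inclusion hle) (Subgroup.inclusion_injective _) (conc_Kb N)

/-- the chain of an element of `F / sq N` -/
noncomputable def cM (m : FreeGroup α ⧸ sq N) : Ch N := (muM N m).left.toAdd

theorem cM_mul (m m' : FreeGroup α ⧸ sq N) :
    cM N (m * m') = cM N m + actE N (prM N m) (cM N m') := by
  have h : (muM N (m * m')).left = (muM N m).left * act N (muM N m).right (muM N m').left := by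
    rw [map_mul]; rfl
  rw [cM, h, act_apply]
  rfl

theorem bdr_cM (m : FreeGroup α ⧸ sq N) : bdr N (cM N m) =
    Finsupp.single 1 1 + Finsupp.single (prM N m) 1 := by
  obtain ⟨x, rfl⟩ := QuotientGroup.mk_surjective m
  rw [prM_mk]
  exact bdr_ch N x

theorem card_supp_act (g : FreeGroup α ⧸ N) (c : Ch N) :
    (actE N g c).support.card = c.support.card := by
  have : (actE N g c).support = c.support.map
      (Equiv.prodCongr (Equiv.mulLeft g) (Equiv.refl α)).toEmbedding := rfl
  rw [this, card_map]

end Boundary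

/-- concentration of a Lipschitz family of chains -/
theorem chain_conc {V E : Type} [Fintype V] [Nonempty V] {Gr : SimpleGraph V} {D : ℕ} {ε : ℝ}
    (hε : 0 < ε) (h : IsExp Gr D ε) (c : V → (E →₀ ZMod 2)) (L : ℕ)
    (hL : ∀ u v, Gr.Adj u v → (c v - c u).support.card ≤ L) (K : ℕ)
    (hK : 2 * (L * D : ℝ) / ε ≤ K) (hK0 : 0 < K) :
    ∃ v₀ : V, (1 / 2 : ℝ) * (Fintype.card V : ℝ) ≤
      ((univ.filter (fun v => (c v - c v₀).support.card ≤ 2 * K)).card : ℝ) := by
  set E0 : Finset E := univ.biUnion (fun v => (c v).support) with hE0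
  have hE0' : ∀ e, e ∉ E0 → ∀ v, c v e = 0 := by
    intro e he v
    by_contra hcon
    exact he (mem_biUnion.mpr ⟨v, mem_univ _, Finsupp.mem_support_iff.mpr hcon⟩)
  -- majority values
  have hmaj : ∀ e : E, ∃ m : ZMod 2, 2 * (univ.filter (fun v => c v e ≠ m)).card ≤
      Fintype.card V := by
    intro e
    by_cases hm : 2 * (univ.filter (fun v => c v e ≠ 0)).card ≤ Fintype.card V
    · exact ⟨0, hm⟩
    · refine ⟨1, ?_⟩
      have h1 : (univ.filter (fun v => c v e ≠ 1)).card +
          (univ.filter (fun v => c v e ≠ 0)).card ≤ Fintype.card V := by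
        rw [← card_union_of_disjoint]
        · exact card_le_univ _
        · rw [Finset.disjoint_left]
          intro v hv hv'
          simp only [mem_filter, mem_univ, true_and] at hv hv'
          generalize c v e = x at hv hv'
          revert x; decide
      omega
  choose m hm using hmaj
  set Ad : Finset (V × V) := univ.filter (fun p : V × V => Gr.Adj p.1 p.2) with hAd
  have hAdc : Ad.card ≤ D * Fintype.card V := by
    have h1 := ed_le_left h.deg (univ : Finset V) univ
    have h2 : Ad.card ≤ ed Gr univ univ := by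
      apply card_le_card
      intro p hp
      rw [hAd, mem_filter] at hp
      rw [mem_filter]
      exact ⟨mem_univ _, mem_univ _, mem_univ _, hp.2⟩
    rw [card_univ] at h1
    exact h2.trans h1
  have hsum : (∑ e ∈ E0, bd Gr (univ.filter (fun v => c v e ≠ m e))) ≤
      L * (D * Fintype.card V) := by
    calc (∑ e ∈ E0, bd Gr (univ.filter (fun v => c v e ≠ m e)))
        ≤ ∑ e ∈ E0, (Ad.filter (fun p => c p.2 e ≠ c p.1 e)).card := by
          apply sum_le_sum
          intro e _
          apply card_le_card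
          intro p hp
          simp only [mem_filter, mem_univ, true_and, not_not, hAd] at hp ⊢
          refine ⟨hp.2.2, ?_⟩
          rw [hp.2.1]
          exact fun h => hp.1 h.symm
      _ = ∑ p ∈ Ad, (E0.filter (fun e => c p.2 e ≠ c p.1 e)).card :=
          (sum_card_bipartiteAbove_eq_sum_card_bipartiteBelow
            (s := E0) (t := Ad) (fun (e : E) (p : V × V) => c p.2 e ≠ c p.1 e))
      _ ≤ ∑ p ∈ Ad, L := by
          apply sum_le_sum
          intro p hp
          rw [hAd, mem_filter] at hp
          refine le_trans (card_le_card ?_) (hL p.1 p.2 hp.2)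
          intro e he
          rw [mem_filter] at he
          rw [Finsupp.mem_support_iff, Finsupp.sub_apply]
          exact sub_ne_zero.mpr he.2
      _ = Ad.card * L := by rw [sum_const, smul_eq_mul]
      _ ≤ L * (D * Fintype.card V) := by
          rw [mul_comm]; exact Nat.mul_le_mul_left _ hAdc
  have hsum2 : ε * ((∑ v : V, (E0.filter (fun e => c v e ≠ m e)).card : ℕ) : ℝ) ≤
      L * (D * Fintype.card V) := by
    have e1 : (∑ v : V, (E0.filter (fun e => c v e ≠ m e)).card) =
        ∑ e ∈ E0, (univ.filter (fun v => c v e ≠ m e)).card :=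
      (sum_card_bipartiteAbove_eq_sum_card_bipartiteBelow
        (s := (univ : Finset V)) (t := E0) (fun v e => c v e ≠ m e))
    rw [e1]
    push_cast
    rw [mul_sum]
    calc ∑ e ∈ E0, ε * ((univ.filter (fun v => c v e ≠ m e)).card : ℝ)
        ≤ ∑ e ∈ E0, (bd Gr (univ.filter (fun v => c v e ≠ m e)) : ℝ) :=
          sum_le_sum (fun e _ => h.cheeger _ (hm e))
      _ = ((∑ e ∈ E0, bd Gr (univ.filter (fun v => c v e ≠ m e)) : ℕ) : ℝ) := by push_cast; rfl
      _ ≤ ((L * (D * Fintype.card V) : ℕ) : ℝ) := by exact_mod_cast hsum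
      _ = _ := by push_cast; ring
  -- Markov
  set Bad : Finset V := univ.filter (fun v => K < (E0.filter (fun e => c v e ≠ m e)).card)
    with hBad
  have hBadK : Bad.card * K ≤ ∑ v : V, (E0.filter (fun e => c v e ≠ m e)).card := by
    calc Bad.card * K = ∑ v ∈ Bad, K := by rw [sum_const, smul_eq_mul]
      _ ≤ ∑ v ∈ Bad, (E0.filter (fun e => c v e ≠ m e)).card := by
          apply sum_le_sum
          intro v hv
          rw [hBad, mem_filter] at hv
          exact hv.2.le
      _ ≤ _ := sum_le_sum_of_subset (subset_univ _)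
  have hV : (0 : ℝ) < Fintype.card V := by exact_mod_cast Fintype.card_pos
  have hKpos : (0 : ℝ) < K := by exact_mod_cast hK0
  have hBad2 : 2 * (Bad.card : ℝ) ≤ Fintype.card V := by
    have h1 : (Bad.card : ℝ) * K ≤
        ((∑ v : V, (E0.filter (fun e => c v e ≠ m e)).card : ℕ) : ℝ) := by exact_mod_cast hBadK
    have h2 : 2 * (L * D : ℝ) ≤ K * ε := by rwa [div_le_iff₀ hε] at hK
    have h3 : ε * ((Bad.card : ℝ) * K) ≤ L * (D * Fintype.card V) :=
      (mul_le_mul_of_nonneg_left h1 hε.le).trans hsum2
    have h4 : 2 * (ε * ((Bad.card : ℝ) * K)) ≤ (K * ε) * Fintype.card V := by nlinarith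
    have h5 : (K * ε) * (2 * (Bad.card : ℝ)) ≤ (K * ε) * Fintype.card V := by linarith
    exact le_of_mul_le_mul_left h5 (by positivity)
  have hgood : (univ.filter (fun v => (E0.filter (fun e => c v e ≠ m e)).card ≤ K)).card +
      Bad.card = Fintype.card V := by
    rw [hBad, ← card_univ, ← card_filter_add_card_filter_not (s := univ)
      (fun v => (E0.filter (fun e => c v e ≠ m e)).card ≤ K)]
    simp only [not_le]
  have hgood' : ((univ.filter (fun v => (E0.filter (fun e => c v e ≠ m e)).card ≤ K)).card : ℝ) +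
      Bad.card = Fintype.card V := by exact_mod_cast hgood
  have hhalf : (1 / 2 : ℝ) * (Fintype.card V : ℝ) ≤
      ((univ.filter (fun v => (E0.filter (fun e => c v e ≠ m e)).card ≤ K)).card : ℝ) := by
    linarith
  have hpos : 0 < (univ.filter (fun v => (E0.filter (fun e => c v e ≠ m e)).card ≤ K)).card := by
    have : (0 : ℝ) < ((univ.filter
        (fun v => (E0.filter (fun e => c v e ≠ m e)).card ≤ K)).card : ℝ) := by linarith
    exact_mod_cast this
  obtain ⟨v₀, hv₀⟩ := Finset.card_pos.mp hpos
  refine ⟨v₀, hhalf.trans ?_⟩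
  rw [Nat.cast_le]
  apply card_le_card
  intro v hv
  rw [mem_filter] at hv hv₀ ⊢
  refine ⟨mem_univ _, ?_⟩
  have : (c v - c v₀).support ⊆ E0.filter (fun e => c v e ≠ m e) ∪
      E0.filter (fun e => c v₀ e ≠ m e) := by
    intro e he
    rw [Finsupp.mem_support_iff, Finsupp.sub_apply, sub_ne_zero] at he
    have heE : e ∈ E0 := by
      by_contra hcon
      rw [hE0' e hcon, hE0' e hcon] at he
      exact he rfl
    rw [mem_union, mem_filter, mem_filter]
    by_contra hcon
    push Not at hcon
    exact he ((hcon.1 heE).trans (hcon.2 heE).symm)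
  calc (c v - c v₀).support.card ≤ _ := card_le_card this
    _ ≤ _ := card_union_le _ _
    _ ≤ K + K := add_le_add hv.2 hv₀.2
    _ = 2 * K := by ring

theorem specB1 : SpecB1 := by
  intro n N _ T D ε hε
  obtain ⟨L, hL⟩ : ∃ L : ℕ, ∀ t ∈ T, (cM N t).support.card ≤ L :=
    ⟨T.sup (fun t => (cM N t).support.card), fun t ht =>
      Finset.le_sup (f := fun t => (cM N t).support.card) ht⟩
  obtain ⟨K, hK⟩ := exists_nat_gt (2 * (L * D : ℝ) / ε)
  have hK0 : 0 < K := by
    have : (0 : ℝ) ≤ 2 * (L * D : ℝ) / ε := by positivity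
    exact_mod_cast lt_of_le_of_lt this hK
  set P : Finset (FreeGroup (Fin n) ⧸ sq N) := (bl N (2 * K)).image
    (fun q => (QuotientGroup.mk (sg N q) : FreeGroup (Fin n) ⧸ sq N)) with hP
  obtain ⟨δ, hδ, h⟩ := relConc (prM N).ker (conc_ker N) P T D ε (1 / 2) hε (by norm_num)
  refine ⟨δ, hδ, ?_⟩
  intro V _ _ Gr hGr g hg
  have hdiff : ∀ u v : V, cM N (g v) - cM N (g u) =
      actE N (prM N (g u)) (cM N ((g u)⁻¹ * g v)) := by
    intro u v
    have := cM_mul N (g u) ((g u)⁻¹ * g v)
    rw [mul_inv_cancel_left] at this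
    rw [this, add_sub_cancel_left]
  obtain ⟨v₀, hv₀⟩ := chain_conc hε hGr (fun v => cM N (g v)) L (by
    intro u v huv
    rw [hdiff, card_supp_act]
    exact hL _ (hg u v huv)) K hK.le hK0
  refine h V Gr hGr g hg (g v₀) (hv₀.trans ?_)
  rw [Nat.cast_le]
  apply card_le_card
  intro v hv
  rw [mem_filter] at hv ⊢
  refine ⟨mem_univ _, ?_⟩
  have hv2 := hv.2
  simp only [hdiff, card_supp_act] at hv2
  have hball := ball_of_bdr N (2 * K) (cM N ((g v₀)⁻¹ * g v)) (prM N ((g v₀)⁻¹ * g v)) 1 hv2
    (by rw [bdr_cM, add_comm])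
  rw [inv_one, one_mul] at hball
  refine ⟨(g v₀)⁻¹ * g v * (QuotientGroup.mk (sg N (prM N ((g v₀)⁻¹ * g v))) :
    FreeGroup (Fin n) ⧸ sq N)⁻¹, ?_, _, mem_image_of_mem _ hball, by group⟩
  rw [MonoidHom.mem_ker, map_mul, map_inv, prM_mk, sg_mk, mul_inv_cancel]

end Pool.Agent.Helper784WE
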