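import Mathlib
import Pool.Agent.Helper784WE.Basic

/-!
Module B2, analysis part: an L2 Poincare inequality from the Cheeger bound, the characters of the
cube, and the key inequality for functions on (cube) x (expander).
-/

set_option autoImplicit false

open Finset
open scoped Classical

namespace Pool.Agent.Helper784WE.B2

section poincare

variable {V : Type} [Fintype V]

/-- The co-area inequality. -/
theorem coarea (Gr : SimpleGraph V) {D : ℕ} {ε : ℝ} (h : IsExp Gr D ε) :
    ∀ (k : ℕ) (f : V → ℝ), (∀ x, 0 ≤ f x) → (univ.filter (fun x => 0 < f x)).card = k →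
      2 * (univ.filter (fun x => 0 < f x)).card ≤ Fintype.card V →
      ε * ∑ x, f x ≤ ∑ x, ∑ y, if Gr.Adj x y then max (f x - f y) 0 else 0 := by
  intro k
  induction k using Nat.strong_induction_on with
  | _ k ih =>
    intro f hf hk hs
    set A : Finset V := univ.filter (fun x => 0 < f x) with hA
    rcases A.eq_empty_or_nonempty with he | hne
    · have h0 : ∀ x, f x = 0 := by
        intro x
        by_contra hx
        have : x ∈ A := by
          rw [hA, mem_filter]
          exact ⟨mem_univ _, lt_of_le_of_ne (hf x) (Ne.symm hx)⟩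
        rw [he] at this
        simp at this
      simp [h0]
    · obtain ⟨x0, hx0, hmin⟩ := A.exists_min_image f hne
      have hx0' : 0 < f x0 := by
        rw [hA, mem_filter] at hx0
        exact hx0.2
      set m := f x0 with hm
      set f' : V → ℝ := fun x => if x ∈ A then f x - m else 0 with hf'
      have hf'0 : ∀ x, 0 ≤ f' x := by
        intro x
        simp only [hf']
        split_ifs with hx
        · linarith [hmin x hx]
        · exact le_rfl
      have hnA : ∀ x, x ∉ A → f x = 0 := by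
        intro x hx
        by_contra hx'
        exact hx (by rw [hA, mem_filter]; exact ⟨mem_univ _, lt_of_le_of_ne (hf x) (Ne.symm hx')⟩)
      have hsub : (univ.filter (fun x => 0 < f' x)) ⊆ A.erase x0 := by
        intro x hx
        simp only [mem_filter, mem_univ, true_and, hf'] at hx
        split_ifs at hx with hxA
        · rw [mem_erase]
          refine ⟨?_, hxA⟩
          rintro rfl
          rw [← hm] at hx
          linarith
        · exact absurd hx (lt_irrefl _)
      have hlt : (univ.filter (fun x => 0 < f' x)).card < k := by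
        refine lt_of_le_of_lt (card_le_card hsub) ?_
        rw [← hk]
        exact card_erase_lt_of_mem hx0
      have hIH := ih _ hlt f' hf'0 rfl (by omega)
      have hsum : ∑ x, f x = ∑ x, f' x + m * A.card := by
        have h1 : ∀ x, f x = f' x + (if x ∈ A then m else 0) := by
          intro x
          simp only [hf']
          split_ifs with hx
          · ring
          · rw [hnA x hx]; ring
        rw [sum_congr rfl (fun x _ => h1 x), sum_add_distrib]
        congr 1
        rw [← sum_filter]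
        simp [mul_comm]
      have hpt : ∀ x y, (if Gr.Adj x y then max (f x - f y) 0 else 0) =
          (if Gr.Adj x y then max (f' x - f' y) 0 else 0) +
            (if (x ∈ A ∧ y ∉ A ∧ Gr.Adj x y) then m else 0) := by
        intro x y
        by_cases hadj : Gr.Adj x y
        · by_cases hx : x ∈ A
          · by_cases hy : y ∈ A
            · simp only [hadj, hx, hy, hf', if_true, not_true_eq_false, false_and, and_false,
                if_false, add_zero]
              congr 1
              ring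
            · simp only [hadj, hx, hy, hf', if_true, not_false_eq_true, and_true,
                if_false]
              rw [hnA y hy]
              have := hmin x hx
              rw [max_eq_left (by linarith), max_eq_left (by linarith)]
              ring
          · simp only [hadj, hx, if_true, false_and, if_false, add_zero]
            rw [hnA x hx, max_eq_right (by linarith [hf y])]
            have : f' x = 0 := by simp [hf', hx]
            rw [this, max_eq_right (by linarith [hf'0 y])]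
        · simp [hadj]
      have hbd : (∑ x, ∑ y, if (x ∈ A ∧ y ∉ A ∧ Gr.Adj x y) then m else 0) = m * bd Gr A := by
        rw [← Fintype.sum_prod_type' (f := fun x y => if (x ∈ A ∧ y ∉ A ∧ Gr.Adj x y) then m else 0)]
        rw [← sum_filter, sum_const, nsmul_eq_mul, mul_comm]
        rfl
      have hch := h.cheeger A hs
      calc ε * ∑ x, f x = ε * ∑ x, f' x + m * (ε * A.card) := by rw [hsum]; ring
        _ ≤ (∑ x, ∑ y, if Gr.Adj x y then max (f' x - f' y) 0 else 0) + m * bd Gr A := by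
            gcongr
        _ = _ := by
            rw [← hbd, ← sum_add_distrib]
            refine sum_congr rfl (fun x _ => ?_)
            rw [← sum_add_distrib]
            exact sum_congr rfl (fun y _ => (hpt x y).symm)

/-- summing over neighbours, first variable -/
theorem sum_adj_left (Gr : SimpleGraph V) {D : ℕ}
    (hd : ∀ v, (univ.filter (fun u => Gr.Adj v u)).card ≤ D) (g : V → ℝ) (hg : ∀ x, 0 ≤ g x) :
    (∑ x, ∑ y, if Gr.Adj x y then g x else 0) ≤ D * ∑ x, g x := by
  rw [mul_sum]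
  refine sum_le_sum (fun x _ => ?_)
  rw [← sum_filter, sum_const, nsmul_eq_mul]
  exact mul_le_mul_of_nonneg_right (by exact_mod_cast hd x) (hg x)

theorem sum_adj_right (Gr : SimpleGraph V) {D : ℕ}
    (hd : ∀ v, (univ.filter (fun u => Gr.Adj v u)).card ≤ D) (g : V → ℝ) (hg : ∀ x, 0 ≤ g x) :
    (∑ x, ∑ y, if Gr.Adj x y then g y else 0) ≤ D * ∑ x, g x := by
  rw [sum_comm]
  refine le_trans (le_of_eq ?_) (sum_adj_left Gr hd g hg)
  refine sum_congr rfl (fun x _ => sum_congr rfl (fun y _ => ?_))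
  simp only [Gr.adj_comm]

theorem poinc_pos (Gr : SimpleGraph V) {D : ℕ} {ε : ℝ} (hε : 0 < ε) (h : IsExp Gr D ε)
    (f : V → ℝ) (hf : ∀ x, 0 ≤ f x)
    (hs : 2 * (univ.filter (fun x => 0 < f x)).card ≤ Fintype.card V) :
    ε ^ 2 * ∑ x, f x ^ 2 ≤
      4 * (D + 1) * ∑ x, ∑ y, if Gr.Adj x y then (f x - f y) ^ 2 else 0 := by
  have hfil : (univ.filter (fun x => 0 < f x ^ 2)) = (univ.filter (fun x => 0 < f x)) := by
    ext x
    simp only [mem_filter, mem_univ, true_and]
    constructor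
    · intro h1
      exact lt_of_le_of_ne (hf x) (fun h2 => by rw [← h2] at h1; simp at h1)
    · intro h1
      positivity
  have h1 := coarea Gr h _ (fun x => f x ^ 2) (fun x => sq_nonneg _) rfl (by rw [hfil]; exact hs)
  set K : ℝ := D + 1 with hK
  have hK0 : 0 < K := by positivity
  set lam : ℝ := ε / (4 * K) with hlam
  have hlam0 : 0 < lam := by positivity
  have h2 : (∑ x, ∑ y, if Gr.Adj x y then max (f x ^ 2 - f y ^ 2) 0 else 0) ≤
      (1 / (2 * lam)) * (∑ x, ∑ y, if Gr.Adj x y then (f x - f y) ^ 2 else 0) +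
        lam * ((∑ x, ∑ y, if Gr.Adj x y then f x ^ 2 else 0) +
          ∑ x, ∑ y, if Gr.Adj x y then f y ^ 2 else 0) := by
    rw [mul_sum, ← sum_add_distrib, mul_sum, ← sum_add_distrib]
    refine sum_le_sum (fun x _ => ?_)
    rw [mul_sum, ← sum_add_distrib, mul_sum, ← sum_add_distrib]
    refine sum_le_sum (fun y _ => ?_)
    split_ifs with hadj
    · apply max_le
      · have key : f x ^ 2 - f y ^ 2 ≤ (1 / (2 * lam)) * (f x - f y) ^ 2 +
            lam / 2 * (f x + f y) ^ 2 := by
          have e : (1 / (2 * lam)) * (f x - f y) ^ 2 + lam / 2 * (f x + f y) ^ 2 -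
            (f x ^ 2 - f y ^ 2) = 1 / (2 * lam) * ((f x - f y) - lam * (f x + f y)) ^ 2 := by
            field_simp
            ring
          have : 0 ≤ 1 / (2 * lam) * ((f x - f y) - lam * (f x + f y)) ^ 2 := by positivity
          linarith
        have : (f x + f y) ^ 2 ≤ 2 * (f x ^ 2 + f y ^ 2) := by nlinarith [sq_nonneg (f x - f y)]
        nlinarith
      · positivity
    · simp
  have h3 := sum_adj_left Gr h.deg (fun x => f x ^ 2) (fun x => sq_nonneg _)
  have h4 := sum_adj_right Gr h.deg (fun x => f x ^ 2) (fun x => sq_nonneg _)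
  set S := ∑ x, f x ^ 2 with hS
  have hS0 : 0 ≤ S := sum_nonneg (fun x _ => sq_nonneg _)
  set E := ∑ x, ∑ y, if Gr.Adj x y then (f x - f y) ^ 2 else 0 with hE
  have h5 : ε * S ≤ 1 / (2 * lam) * E + lam * (K * S + K * S) := by
    have h6 : (∑ x, ∑ y, if Gr.Adj x y then f x ^ 2 else 0) +
          (∑ x, ∑ y, if Gr.Adj x y then f y ^ 2 else 0) ≤ K * S + K * S := by
      nlinarith
    nlinarith
  have e1 : lam * (K * S + K * S) = ε / 2 * S := by
    rw [hlam]; field_simp; ring
  have e2 : 1 / (2 * lam) = 2 * K / ε := by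
    rw [hlam]; field_simp; ring
  rw [e1, e2] at h5
  have h7 : ε * (ε / 2 * S) ≤ ε * (2 * K / ε * E) := by
    apply mul_le_mul_of_nonneg_left _ hε.le
    linarith
  have e3 : ε * (2 * K / ε * E) = 2 * K * E := by field_simp
  rw [e3] at h7
  nlinarith

/-- a median -/
theorem exists_median [Nonempty V] (f : V → ℝ) : ∃ m : ℝ,
    2 * (univ.filter (fun x => m < f x)).card ≤ Fintype.card V ∧
    2 * (univ.filter (fun x => f x < m)).card ≤ Fintype.card V ∧ ∃ x, m = f x := by
  set S : Finset V := univ.filter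
    (fun x => 2 * (univ.filter (fun y => f x < f y)).card ≤ Fintype.card V) with hS
  have hne : S.Nonempty := by
    obtain ⟨x, _, hx⟩ := exists_max_image univ f (univ_nonempty (α := V))
    refine ⟨x, ?_⟩
    rw [hS, mem_filter]
    refine ⟨mem_univ _, ?_⟩
    have : (univ.filter (fun y => f x < f y)) = ∅ := by
      rw [filter_eq_empty_iff]
      intro y _
      exact not_lt.mpr (hx y (mem_univ _))
    rw [this]
    simp
  obtain ⟨x0, hx0, hmin⟩ := exists_min_image S f hne
  refine ⟨f x0, ?_, ?_, x0, rfl⟩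
  · rw [hS, mem_filter] at hx0
    exact hx0.2
  · rcases (univ.filter (fun x => f x < f x0)).eq_empty_or_nonempty with he | hne'
    · rw [he]; simp
    · obtain ⟨x1, hx1, hmax⟩ := exists_max_image _ f hne'
      have hx1' : f x1 < f x0 := by simpa using hx1
      have hnS : x1 ∉ S := fun hc => absurd (hmin x1 hc) (not_le.mpr hx1')
      rw [hS, mem_filter] at hnS
      push Not at hnS
      have h1 := hnS (mem_univ _)
      have h2 : Disjoint (univ.filter (fun y => f x1 < f y)) (univ.filter (fun x => f x < f x0)) := by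
        rw [Finset.disjoint_left]
        intro y hy1 hy2
        have := hmax y hy2
        rw [mem_filter] at hy1
        exact absurd hy1.2 (not_lt.mpr this)
      have h3 : (univ.filter (fun y => f x1 < f y)).card +
          (univ.filter (fun x => f x < f x0)).card ≤ Fintype.card V := by
        rw [← card_union_of_disjoint h2]
        exact card_le_univ _
      omega

/-- L2 Poincare inequality, with a median -/
theorem poinc [Nonempty V] (Gr : SimpleGraph V) {D : ℕ} {ε : ℝ} (hε : 0 < ε) (h : IsExp Gr D ε)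
    (f : V → ℝ) : ∃ m : ℝ,
    ε ^ 2 * ∑ x, (f x - m) ^ 2 ≤
      4 * (D + 1) * ∑ x, ∑ y, if Gr.Adj x y then (f x - f y) ^ 2 else 0 := by
  obtain ⟨m, hm1, hm2, _⟩ := exists_median f
  refine ⟨m, ?_⟩
  have h1 := poinc_pos Gr hε h (fun x => max (f x - m) 0) (fun x => le_max_right _ _) (by
    have : (univ.filter (fun x => 0 < max (f x - m) 0)) = (univ.filter (fun x => m < f x)) := by
      ext x
      simp
    rw [this]; exact hm1)
  have h2 := poinc_pos Gr hε h (fun x => max (m - f x) 0) (fun x => le_max_right _ _) (by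
    have : (univ.filter (fun x => 0 < max (m - f x) 0)) = (univ.filter (fun x => f x < m)) := by
      ext x
      simp
    rw [this]; exact hm2)
  have h3 : ∑ x, (f x - m) ^ 2 = ∑ x, (max (f x - m) 0) ^ 2 + ∑ x, (max (m - f x) 0) ^ 2 := by
    rw [← sum_add_distrib]
    refine sum_congr rfl (fun x _ => ?_)
    rcases le_total (f x) m with hx | hx
    · rw [max_eq_right (by linarith), max_eq_left (by linarith)]; ring
    · rw [max_eq_left (by linarith), max_eq_right (by linarith)]; ring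
  have h4 : (∑ x, ∑ y, if Gr.Adj x y then (max (f x - m) 0 - max (f y - m) 0) ^ 2 else 0) +
      (∑ x, ∑ y, if Gr.Adj x y then (max (m - f x) 0 - max (m - f y) 0) ^ 2 else 0) ≤
      ∑ x, ∑ y, if Gr.Adj x y then (f x - f y) ^ 2 else 0 := by
    rw [← sum_add_distrib]
    refine sum_le_sum (fun x _ => ?_)
    rw [← sum_add_distrib]
    refine sum_le_sum (fun y _ => ?_)
    split_ifs
    · rcases le_total (f x) m with hx | hx <;> rcases le_total (f y) m with hy | hy
      · rw [max_eq_right (by linarith : f x - m ≤ 0), max_eq_right (by linarith : f y - m ≤ 0),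
          max_eq_left (by linarith : 0 ≤ m - f x), max_eq_left (by linarith : 0 ≤ m - f y)]
        nlinarith
      · rw [max_eq_right (by linarith : f x - m ≤ 0), max_eq_left (by linarith : 0 ≤ f y - m),
          max_eq_left (by linarith : 0 ≤ m - f x), max_eq_right (by linarith : m - f y ≤ 0)]
        nlinarith
      · rw [max_eq_left (by linarith : 0 ≤ f x - m), max_eq_right (by linarith : f y - m ≤ 0),
          max_eq_right (by linarith : m - f x ≤ 0), max_eq_left (by linarith : 0 ≤ m - f y)]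
        nlinarith
      · rw [max_eq_left (by linarith : 0 ≤ f x - m), max_eq_left (by linarith : 0 ≤ f y - m),
          max_eq_right (by linarith : m - f x ≤ 0), max_eq_right (by linarith : m - f y ≤ 0)]
        nlinarith
    · simp
  rw [h3]
  have hK : (0 : ℝ) < 4 * (D + 1) := by positivity
  nlinarith

/-- The inequality for one character. -/
theorem one_char [Nonempty V] (Gr : SimpleGraph V) {D : ℕ} {ε : ℝ} (hε : 0 < ε)
    (h : IsExp Gr D ε) (u ω : V → ℝ) (hω0 : ∀ x, 0 ≤ ω x) (hω4 : ∀ x, ω x ≤ 4) :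
    (∑ z, ω z) * ∑ x, u x ^ 2 ≤
      (Fintype.card V : ℝ) * ((96 * (D + 1) / ε ^ 2) *
        (∑ x, ∑ y, if Gr.Adj x y then (u x - u y) ^ 2 else 0) + 4 * ∑ x, ω x * u x ^ 2) := by
  obtain ⟨m, hm⟩ := poinc Gr hε h u
  set P := ∑ x, (u x - m) ^ 2 with hP
  set E := ∑ x, ∑ y, if Gr.Adj x y then (u x - u y) ^ 2 else 0 with hE
  set N : ℝ := (Fintype.card V : ℝ) with hN
  have hN0 : 0 ≤ N := Nat.cast_nonneg _
  have hP0 : 0 ≤ P := sum_nonneg (fun x _ => sq_nonneg _)
  have hW0 : 0 ≤ ∑ z, ω z := sum_nonneg (fun x _ => hω0 x)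
  have hW4 : ∑ z, ω z ≤ 4 * N := by
    calc ∑ z, ω z ≤ ∑ _z : V, (4 : ℝ) := sum_le_sum (fun x _ => hω4 x)
      _ = 4 * N := by rw [sum_const, nsmul_eq_mul, card_univ, hN]; ring
  have h1 : ∑ x, u x ^ 2 ≤ 2 * P + 2 * N * m ^ 2 := by
    calc ∑ x, u x ^ 2 ≤ ∑ x, (2 * (u x - m) ^ 2 + 2 * m ^ 2) :=
          sum_le_sum (fun x _ => by nlinarith [sq_nonneg (u x - 2 * m)])
      _ = 2 * P + 2 * N * m ^ 2 := by
          rw [sum_add_distrib, ← mul_sum, sum_const, nsmul_eq_mul, card_univ, hN, hP]; ring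
  have h2 : (∑ z, ω z) * m ^ 2 ≤ 2 * ∑ x, ω x * u x ^ 2 + 8 * P := by
    calc (∑ z, ω z) * m ^ 2 = ∑ z, ω z * m ^ 2 := by rw [sum_mul]
      _ ≤ ∑ x, (2 * (ω x * u x ^ 2) + 8 * (u x - m) ^ 2) := by
          refine sum_le_sum (fun x _ => ?_)
          have ha : m ^ 2 ≤ 2 * u x ^ 2 + 2 * (u x - m) ^ 2 := by nlinarith [sq_nonneg (2 * u x - m)]
          have hb : ω x * m ^ 2 ≤ ω x * (2 * u x ^ 2 + 2 * (u x - m) ^ 2) :=
            mul_le_mul_of_nonneg_left ha (hω0 x)
          have hc : ω x * (2 * (u x - m) ^ 2) ≤ 4 * (2 * (u x - m) ^ 2) :=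
            mul_le_mul_of_nonneg_right (hω4 x) (by positivity)
          linarith
      _ = _ := by rw [sum_add_distrib, ← mul_sum, ← mul_sum]
  have h3 : (∑ z, ω z) * ∑ x, u x ^ 2 ≤ N * (24 * P + 4 * ∑ x, ω x * u x ^ 2) := by
    calc (∑ z, ω z) * ∑ x, u x ^ 2 ≤ (∑ z, ω z) * (2 * P + 2 * N * m ^ 2) :=
          mul_le_mul_of_nonneg_left h1 hW0
      _ = (∑ z, ω z) * (2 * P) + 2 * N * ((∑ z, ω z) * m ^ 2) := by ring
      _ ≤ (4 * N) * (2 * P) + 2 * N * (2 * ∑ x, ω x * u x ^ 2 + 8 * P) := by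
          apply add_le_add
          · exact mul_le_mul_of_nonneg_right hW4 (by positivity)
          · exact mul_le_mul_of_nonneg_left h2 (by positivity)
      _ = _ := by ring
  refine h3.trans (mul_le_mul_of_nonneg_left ?_ hN0)
  have h4 : 24 * P ≤ 96 * (D + 1) / ε ^ 2 * E := by
    rw [div_mul_eq_mul_div, le_div_iff₀ (by positivity)]
    nlinarith
  linarith

end poincare

/-! ### Characters of the cube -/

section cube

/-- the sign character of `ZMod 2` -/
noncomputable def sg (a : ZMod 2) : ℝ := if a = 0 then 1 else -1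

theorem sg_zero : sg 0 = 1 := by simp [sg]

theorem zmod2 (a : ZMod 2) : a = 0 ∨ a = 1 := by
  revert a; decide

theorem sg_add (a b : ZMod 2) : sg (a + b) = sg a * sg b := by
  rcases zmod2 a with rfl | rfl <;> rcases zmod2 b with rfl | rfl
  · simp [sg]
  · simp [sg]
  · simp [sg]
  · have : (1 : ZMod 2) + 1 = 0 := by decide
    rw [this]; simp [sg]

theorem sg_sq (a : ZMod 2) : sg a * sg a = 1 := by
  rw [← sg_add]
  have : a + a = 0 := by revert a; decide
  rw [this, sg_zero]

variable {ι : Type} [Fintype ι]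

/-- the characters -/
noncomputable def ch (ξ b : ι → ZMod 2) : ℝ := sg (∑ i, ξ i * b i)

theorem ch_add (ξ b c : ι → ZMod 2) : ch ξ (b + c) = ch ξ b * ch ξ c := by
  unfold ch
  rw [← sg_add, ← sum_add_distrib]
  simp only [Pi.add_apply, mul_add]

theorem ch_add_left (ξ ξ' b : ι → ZMod 2) : ch (ξ + ξ') b = ch ξ b * ch ξ' b := by
  unfold ch
  rw [← sg_add, ← sum_add_distrib]
  simp only [Pi.add_apply, add_mul]

theorem ch_sq (ξ b : ι → ZMod 2) : ch ξ b * ch ξ b = 1 := sg_sq _

omit [Fintype ι] in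
theorem add_self' (b : ι → ZMod 2) : b + b = 0 := by
  funext i
  have : ∀ a : ZMod 2, a + a = 0 := by decide
  exact this _

theorem sum_ch (b : ι → ZMod 2) :
    ∑ ξ : ι → ZMod 2, ch ξ b = if b = 0 then (Fintype.card (ι → ZMod 2) : ℝ) else 0 := by
  split_ifs with hb
  · subst hb
    simp [ch, sg]
  · obtain ⟨i, hi⟩ : ∃ i, b i ≠ 0 := by
      by_contra hc
      push Not at hc
      exact hb (funext hc)
    have hi1 : b i = 1 := (zmod2 (b i)).resolve_left hi
    have h1 : ∑ ξ : ι → ZMod 2, ch ξ b = ∑ ξ : ι → ZMod 2, ch (ξ + Pi.single i 1) b :=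
      (Fintype.sum_equiv (Equiv.addRight (Pi.single i 1)) _ _ (fun ξ => rfl)).symm
    have h2 : ch (Pi.single i 1) b = -1 := by
      unfold ch
      have : (∑ j, (Pi.single i 1 : ι → ZMod 2) j * b j) = 1 := by
        rw [Finset.sum_eq_single i]
        · simp [hi1]
        · intro j _ hj
          simp [hj]
        · simp
      rw [this]
      simp [sg]
    have h3 : ∑ ξ : ι → ZMod 2, ch ξ b = - ∑ ξ : ι → ZMod 2, ch ξ b := by
      conv_lhs => rw [h1]
      rw [← sum_neg_distrib]
      refine sum_congr rfl (fun ξ _ => ?_)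
      rw [ch_add_left, h2]; ring
    linarith

variable {H : Type} [NormedAddCommGroup H] [InnerProductSpace ℝ H]

/-- Fourier transform on the cube -/
noncomputable def ft (F : (ι → ZMod 2) → H) (ξ : ι → ZMod 2) : H := ∑ b, ch ξ b • F b

theorem parseval (F : (ι → ZMod 2) → H) :
    ∑ ξ, ‖ft F ξ‖ ^ 2 = (Fintype.card (ι → ZMod 2) : ℝ) * ∑ b, ‖F b‖ ^ 2 := by
  have h1 : ∀ ξ, ‖ft F ξ‖ ^ 2 = ∑ b, ∑ c, ch ξ (b + c) * inner ℝ (F b) (F c) := by
    intro ξ
    rw [← real_inner_self_eq_norm_sq, ft, sum_inner]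
    refine sum_congr rfl (fun b _ => ?_)
    rw [inner_sum]
    refine sum_congr rfl (fun c _ => ?_)
    rw [inner_smul_left, inner_smul_right, ch_add]
    simp
    ring
  rw [sum_congr rfl (fun ξ _ => h1 ξ), sum_comm, mul_sum]
  refine sum_congr rfl (fun b _ => ?_)
  rw [sum_comm]
  have h2 : ∀ c : ι → ZMod 2, ∑ ξ, ch ξ (b + c) * inner ℝ (F b) (F c) =
      (if c = b then (Fintype.card (ι → ZMod 2) : ℝ) * ‖F b‖ ^ 2 else 0) := by
    intro c
    rw [← sum_mul, sum_ch]
    by_cases hc : c = b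
    · subst hc
      rw [if_pos (add_self' c), if_pos rfl, real_inner_self_eq_norm_sq]
    · rw [if_neg, if_neg hc, zero_mul]
      intro h0
      apply hc
      have := congrArg (fun t => b + t) h0
      simp only [add_zero] at this
      rw [← add_assoc, add_self', zero_add] at this
      exact this
  rw [sum_congr rfl (fun c _ => h2 c)]
  simp

theorem ft_shift (F : (ι → ZMod 2) → H) (c ξ : ι → ZMod 2) :
    ft (fun b => F (b + c)) ξ = ch ξ c • ft F ξ := by
  unfold ft
  rw [smul_sum]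
  have : ∑ b, ch ξ b • F (b + c) = ∑ b, ch ξ (b + c) • F (b + c + c) :=
    (Fintype.sum_equiv (Equiv.addRight c) _ _ (fun b => rfl)).symm
  rw [this]
  refine sum_congr rfl (fun b _ => ?_)
  rw [add_assoc, add_self', add_zero, ch_add, smul_smul, mul_comm]

theorem ft_sub (F F' : (ι → ZMod 2) → H) (ξ : ι → ZMod 2) :
    ft (fun b => F b - F' b) ξ = ft F ξ - ft F' ξ := by
  unfold ft
  rw [← sum_sub_distrib]
  exact sum_congr rfl (fun b _ => smul_sub _ _ _)

end cube

section key

variable {V : Type} [Fintype V] {ι : Type} [Fintype ι]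
variable {H : Type} [NormedAddCommGroup H] [InnerProductSpace ℝ H]

/-- The key inequality. -/
theorem key [Nonempty V] (Gr : SimpleGraph V) {D : ℕ} {ε : ℝ} (hε : 0 < ε) (h : IsExp Gr D ε)
    (f : V → (ι → ZMod 2) → H) (E : V → V → (ι → ZMod 2)) (L : V → (ι → ZMod 2)) :
    ∑ z, ∑ x, ∑ b, ‖f x b - f x (b + L z)‖ ^ 2 ≤
      (Fintype.card V : ℝ) * ((96 * (D + 1) / ε ^ 2) *
        (∑ x, ∑ y, if Gr.Adj x y then ∑ b, ‖f x b - f y (b + E x y)‖ ^ 2 else 0) +
        4 * ∑ x, ∑ b, ‖f x b - f x (b + L x)‖ ^ 2) := by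
  set Q : ℝ := (Fintype.card (ι → ZMod 2) : ℝ) with hQ
  have hQ0 : 0 < Q := by
    rw [hQ]; exact_mod_cast Fintype.card_pos
  -- lamps
  have hL : ∀ x z, Q * ∑ b, ‖f x b - f x (b + L z)‖ ^ 2 =
      ∑ ξ, (1 - ch ξ (L z)) ^ 2 * ‖ft (f x) ξ‖ ^ 2 := by
    intro x z
    rw [hQ, ← parseval (fun b => f x b - f x (b + L z))]
    refine sum_congr rfl (fun ξ _ => ?_)
    rw [ft_sub (f x) (fun b => f x (b + L z)), ft_shift]
    have : ft (f x) ξ - ch ξ (L z) • ft (f x) ξ = (1 - ch ξ (L z)) • ft (f x) ξ := by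
      rw [sub_smul, one_smul]
    rw [this, norm_smul, mul_pow, Real.norm_eq_abs, sq_abs]
  have hE : ∀ x y, ∑ ξ, (‖ft (f x) ξ‖ - ‖ft (f y) ξ‖) ^ 2 ≤
      Q * ∑ b, ‖f x b - f y (b + E x y)‖ ^ 2 := by
    intro x y
    rw [hQ, ← parseval (fun b => f x b - f y (b + E x y))]
    refine sum_le_sum (fun ξ _ => ?_)
    rw [ft_sub (f x) (fun b => f y (b + E x y)), ft_shift]
    have h1 : ‖ch ξ (E x y) • ft (f y) ξ‖ = ‖ft (f y) ξ‖ := by
      rw [norm_smul]
      have : ‖ch ξ (E x y)‖ = 1 := by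
        unfold ch sg
        split_ifs <;> simp
      rw [this, one_mul]
    have h2 := abs_norm_sub_norm_le (ft (f x) ξ) (ch ξ (E x y) • ft (f y) ξ)
    rw [h1] at h2
    exact sq_le_sq' (by linarith [neg_abs_le (‖ft (f x) ξ‖ - ‖ft (f y) ξ‖)])
      ((le_abs_self _).trans h2)
  have hmain : Q * ∑ z, ∑ x, ∑ b, ‖f x b - f x (b + L z)‖ ^ 2 ≤
      Q * ((Fintype.card V : ℝ) * ((96 * (D + 1) / ε ^ 2) *
        (∑ x, ∑ y, if Gr.Adj x y then ∑ b, ‖f x b - f y (b + E x y)‖ ^ 2 else 0) +
        4 * ∑ x, ∑ b, ‖f x b - f x (b + L x)‖ ^ 2)) := by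
    have e1 : Q * ∑ z, ∑ x, ∑ b, ‖f x b - f x (b + L z)‖ ^ 2 =
        ∑ ξ, (∑ z, (1 - ch ξ (L z)) ^ 2) * ∑ x, ‖ft (f x) ξ‖ ^ 2 := by
      have h1 : ∀ z, Q * ∑ x, ∑ b, ‖f x b - f x (b + L z)‖ ^ 2 =
          ∑ ξ, (1 - ch ξ (L z)) ^ 2 * ∑ x, ‖ft (f x) ξ‖ ^ 2 := by
        intro z
        rw [mul_sum, sum_congr rfl (fun x _ => hL x z), sum_comm]
        exact sum_congr rfl (fun ξ _ => (mul_sum _ _ _).symm)
      rw [mul_sum, sum_congr rfl (fun z _ => h1 z), sum_comm]
      exact sum_congr rfl (fun ξ _ => (sum_mul _ _ _).symm)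
    have e2 : Q * ∑ x, ∑ b, ‖f x b - f x (b + L x)‖ ^ 2 =
        ∑ ξ, ∑ x, (1 - ch ξ (L x)) ^ 2 * ‖ft (f x) ξ‖ ^ 2 := by
      rw [mul_sum, sum_congr rfl (fun x _ => hL x x), sum_comm]
    have e3 : ∑ ξ, (∑ x, ∑ y, if Gr.Adj x y then (‖ft (f x) ξ‖ - ‖ft (f y) ξ‖) ^ 2 else 0) ≤
        Q * (∑ x, ∑ y, if Gr.Adj x y then ∑ b, ‖f x b - f y (b + E x y)‖ ^ 2 else 0) := by
      rw [sum_comm, mul_sum]
      refine sum_le_sum (fun x _ => ?_)
      rw [sum_comm, mul_sum]
      refine sum_le_sum (fun y _ => ?_)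
      split_ifs
      · exact hE x y
      · simp
    have hch4 : ∀ ξ z, (1 - ch ξ (L z)) ^ 2 ≤ 4 := by
      intro ξ z
      have := ch_sq ξ (L z)
      nlinarith [sq_nonneg (1 + ch ξ (L z))]
    have e4 : ∀ ξ, (∑ z, (1 - ch ξ (L z)) ^ 2) * ∑ x, ‖ft (f x) ξ‖ ^ 2 ≤
        (Fintype.card V : ℝ) * ((96 * (D + 1) / ε ^ 2) *
        (∑ x, ∑ y, if Gr.Adj x y then (‖ft (f x) ξ‖ - ‖ft (f y) ξ‖) ^ 2 else 0) +
        4 * ∑ x, (1 - ch ξ (L x)) ^ 2 * ‖ft (f x) ξ‖ ^ 2) := fun ξ =>
      one_char Gr hε h (fun x => ‖ft (f x) ξ‖) (fun z => (1 - ch ξ (L z)) ^ 2)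
        (fun _ => sq_nonneg _) (hch4 ξ)
    rw [e1]
    refine (sum_le_sum (fun ξ _ => e4 ξ)).trans ?_
    rw [← mul_sum, sum_add_distrib, ← mul_sum, ← mul_sum]
    have hc0 : 0 ≤ 96 * ((D : ℝ) + 1) / ε ^ 2 := by positivity
    have hN0 : (0 : ℝ) ≤ (Fintype.card V : ℝ) := Nat.cast_nonneg _
    calc _ ≤ (Fintype.card V : ℝ) * (96 * (D + 1) / ε ^ 2 * (Q * (∑ x, ∑ y,
            if Gr.Adj x y then ∑ b, ‖f x b - f y (b + E x y)‖ ^ 2 else 0)) +
            4 * (Q * ∑ x, ∑ b, ‖f x b - f x (b + L x)‖ ^ 2)) := by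
          rw [e2]
          gcongr
      _ = _ := by ring
  exact le_of_mul_le_mul_left hmain hQ0

end key

end Pool.Agent.Helper784WE.B2
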