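import Mathlib
import Pool.Agent.Helper784WE.Basic
import Pool.Agent.Helper784WE.Spec
import Pool.Agent.Helper784WE.B2a

/-!
Module B2: if the quotient `F/N` contains expanders with small fibres and a free generator lies in
`N`, then `F/sq N` has no coarse embedding into a Hilbert space.
-/

set_option autoImplicit false

open Finset
open scoped Classical

namespace Pool.Agent.Helper784WE.B2

/-- A cube maps onto the elementary abelian group generated by a finite family. -/
theorem exists_cube (A : Type) [Group A] (h2 : ∀ x : A, x * x = 1) {ι : Type} [Fintype ι]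
    (gen : ι → A) : ∃ Λ : (ι → ZMod 2) → A, (∀ b c, Λ (b + c) = Λ b * Λ c) ∧
      ∀ (i : ι) (b : ι → ZMod 2), b i = 1 → (∀ j, j ≠ i → b j = 0) → Λ b = gen i := by
  have hcomm : ∀ x y : A, x * y = y * x := by
    intro x y
    have h1 := h2 (x * y)
    have hx : x⁻¹ = x := inv_eq_of_mul_eq_one_left (h2 x)
    have hy : y⁻¹ = y := inv_eq_of_mul_eq_one_left (h2 y)
    have : (x * y)⁻¹ = x * y := inv_eq_of_mul_eq_one_left h1
    rw [← this, mul_inv_rev, hx, hy]
  let _ : CommGroup A := { (inferInstance : Group A) with mul_comm := hcomm }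
  let _ : Module (ZMod 2) (Additive A) := AddCommGroup.zmodModule (n := 2) (by
    intro x
    rw [two_nsmul]
    exact h2 x.toMul)
  let S : (ι → ZMod 2) → Additive A := fun b => ∑ i, b i • Additive.ofMul (gen i)
  refine ⟨fun b => (S b).toMul, ?_, ?_⟩
  · intro b c
    have : S (b + c) = S b + S c := by
      simp only [S]
      rw [← sum_add_distrib]
      refine sum_congr rfl (fun i _ => ?_)
      rw [Pi.add_apply, add_smul]
    show (S (b + c)).toMul = (S b).toMul * (S c).toMul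
    rw [this]
    rfl
  · intro i b hi hj
    have : S b = Additive.ofMul (gen i) := by
      simp only [S]
      rw [Finset.sum_eq_single i]
      · rw [hi, one_smul]
      · intro j _ hj'
        rw [hj j hj', zero_smul]
      · intro h; exact absurd (mem_univ i) h
    show (S b).toMul = gen i
    rw [this]
    rfl

theorem exists_cube' (A : Type) [Group A] (h2 : ∀ x : A, x * x = 1) {V : Type} [Fintype V]
    (gE : V → V → A) (gL : V → A) : ∃ (ι : Type) (_ : Fintype ι) (E : V → V → (ι → ZMod 2))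
      (L : V → (ι → ZMod 2)) (Λ : (ι → ZMod 2) → A), (∀ b c, Λ (b + c) = Λ b * Λ c) ∧
      (∀ x y, Λ (E x y) = gE x y) ∧ ∀ z, Λ (L z) = gL z := by
  obtain ⟨Λ, hadd, hg⟩ := exists_cube A h2 (ι := (V × V) ⊕ V)
    (Sum.elim (fun p => gE p.1 p.2) gL)
  refine ⟨(V × V) ⊕ V, inferInstance, fun x y => Pi.single (Sum.inl (x, y)) 1,
    fun z => Pi.single (Sum.inr z) 1, Λ, hadd, ?_, ?_⟩
  · intro x y
    rw [hg (Sum.inl (x, y)) _ (Pi.single_eq_same _ _) (fun j hj => Pi.single_eq_of_ne hj _)]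
    rfl
  · intro z
    rw [hg (Sum.inr z) _ (Pi.single_eq_same _ _) (fun j hj => Pi.single_eq_of_ne hj _)]
    rfl

/-- The core statement for an extension with elementary abelian kernel. -/
theorem core (M G : Type) [Group M] [Group G] (π : M →* G) (hπ : Function.Surjective π)
    (hsq : ∀ m, π m = 1 → m * m = 1) (α : M) (hα : π α = 1)
    (hinj : ∀ u v : M, u * α * u⁻¹ = v * α * v⁻¹ → π u = π v)
    (D : ℕ) (ε : ℝ) (T : Finset G) (hε : 0 < ε)
    (hV : ∀ δ : ℝ, 0 < δ → ∃ (V : Type) (_ : Fintype V) (_ : Nonempty V) (Gr : SimpleGraph V)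
      (g : V → G), IsExp Gr D ε ∧
      (∀ u v, Gr.Adj u v → (g u)⁻¹ * g v ∈ T) ∧
      ∀ x, ((univ.filter (fun v => g v = x)).card : ℝ) ≤ δ * Fintype.card V) :
    ¬ CEmb M := by
  rintro ⟨H, _, _, _, F, hlip, hprop⟩
  -- a section
  obtain ⟨σ, hσ⟩ : ∃ σ : G → M, ∀ x, π (σ x) = x := ⟨fun x => (hπ x).choose,
    fun x => (hπ x).choose_spec⟩
  -- the Lipschitz constant
  obtain ⟨C1, hC1⟩ := hlip (insert α (T.image σ))
  set C2 : ℝ := max C1 0 with hC2
  have hC2' : ∀ g, ∀ t ∈ insert α (T.image σ), ‖F g - F (g * t)‖ ≤ C2 := fun g t ht =>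
    (hC1 g t ht).trans (le_max_left _ _)
  have hC20 : 0 ≤ C2 := le_max_right _ _
  -- the total energy
  set K : ℝ := (96 * (D + 1) / ε ^ 2) * (D * C2 ^ 2) + 4 * C2 ^ 2 with hK
  have hK0 : 0 ≤ K := by positivity
  set R : ℝ := Real.sqrt (2 * K + 1) with hR
  have hR2 : R ^ 2 = 2 * K + 1 := Real.sq_sqrt (by linarith)
  have hR0 : 0 ≤ R := Real.sqrt_nonneg _
  obtain ⟨TR, hTR⟩ := hprop R
  -- the finite set of displacements
  have hδ : (0 : ℝ) < 1 / (2 * (TR.card + 1)) := by positivity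
  obtain ⟨V, _, _, Gr, g, hexp, hgT, hfib⟩ := hV _ hδ
  set N : ℝ := (Fintype.card V : ℝ) with hN
  have hN0 : 0 < N := by rw [hN]; exact_mod_cast Fintype.card_pos
  -- the cube
  obtain ⟨ι, _, E, L, Λ, hΛadd, hΛE, hΛL⟩ := exists_cube' π.ker (by
    rintro ⟨x, hx⟩
    exact Subtype.ext (hsq x hx))
    (fun x y : V => (⟨σ (g x) * σ ((g x)⁻¹ * g y) * (σ (g y))⁻¹, by
        rw [MonoidHom.mem_ker, map_mul, map_mul, map_inv, hσ, hσ, hσ]; group⟩ : π.ker))
    (fun z : V => (⟨σ (g z) * α * (σ (g z))⁻¹, by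
        rw [MonoidHom.mem_ker, map_mul, map_mul, map_inv, hσ, hα]; group⟩ : π.ker))
  set f : V → (ι → ZMod 2) → H := fun x b => F ((Λ b : M) * σ (g x)) with hf
  have hfE : ∀ x y b, f y (b + E x y) = F ((Λ b : M) * σ (g x) * σ ((g x)⁻¹ * g y)) := by
    intro x y b
    simp only [hf]
    rw [hΛadd, hΛE]
    congr 1
    simp only [Subgroup.coe_mul]
    group
  have hfL : ∀ x z b, f x (b + L z) =
      F ((Λ b : M) * σ (g x) * (((σ (g x))⁻¹ * σ (g z)) * α * ((σ (g x))⁻¹ * σ (g z))⁻¹)) := by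
    intro x z b
    simp only [hf]
    rw [hΛadd, hΛL]
    congr 1
    simp only [Subgroup.coe_mul]
    group
  have hkey := key Gr hε hexp f E L
  set Q : ℝ := (Fintype.card (ι → ZMod 2) : ℝ) with hQ
  have hQ0 : 0 < Q := by rw [hQ]; exact_mod_cast Fintype.card_pos
  -- energy bounds
  have hEb : (∑ x, ∑ y, if Gr.Adj x y then ∑ b, ‖f x b - f y (b + E x y)‖ ^ 2 else 0) ≤
      D * (N * (Q * C2 ^ 2)) := by
    have h1 : ∀ x y, (if Gr.Adj x y then ∑ b, ‖f x b - f y (b + E x y)‖ ^ 2 else 0) ≤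
        if Gr.Adj x y then Q * C2 ^ 2 else 0 := by
      intro x y
      split_ifs with hadj
      · calc ∑ b, ‖f x b - f y (b + E x y)‖ ^ 2 ≤
            ∑ _b : ι → ZMod 2, C2 ^ 2 := by
              refine sum_le_sum (fun b _ => ?_)
              rw [hfE]
              have := hC2' ((Λ b : M) * σ (g x)) (σ ((g x)⁻¹ * g y))
                (mem_insert_of_mem (mem_image_of_mem _ (hgT x y hadj)))
              exact pow_le_pow_left₀ (norm_nonneg _) this 2
          _ = Q * C2 ^ 2 := by rw [sum_const, nsmul_eq_mul, card_univ]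
      · exact le_rfl
    refine (sum_le_sum (fun x _ => sum_le_sum (fun y _ => h1 x y))).trans ?_
    have h2 := sum_adj_left Gr hexp.deg (fun _ => Q * C2 ^ 2) (fun _ => by positivity)
    refine h2.trans (le_of_eq ?_)
    rw [sum_const, nsmul_eq_mul, card_univ]
  have hLb : ∑ x, ∑ b, ‖f x b - f x (b + L x)‖ ^ 2 ≤ N * (Q * C2 ^ 2) := by
    calc ∑ x, ∑ b, ‖f x b - f x (b + L x)‖ ^ 2 ≤
          ∑ _x : V, ∑ _b : ι → ZMod 2, C2 ^ 2 := by
          refine sum_le_sum (fun x _ => sum_le_sum (fun b _ => ?_))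
          rw [hfL]
          have h1 : (((σ (g x))⁻¹ * σ (g x)) * α * ((σ (g x))⁻¹ * σ (g x))⁻¹) = α := by group
          rw [h1]
          have := hC2' ((Λ b : M) * σ (g x)) α (mem_insert_self _ _)
          exact pow_le_pow_left₀ (norm_nonneg _) this 2
      _ = N * (Q * C2 ^ 2) := by
          rw [sum_const, sum_const, nsmul_eq_mul, nsmul_eq_mul, card_univ, card_univ]
  have htot : ∑ z, ∑ x, ∑ b, ‖f x b - f x (b + L z)‖ ^ 2 ≤ N * N * Q * K := by
    have hc0 : 0 ≤ 96 * ((D : ℝ) + 1) / ε ^ 2 := by positivity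
    have hgen : ∀ X Y : ℝ, X ≤ D * (N * (Q * C2 ^ 2)) → Y ≤ N * (Q * C2 ^ 2) →
        N * (96 * (D + 1) / ε ^ 2 * X + 4 * Y) ≤ N * N * Q * K := by
      intro X Y hX hY
      have h1 : 96 * ((D : ℝ) + 1) / ε ^ 2 * X ≤
          96 * (D + 1) / ε ^ 2 * (D * (N * (Q * C2 ^ 2))) := mul_le_mul_of_nonneg_left hX hc0
      have h2 : N * (96 * (D + 1) / ε ^ 2 * X + 4 * Y) ≤
          N * (96 * (D + 1) / ε ^ 2 * (D * (N * (Q * C2 ^ 2))) + 4 * (N * (Q * C2 ^ 2))) :=
        mul_le_mul_of_nonneg_left (by linarith) hN0.le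
      refine h2.trans (le_of_eq ?_)
      rw [hK]; ring
    exact hkey.trans (hgen _ _ hEb hLb)
  -- displacement: for each x, few z are near
  have hnear : ∀ x : V, ∀ b, (((univ.filter (fun z => ‖f x b - f x (b + L z)‖ ≤ R)).card : ℕ) : ℝ) ≤
      N / 2 := by
    intro x b
    have h1 : (univ.filter (fun z => ‖f x b - f x (b + L z)‖ ≤ R)) ⊆
        (univ.filter (fun z : V =>
          (((σ (g x))⁻¹ * σ (g z)) * α * ((σ (g x))⁻¹ * σ (g z))⁻¹) ∈ TR)) := by
      intro z hz
      simp only [mem_filter, mem_univ, true_and] at hz ⊢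
      rw [hfL] at hz
      have := hTR _ _ hz
      rwa [inv_mul_cancel_left] at this
    have h2 : (univ.filter (fun z : V =>
          (((σ (g x))⁻¹ * σ (g z)) * α * ((σ (g x))⁻¹ * σ (g z))⁻¹) ∈ TR)) ⊆
        TR.biUnion (fun t => univ.filter (fun z : V =>
          (((σ (g x))⁻¹ * σ (g z)) * α * ((σ (g x))⁻¹ * σ (g z))⁻¹) = t)) := by
      intro z hz
      simp only [mem_filter, mem_univ, true_and, mem_biUnion] at hz ⊢
      exact ⟨_, hz, rfl⟩
    have h3 : ∀ t ∈ TR, (((univ.filter (fun z : V =>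
          (((σ (g x))⁻¹ * σ (g z)) * α * ((σ (g x))⁻¹ * σ (g z))⁻¹) = t)).card : ℕ) : ℝ) ≤
          1 / (2 * (TR.card + 1)) * N := by
      intro t _
      rcases (univ.filter (fun z : V =>
          (((σ (g x))⁻¹ * σ (g z)) * α * ((σ (g x))⁻¹ * σ (g z))⁻¹) = t)).eq_empty_or_nonempty
        with he | ⟨z0, hz0⟩
      · rw [he]; simp; positivity
      · refine le_trans ?_ (hfib (g z0))
        have hz0' := (mem_filter.mp hz0).2
        have : (univ.filter (fun z : V =>
          (((σ (g x))⁻¹ * σ (g z)) * α * ((σ (g x))⁻¹ * σ (g z))⁻¹) = t)) ⊆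
            (univ.filter (fun v => g v = g z0)) := by
          intro z hz
          simp only [mem_filter, mem_univ, true_and] at hz ⊢
          have := hinj _ _ (hz.trans hz0'.symm)
          rw [map_mul, map_mul, map_inv, hσ, hσ, hσ] at this
          exact mul_left_cancel this
        exact_mod_cast card_le_card this
    have h4 : (((univ.filter (fun z => ‖f x b - f x (b + L z)‖ ≤ R)).card : ℕ) : ℝ) ≤
        TR.card * (1 / (2 * (TR.card + 1)) * N) := by
      calc (((univ.filter (fun z => ‖f x b - f x (b + L z)‖ ≤ R)).card : ℕ) : ℝ) ≤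
          ((TR.biUnion (fun t => univ.filter (fun z : V =>
          (((σ (g x))⁻¹ * σ (g z)) * α * ((σ (g x))⁻¹ * σ (g z))⁻¹) = t))).card : ℝ) := by
            exact_mod_cast card_le_card (h1.trans h2)
        _ ≤ ∑ t ∈ TR, (((univ.filter (fun z : V =>
          (((σ (g x))⁻¹ * σ (g z)) * α * ((σ (g x))⁻¹ * σ (g z))⁻¹) = t)).card : ℕ) : ℝ) := by
            exact_mod_cast card_biUnion_le
        _ ≤ ∑ t ∈ TR, 1 / (2 * ((TR.card : ℝ) + 1)) * N := sum_le_sum h3
        _ = _ := by rw [sum_const, nsmul_eq_mul]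
    refine h4.trans ?_
    have h5 : (TR.card : ℝ) * (1 / (2 * (TR.card + 1)) * N) = N / 2 * (TR.card / (TR.card + 1)) := by
      field_simp
    rw [h5]
    have h6 : (TR.card : ℝ) / (TR.card + 1) ≤ 1 := by
      rw [div_le_one (by positivity)]
      linarith
    calc N / 2 * ((TR.card : ℝ) / (TR.card + 1)) ≤ N / 2 * 1 := by gcongr
      _ = N / 2 := by ring
  -- lower bound for the sum
  have hlow : N * N * Q * (R ^ 2 / 2) ≤ ∑ z, ∑ x, ∑ b, ‖f x b - f x (b + L z)‖ ^ 2 := by
    rw [sum_comm]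
    have h1 : ∀ x, ∑ z, ∑ b, ‖f x b - f x (b + L z)‖ ^ 2 =
        ∑ b, ∑ z, ‖f x b - f x (b + L z)‖ ^ 2 := fun x => sum_comm
    rw [sum_congr rfl (fun x _ => h1 x)]
    have h2 : ∀ x b, N * (R ^ 2 / 2) ≤ ∑ z, ‖f x b - f x (b + L z)‖ ^ 2 := by
      intro x b
      have h3 : ∀ z, (if ‖f x b - f x (b + L z)‖ ≤ R then 0 else R ^ 2) ≤
          ‖f x b - f x (b + L z)‖ ^ 2 := by
        intro z
        split_ifs with hz
        · positivity
        · push Not at hz
          exact pow_le_pow_left₀ hR0 hz.le 2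
      refine le_trans ?_ (sum_le_sum (fun z _ => h3 z))
      have h4 : ∑ z : V, (if ‖f x b - f x (b + L z)‖ ≤ R then (0 : ℝ) else R ^ 2) =
          (N - (univ.filter (fun z => ‖f x b - f x (b + L z)‖ ≤ R)).card) * R ^ 2 := by
        have h5 : ∀ z, (if ‖f x b - f x (b + L z)‖ ≤ R then (0 : ℝ) else R ^ 2) =
            R ^ 2 - (if ‖f x b - f x (b + L z)‖ ≤ R then R ^ 2 else 0) := by
          intro z; split_ifs <;> ring
        rw [sum_congr rfl (fun z _ => h5 z), sum_sub_distrib, sum_const, ← sum_filter, sum_const,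
          nsmul_eq_mul, nsmul_eq_mul, card_univ]
        ring
      rw [h4]
      have := hnear x b
      nlinarith [sq_nonneg R]
    calc N * N * Q * (R ^ 2 / 2) = ∑ _x : V, ∑ _b : ι → ZMod 2, N * (R ^ 2 / 2) := by
          rw [sum_const, sum_const, nsmul_eq_mul, nsmul_eq_mul, card_univ, card_univ]
          ring
      _ ≤ _ := sum_le_sum (fun x _ => sum_le_sum (fun b _ => h2 x b))
  have hfin := hlow.trans htot
  have hpos : 0 < N * N * Q := by positivity
  have := le_of_mul_le_mul_left hfin hpos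
  rw [hR2] at this
  linarith

/-! ### The lamplighter action -/

section lamp

variable {G : Type} [Group G]

/-- flip over the identity -/
noncomputable def flip1 : Equiv.Perm (G × Bool) where
  toFun p := (p.1, if p.1 = 1 then !p.2 else p.2)
  invFun p := (p.1, if p.1 = 1 then !p.2 else p.2)
  left_inv p := by
    rcases p with ⟨h, e⟩
    by_cases hh : h = 1 <;> simp [hh]
  right_inv p := by
    rcases p with ⟨h, e⟩
    by_cases hh : h = 1 <;> simp [hh]

/-- left translation -/
def lm (k : G) : Equiv.Perm (G × Bool) where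
  toFun p := (k * p.1, p.2)
  invFun p := (k⁻¹ * p.1, p.2)
  left_inv p := by simp
  right_inv p := by simp

theorem flip1_fst (p : G × Bool) : (flip1 p).1 = p.1 := rfl

theorem flip1_ne (p : G × Bool) (h : p.1 = 1) : flip1 p ≠ p := by
  intro h1
  have h2 := congrArg Prod.snd h1
  change (if p.1 = 1 then !p.2 else p.2) = p.2 at h2
  rw [if_pos h] at h2
  cases hp : p.2 <;> rw [hp] at h2 <;> exact absurd h2 (by decide)

theorem flip1_eq (p : G × Bool) (h : p.1 ≠ 1) : flip1 p = p := by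
  apply Prod.ext
  · rfl
  · change (if p.1 = 1 then !p.2 else p.2) = p.2
    rw [if_neg h]

theorem lm_fst (k : G) (p : G × Bool) : (lm k p).1 = k * p.1 := rfl

variable {n : ℕ}

/-- the lamplighter action of the free group -/
noncomputable def act (π : FreeGroup (Fin n) →* G) (a : Fin n) :
    FreeGroup (Fin n) →* Equiv.Perm (G × Bool) :=
  FreeGroup.lift (fun s => if s = a then flip1 else lm (π (FreeGroup.of s)))

theorem act_fst (π : FreeGroup (Fin n) →* G) (a : Fin n) (ha : π (FreeGroup.of a) = 1)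
    (w : FreeGroup (Fin n)) : ∀ p, (act π a w p).1 = π w * p.1 := by
  have hinv : ∀ w : FreeGroup (Fin n), (∀ p, (act π a w p).1 = π w * p.1) →
      ∀ p, (act π a w⁻¹ p).1 = π w⁻¹ * p.1 := by
    intro w hw p
    have h1 := hw (act π a w⁻¹ p)
    have h2 : act π a w (act π a w⁻¹ p) = p := by
      rw [← Equiv.Perm.mul_apply, ← map_mul, mul_inv_cancel, map_one]; rfl
    rw [h2] at h1
    rw [map_inv π, h1, inv_mul_cancel_left]
  induction w using FreeGroup.induction_on with
  | C1 => intro p; simp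
  | of s =>
    intro p
    unfold act
    rw [FreeGroup.lift_apply_of]
    split_ifs with hs
    · rw [hs, ha, one_mul, flip1_fst]
    · rw [lm_fst]
  | inv_of s hs => exact hinv _ hs
  | mul x y hx hy =>
    intro p
    rw [map_mul, Equiv.Perm.mul_apply, hx, hy, map_mul, mul_assoc]

theorem act_sq (π : FreeGroup (Fin n) →* G) (a : Fin n) (ha : π (FreeGroup.of a) = 1)
    (w : FreeGroup (Fin n)) (hw : π w = 1) : act π a (w ^ 2) = 1 := by
  have hfst := act_fst π a ha w
  apply Equiv.ext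
  rintro ⟨h, e⟩
  rw [pow_two, map_mul, Equiv.Perm.mul_apply, Equiv.Perm.one_apply]
  set A := act π a w with hA
  have h1 : (A (h, e)).1 = h := by rw [hfst, hw, one_mul]
  have h2 : (A (h, !e)).1 = h := by rw [hfst, hw, one_mul]
  by_cases he : (A (h, e)).2 = e
  · have : A (h, e) = (h, e) := Prod.ext h1 he
    rw [this, this]
  · have he' : (A (h, e)).2 = !e := by
      cases h3 : (A (h, e)).2 <;> cases h4 : e <;> simp_all
    have h5 : A (h, e) = (h, !e) := Prod.ext h1 he'
    rw [h5]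
    have h6 : (A (h, !e)).2 ≠ !e := by
      intro hc
      have h7 : A (h, !e) = A (h, e) := by rw [h5]; exact Prod.ext h2 hc
      have h8 := A.injective h7
      have h9 : (!e) = e := congrArg Prod.snd h8
      cases e <;> exact absurd h9 (by decide)
    have h10 : (A (h, !e)).2 = e := by
      cases h3 : (A (h, !e)).2 <;> cases h4 : e <;> simp_all
    exact Prod.ext h2 h10

end lamp

theorem specB2 : SpecB2 := by
  intro n N _ a ha D ε T hε hV
  set qN : FreeGroup (Fin n) →* FreeGroup (Fin n) ⧸ N := QuotientGroup.mk' N with hqN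
  have hqa : qN (FreeGroup.of a) = 1 := (QuotientGroup.eq_one_iff _).mpr ha
  have hsqN : sq N ≤ N := by
    rw [sq, Subgroup.closure_le]
    rintro x ⟨m, hm, rfl⟩
    exact N.pow_mem hm 2
  set π : FreeGroup (Fin n) ⧸ sq N →* FreeGroup (Fin n) ⧸ N :=
    QuotientGroup.lift (sq N) qN (by
      intro x hx
      exact (QuotientGroup.eq_one_iff _).mpr (hsqN hx)) with hπ
  have hπmk : ∀ x, π (QuotientGroup.mk' (sq N) x) = qN x := fun x => rfl
  set Φ : FreeGroup (Fin n) ⧸ sq N →* Equiv.Perm ((FreeGroup (Fin n) ⧸ N) × Bool) :=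
    QuotientGroup.lift (sq N) (act qN a) (by
      have : sq N ≤ (act qN a).ker := by
        rw [sq, Subgroup.closure_le]
        rintro x ⟨m, hm, rfl⟩
        exact act_sq qN a hqa m ((QuotientGroup.eq_one_iff _).mpr hm)
      intro x hx
      exact this hx) with hΦ
  have hΦmk : ∀ x, Φ (QuotientGroup.mk' (sq N) x) = act qN a x := fun x => rfl
  have hΦfst : ∀ m p, (Φ m p).1 = π m * p.1 := by
    intro m p
    obtain ⟨x, rfl⟩ := QuotientGroup.mk'_surjective (sq N) m
    rw [hΦmk, hπmk]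
    exact act_fst qN a hqa x p
  refine core _ _ π ?_ ?_ (QuotientGroup.mk' (sq N) (FreeGroup.of a)) ?_ ?_ D ε T hε (by
    intro δ hδ
    obtain ⟨V, i1, i2, Gr, g, h1, h2, h3⟩ := hV δ hδ
    refine ⟨V, i1, i2, Gr, g, h1, h2, fun x => ?_⟩
    convert h3 x)
  · intro y
    obtain ⟨x, rfl⟩ := QuotientGroup.mk'_surjective N y
    exact ⟨QuotientGroup.mk' (sq N) x, rfl⟩
  · intro m hm
    obtain ⟨x, rfl⟩ := QuotientGroup.mk'_surjective (sq N) m
    rw [hπmk] at hm
    have hx : x ∈ N := (QuotientGroup.eq_one_iff _).mp hm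
    rw [← map_mul, ← pow_two]
    exact (QuotientGroup.eq_one_iff _).mpr (Subgroup.subset_closure ⟨x, hx, rfl⟩)
  · rw [hπmk]; exact hqa
  · intro u v huv
    have hα : Φ (QuotientGroup.mk' (sq N) (FreeGroup.of a)) = flip1 := by
      rw [hΦmk, act, FreeGroup.lift_apply_of, if_pos rfl]
    have h1 := congrArg Φ huv
    rw [map_mul, map_mul, map_mul, map_mul, hα] at h1
    have h2 := Equiv.congr_fun h1 (π u, true)
    rw [Equiv.Perm.mul_apply, Equiv.Perm.mul_apply, Equiv.Perm.mul_apply,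
      Equiv.Perm.mul_apply] at h2
    by_contra hne
    have h3 : (Φ v⁻¹ (π u, true)).1 ≠ 1 := by
      rw [hΦfst, map_inv]
      intro hc
      exact hne (inv_mul_eq_one.mp hc).symm
    rw [flip1_eq _ h3] at h2
    have h4 : Φ v (Φ v⁻¹ (π u, true)) = (π u, true) := by
      rw [← Equiv.Perm.mul_apply, ← map_mul, mul_inv_cancel, map_one]; rfl
    have h5 : Φ u (Φ u⁻¹ (π u, true)) = (π u, true) := by
      rw [← Equiv.Perm.mul_apply, ← map_mul, mul_inv_cancel, map_one]; rfl
    have h6 : (Φ u⁻¹ (π u, true)).1 = 1 := by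
      rw [hΦfst, map_inv]
      exact inv_mul_cancel _
    rw [h4, ← h5] at h2
    have h7 := (Φ u).injective h2
    rw [h5] at h7
    exact flip1_ne _ h6 h7

end Pool.Agent.Helper784WE.B2
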