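import Mathlib
import Pool.Agent.Helper784WE.Spec
import Pool.Agent.Helper270.FP

/-!
Good subgroups of HNN extensions: if `H` is a subgroup of the base which meets the associated
subgroups in corresponding subgroups, then the subgroup generated by `H` and the stable letter
meets the base in `H`.
-/

set_option autoImplicit false

namespace Pool.Agent.Helper784WE.C

open HNNExtension HNNExtension.NormalWord

section Good

variable {K : Type} [Group K] {A B : Subgroup K} {φ : A ≃* B}

/-- Elements with a reduced expression with all group letters in `H`. -/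
def RedIn (φ : A ≃* B) (H : Subgroup K) (x : HNNExtension K A B φ) : Prop :=
  ∃ w : ReducedWord K A B, w.prod φ = x ∧ w.head ∈ H ∧ ∀ p ∈ w.toList, p.2 ∈ H

theorem RedIn.of_mul {H : Subgroup K} {x : HNNExtension K A B φ} (h : RedIn φ H x) {k : K}
    (hk : k ∈ H) : RedIn φ H (of k * x) := by
  obtain ⟨w, rfl, h1, h2⟩ := h
  refine ⟨⟨k * w.head, w.toList, w.chain⟩, ?_, H.mul_mem hk h1, h2⟩
  simp [ReducedWord.prod, mul_assoc]

theorem good_unit {H : Subgroup K} (hH : ∀ a : A, (a : K) ∈ H ↔ ((φ a : B) : K) ∈ H) (u : ℤˣ)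
    (a : toSubgroup A B u) (ha : (a : K) ∈ H) :
    ((toSubgroupEquiv φ u a : toSubgroup A B (-u)) : K) ∈ H := by
  rcases Int.units_eq_one_or u with rfl | rfl
  · exact (hH a).mp ha
  · refine (hH (φ.symm a)).mpr ?_
    have h1 : φ (φ.symm a) = a := φ.apply_symm_apply a
    rw [h1]
    exact ha

theorem RedIn.t_mul {H : Subgroup K} (hH : ∀ a : A, (a : K) ∈ H ↔ ((φ a : B) : K) ∈ H)
    {x : HNNExtension K A B φ} (h : RedIn φ H x) (u : ℤˣ) : RedIn φ H (t ^ (u : ℤ) * x) := by
  obtain ⟨⟨g, l, hl⟩, rfl, h1, h2⟩ := h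
  by_cases hc : ∃ (u' : ℤˣ) (g' : K) (l' : List (ℤˣ × K)), l = (u', g') :: l' ∧ u' = -u ∧
      g ∈ toSubgroup A B u
  · obtain ⟨u', g', l', rfl, rfl, hg⟩ := hc
    refine ⟨⟨(toSubgroupEquiv φ u ⟨g, hg⟩ : toSubgroup A B (-u)) * g', l', (List.isChain_cons.mp hl).2⟩,
      ?_, H.mul_mem (good_unit hH u ⟨g, hg⟩ h1) (h2 _ (List.mem_cons_self ..)),
      fun p hp => h2 p (List.mem_cons_of_mem _ hp)⟩
    have key : (t : HNNExtension K A B φ) ^ (u : ℤ) * of g * t ^ ((-u : ℤˣ) : ℤ) =
        of ((toSubgroupEquiv φ u ⟨g, hg⟩ : toSubgroup A B (-u)) : K) := by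
      rcases Int.units_eq_one_or u with rfl | rfl
      · have := equiv_eq_conj (φ := φ) ⟨g, hg⟩
        simp only [Units.val_one, zpow_one, Units.val_neg, zpow_neg]
        exact this.symm
      · have := equiv_symm_eq_conj (φ := φ) ⟨g, hg⟩
        simp only [Units.val_one, zpow_one, Units.val_neg, zpow_neg, neg_neg]
        exact this.symm
    simp only [ReducedWord.prod, List.map_cons, List.prod_cons, map_mul]
    rw [← key]
    group
  · push Not at hc
    refine ⟨⟨1, (u, g) :: l, ?_⟩, ?_, H.one_mem, ?_⟩
    · rw [List.isChain_cons]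
      refine ⟨?_, hl⟩
      rintro ⟨u', g'⟩ hy hg
      cases l with
      | nil => simp at hy
      | cons p l' =>
        simp only [List.head?_cons, Option.mem_def, Option.some.injEq] at hy
        subst hy
        by_contra hne
        refine hc u' g' l' rfl ?_ hg
        rcases Int.units_eq_one_or u with rfl | rfl <;>
          rcases Int.units_eq_one_or u' with rfl | rfl <;> simp_all
    · simp [ReducedWord.prod, mul_assoc]
    · intro p hp
      rcases List.mem_cons.mp hp with rfl | hp
      · exact h1
      · exact h2 p hp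

theorem redIn_closure {H : Subgroup K} (hH : ∀ a : A, (a : K) ∈ H ↔ ((φ a : B) : K) ∈ H)
    {x : HNNExtension K A B φ}
    (hx : x ∈ Subgroup.closure ((H.map (of (φ := φ)) : Set (HNNExtension K A B φ)) ∪ {t})) :
    RedIn φ H x := by
  induction hx using Subgroup.closure_induction_left with
  | one => exact ⟨ReducedWord.empty K A B, by simp [ReducedWord.prod, ReducedWord.empty],
      H.one_mem, by simp [ReducedWord.empty]⟩
  | mul_left x hx y _ ih =>
    rcases hx with ⟨k, hk, rfl⟩ | hx
    · exact ih.of_mul hk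
    · rw [Set.mem_singleton_iff] at hx
      subst hx
      simpa using ih.t_mul hH 1
  | inv_mul_cancel x hx y _ ih =>
    rcases hx with ⟨k, hk, rfl⟩ | hx
    · rw [← map_inv]
      exact ih.of_mul (H.inv_mem hk)
    · rw [Set.mem_singleton_iff] at hx
      subst hx
      simpa using ih.t_mul hH (-1)

/-- The subgroup generated by a good subgroup and the stable letter. -/
theorem good {H : Subgroup K} (hH : ∀ a : A, (a : K) ∈ H ↔ ((φ a : B) : K) ∈ H) :
    (Subgroup.closure ((H.map (of (φ := φ)) : Set (HNNExtension K A B φ)) ∪ {t})).comap of = H := by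
  apply le_antisymm
  · intro k hk
    obtain ⟨w, h1, h2, _⟩ := redIn_closure hH hk
    have h3 := ReducedWord.toList_eq_nil_of_mem_of_range φ w ⟨k, h1.symm⟩
    have h4 : (of k : HNNExtension K A B φ) = of w.head := by
      rw [← h1, ReducedWord.prod, h3]
      simp
    rw [of_injective φ h4]
    exact h2
  · intro k hk
    exact Subgroup.subset_closure (Or.inl ⟨k, hk, rfl⟩)

end Good

section InjHNN

variable {F K : Type} [Group F] [Group K] {N : Subgroup F} {L : Subgroup K}

/-- The homomorphism of HNN extensions with trivial action. -/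
def mapHNN (i : F →* K) (h : L.comap i = N) :
    HNNExtension F N N (MulEquiv.refl N) →* HNNExtension K L L (MulEquiv.refl L) :=
  lift (of.comp i) t (by
    intro a
    have ha : i a ∈ L := by
      have : (a : F) ∈ L.comap i := by rw [h]; exact a.2
      exact this
    exact t_mul_of (φ := MulEquiv.refl L) ⟨i a, ha⟩)

theorem mapHNN_of (i : F →* K) (h : L.comap i = N) (f : F) : mapHNN i h (of f) = of (i f) :=
  lift_of _ _ _ f

theorem mapHNN_t (i : F →* K) (h : L.comap i = N) : mapHNN i h t = t :=
  lift_t _ _ _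

theorem mapHNN_injective (i : F →* K) (h : L.comap i = N) (hi : Function.Injective i) :
    Function.Injective (mapHNN i h) := by
  rw [injective_iff_map_eq_one]
  intro x hx
  obtain ⟨d⟩ := TransversalPair.nonempty F N N
  obtain ⟨w, rfl⟩ : ∃ w : NormalWord d, w.prod (MulEquiv.refl N) = x :=
    ⟨NormalWord.equiv _ d x, (NormalWord.equiv _ d).symm_apply_apply x⟩
  have hN : ∀ g : F, i g ∈ L ↔ g ∈ N := by
    intro g; rw [← h]; rfl
  have hsub : ∀ (u : ℤˣ) (g : F), i g ∈ toSubgroup L L u ↔ g ∈ toSubgroup N N u := by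
    intro u g
    rcases Int.units_eq_one_or u with rfl | rfl
    · exact hN g
    · exact hN g
  let w' : ReducedWord K L L :=
    { head := i w.head
      toList := w.toList.map (fun p => (p.1, i p.2))
      chain := by
        rw [List.isChain_map]
        refine w.chain.imp ?_
        intro a b hab hb
        exact hab ((hsub _ _).mp hb) }
  have hw' : w'.prod (MulEquiv.refl L) = mapHNN i h (w.prod (MulEquiv.refl N)) := by
    have e : (⇑(mapHNN i h) ∘ fun x : ℤˣ × F => t ^ (x.1 : ℤ) * of x.2) =
        ((fun x : ℤˣ × K => t ^ (x.1 : ℤ) * of x.2) ∘ fun p : ℤˣ × F => (p.1, i p.2)) := by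
      funext p
      simp only [Function.comp_apply, map_mul, map_zpow, mapHNN_of, mapHNN_t]
    simp only [ReducedWord.prod, w', map_mul, map_list_prod, List.map_map, e, mapHNN_of]
  have h1 : w'.toList = [] := by
    apply ReducedWord.toList_eq_nil_of_mem_of_range (MulEquiv.refl L) w'
    rw [hw', hx]
    exact one_mem _
  have h2 : w.toList = [] := by
    simpa [w'] using h1
  have h3 : (of (i w.head) : HNNExtension K L L (MulEquiv.refl L)) = 1 := by
    rw [← hx, ← hw']
    simp [ReducedWord.prod, w', h2]
  have h4 : w.head = 1 := by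
    apply hi
    apply of_injective (MulEquiv.refl L)
    rw [h3, map_one, map_one]
  simp [ReducedWord.prod, h2, h4]

end InjHNN

end Pool.Agent.Helper784WE.C
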