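import Mathlib
import Pool.Agent.Helper784WE.Spec
import Pool.Agent.Helper270.FP
import Pool.Agent.Helper784WE.C1

/-!
Module C: benign subgroups. Intersections, preimages, images, multiple HNN extensions.
-/

set_option autoImplicit false

namespace Pool.Agent.Helper784WE.C

open HNNExtension

theorem fg_of_fp (G : Type) [Group G] [h : Group.IsFinitelyPresented G] : Group.FG G := by
  obtain ⟨n, f, hf, _⟩ := h.out
  exact Group.fg_of_surjective hf

theorem fp_prod' {G H : Type} [Group G] [Group H] (hG : Group.IsFinitelyPresented G)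
    (hH : Group.IsFinitelyPresented H) : Group.IsFinitelyPresented (G × H) := by
  have := fg_of_fp G
  have := fg_of_fp H
  exact Pool.Agent.Helper270.FP.fp_prod

theorem fg_map {G H : Type} [Group G] [Group H] {L : Subgroup G} (hL : L.FG) (f : G →* H) :
    (L.map f).FG := by
  obtain ⟨S, hS⟩ := hL
  classical
  exact ⟨S.image f, by rw [Finset.coe_image, ← MonoidHom.map_closure, hS]⟩

theorem specC1 (hA : SpecA) : SpecC1 := by
  obtain ⟨_, hprod, _, _, _⟩ := hA
  rintro F _ U W ⟨K, _, i, L, hi, hL, hK, hcK, hU⟩ ⟨K', _, i', L', hi', hL', hK', hcK', hW⟩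
  refine ⟨K × K', inferInstance, i.prod i', L.prod L', ?_, hL.prod hL', fp_prod' hK hK',
    hprod _ _ hcK hcK', ?_⟩
  · intro a b h
    exact hi (congrArg Prod.fst h)
  · rw [← hU, ← hW]
    ext x
    simp [Subgroup.mem_prod]

theorem specC2 (hA : SpecA) : SpecC2 := by
  obtain ⟨_, hprod, _, _, _⟩ := hA
  rintro F1 F2 _ _ θ U hF1 hcF1 ⟨K, _, i, L, hi, hL, hK, hcK, hU⟩
  have : Group.FG F1 := fg_of_fp F1
  refine ⟨F1 × K, inferInstance, (MonoidHom.id F1).prod (i.comp θ), (⊤ : Subgroup F1).prod L, ?_,
    (Group.fg_def.mp this).prod hL, fp_prod' hF1 hK, hprod _ _ hcF1 hcK, ?_⟩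
  · intro a b h
    exact congrArg Prod.fst h
  · rw [← hU]
    ext x
    simp [Subgroup.mem_prod]

/-- The isomorphism between the ranges of two injective homomorphisms. -/
noncomputable def rangeEquiv {F G : Type} [Group F] [Group G] (f1 f2 : F →* G)
    (h1 : Function.Injective f1) (h2 : Function.Injective f2) : f1.range ≃* f2.range :=
  (MonoidHom.ofInjective h1).symm.trans (MonoidHom.ofInjective h2)

theorem rangeEquiv_apply {F G : Type} [Group F] [Group G] (f1 f2 : F →* G)
    (h1 : Function.Injective f1) (h2 : Function.Injective f2) (x : F) :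
    rangeEquiv f1 f2 h1 h2 ⟨f1 x, x, rfl⟩ = ⟨f2 x, x, rfl⟩ := by
  have : (⟨f1 x, x, rfl⟩ : f1.range) = MonoidHom.ofInjective h1 x := rfl
  rw [this, rangeEquiv, MulEquiv.trans_apply, MulEquiv.symm_apply_apply]
  rfl

theorem fg_range {F G : Type} [Group F] [Group G] (hF : Group.FG F) (f : F →* G) :
    Group.FG f.range := by
  exact Group.fg_of_surjective f.rangeRestrict_surjective

theorem specC3 (hA : SpecA) : SpecC3 := by
  obtain ⟨_, hprod, _, hhnn, _⟩ := hA
  rintro F1 F2 _ _ θ U hF1 hF2 hcF2 ⟨K, _, i, L, hi, hL, hK, hcK, hU⟩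
  let f1 : F1 →* K × F2 := i.prod θ
  let f2 : F1 →* K × F2 := i.prod 1
  have h1 : Function.Injective f1 := fun a b h => hi (congrArg Prod.fst h)
  have h2 : Function.Injective f2 := fun a b h => hi (congrArg Prod.fst h)
  let φ := rangeEquiv f1 f2 h1 h2
  have hU' : ∀ x, i x ∈ L ↔ x ∈ U := by
    intro x; rw [← hU]; rfl
  let H : Subgroup (K × F2) := L.prod (U.map θ)
  have hgood : ∀ a : f1.range, (a : K × F2) ∈ H ↔ ((φ a : f2.range) : K × F2) ∈ H := by
    rintro ⟨_, x, rfl⟩
    rw [rangeEquiv_apply]
    constructor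
    · rintro ⟨h3, _⟩
      exact ⟨h3, one_mem _⟩
    · rintro ⟨h3, _⟩
      exact ⟨h3, x, (hU' x).mp h3, rfl⟩
  have key := good hgood
  let E := HNNExtension (K × F2) f1.range f2.range φ
  let L' : Subgroup E := Subgroup.closure
    ((H.map (of (φ := φ)) : Set E) ∪ {t})
  have hL' : L' = (L.map ((of (φ := φ)).comp (MonoidHom.inl K F2))) ⊔ Subgroup.closure {t} := by
    apply le_antisymm
    · rw [Subgroup.closure_le, Set.union_subset_iff]
      constructor
      · rintro _ ⟨⟨a, b⟩, ⟨ha, u, hu, hb⟩, rfl⟩
        simp only at ha hb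
        have e1 : ((a, b) : K × F2) = (a, 1) * (i u, 1)⁻¹ * (i u, θ u) := by
          simp [← hb]
        have e2 : (of ((i u, θ u) : K × F2) : E) = t⁻¹ * of ((i u, 1) : K × F2) * t := by
          have := equiv_eq_conj (φ := φ) ⟨f1 u, u, rfl⟩
          rw [rangeEquiv_apply] at this
          change (of ((i u, 1) : K × F2) : E) = t * of ((i u, θ u) : K × F2) * t⁻¹ at this
          rw [this]
          group
        have ht : (t : E) ∈ L.map ((of (φ := φ)).comp (MonoidHom.inl K F2)) ⊔
            Subgroup.closure {t} :=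
          Subgroup.mem_sup_right (Subgroup.subset_closure rfl)
        have hl : ∀ l ∈ L, (of ((l, 1) : K × F2) : E) ∈
            L.map ((of (φ := φ)).comp (MonoidHom.inl K F2)) ⊔ Subgroup.closure {t} :=
          fun l hl => Subgroup.mem_sup_left ⟨l, hl, rfl⟩
        have hu' : (of ((i u, 1) : K × F2) : E) ∈
            L.map ((of (φ := φ)).comp (MonoidHom.inl K F2)) ⊔ Subgroup.closure {t} :=
          hl _ ((hU' u).mpr hu)
        rw [e1, map_mul, map_mul, map_inv, e2]
        exact mul_mem (mul_mem (hl a ha) (inv_mem hu')) (mul_mem (mul_mem (inv_mem ht) hu') ht)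
      · rintro x rfl
        exact Subgroup.mem_sup_right (Subgroup.subset_closure rfl)
    · rw [sup_le_iff, Subgroup.closure_le]
      constructor
      · rintro _ ⟨l, hl, rfl⟩
        exact Subgroup.subset_closure (Or.inl ⟨(l, 1), ⟨hl, one_mem _⟩, rfl⟩)
      · rintro x rfl
        exact Subgroup.subset_closure (Or.inr rfl)
  have hfg : L'.FG := by
    rw [hL']
    exact (fg_map hL _).sup ⟨{t}, by simp⟩
  have : Group.FG f1.range := fg_range hF1 f1
  have : Group.IsFinitelyPresented (K × F2) := fp_prod' hK hF2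
  refine ⟨E, inferInstance, (of (φ := φ)).comp (MonoidHom.inr K F2), L', ?_, hfg,
    Pool.Agent.Helper270.FP.fp_hnn, hhnn _ _ _ _ (hprod _ _ hcK hcF2), ?_⟩
  · intro a b h
    exact congrArg Prod.snd (of_injective φ h)
  · rw [← Subgroup.comap_comap, key]
    ext x
    simp only [Subgroup.mem_comap, H, Subgroup.mem_prod, MonoidHom.inr_apply]
    simp

theorem specC4_aux (hA : SpecA) (m : ℕ) :
    ∀ (K : Type) [Group K] (A B : Fin m → Subgroup K) (φ : ∀ i, A i ≃* B i),
    Group.IsFinitelyPresented K → Conc K → (∀ i, (A i).FG) →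
    ∃ (E : Type) (_ : Group E) (j : K →* E) (t : Fin m → E),
      Group.IsFinitelyPresented E ∧ Conc E ∧ Function.Injective j ∧
      (∀ i (a : A i), t i * j a = j (φ i a) * t i) ∧
      ∀ H : Subgroup K, (∀ i (a : A i), (a : K) ∈ H ↔ ((φ i a : B i) : K) ∈ H) →
        (Subgroup.closure ((H.map j : Set E) ∪ Set.range t)).comap j = H := by
  induction m with
  | zero =>
    intro K _ A B φ hK hcK _
    refine ⟨K, inferInstance, MonoidHom.id K, Fin.elim0, hK, hcK, Function.injective_id,
      fun i => i.elim0, ?_⟩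
    intro H _
    simp
  | succ m ih =>
    intro K _ A B φ hK hcK hfg
    have hA0 : Group.FG (A 0) := (Group.fg_iff_subgroup_fg _).mpr (hfg 0)
    let E1 := HNNExtension K (A 0) (B 0) (φ 0)
    have hE1 : Group.IsFinitelyPresented E1 := Pool.Agent.Helper270.FP.fp_hnn
    have hcE1 : Conc E1 := hA.2.2.2.1 _ _ _ _ hcK
    let o : K →* E1 := of
    have ho : Function.Injective o := of_injective (φ 0)
    let A' : Fin m → Subgroup E1 := fun i => (A i.succ).map o
    let B' : Fin m → Subgroup E1 := fun i => (B i.succ).map o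
    let φ' : ∀ i, A' i ≃* B' i := fun i =>
      (((A i.succ).equivMapOfInjective o ho).symm.trans (φ i.succ)).trans
        ((B i.succ).equivMapOfInjective o ho)
    have hφ' : ∀ i (a : A i.succ), ((φ' i ⟨o a, a, a.2, rfl⟩ : B' i) : E1) = o (φ i.succ a) := by
      intro i a
      have : (⟨o a, a, a.2, rfl⟩ : A' i) = (A i.succ).equivMapOfInjective o ho a := rfl
      simp only [φ', MulEquiv.trans_apply]
      rw [this, MulEquiv.symm_apply_apply]
      rfl
    obtain ⟨E, _, j, t', hE, hcE, hj, hrel, hgood⟩ := ih E1 A' B' φ' hE1 hcE1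
      (fun i => fg_map (hfg i.succ) o)
    refine ⟨E, inferInstance, j.comp o, Fin.cons (j t) t', hE, hcE, hj.comp ho, ?_, ?_⟩
    · intro i
      refine Fin.cases ?_ ?_ i
      · intro a
        simp only [Fin.cons_zero, MonoidHom.comp_apply, ← map_mul]
        congr 1
        exact t_mul_of a
      · intro i a
        simp only [Fin.cons_succ, MonoidHom.comp_apply]
        rw [← hφ']
        exact hrel i ⟨o a, a, a.2, rfl⟩
    · intro H hH
      let H1 : Subgroup E1 := Subgroup.closure ((H.map (of (φ := φ 0)) : Set E1) ∪ {t})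
      have hH1 : H1.comap o = H := good (hH 0)
      have hmem : ∀ k : K, o k ∈ H1 ↔ k ∈ H := by
        intro k; rw [← hH1]; rfl
      have h2 := hgood H1 (by
        rintro i ⟨_, a, ha, rfl⟩
        have h3 := hφ' i ⟨a, ha⟩
        rw [h3, hmem, hmem]
        exact hH i.succ ⟨a, ha⟩)
      rw [← Subgroup.comap_comap]
      have h4 : Subgroup.closure ((H.map (j.comp o) : Set E) ∪ Set.range (Fin.cons (j t) t')) =
          Subgroup.closure ((H1.map j : Set E) ∪ Set.range t') := by
        rw [Fin.range_cons]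
        apply le_antisymm
        · rw [Subgroup.closure_le]
          rintro x (⟨k, hk, rfl⟩ | hx | hx)
          · exact Subgroup.subset_closure (Or.inl ⟨o k, (hmem k).mpr hk, rfl⟩)
          · subst hx
            exact Subgroup.subset_closure
              (Or.inl ⟨t, Subgroup.subset_closure (Or.inr rfl), rfl⟩)
          · exact Subgroup.subset_closure (Or.inr hx)
        · rw [Subgroup.closure_le]
          rintro x (⟨k, hk, rfl⟩ | hx)
          · have h5 : H1.map j ≤ Subgroup.closure ((H.map (j.comp o) : Set E) ∪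
                insert (j t) (Set.range t')) := by
              rw [MonoidHom.map_closure, Subgroup.closure_le]
              rintro _ ⟨y, (⟨z, hz, rfl⟩ | hy), rfl⟩
              · exact Subgroup.subset_closure (Or.inl ⟨z, hz, rfl⟩)
              · rw [Set.mem_singleton_iff] at hy
                subst hy
                exact Subgroup.subset_closure (Or.inr (Or.inl rfl))
            exact h5 ⟨k, hk, rfl⟩
          · exact Subgroup.subset_closure (Or.inr (Or.inr hx))
      rw [h4, h2, hH1]

theorem specC4 (hA : SpecA) : SpecC4 := fun K _ m A B φ => specC4_aux hA m K A B φ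

end Pool.Agent.Helper784WE.C
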