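import Mathlib
import Pool.Agent.Helper784WE.Spec
import Pool.Agent.Helper270.FP
import Pool.Agent.Helper784WE.C2

/-!
Module C: the rope trick.
-/

set_option autoImplicit false

namespace Pool.Agent.Helper784WE.C

open HNNExtension

section Psi

variable {F : Type} [Group F] (N : Subgroup F) [N.Normal]

/-- left multiplication on the lower sheet -/
def lowAct : F →* Equiv.Perm ((F ⧸ N) × Bool) where
  toFun f := {
    toFun := fun x => if x.2 then x else ((f : F ⧸ N) * x.1, false)
    invFun := fun x => if x.2 then x else ((f : F ⧸ N)⁻¹ * x.1, false)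
    left_inv := by rintro ⟨q, _ | _⟩ <;> simp
    right_inv := by rintro ⟨q, _ | _⟩ <;> simp }
  map_one' := by
    apply Equiv.ext
    rintro ⟨q, _ | _⟩ <;> simp
  map_mul' f g := by
    apply Equiv.ext
    rintro ⟨q, _ | _⟩ <;> simp [mul_assoc]

/-- the swap of the sheets -/
def swp : Equiv.Perm ((F ⧸ N) × Bool) where
  toFun x := (x.1, !x.2)
  invFun x := (x.1, !x.2)
  left_inv := by rintro ⟨q, _ | _⟩ <;> simp
  right_inv := by rintro ⟨q, _ | _⟩ <;> simp

theorem lowAct_false (f : F) (q : F ⧸ N) : lowAct N f (q, false) = ((f : F ⧸ N) * q, false) := rfl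

theorem lowAct_true (f : F) (q : F ⧸ N) : lowAct N f (q, true) = (q, true) := rfl

omit [N.Normal] in
theorem swp_apply (q : F ⧸ N) (b : Bool) : swp N (q, b) = (q, !b) := rfl

omit [N.Normal] in
theorem swp_inv_apply (q : F ⧸ N) (b : Bool) : (swp N)⁻¹ (q, b) = (q, !b) := rfl

theorem lowAct_mem {f : F} (hf : f ∈ N) : lowAct N f = 1 := by
  apply Equiv.ext
  rintro ⟨q, _ | _⟩
  · rw [lowAct_false, (QuotientGroup.eq_one_iff f).mpr hf, one_mul]
    rfl
  · rfl

/-- the action of the HNN extension -/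
def rho : HNNExtension F N N (MulEquiv.refl N) →* Equiv.Perm ((F ⧸ N) × Bool) :=
  lift (lowAct N) (swp N) (by
    intro a
    change swp N * lowAct N (a : F) = lowAct N (a : F) * swp N
    rw [lowAct_mem N a.2, one_mul, mul_one])

theorem rho_of (f : F) : rho N (of f) = lowAct N f := lift_of _ _ _ f

theorem rho_t : rho N t = swp N := lift_t _ _ _

/-- The permutations which act on the lower sheet by a left multiplication. -/
def LQ : Subgroup (Equiv.Perm ((F ⧸ N) × Bool)) where
  carrier := {π | ∃ c : F ⧸ N, ∀ q, π (q, false) = (c * q, false)}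
  one_mem' := ⟨1, fun q => by simp⟩
  mul_mem' := by
    rintro π π' ⟨c, hc⟩ ⟨c', hc'⟩
    exact ⟨c * c', fun q => by rw [Equiv.Perm.mul_apply, hc', hc, mul_assoc]⟩
  inv_mem' := by
    rintro π ⟨c, hc⟩
    refine ⟨c⁻¹, fun q => ?_⟩
    rw [Equiv.Perm.inv_eq_iff_eq, hc]
    simp

/-- The multiplier. -/
def mult : LQ N →* F ⧸ N where
  toFun π := (π.1 (1, false)).1
  map_one' := rfl
  map_mul' := by
    rintro ⟨π, c, hc⟩ ⟨π', c', hc'⟩
    simp only [Subgroup.coe_mul, Equiv.Perm.mul_apply, hc, hc', mul_one]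

variable {K : Type} [Group K] {L : Subgroup K}

/-- The subgroup generated by the base and its conjugate. -/
def SS : Subgroup (HNNExtension F N N (MulEquiv.refl N)) :=
  (of.range : Subgroup (HNNExtension F N N (MulEquiv.refl N))) ⊔
    (of.range : Subgroup (HNNExtension F N N (MulEquiv.refl N))).map (MulAut.conj t).toMonoidHom

omit [N.Normal] in
theorem of_mem_SS (f : F) : (of f : HNNExtension F N N (MulEquiv.refl N)) ∈ SS N :=
  Subgroup.mem_sup_left ⟨f, rfl⟩

omit [N.Normal] in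
theorem conj_mem_SS (f : F) :
    (t * of f * t⁻¹ : HNNExtension F N N (MulEquiv.refl N)) ∈ SS N :=
  Subgroup.mem_sup_right ⟨of f, ⟨f, rfl⟩, rfl⟩

theorem rho_conj (f : F) (q : F ⧸ N) : rho N (t * of f * t⁻¹) (q, false) = (q, false) := by
  rw [map_mul, map_mul, map_inv, rho_of, rho_t, Equiv.Perm.mul_apply, Equiv.Perm.mul_apply,
    swp_inv_apply]
  simp only [Bool.not_false]
  rw [lowAct_true, swp_apply]
  rfl

theorem SS_le : SS N ≤ (LQ N).comap (rho N) := by
  rw [SS, sup_le_iff]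
  constructor
  · rintro _ ⟨f, rfl⟩
    exact ⟨(f : F ⧸ N), fun q => by rw [rho_of, lowAct_false]⟩
  · rintro _ ⟨_, ⟨f, rfl⟩, rfl⟩
    refine ⟨1, fun q => ?_⟩
    change rho N (t * of f * t⁻¹) (q, false) = _
    rw [rho_conj, one_mul]

/-- The homomorphism from `SS` to the quotient: the base maps naturally, its conjugate
trivially. -/
def psi : SS N →* F ⧸ N :=
  (mult N).comp (((rho N).comp (SS N).subtype).codRestrict (LQ N) (fun x => SS_le N x.2))

theorem psi_of (f : F) (h : (of f : HNNExtension F N N (MulEquiv.refl N)) ∈ SS N) :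
    psi N ⟨of f, h⟩ = (f : F ⧸ N) := by
  change (rho N (of f) (1, false)).1 = _
  rw [rho_of, lowAct_false, mul_one]

theorem psi_conj (f : F)
    (h : (t * of f * t⁻¹ : HNNExtension F N N (MulEquiv.refl N)) ∈ SS N) :
    psi N ⟨t * of f * t⁻¹, h⟩ = 1 := by
  change (rho N (t * of f * t⁻¹) (1, false)).1 = _
  rw [rho_conj]

omit [N.Normal] in
theorem SS_fg (hF : Group.FG F) : Group.FG (SS N) := by
  rw [Group.fg_iff_subgroup_fg]
  have h : (of.range : Subgroup (HNNExtension F N N (MulEquiv.refl N))).FG :=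
    (Group.fg_iff_subgroup_fg _).mp (fg_range hF _)
  exact h.sup (fg_map h _)

omit [N.Normal] in
/-- Two homomorphisms on `SS` which agree on the base and its conjugate are equal. -/
theorem SS_ext {M : Type} [Group M] {a b : SS N →* M}
    (h1 : ∀ f : F, a ⟨of f, of_mem_SS N f⟩ = b ⟨of f, of_mem_SS N f⟩)
    (h2 : ∀ f : F, a ⟨t * of f * t⁻¹, conj_mem_SS N f⟩ = b ⟨t * of f * t⁻¹, conj_mem_SS N f⟩) :
    a = b := by
  have key : (SS N) ≤ (a.eqLocus b).map (SS N).subtype := by
    conv_lhs => rw [SS]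
    rw [sup_le_iff]
    constructor
    · rintro _ ⟨f, rfl⟩
      exact ⟨⟨of f, of_mem_SS N f⟩, h1 f, rfl⟩
    · rintro _ ⟨_, ⟨f, rfl⟩, rfl⟩
      exact ⟨⟨t * of f * t⁻¹, conj_mem_SS N f⟩, h2 f, rfl⟩
  ext x
  obtain ⟨y, hy, hyx⟩ := key x.2
  have : y = x := Subtype.ext hyx
  rw [← this]
  exact hy

end Psi

section Rope

variable {n : ℕ} (N : Subgroup (FreeGroup (Fin n))) [N.Normal] {K : Type} [Group K]
  (i : FreeGroup (Fin n) →* K) {L : Subgroup K} (hN : L.comap i = N)

/-- The first HNN extension. -/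
abbrev E1 (L : Subgroup K) : Type := HNNExtension K L L (MulEquiv.refl L)

/-- The first embedding. -/
def g1 : SS N →* E1 L × (FreeGroup (Fin n) ⧸ N) :=
  ((mapHNN i hN).comp (SS N).subtype).prod 1

/-- The second embedding. -/
def g2 : SS N →* E1 L × (FreeGroup (Fin n) ⧸ N) :=
  ((mapHNN i hN).comp (SS N).subtype).prod (psi N)

theorem g1_injective (hi : Function.Injective i) : Function.Injective (g1 N i hN) := by
  intro a b h
  exact Subtype.ext (mapHNN_injective i hN hi (congrArg Prod.fst h))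

theorem g2_injective (hi : Function.Injective i) : Function.Injective (g2 N i hN) := by
  intro a b h
  exact Subtype.ext (mapHNN_injective i hN hi (congrArg Prod.fst h))

/-- Homomorphisms out of the rope trick group. -/
theorem rope_back (hi : Function.Injective i) {P : Type} [Group P] (e1 : E1 L →* P)
    (e2 : FreeGroup (Fin n) →* P) (z : P) (hc : ∀ x f, Commute (e1 x) (e2 f))
    (h1 : ∀ j, z * e1 (of (i (FreeGroup.of j))) * z⁻¹ =
      e1 (of (i (FreeGroup.of j))) * e2 (FreeGroup.of j))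
    (h2 : ∀ j, z * e1 (t * of (i (FreeGroup.of j)) * t⁻¹) * z⁻¹ =
      e1 (t * of (i (FreeGroup.of j)) * t⁻¹)) :
    ∃ back : HNNExtension (E1 L × (FreeGroup (Fin n) ⧸ N))
      (g1 N i hN).range (g2 N i hN).range
      (rangeEquiv _ _ (g1_injective N i hN hi) (g2_injective N i hN hi)) →* P,
      (∀ x f, back (of (x, ((f : FreeGroup (Fin n)) : FreeGroup (Fin n) ⧸ N))) = e1 x * e2 f) ∧
      back t = z := by
  have hαβ : (MulAut.conj z).toMonoidHom.comp (e1.comp (of.comp i)) =
      (MonoidHom.noncommCoprod e1 e2 hc).comp ((of.comp i).prod (MonoidHom.id _)) := by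
    apply FreeGroup.ext_hom
    intro j
    exact h1 j
  have hγδ : (MulAut.conj z).toMonoidHom.comp (e1.comp ((MulAut.conj t).toMonoidHom.comp
      (of.comp i))) = e1.comp ((MulAut.conj t).toMonoidHom.comp (of.comp i)) := by
    apply FreeGroup.ext_hom
    intro j
    exact h2 j
  have ha : ∀ f, z * e1 (of (i f)) * z⁻¹ = e1 (of (i f)) * e2 f :=
    fun f => DFunLike.congr_fun hαβ f
  have hb : ∀ f, z * e1 (t * of (i f) * t⁻¹) * z⁻¹ = e1 (t * of (i f) * t⁻¹) :=
    fun f => DFunLike.congr_fun hγδ f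
  have hkill : ∀ r ∈ N, e2 r = 1 := by
    intro r hr
    have hr' : i r ∈ L := by
      have : r ∈ L.comap i := by rw [hN]; exact hr
      exact this
    have h3 := t_mul_of (φ := MulEquiv.refl L) ⟨i r, hr'⟩
    have h4 : (t * of (i r) * t⁻¹ : E1 L) = of (i r) := by
      rw [mul_inv_eq_iff_eq_mul]
      exact h3
    have h5 := hb r
    rw [h4, ha r] at h5
    exact mul_eq_left.mp h5
  let q2 : FreeGroup (Fin n) ⧸ N →* P := QuotientGroup.lift N e2 hkill
  have hcomm : ∀ (x : E1 L) (q : FreeGroup (Fin n) ⧸ N), Commute (e1 x) (q2 q) := by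
    intro x q
    obtain ⟨f, rfl⟩ := QuotientGroup.mk_surjective q
    exact hc x f
  let g : E1 L × (FreeGroup (Fin n) ⧸ N) →* P := MonoidHom.noncommCoprod e1 q2 hcomm
  have hg : ∀ (x : E1 L) (q : FreeGroup (Fin n) ⧸ N), g (x, q) = e1 x * q2 q := fun x q => rfl
  have hSS : (MulAut.conj z).toMonoidHom.comp (g.comp (g1 N i hN)) = g.comp (g2 N i hN) := by
    apply SS_ext
    · intro f
      change z * g (mapHNN i hN (of f), 1) * z⁻¹ = g (mapHNN i hN (of f), psi N ⟨of f, _⟩)
      rw [psi_of, mapHNN_of, hg, hg, map_one, mul_one]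
      exact ha f
    · intro f
      change z * g (mapHNN i hN (t * of f * t⁻¹), 1) * z⁻¹ =
        g (mapHNN i hN (t * of f * t⁻¹), psi N ⟨t * of f * t⁻¹, _⟩)
      rw [psi_conj, map_mul, map_mul, map_inv, mapHNN_of, mapHNN_t, hg, map_one, mul_one]
      exact hb f
  refine ⟨HNNExtension.lift g z ?_, ?_, ?_⟩
  · rintro ⟨_, s, rfl⟩
    rw [rangeEquiv_apply]
    have h2 := DFunLike.congr_fun hSS s
    change z * g (g1 N i hN s) * z⁻¹ = g (g2 N i hN s) at h2
    rw [mul_inv_eq_iff_eq_mul] at h2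
    exact h2
  · intro x f
    rw [lift_of]
    rfl
  · exact lift_t _ _ _

theorem rope_rel (hi : Function.Injective i) (s : SS N) :
    (t : HNNExtension (E1 L × (FreeGroup (Fin n) ⧸ N)) (g1 N i hN).range (g2 N i hN).range
      (rangeEquiv _ _ (g1_injective N i hN hi) (g2_injective N i hN hi))) *
      of (g1 N i hN s) * t⁻¹ = of (g2 N i hN s) := by
  have h1 := equiv_eq_conj (φ := rangeEquiv _ _ (g1_injective N i hN hi)
    (g2_injective N i hN hi)) ⟨g1 N i hN s, s, rfl⟩
  rw [rangeEquiv_apply] at h1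
  exact h1.symm

theorem rope_rel_of (hi : Function.Injective i) (f : FreeGroup (Fin n)) :
    (t : HNNExtension (E1 L × (FreeGroup (Fin n) ⧸ N)) (g1 N i hN).range (g2 N i hN).range
      (rangeEquiv _ _ (g1_injective N i hN hi) (g2_injective N i hN hi))) *
      of (of (i f), 1) * t⁻¹ = of (of (i f), (f : FreeGroup (Fin n) ⧸ N)) := by
  have h1 := rope_rel N i hN hi ⟨of f, of_mem_SS N _⟩
  change t * of (mapHNN i hN (of f), 1) * t⁻¹ =
    of (mapHNN i hN (of f), psi N ⟨of f, _⟩) at h1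
  rw [psi_of, mapHNN_of] at h1
  exact h1

theorem rope_rel_conj (hi : Function.Injective i) (f : FreeGroup (Fin n)) :
    (t : HNNExtension (E1 L × (FreeGroup (Fin n) ⧸ N)) (g1 N i hN).range (g2 N i hN).range
      (rangeEquiv _ _ (g1_injective N i hN hi) (g2_injective N i hN hi))) *
      of (t * of (i f) * t⁻¹, 1) * t⁻¹ = of (t * of (i f) * t⁻¹, 1) := by
  have h1 := rope_rel N i hN hi ⟨t * of f * t⁻¹, conj_mem_SS N _⟩
  change t * of (mapHNN i hN (t * of f * t⁻¹), 1) * t⁻¹ =
    of (mapHNN i hN (t * of f * t⁻¹), psi N ⟨t * of f * t⁻¹, _⟩) at h1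
  rw [psi_conj, map_mul, map_mul, map_inv, mapHNN_of, mapHNN_t] at h1
  exact h1

theorem rope_fp (hi : Function.Injective i) (hE1 : Group.IsFinitelyPresented (E1 L)) :
    Group.IsFinitelyPresented (HNNExtension (E1 L × (FreeGroup (Fin n) ⧸ N))
      (g1 N i hN).range (g2 N i hN).range
      (rangeEquiv _ _ (g1_injective N i hN hi) (g2_injective N i hN hi))) := by
  have hP : Group.IsFinitelyPresented (E1 L × FreeGroup (Fin n)) := fp_prod' hE1 inferInstance
  obtain ⟨P0, _, ol, z, hP0, hext, hlift⟩ : ∃ (P0 : Type) (_ : Group P0)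
      (ol : E1 L × FreeGroup (Fin n) →* P0) (z : P0), Group.IsFinitelyPresented P0 ∧
      (∀ (M : Type) [Group M] (a b : P0 →* M), (∀ x, a (ol x) = b (ol x)) → a z = b z → a = b) ∧
      (∀ (M : Type) [Group M] (a : E1 L × FreeGroup (Fin n) →* M) (y : M),
        ∃ π : P0 →* M, (∀ x, π (ol x) = a x) ∧ π z = y) := by
    refine ⟨Monoid.Coprod (E1 L × FreeGroup (Fin n)) (Multiplicative ℤ), inferInstance,
      Monoid.Coprod.inl, Monoid.Coprod.inr (Multiplicative.ofAdd 1), inferInstance, ?_, ?_⟩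
    · intro M _ a b h1 h2
      apply Monoid.Coprod.hom_ext
      · exact MonoidHom.ext h1
      · exact MonoidHom.ext_mint h2
    · intro M _ a y
      refine ⟨Monoid.Coprod.lift a (zpowersHom _ y), fun x => Monoid.Coprod.lift_apply_inl _ _ _,
        ?_⟩
      rw [Monoid.Coprod.lift_apply_inr]
      simp
  let r1 : Fin n → P0 := fun j =>
    z * ol (of (i (FreeGroup.of j)), 1) * z⁻¹ * (ol (of (i (FreeGroup.of j)), FreeGroup.of j))⁻¹
  let r2 : Fin n → P0 := fun j =>
    z * ol (t * of (i (FreeGroup.of j)) * t⁻¹, 1) * z⁻¹ *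
      (ol (t * of (i (FreeGroup.of j)) * t⁻¹, 1))⁻¹
  let R : Set P0 := Set.range r1 ∪ Set.range r2
  have hR : R.Finite := (Set.finite_range r1).union (Set.finite_range r2)
  let mk : P0 →* P0 ⧸ Subgroup.normalClosure R := QuotientGroup.mk' _
  have hmk : ∀ r ∈ R, mk r = 1 := fun r hr =>
    (QuotientGroup.eq_one_iff _).mpr (Subgroup.subset_normalClosure hr)
  have hsplit : ∀ (x : E1 L) (f : FreeGroup (Fin n)), ol (x, f) = ol (x, 1) * ol (1, f) := by
    intro x f
    rw [← map_mul]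
    simp
  obtain ⟨back, hb1, hb2⟩ := rope_back N i hN hi ((mk.comp ol).comp (MonoidHom.inl _ _))
    ((mk.comp ol).comp (MonoidHom.inr _ _)) (mk z) (by
      intro x f
      change mk (ol (x, 1)) * mk (ol (1, f)) = mk (ol (1, f)) * mk (ol (x, 1))
      rw [← map_mul, ← map_mul, ← map_mul, ← map_mul]
      simp) (by
      intro j
      have h3 := hmk (r1 j) (Or.inl ⟨j, rfl⟩)
      change mk (z * ol (of (i (FreeGroup.of j)), 1) * z⁻¹ *
        (ol (of (i (FreeGroup.of j)), FreeGroup.of j))⁻¹) = 1 at h3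
      rw [map_mul, map_mul, map_mul, map_inv, map_inv, mul_inv_eq_one,
        hsplit _ (FreeGroup.of j), map_mul mk (ol (of (i (FreeGroup.of j)), 1))] at h3
      exact h3) (by
      intro j
      have h3 := hmk (r2 j) (Or.inr ⟨j, rfl⟩)
      change mk (z * ol (t * of (i (FreeGroup.of j)) * t⁻¹, 1) * z⁻¹ *
        (ol (t * of (i (FreeGroup.of j)) * t⁻¹, 1))⁻¹) = 1 at h3
      rw [map_mul, map_mul, map_mul, map_inv, map_inv, mul_inv_eq_one] at h3
      exact h3)
  obtain ⟨π, hπl, hπz⟩ := hlift _ ((of (φ := rangeEquiv _ _ (g1_injective N i hN hi)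
    (g2_injective N i hN hi))).comp (MonoidHom.prodMap (MonoidHom.id (E1 L))
      (QuotientGroup.mk' N))) t
  have hπl' : ∀ (x : E1 L) (f : FreeGroup (Fin n)), π (ol (x, f)) =
      of (x, (f : FreeGroup (Fin n) ⧸ N)) := fun x f => hπl (x, f)
  have hback : back.comp π = mk := by
    apply hext
    · rintro ⟨x, f⟩
      rw [MonoidHom.comp_apply, hπl', hb1, hsplit, map_mul]
      rfl
    · rw [MonoidHom.comp_apply, hπz, hb2]
  have hsurj : Function.Surjective π := by
    rw [← MonoidHom.range_eq_top, eq_top_iff]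
    intro x _
    induction x using HNNExtension.induction_on with
    | of g =>
      obtain ⟨x, q⟩ := g
      obtain ⟨f, rfl⟩ := QuotientGroup.mk_surjective q
      exact ⟨ol (x, f), hπl' x f⟩
    | t => exact ⟨z, hπz⟩
    | mul x y hx hy => exact mul_mem (hx trivial) (hy trivial)
    | inv x hx => exact inv_mem (hx trivial)
  refine Group.IsFinitelyPresented.of_surjective π hsurj ⟨R, hR, ?_⟩
  apply le_antisymm
  · apply Subgroup.normalClosure_le_normal
    rintro _ (⟨j, rfl⟩ | ⟨j, rfl⟩)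
    · change π (z * ol (of (i (FreeGroup.of j)), 1) * z⁻¹ *
        (ol (of (i (FreeGroup.of j)), FreeGroup.of j))⁻¹) = 1
      rw [map_mul, map_mul, map_mul, map_inv, map_inv, hπz, hπl', hπl', mul_inv_eq_one]
      exact rope_rel_of N i hN hi _
    · change π (z * ol (t * of (i (FreeGroup.of j)) * t⁻¹, 1) * z⁻¹ *
        (ol (t * of (i (FreeGroup.of j)) * t⁻¹, 1))⁻¹) = 1
      rw [map_mul, map_mul, map_mul, map_inv, map_inv, hπz, hπl', mul_inv_eq_one]
      exact rope_rel_conj N i hN hi _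
  · intro x hx
    have h1 : back (π x) = 1 := by rw [MonoidHom.mem_ker.mp hx, map_one]
    rw [← MonoidHom.comp_apply, hback] at h1
    exact (QuotientGroup.eq_one_iff x).mp h1

theorem specC5 (hA : SpecA) : SpecC5 := by
  obtain ⟨_, hprod, _, hhnn, _⟩ := hA
  rintro n N _ ⟨K, _, i, L, hi, hL, hK, hcK, hN⟩ hcQ
  have hLFG : Group.FG L := (Group.fg_iff_subgroup_fg L).mpr hL
  have hE1 : Group.IsFinitelyPresented (E1 L) := Pool.Agent.Helper270.FP.fp_hnn
  have hcE1 : Conc (E1 L) := hhnn _ _ _ _ hcK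
  refine ⟨_, inferInstance, (of (φ := rangeEquiv _ _ (g1_injective N i hN hi)
    (g2_injective N i hN hi))).comp (MonoidHom.inr _ _), rope_fp N i hN hi hE1,
    hhnn _ _ _ _ (hprod _ _ hcE1 hcQ), ?_⟩
  intro a b h
  exact congrArg Prod.snd (of_injective _ h)

end Rope

end Pool.Agent.Helper784WE.C
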