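import Mathlib
import Pool.Agent.Helper784WE.Spec

/-!
Module C5, the rope trick: an action of the HNN extension `⟨K, t | t l t⁻¹ = l, l ∈ L⟩` in which the
subgroup generated by `F` and `t F t⁻¹` acts on a copy of `F / N` by left multiplications.
-/

set_option autoImplicit false
set_option linter.unusedSectionVars false
set_option linter.unusedVariables false

namespace Pool.Agent.Helper784WE.C5

open scoped Classical

section swap

variable {P X Y : Type} (a : P → X) (b : P → Y)

/-- swap `a p` with `b p`, fix everything else -/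
noncomputable def sw : X ⊕ Y → X ⊕ Y
  | Sum.inl x => if h : ∃ p, a p = x then Sum.inr (b h.choose) else Sum.inl x
  | Sum.inr y => if h : ∃ p, b p = y then Sum.inl (a h.choose) else Sum.inr y

variable {a b}

theorem sw_a (hab : ∀ p p', a p = a p' ↔ b p = b p') (p : P) :
    sw a b (Sum.inl (a p)) = Sum.inr (b p) := by
  have h : ∃ p', a p' = a p := ⟨p, rfl⟩
  simp only [sw, dif_pos h]
  exact congrArg Sum.inr ((hab _ _).1 h.choose_spec)

theorem sw_b (hab : ∀ p p', a p = a p' ↔ b p = b p') (p : P) :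
    sw a b (Sum.inr (b p)) = Sum.inl (a p) := by
  have h : ∃ p', b p' = b p := ⟨p, rfl⟩
  simp only [sw, dif_pos h]
  exact congrArg Sum.inl ((hab _ _).2 h.choose_spec)

theorem sw_inl {x : X} (h : ¬ ∃ p, a p = x) : sw a b (Sum.inl x) = Sum.inl x := by
  simp only [sw, dif_neg h]

theorem sw_inr {y : Y} (h : ¬ ∃ p, b p = y) : sw a b (Sum.inr y) = Sum.inr y := by
  simp only [sw, dif_neg h]

theorem sw_sw (hab : ∀ p p', a p = a p' ↔ b p = b p') : Function.Involutive (sw a b) := by
  rintro (x | y)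
  · by_cases h : ∃ p, a p = x
    · obtain ⟨p, rfl⟩ := h
      rw [sw_a hab, sw_b hab]
    · rw [sw_inl h, sw_inl h]
  · by_cases h : ∃ p, b p = y
    · obtain ⟨p, rfl⟩ := h
      rw [sw_b hab, sw_a hab]
    · rw [sw_inr h, sw_inr h]

/-- equivariance -/
theorem sw_comm (hab : ∀ p p', a p = a p' ↔ b p = b p') (e : X ≃ X) (f : Y ≃ Y) (u : P ≃ P)
    (he : ∀ p, e (a p) = a (u p)) (hf : ∀ p, f (b p) = b (u p)) (z : X ⊕ Y) :
    sw a b (Equiv.sumCongr e f z) = Equiv.sumCongr e f (sw a b z) := by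
  rcases z with x | y
  · by_cases h : ∃ p, a p = x
    · obtain ⟨p, rfl⟩ := h
      rw [sw_a hab]
      show sw a b (Sum.inl (e (a p))) = Sum.inr (f (b p))
      rw [he, hf, sw_a hab]
    · rw [sw_inl h]
      show sw a b (Sum.inl (e x)) = Sum.inl (e x)
      apply sw_inl
      rintro ⟨p, hp⟩
      apply h
      refine ⟨u.symm p, e.injective ?_⟩
      rw [he, Equiv.apply_symm_apply, hp]
  · by_cases h : ∃ p, b p = y
    · obtain ⟨p, rfl⟩ := h
      rw [sw_b hab]
      show sw a b (Sum.inr (f (b p))) = Sum.inl (e (a p))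
      rw [he, hf, sw_b hab]
    · rw [sw_inr h]
      show sw a b (Sum.inr (f y)) = Sum.inr (f y)
      apply sw_inr
      rintro ⟨p, hp⟩
      apply h
      refine ⟨u.symm p, f.injective ?_⟩
      rw [hf, Equiv.apply_symm_apply, hp]

end swap

section action

variable {F K : Type} [Group F] [Group K] (i : F →* K) (L : Subgroup K) (N : Subgroup F)
  [N.Normal]

/-- the first part of the space -/
abbrev Y1 := K ⧸ (N.map i)

/-- the second part of the space -/
abbrev Y2 := (K ⧸ i.range) × (F ⧸ N)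

/-- the action of `K` -/
def rho0 : K →* Equiv.Perm (Y1 i N ⊕ Y2 i N) where
  toFun k := Equiv.sumCongr (MulAction.toPerm k) (Equiv.prodCongr (MulAction.toPerm k)
    (Equiv.refl _))
  map_one' := by
    ext z
    rcases z with x | ⟨y, h⟩
    · simp
    · simp
  map_mul' k k' := by
    ext z
    rcases z with x | ⟨y, h⟩
    · simp [mul_smul]
    · simp [mul_smul]

theorem rho0_inl (k : K) (x : Y1 i N) :
    rho0 i N k (Sum.inl x) = Sum.inl (k • x) := rfl

theorem rho0_inr (k : K) (y : K ⧸ i.range) (h : F ⧸ N) :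
    rho0 i N k (Sum.inr (y, h)) = Sum.inr (k • y, h) := rfl

/-- the points of the first part which are moved by `t` -/
def pa (p : L × F) : Y1 i N := (((p.1 : K) * i p.2 : K) : K ⧸ (N.map i))

/-- the points of the second part which are moved by `t` -/
def pb (p : L × F) : Y2 i N := (((p.1 : K) : K ⧸ i.range), (p.2 : F ⧸ N))

theorem pab (hi : Function.Injective i) (hL : L.comap i = N) (p p' : L × F) :
    pa i L N p = pa i L N p' ↔ pb i L N p = pb i L N p' := by
  obtain ⟨⟨l, hl⟩, f⟩ := p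
  obtain ⟨⟨l', hl'⟩, f'⟩ := p'
  simp only [pa, pb, Prod.mk.injEq, QuotientGroup.eq]
  constructor
  · rintro ⟨n, hn, h⟩
    have hn' : n ∈ N := hn
    have h1 : l⁻¹ * l' = i (f * n * f'⁻¹) := by
      rw [map_mul, map_mul, map_inv, h]; group
    refine ⟨⟨_, h1.symm⟩, ?_⟩
    have h2 : f * n * f'⁻¹ ∈ N := by
      rw [← hL, Subgroup.mem_comap, ← h1]
      exact L.mul_mem (L.inv_mem hl) hl'
    have h3 : f⁻¹ * f' = n * (f'⁻¹ * (f * n * f'⁻¹)⁻¹ * f'⁻¹⁻¹) := by group
    rw [h3]
    exact N.mul_mem hn' (Subgroup.Normal.conj_mem ‹_› _ (N.inv_mem h2) _)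
  · rintro ⟨⟨u, hu⟩, hf⟩
    have hu2 : u ∈ N := by
      rw [← hL, Subgroup.mem_comap, hu]
      exact L.mul_mem (L.inv_mem hl) hl'
    refine ⟨(f⁻¹ * u * f⁻¹⁻¹) * (f⁻¹ * f'), N.mul_mem (Subgroup.Normal.conj_mem ‹_› _ hu2 _) hf, ?_⟩
    simp only [map_mul, map_inv, hu]
    group

/-- the permutation `t` -/
noncomputable def tau (hi : Function.Injective i) (hL : L.comap i = N) :
    Equiv.Perm (Y1 i N ⊕ Y2 i N) :=
  (sw_sw (pab i L N hi hL)).toPerm

theorem tau_comm (hi : Function.Injective i) (hL : L.comap i = N) (l : L) :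
    tau i L N hi hL * rho0 i N (l : K) = rho0 i N (l : K) * tau i L N hi hL := by
  ext1 z
  refine sw_comm (pab i L N hi hL) (MulAction.toPerm (l : K))
    (Equiv.prodCongr (MulAction.toPerm (l : K)) (Equiv.refl _))
    (Equiv.prodCongr (Equiv.mulLeft l) (Equiv.refl _)) ?_ ?_ z
  · rintro ⟨l', f⟩
    show (((l : K) * ((l' : K) * i f) : K) : K ⧸ (N.map i)) =
      (((l : K) * (l' : K) * i f : K) : K ⧸ (N.map i))
    rw [mul_assoc]
  · rintro ⟨l', f⟩
    rfl

variable (hi : Function.Injective i) (hL : L.comap i = N)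

/-- the action of the HNN extension -/
noncomputable def rho : HNNExtension K L L (MulEquiv.refl L) →* Equiv.Perm (Y1 i N ⊕ Y2 i N) :=
  HNNExtension.lift (rho0 i N) (tau i L N hi hL) (by
    intro l
    rw [MulEquiv.refl_apply]
    exact tau_comm i L N hi hL l)

theorem rho_of (k : K) : rho i L N hi hL (HNNExtension.of k) = rho0 i N k :=
  HNNExtension.lift_of _ _ _ _

theorem rho_t : rho i L N hi hL HNNExtension.t = tau i L N hi hL :=
  HNNExtension.lift_t _ _ _

/-- the copy of `F / N` -/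
noncomputable def io (h : F ⧸ N) : Y1 i N ⊕ Y2 i N := Sum.inl (i h.out : K ⧸ (N.map i))

theorem io_mk (f : F) : io i N (f : F ⧸ N) = Sum.inl (i f : K ⧸ (N.map i)) := by
  unfold io
  congr 1
  rw [QuotientGroup.eq]
  refine ⟨(f : F ⧸ N).out⁻¹ * f, ?_, by simp⟩
  exact QuotientGroup.eq.1 (QuotientGroup.out_eq' (f : F ⧸ N))

theorem io_inj (hi : Function.Injective i) : Function.Injective (io i N) := by
  intro x y hxy
  obtain ⟨f, rfl⟩ := QuotientGroup.mk_surjective x
  obtain ⟨f', rfl⟩ := QuotientGroup.mk_surjective y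
  rw [io_mk, io_mk, Sum.inl.injEq, QuotientGroup.eq] at hxy
  obtain ⟨n, hn, h⟩ := hxy
  rw [QuotientGroup.eq]
  have : n = f⁻¹ * f' := hi (by simpa using h)
  rw [← this]
  exact hn

/-- the points on which `t` and the copy of `F / N` are compared -/
def io' (h : F ⧸ N) : Y1 i N ⊕ Y2 i N := Sum.inr (((1 : K) : K ⧸ i.range), h)

theorem rho_of_io (f : F) (h : F ⧸ N) :
    rho i L N hi hL (HNNExtension.of (i f)) (io i N h) = io i N ((f : F ⧸ N) * h) := by
  obtain ⟨g, rfl⟩ := QuotientGroup.mk_surjective h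
  rw [rho_of, io_mk, rho0_inl, ← QuotientGroup.mk_mul, io_mk]
  show Sum.inl ((i f * i g : K) : K ⧸ (N.map i)) = _
  rw [map_mul]

theorem rho_of_io' (f : F) (h : F ⧸ N) :
    rho i L N hi hL (HNNExtension.of (i f)) (io' i N h) = io' i N h := by
  rw [rho_of, io', rho0_inr]
  congr 2
  show ((i f * 1 : K) : K ⧸ i.range) = _
  rw [QuotientGroup.eq]
  simp

theorem rho_t_io' (h : F ⧸ N) :
    rho i L N hi hL HNNExtension.t (io' i N h) = io i N h := by
  obtain ⟨g, rfl⟩ := QuotientGroup.mk_surjective h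
  rw [rho_t, io_mk]
  have := sw_b (pab i L N hi hL) ((1 : L), g)
  simp only [pa, pb, Subgroup.coe_one, one_mul] at this
  exact this

theorem rho_t_io (h : F ⧸ N) :
    rho i L N hi hL HNNExtension.t (io i N h) = io' i N h := by
  obtain ⟨g, rfl⟩ := QuotientGroup.mk_surjective h
  rw [rho_t, io_mk]
  have := sw_a (pab i L N hi hL) ((1 : L), g)
  simp only [pa, pb, Subgroup.coe_one, one_mul] at this
  exact this

theorem rho_tinv_io (h : F ⧸ N) :
    rho i L N hi hL (HNNExtension.t⁻¹) (io i N h) = io' i N h := by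
  rw [map_inv, Equiv.Perm.inv_eq_iff_eq, rho_t_io']

theorem rho_conj_io (f : F) (h : F ⧸ N) :
    rho i L N hi hL (HNNExtension.t * HNNExtension.of (i f) * HNNExtension.t⁻¹) (io i N h) =
      io i N h := by
  rw [map_mul, map_mul, Equiv.Perm.mul_apply, Equiv.Perm.mul_apply, rho_tinv_io, rho_of_io',
    rho_t_io']

/-- the pairs `(e, h)` for which `e` acts on the copy of `F / N` as the left multiplication by
`h` -/
def QQ : Subgroup (HNNExtension K L L (MulEquiv.refl L) × (F ⧸ N)) where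
  carrier := {x | ∀ h, rho i L N hi hL x.1 (io i N h) = io i N (x.2 * h)}
  one_mem' := by
    intro h
    simp
  mul_mem' := by
    intro x y hx hy h
    rw [Prod.fst_mul, map_mul, Equiv.Perm.mul_apply, hy, hx, Prod.snd_mul, mul_assoc]
  inv_mem' := by
    intro x hx h
    rw [Prod.fst_inv, map_inv, Equiv.Perm.inv_eq_iff_eq, hx, Prod.snd_inv, mul_inv_cancel_left]

theorem QQ_fst {x : HNNExtension K L L (MulEquiv.refl L) × (F ⧸ N)}
    (hx : x ∈ QQ i L N hi hL) (h1 : x.1 = 1) : x = 1 := by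
  have h2 : ∀ h, rho i L N hi hL x.1 (io i N h) = io i N (x.2 * h) := hx
  have h3 := h2 1
  rw [h1, map_one, mul_one] at h3
  have h4 : (1 : F ⧸ N) = x.2 := io_inj i N hi h3
  exact Prod.ext h1 h4.symm

end action

end Pool.Agent.Helper784WE.C5
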