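import Mathlib
import Pool.Agent.Helper784WE.C5a
import Pool.Agent.Helper270.FP

/-!
Module C5, the rope trick: finite presentability and the conclusion.
-/

set_option autoImplicit false
set_option linter.unusedSectionVars false
set_option linter.unusedVariables false

namespace Pool.Agent.Helper784WE.C5

theorem fg_of_fp {G : Type} [Group G] (h : Group.IsFinitelyPresented G) : Group.FG G := by
  obtain ⟨n, φ, hφ, -⟩ := h.out
  exact Group.fg_of_surjective hφ

section fp

variable {n : ℕ} {K : Type} [Group K] (i : FreeGroup (Fin n) →* K) (L : Subgroup K)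
  (N : Subgroup (FreeGroup (Fin n))) [N.Normal]

/-- the first HNN extension -/
abbrev E1 := HNNExtension K L L (MulEquiv.refl L)

/-- the quotient -/
abbrev HH := FreeGroup (Fin n) ⧸ N

/-- generators -/
def g1 (f : FreeGroup (Fin n)) : E1 L × HH N := (HNNExtension.of (i f), (f : HH N))

/-- generators -/
def g2 (f : FreeGroup (Fin n)) : E1 L × HH N :=
  (HNNExtension.t * HNNExtension.of (i f) * HNNExtension.t⁻¹, 1)

/-- the graph of the homomorphism `ψ` -/
def BB : Subgroup (E1 L × HH N) :=
  Subgroup.closure (Set.range (fun j => g1 i L N (FreeGroup.of j)) ∪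
    Set.range (fun j => g2 i L N (FreeGroup.of j)))

theorem BB_le (hi : Function.Injective i) (hL : L.comap i = N) : BB i L N ≤ QQ i L N hi hL := by
  unfold BB
  rw [Subgroup.closure_le]
  rintro x (⟨j, rfl⟩ | ⟨j, rfl⟩)
  · intro h
    exact rho_of_io i L N hi hL (FreeGroup.of j) h
  · intro h
    have h1 := rho_conj_io i L N hi hL (FreeGroup.of j) h
    rw [← one_mul h] at h1
    conv at h1 => lhs; rw [one_mul]
    exact h1

/-- the projection to the first factor -/
def pj : E1 L × HH N →* E1 L × HH N := (MonoidHom.inl _ _).comp (MonoidHom.fst _ _)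

theorem pj_apply (x : E1 L × HH N) : pj L N x = (x.1, 1) := rfl

theorem pj_inj (hi : Function.Injective i) (hL : L.comap i = N) :
    Function.Injective ((pj L N).comp (BB i L N).subtype) := by
  rw [injective_iff_map_eq_one]
  rintro ⟨x, hx⟩ h
  have h1 : pj L N x = 1 := h
  rw [pj_apply] at h1
  have h2 : x.1 = 1 := congrArg Prod.fst h1
  have h3 := QQ_fst i L N hi hL (BB_le i L N hi hL hx) h2
  exact Subtype.ext h3

/-- the first associated subgroup -/
def AA : Subgroup (E1 L × HH N) := ((pj L N).comp (BB i L N).subtype).range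

/-- the isomorphism `s ↦ (s, ψ s)` -/
noncomputable def phi (hi : Function.Injective i) (hL : L.comap i = N) :
    AA i L N ≃* BB i L N := (MonoidHom.ofInjective (pj_inj i L N hi hL)).symm

variable (hi : Function.Injective i) (hL : L.comap i = N)

theorem phi_spec (a : AA i L N) : pj L N (phi i L N hi hL a : E1 L × HH N) = (a : E1 L × HH N) := by
  have h := (MonoidHom.ofInjective (pj_inj i L N hi hL)).apply_symm_apply a
  have h2 := congrArg Subtype.val h
  exact h2

theorem exists_phi {x : E1 L × HH N} (hx : x ∈ BB i L N) :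
    ∃ a : AA i L N, (a : E1 L × HH N) = pj L N x ∧ (phi i L N hi hL a : E1 L × HH N) = x := by
  refine ⟨MonoidHom.ofInjective (pj_inj i L N hi hL) ⟨x, hx⟩, rfl, ?_⟩
  have h := (MonoidHom.ofInjective (pj_inj i L N hi hL)).symm_apply_apply ⟨x, hx⟩
  exact congrArg Subtype.val h

/-- the second HNN extension -/
abbrev EE := HNNExtension (E1 L × HH N) (AA i L N) (BB i L N) (phi i L N hi hL)

theorem conj_B {x : E1 L × HH N} (hx : x ∈ BB i L N) :
    (HNNExtension.t : EE i L N hi hL) * HNNExtension.of (pj L N x) * HNNExtension.t⁻¹ =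
      HNNExtension.of x := by
  obtain ⟨a, h1, h2⟩ := exists_phi i L N hi hL hx
  rw [← h1, ← HNNExtension.equiv_eq_conj, h2]

/-- the group with known finite presentation -/
abbrev P0 := Monoid.Coprod (E1 L × FreeGroup (Fin n)) (Multiplicative ℤ)

/-- the stable letter -/
def ze : P0 (n := n) L := Monoid.Coprod.inr (Multiplicative.ofAdd 1)

/-- relator -/
def r1 (f : FreeGroup (Fin n)) : P0 (n := n) L :=
  ze L * Monoid.Coprod.inl (HNNExtension.of (i f), 1) * (ze L)⁻¹ *
    (Monoid.Coprod.inl (HNNExtension.of (i f), f))⁻¹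

/-- relator -/
def r2 (f : FreeGroup (Fin n)) : P0 (n := n) L :=
  ze L * Monoid.Coprod.inl (HNNExtension.t * HNNExtension.of (i f) * HNNExtension.t⁻¹, 1) *
    (ze L)⁻¹ *
    (Monoid.Coprod.inl (HNNExtension.t * HNNExtension.of (i f) * HNNExtension.t⁻¹, 1))⁻¹

/-- the relators -/
def RR : Set (P0 (n := n) L) :=
  Set.range (fun j => r1 i L (FreeGroup.of j)) ∪ Set.range (fun j => r2 i L (FreeGroup.of j))

/-- the normal closure of the relators -/
abbrev NK : Subgroup (P0 (n := n) L) := Subgroup.normalClosure (RR i L)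

/-- the images in the quotient -/
def qi : E1 L × FreeGroup (Fin n) →* P0 (n := n) L ⧸ NK i L :=
  (QuotientGroup.mk' (NK i L)).comp Monoid.Coprod.inl

/-- the image of the stable letter -/
def qz : P0 (n := n) L ⧸ NK i L := QuotientGroup.mk' (NK i L) (ze L)

theorem rel1 (f : FreeGroup (Fin n)) :
    qz i L * qi i L (HNNExtension.of (i f), 1) * (qz i L)⁻¹ =
      qi i L (HNNExtension.of (i f), f) := by
  let F1 : FreeGroup (Fin n) →* P0 (n := n) L ⧸ NK i L :=
    (MulAut.conj (qz i L)).toMonoidHom.comp ((qi i L).comp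
      ((MonoidHom.inl _ _).comp (HNNExtension.of.comp i)))
  let F2 : FreeGroup (Fin n) →* P0 (n := n) L ⧸ NK i L :=
    (qi i L).comp (MonoidHom.prod (HNNExtension.of.comp i) (MonoidHom.id _))
  have h : F1 = F2 := by
    apply FreeGroup.ext_hom
    intro j
    have h1 : QuotientGroup.mk' (NK i L) (r1 i L (FreeGroup.of j)) = 1 :=
      (QuotientGroup.eq_one_iff _).mpr
        (Subgroup.subset_normalClosure (Or.inl ⟨j, rfl⟩))
    simp only [r1, map_mul, map_inv] at h1
    rw [mul_inv_eq_one] at h1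
    exact h1
  exact DFunLike.congr_fun h f

theorem rel2 (f : FreeGroup (Fin n)) :
    qz i L * qi i L (HNNExtension.t * HNNExtension.of (i f) * HNNExtension.t⁻¹, 1) *
      (qz i L)⁻¹ =
      qi i L (HNNExtension.t * HNNExtension.of (i f) * HNNExtension.t⁻¹, 1) := by
  let F0 : FreeGroup (Fin n) →* P0 (n := n) L ⧸ NK i L :=
    (qi i L).comp
      ((MonoidHom.inl _ _).comp ((MulAut.conj HNNExtension.t).toMonoidHom.comp
        (HNNExtension.of.comp i)))
  let F1 : FreeGroup (Fin n) →* P0 (n := n) L ⧸ NK i L :=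
    (MulAut.conj (qz i L)).toMonoidHom.comp F0
  have h : F1 = F0 := by
    apply FreeGroup.ext_hom
    intro j
    have h1 : QuotientGroup.mk' (NK i L) (r2 i L (FreeGroup.of j)) = 1 :=
      (QuotientGroup.eq_one_iff _).mpr
        (Subgroup.subset_normalClosure (Or.inr ⟨j, rfl⟩))
    unfold r2 at h1
    rw [map_mul, map_inv, mul_inv_eq_one, map_mul, map_mul, map_inv] at h1
    exact h1
  exact DFunLike.congr_fun h f

theorem rel_N (hL : L.comap i = N) {r : FreeGroup (Fin n)} (hr : r ∈ N) :
    qi i L (1, r) = 1 := by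
  have hrL : i r ∈ L := by
    rw [← hL] at hr
    exact hr
  have h0 : (HNNExtension.t : E1 L) * HNNExtension.of (i r) * HNNExtension.t⁻¹ =
      HNNExtension.of (i r) := by
    have := HNNExtension.equiv_eq_conj (φ := MulEquiv.refl L) ⟨i r, hrL⟩
    exact this.symm
  have h1 := rel1 i L r
  have h2 := rel2 i L r
  rw [h0] at h2
  rw [h2] at h1
  have h3 : (((HNNExtension.of (i r) : E1 L), r) : E1 L × FreeGroup (Fin n)) =
      (HNNExtension.of (i r), 1) * (1, r) := by
    rw [Prod.mk_mul_mk, mul_one, one_mul]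
  rw [h3, map_mul] at h1
  exact (mul_eq_left.1 h1.symm)

/-- the homomorphism from `F / N` -/
def qh (hL : L.comap i = N) : HH N →* P0 (n := n) L ⧸ NK i L :=
  QuotientGroup.lift N ((qi i L).comp (MonoidHom.inr _ _)) (fun r hr => rel_N i L N hL hr)

theorem qh_mk (f : FreeGroup (Fin n)) : qh i L N hL (f : HH N) = qi i L (1, f) := rfl

theorem qcomm (e : E1 L) (h : HH N) :
    Commute (((qi i L).comp (MonoidHom.inl _ _)) e) (qh i L N hL h) := by
  obtain ⟨f, rfl⟩ := QuotientGroup.mk_surjective h
  rw [qh_mk]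
  show qi i L (e, 1) * qi i L (1, f) = qi i L (1, f) * qi i L (e, 1)
  rw [← map_mul, ← map_mul]
  simp

/-- the homomorphism from `E1 × F / N` -/
def qg : E1 L × HH N →* P0 (n := n) L ⧸ NK i L :=
  MonoidHom.noncommCoprod ((qi i L).comp (MonoidHom.inl _ _)) (qh i L N hL) (qcomm i L N hL)

theorem qg_mk (e : E1 L) (f : FreeGroup (Fin n)) : qg i L N hL (e, (f : HH N)) = qi i L (e, f) := by
  show qi i L (e, 1) * qi i L (1, f) = _
  rw [← map_mul]
  simp

theorem qrel1 (f : FreeGroup (Fin n)) :
    qz i L * qg i L N hL (pj L N (g1 i L N f)) * (qz i L)⁻¹ = qg i L N hL (g1 i L N f) := by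
  have h1 : pj L N (g1 i L N f) = (HNNExtension.of (i f), ((1 : FreeGroup (Fin n)) : HH N)) := rfl
  have h2 : g1 i L N f = (HNNExtension.of (i f), (f : HH N)) := rfl
  rw [h1, h2, qg_mk, qg_mk]
  exact rel1 i L _

theorem qrel2 (f : FreeGroup (Fin n)) :
    qz i L * qg i L N hL (pj L N (g2 i L N f)) * (qz i L)⁻¹ = qg i L N hL (g2 i L N f) := by
  have h1 : pj L N (g2 i L N f) = (HNNExtension.t * HNNExtension.of (i f) * HNNExtension.t⁻¹,
    ((1 : FreeGroup (Fin n)) : HH N)) := rfl
  have h2 : g2 i L N f = (HNNExtension.t * HNNExtension.of (i f) * HNNExtension.t⁻¹,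
    ((1 : FreeGroup (Fin n)) : HH N)) := rfl
  rw [h1, h2, qg_mk]
  exact rel2 i L _

theorem qrel {x : E1 L × HH N} (hx : x ∈ BB i L N) :
    qz i L * qg i L N hL (pj L N x) * (qz i L)⁻¹ = qg i L N hL x := by
  unfold BB at hx
  induction hx using Subgroup.closure_induction with
  | mem x hx =>
    rcases hx with ⟨j, rfl⟩ | ⟨j, rfl⟩
    · exact qrel1 i L N hL _
    · exact qrel2 i L N hL _
  | one => simp
  | mul x y _ _ hx hy =>
    rw [map_mul, map_mul, map_mul, ← hx, ← hy]
    group
  | inv x _ hx =>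
    rw [map_inv, map_inv, map_inv, ← hx]
    group

/-- the homomorphism back -/
noncomputable def bk : EE i L N hi hL →* P0 (n := n) L ⧸ NK i L :=
  HNNExtension.lift (qg i L N hL) (qz i L) (by
    intro a
    have h := qrel i L N hL (phi i L N hi hL a).2
    rw [phi_spec, mul_inv_eq_iff_eq_mul] at h
    exact h)

theorem bk_of (x : E1 L × HH N) : bk i L N hi hL (HNNExtension.of x) = qg i L N hL x :=
  HNNExtension.lift_of _ _ _ _

theorem bk_t : bk i L N hi hL HNNExtension.t = qz i L :=
  HNNExtension.lift_t _ _ _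

/-- the presentation map -/
noncomputable def ff : P0 (n := n) L →* EE i L N hi hL :=
  Monoid.Coprod.lift (HNNExtension.of.comp
    (MonoidHom.prodMap (MonoidHom.id _) (QuotientGroup.mk' N))) (zpowersHom _ HNNExtension.t)

theorem ff_ze : ff i L N hi hL (ze L) = HNNExtension.t := by
  simp [ff, ze]

theorem ff_inl (e : E1 L) (f : FreeGroup (Fin n)) :
    ff i L N hi hL (Monoid.Coprod.inl (e, f)) = HNNExtension.of (e, (f : HH N)) := by
  simp [ff]

theorem bk_ff : (bk i L N hi hL).comp (ff i L N hi hL) = QuotientGroup.mk' (NK i L) := by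
  apply Monoid.Coprod.hom_ext
  · apply MonoidHom.ext
    rintro ⟨e, f⟩
    show bk i L N hi hL (ff i L N hi hL (Monoid.Coprod.inl (e, f))) = qi i L (e, f)
    rw [ff_inl, bk_of, qg_mk]
  · apply MonoidHom.ext_mint
    show bk i L N hi hL (ff i L N hi hL (ze L)) = qz i L
    rw [ff_ze, bk_t]

theorem ff_surj : Function.Surjective (ff i L N hi hL) := by
  rw [← MonoidHom.range_eq_top, eq_top_iff]
  intro x _
  induction x using HNNExtension.induction_on with
  | of g =>
    obtain ⟨e, h⟩ := g
    obtain ⟨f, rfl⟩ := QuotientGroup.mk_surjective h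
    exact ⟨_, ff_inl i L N hi hL e f⟩
  | t => exact ⟨_, ff_ze i L N hi hL⟩
  | mul x y hx hy => exact mul_mem (hx trivial) (hy trivial)
  | inv x hx => exact inv_mem (hx trivial)

theorem fp_EE (hK : Group.IsFinitelyPresented K) (hLfg : L.FG) :
    Group.IsFinitelyPresented (EE i L N hi hL) := by
  have : Group.FG L := (Group.fg_iff_subgroup_fg L).2 hLfg
  have h1 : Group.IsFinitelyPresented (E1 L) := Pool.Agent.Helper270.FP.fp_hnn
  have : Group.FG (E1 L) := fg_of_fp h1
  have h2 : Group.IsFinitelyPresented (E1 L × FreeGroup (Fin n)) :=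
    Pool.Agent.Helper270.FP.fp_prod
  refine Group.IsFinitelyPresented.of_surjective (ff i L N hi hL) (ff_surj i L N hi hL)
    ⟨RR i L, (Set.finite_range _).union (Set.finite_range _), ?_⟩
  apply le_antisymm
  · apply Subgroup.normalClosure_le_normal
    rintro _ (⟨j, rfl⟩ | ⟨j, rfl⟩)
    · show ff i L N hi hL (r1 i L (FreeGroup.of j)) = 1
      have hx : g1 i L N (FreeGroup.of j) ∈ BB i L N := Subgroup.subset_closure (Or.inl ⟨j, rfl⟩)
      have h := conj_B i L N hi hL hx
      unfold r1
      rw [map_mul, map_mul, map_mul, map_inv, map_inv, ff_ze, ff_inl, ff_inl, mul_inv_eq_one]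
      exact h
    · show ff i L N hi hL (r2 i L (FreeGroup.of j)) = 1
      have hx : g2 i L N (FreeGroup.of j) ∈ BB i L N := Subgroup.subset_closure (Or.inr ⟨j, rfl⟩)
      have h := conj_B i L N hi hL hx
      unfold r2
      rw [map_mul, map_mul, map_mul, map_inv, map_inv, ff_ze, ff_inl, mul_inv_eq_one]
      exact h
  · intro x hx
    have h1 : bk i L N hi hL (ff i L N hi hL x) = 1 := by
      rw [MonoidHom.mem_ker.mp hx, map_one]
    rw [← MonoidHom.comp_apply, bk_ff] at h1
    exact (QuotientGroup.eq_one_iff x).mp h1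

end fp

theorem specC5 (hA : SpecA) : SpecC5 := by
  intro n N hN hB hC
  obtain ⟨K, gK, i, L, hi, hLfg, hK, hCK, hL⟩ := hB
  have h1 : Conc (E1 L) := hA.2.2.2.1 K L L (MulEquiv.refl L) hCK
  have h2 : Conc (E1 L × HH N) := hA.2.1 _ _ h1 hC
  have h3 : Conc (EE i L N hi hL) := hA.2.2.2.1 _ _ _ _ h2
  refine ⟨EE i L N hi hL, inferInstance, HNNExtension.of.comp (MonoidHom.inr _ _),
    fp_EE i L N hi hL hK hLfg, h3, ?_⟩
  intro x y hxy
  have h4 := HNNExtension.of_injective _ hxy
  exact congrArg Prod.snd h4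

end Pool.Agent.Helper784WE.C5
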