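import Mathlib
import Pool.Agent.Helper270.WPB
import Pool.Agent.Helper446.RE

/-!
Module D, first part: a counter machine recognising a recursively enumerable set of words, the
words being coded so that adding a letter in front is an affine map.
-/

set_option autoImplicit false

namespace Pool.Agent.Helper784WE.D

open Turing Relation
open Turing.PartrecToTM2 (trNat trList)
open Pool.Agent.Helper270.WPSource
open Pool.Agent.Helper270.WP (V Rules Acc mrules acc_of_halts halts_of_acc acc_forward toV)
open Pool.Agent.Helper446

/-- A tape machine whose domain is that of a given recursive function. -/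
theorem exists_machine_of (u : ℕ →. ℕ) (hu : Partrec u) :
    ∃ (Λ : Type) (_ : Inhabited Λ) (_ : Finite Λ)
      (M : TM0.Machine (TM2to1.Γ' PartrecToTM2.K' (fun _ => PartrecToTM2.Γ')) Λ),
      ∀ n, (StateTransition.eval (TM0.step M)
        (TM0.init (sym true .cons :: (trNat n).reverse.map (sym false)))).Dom ↔ (u n).Dom := by
  classical
  obtain ⟨c, hc⟩ : ∃ c : ToPartrec.Code, ∀ n : ℕ, (c.eval [n]).Dom ↔ (u n).Dom := by
    obtain ⟨c, hc⟩ := ToPartrec.Code.exists_code (Nat.Partrec'.part_iff₁.2 hu)
    refine ⟨c, fun n => ?_⟩
    have := hc ⟨[n], rfl⟩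
    simp only at this
    rw [this]
    simp [List.Vector.head]
  let inst : Inhabited PartrecToTM2.Λ' :=
    ⟨PartrecToTM2.trNormal c PartrecToTM2.Cont'.halt⟩
  let M2 := PartrecToTM2.tr
  let M1 := TM2to1.tr M2
  let M0 := TM1to0.tr M1
  have s2 : @TM2.Supports _ _ _ _ inst M2 (PartrecToTM2.codeSupp c PartrecToTM2.Cont'.halt) :=
    PartrecToTM2.tr_supports c PartrecToTM2.Cont'.halt
  have s1 := TM2to1.tr_supports M2 s2
  have s0 := TM1to0.tr_supports M1 s1
  obtain ⟨Λ, i1, i2, M, hM⟩ := finite_states M0 _ (Finset.finite_toSet _) s0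
  refine ⟨Λ, i1, i2, M, fun n => ?_⟩
  rw [hM, ← hc]
  have h2 := PartrecToTM2.tr_eval c [n]
  have h2' : (StateTransition.eval (TM2.step PartrecToTM2.tr)
      (PartrecToTM2.init c [n])).Dom ↔ (c.eval [n]).Dom := by
    rw [h2]; rfl
  rw [← h2']
  have h1 := StateTransition.tr_eval_dom (TM2to1.tr_respects M2)
    (TM2to1.trCfg_init (K := PartrecToTM2.K') (Γ := fun _ => PartrecToTM2.Γ')
      (Λ := PartrecToTM2.Λ') (σ := Option PartrecToTM2.Γ') PartrecToTM2.K'.main (trList [n]))
  have e1 : (TM2.init PartrecToTM2.K'.main (trList [n]) :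
      TM2.Cfg (fun _ : PartrecToTM2.K' => PartrecToTM2.Γ') PartrecToTM2.Λ'
        (Option PartrecToTM2.Γ')) = PartrecToTM2.init c [n] := by
    unfold TM2.init PartrecToTM2.init
    congr 1
    funext k
    cases k <;> rfl
  rw [e1] at h1
  rw [← h1]
  have h0 := StateTransition.tr_eval_dom (TM1to0.tr_respects M1)
    (a₁ := TM1.init (TM2to1.trInit PartrecToTM2.K'.main (trList [n]))) rfl
  rw [← h0]
  have e2 : TM2to1.trInit (Γ := fun _ => PartrecToTM2.Γ') PartrecToTM2.K'.main (trList [n]) =
      sym true .cons :: (trNat n).reverse.map (sym false) := by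
    have : (trList [n]).reverse = PartrecToTM2.Γ'.cons :: (trNat n).reverse := by simp
    unfold TM2to1.trInit
    rw [this]
    rfl
  rw [← e2]
  rfl

/-! ### Binary digits -/

theorem trNat_zero : trNat 0 = [] := by simp

theorem trNat_rec' (n : ℕ) (hn : n ≠ 0) : trNat n =
    (if n % 2 = 1 then PartrecToTM2.Γ'.bit1 else PartrecToTM2.Γ'.bit0) :: trNat (n / 2) := by
  obtain ⟨m, rfl⟩ := Nat.exists_eq_succ_of_ne_zero hn
  exact trNat_rec m

theorem trNat_append (k v n : ℕ) (h1 : 2 ^ k ≤ v) (h2 : v < 2 ^ (k + 1)) :
    trNat (2 ^ (k + 1) * n + v) = trNat v ++ trNat n ∧ (trNat v).length = k + 1 := by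
  induction k generalizing v with
  | zero =>
    have hv : v = 1 := by simp at h1 h2; omega
    subst hv
    rw [trNat_rec' _ (by omega), trNat_rec' 1 (by omega)]
    have e1 : (2 ^ (0 + 1) * n + 1) % 2 = 1 := by simp
    have e2 : (2 ^ (0 + 1) * n + 1) / 2 = n := by simp; omega
    rw [e1, e2]
    simp
  | succ k ih =>
    have hv : v ≠ 0 := by
      have : 0 < 2 ^ (k + 1) := by positivity
      omega
    have e1 : (2 ^ (k + 1 + 1) * n + v) % 2 = v % 2 := by
      rw [pow_succ, mul_comm (2 ^ (k + 1)) 2, mul_assoc]; omega
    have e2 : (2 ^ (k + 1 + 1) * n + v) / 2 = 2 ^ (k + 1) * n + v / 2 := by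
      rw [pow_succ, mul_comm (2 ^ (k + 1)) 2, mul_assoc]; omega
    have i1 : 2 ^ k ≤ v / 2 := by rw [pow_succ] at h1; omega
    have i2 : v / 2 < 2 ^ (k + 1) := by rw [pow_succ] at h2; omega
    obtain ⟨j1, j2⟩ := ih (v / 2) i1 i2
    rw [trNat_rec' (2 ^ (k + 1 + 1) * n + v) (by omega), e1, e2, j1, trNat_rec' v hv]
    simp [j2]

theorem trNat_inj {a b : ℕ} (h : trNat a = trNat b) : a = b := by
  induction a using Nat.strong_induction_on generalizing b with
  | _ a ih =>
    by_cases ha : a = 0
    · subst ha
      by_contra hb
      rw [trNat_zero, trNat_rec' b (by omega)] at h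
      simp at h
    · have hb : b ≠ 0 := by
        rintro rfl
        rw [trNat_zero, trNat_rec' a ha] at h
        simp at h
      rw [trNat_rec' a ha, trNat_rec' b hb] at h
      obtain ⟨h1, h2⟩ := List.cons.inj h
      have h3 := ih (a / 2) (by omega) h2
      have h4 : a % 2 = b % 2 := by
        rcases Nat.mod_two_eq_zero_or_one a with ha | ha <;>
          rcases Nat.mod_two_eq_zero_or_one b with hb | hb <;> simp_all
      omega

section Code

variable {S : Type} (k : ℕ) (val : S → ℕ)

/-- the number of a word: the first letter is the most significant block of bits -/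
def code (w : List S) : ℕ := w.foldl (fun acc s => 2 ^ (k + 1) * acc + val s) 0

/-- the block of a letter, most significant bit first -/
def blk (s : S) : List PartrecToTM2.Γ' := (trNat (val s)).reverse

theorem trNat_code (h1 : ∀ s, 2 ^ k ≤ val s) (h2 : ∀ s, val s < 2 ^ (k + 1)) (w : List S) :
    (trNat (code k val w)).reverse = w.flatMap (blk val) := by
  have key : ∀ a : ℕ, (trNat (w.foldl (fun acc s => 2 ^ (k + 1) * acc + val s) a)).reverse =
      (trNat a).reverse ++ w.flatMap (blk val) := by
    induction w with
    | nil => intro a; simp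
    | cons s w ih =>
      intro a
      rw [List.foldl_cons, ih, (trNat_append k (val s) a (h1 s) (h2 s)).1, List.flatMap_cons,
        List.reverse_append, List.append_assoc, List.append_cancel_left_eq]
      rfl
  have := key 0
  rw [trNat_zero] at this
  simpa [code] using this

end Code

section Enc

variable {Γ : Type} [Inhabited Γ] [Fintype Γ] [DecidableEq Γ]

theorem enc_append (l l' : List Γ) : enc (l ++ l') = enc l + bas Γ ^ l.length * enc l' := by
  induction l with
  | nil => simp [enc]
  | cons a l ih =>
    simp only [List.cons_append, enc, ih, List.length_cons, pow_succ]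
    ring

theorem enc_lt (l : List Γ) : enc l < bas Γ ^ l.length := by
  induction l with
  | nil => simp [enc]
  | cons a l ih =>
    simp only [enc, List.length_cons, pow_succ]
    have h1 := kap_lt a
    have h2 : bas Γ * (enc l + 1) ≤ bas Γ * bas Γ ^ l.length := Nat.mul_le_mul_left _ ih
    rw [mul_add, mul_one] at h2
    rw [mul_comm (bas Γ ^ l.length)]
    omega

theorem enc_inj {l l' : List Γ} (hl : l.length = l'.length) (h : enc l = enc l') : l = l' := by
  induction l generalizing l' with
  | nil =>
    cases l' with
    | nil => rfl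
    | cons a l' => simp at hl
  | cons a l ih =>
    cases l' with
    | nil => simp at hl
    | cons a' l' =>
      simp only [enc] at h
      have h1 := kap_lt a
      have h2 := kap_lt a'
      have h3 : kap a = kap a' := by
        have e1 : (kap a + bas Γ * enc l) % bas Γ = kap a := by
          rw [Nat.add_mul_mod_self_left, Nat.mod_eq_of_lt h1]
        have e2 : (kap a' + bas Γ * enc l') % bas Γ = kap a' := by
          rw [Nat.add_mul_mod_self_left, Nat.mod_eq_of_lt h2]
        rw [← e1, ← e2, h]
      have h4 : enc l = enc l' := by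
        rw [h3] at h
        exact Nat.eq_of_mul_eq_mul_left (by unfold bas; omega) (Nat.add_left_cancel h)
      rw [kap_inj h3, ih (by simpa using hl) h4]

theorem enc_pos {a : Γ} {l : List Γ} (ha : a ≠ default) : 0 < enc (a :: l) := by
  have : 0 < kap a := by
    unfold kap
    rw [if_neg ha]
    omega
  simp only [enc]
  omega

end Enc

/-- Abstract description of a machine recognising a set of words. -/
theorem exists_rules (q : ℕ) (P : List (Fin q × Bool) → Prop) (hP : REPred P) :
    ∃ (Q ι : Type) (_ : Finite Q) (_ : Finite ι) (D : Rules Q ι) (p0 p1 : Q) (m0 r0 : V)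
      (e : List (Fin q × Bool) → V) (M : V) (c : Fin q × Bool → V),
      (∀ j, m0 j ≠ 0) ∧ (∀ j, M j ≠ 0) ∧ (∀ s w, e (s :: w) = M * e w + c s) ∧
      (∀ s w' v, e w' = M * v + c s → ∃ w, w' = s :: w) ∧
      (∀ i u, Acc D p0 (D.src i) (D.m i * u + D.r i) →
        Acc D p0 (D.tgt i) (D.a i * u + D.b i)) ∧
      ∀ w, P w ↔ Acc D p0 p1 (m0 * e w + r0) := by
  classical
  have fK : Finite PartrecToTM2.K' := by
    refine Finite.of_injective (fun k : PartrecToTM2.K' => match k with
      | .main => (0 : Fin 4) | .rev => 1 | .aux => 2 | .stack => 3) ?_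
    intro a b h
    cases a <;> cases b <;> simp_all
  have fG : Finite (TM2to1.Γ' PartrecToTM2.K' (fun _ => PartrecToTM2.Γ')) :=
    inferInstanceAs (Finite (Bool × (PartrecToTM2.K' → Option PartrecToTM2.Γ')))
  let _ : Fintype (TM2to1.Γ' PartrecToTM2.K' (fun _ => PartrecToTM2.Γ')) := Fintype.ofFinite _
  -- the values of the letters
  let k : ℕ := Fintype.card (Fin q × Bool)
  let idx : Fin q × Bool → ℕ := fun s => (Fintype.equivFin (Fin q × Bool) s : ℕ)
  have hidx : ∀ s, idx s < k := fun s => (Fintype.equivFin (Fin q × Bool) s).2
  have hk : k < 2 ^ k := Nat.lt_two_pow_self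
  let val : Fin q × Bool → ℕ := fun s => 2 ^ k + idx s
  have hval1 : ∀ s, 2 ^ k ≤ val s := fun s => Nat.le_add_right _ _
  have hval2 : ∀ s, val s < 2 ^ (k + 1) := by
    intro s
    have := hidx s
    simp only [val, pow_succ]
    omega
  have hvalinj : Function.Injective val := by
    intro s s' h
    have h1 : idx s = idx s' := Nat.add_left_cancel h
    exact (Fintype.equivFin (Fin q × Bool)).injective (Fin.ext h1)
  -- the recursive function
  have hcode : Computable (code k val) := by
    apply Primrec.to_comp
    refine Primrec.list_foldl (f := fun l : List (Fin q × Bool) => l) (g := fun _ => 0)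
      (h := fun _ (p : ℕ × (Fin q × Bool)) => 2 ^ (k + 1) * p.1 + val p.2) Primrec.id
      (Primrec.const 0) ?_
    exact (Primrec.nat_add.comp (Primrec.nat_mul.comp (Primrec.const (2 ^ (k + 1)))
      (Primrec.fst.comp Primrec.snd)) ((Primrec.dom_finite val).comp
        (Primrec.snd.comp Primrec.snd))).to₂
  have hre : REPred (fun n : ℕ => ∃ w, code k val w = n ∧ P w) := by
    refine RE.ex (p := fun n w => code k val w = n ∧ P w) ?_
    exact RE.and (RE.eq (hcode.comp Computable.snd) Computable.fst) (RE.comp hP Computable.snd)
  let u : ℕ →. ℕ := fun n => (Part.assert (∃ w, code k val w = n ∧ P w)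
    fun _ => Part.some ()).map (fun _ => 0)
  have hu : Partrec u := Partrec.map hre (Computable.const 0).to₂
  have hud : ∀ n, (u n).Dom ↔ ∃ w, code k val w = n ∧ P w := by
    intro n
    simp only [u, Part.map_Dom]
    constructor
    · rintro ⟨h, -⟩; exact h
    · intro h; exact ⟨h, trivial⟩
  obtain ⟨Λ, i1, i2, Mt, hM⟩ := exists_machine_of u hu
  have hbas : 2 ≤ bas (TM2to1.Γ' PartrecToTM2.K' (fun _ => PartrecToTM2.Γ')) := by
    have : 0 < Fintype.card (TM2to1.Γ' PartrecToTM2.K' (fun _ => PartrecToTM2.Γ')) :=
      Fintype.card_pos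
    unfold bas
    omega
  set B := bas (TM2to1.Γ' PartrecToTM2.K' (fun _ => PartrecToTM2.Γ')) with hB
  -- the code of a word
  let en : List (Fin q × Bool) → ℕ := fun w => enc ((w.flatMap (blk val)).map (sym false))
  let dd : Fin q × Bool → ℕ := fun s => enc ((blk val s).map (sym false))
  have hlen : ∀ s, ((blk val s).map (sym false)).length = k + 1 := by
    intro s
    rw [List.length_map, blk, List.length_reverse]
    exact (trNat_append k (val s) 0 (hval1 s) (hval2 s)).2
  have hen : ∀ s w, en (s :: w) = dd s + B ^ (k + 1) * en w := by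
    intro s w
    simp only [en, dd, List.flatMap_cons, List.map_append]
    rw [enc_append, hlen]
  have hdlt : ∀ s, dd s < B ^ (k + 1) := by
    intro s
    have := enc_lt ((blk val s).map (sym false))
    rwa [hlen] at this
  have hsyminj : Function.Injective (sym false) := by
    intro a b h
    have h1 := congrArg Prod.snd h
    have h2 := congrFun h1 PartrecToTM2.K'.main
    simpa [sym] using h2
  have hdinj : Function.Injective dd := by
    intro s s' h
    have h1 := enc_inj (by rw [hlen, hlen]) h
    have h2 : blk val s = blk val s' := List.map_injective_iff.2 hsyminj h1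
    exact hvalinj (trNat_inj (List.reverse_injective h2))
  have hdpos : ∀ s, 0 < dd s := by
    intro s
    have h1 := hlen s
    rcases hb : (blk val s) with _ | ⟨a, l⟩
    · rw [hb] at h1; simp at h1
    · simp only [dd, hb, List.map_cons]
      apply enc_pos
      intro h
      have h1 := congrArg Prod.snd h
      have h2 := congrFun h1 PartrecToTM2.K'.main
      simp [sym] at h2
  let e : List (Fin q × Bool) → V := fun w j => if j then (en w : ℤ) else 0
  let c : Fin q × Bool → V := fun s j => if j then (dd s : ℤ) else 0
  let M : V := fun _ => (B : ℤ) ^ (k + 1)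
  let m0 : V := fun _ => (B : ℤ)
  let r0 : V := fun j => if j then (kap (sym true .cons) : ℤ) else 0
  have hBz : (B : ℤ) ≠ 0 := by
    have : B ≠ 0 := by omega
    exact_mod_cast this
  let Ms := sys Mt
  have hpos := sys_pos Mt
  let D := mrules Ms hpos
  refine ⟨Option Λ, Option Λ × (Bool → Fin Ms.B), inferInstance, inferInstance, D, none,
    some default, m0, r0, e, M, c, fun _ => hBz, fun _ => pow_ne_zero _ hBz, ?_, ?_,
    acc_forward Ms hpos, ?_⟩
  · intro s w
    funext j
    cases j
    · simp [e, M, c]
    · simp only [e, M, c, Pi.add_apply, Pi.mul_apply, if_true, hen]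
      push_cast
      ring
  · intro s w' v h
    have h1 := congrFun h true
    simp only [e, M, c, Pi.add_apply, Pi.mul_apply, if_true] at h1
    rcases w' with _ | ⟨s', w''⟩
    · exfalso
      have h2 : (en [] : ℤ) = 0 := by simp [en, enc]
      rw [h2] at h1
      have h3 : ((B ^ (k + 1) : ℕ) : ℤ) ∣ ((dd s : ℕ) : ℤ) := ⟨-v true, by push_cast; linarith⟩
      rw [Int.natCast_dvd_natCast] at h3
      have := Nat.le_of_dvd (hdpos s) h3
      have := hdlt s
      omega
    · have h2 : ((dd s' : ℕ) : ℤ) = ((dd s : ℕ) : ℤ) := by
        rw [hen] at h1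
        push_cast at h1
        have e1 : ((dd s' : ℕ) : ℤ) % ((B : ℤ) ^ (k + 1)) = ((dd s : ℕ) : ℤ) %
            ((B : ℤ) ^ (k + 1)) := by
          have e2 : ((dd s' : ℕ) : ℤ) = (dd s : ℤ) + (B : ℤ) ^ (k + 1) * (v true - en w'') := by
            rw [mul_sub]; linarith
          rw [e2, Int.add_mul_emod_self_left]
        rw [Int.emod_eq_of_lt (by positivity) (by exact_mod_cast hdlt s'),
          Int.emod_eq_of_lt (by positivity) (by exact_mod_cast hdlt s)] at e1
        exact e1
      have h3 : s' = s := hdinj (by exact_mod_cast h2)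
      exact ⟨w'', by rw [h3]⟩
  · intro w
    have hinj : P w ↔ ∃ w', code k val w' = code k val w ∧ P w' := by
      constructor
      · intro h; exact ⟨w, rfl, h⟩
      · rintro ⟨w', h1, h2⟩
        have h3 : w'.flatMap (blk val) = w.flatMap (blk val) := by
          rw [← trNat_code k val hval1 hval2, ← trNat_code k val hval1 hval2, h1]
        have h4 : en w' = en w := by simp only [en]; rw [h3]
        have h5 : ∀ w w' : List (Fin q × Bool), en w' = en w → w' = w := by
          intro w
          induction w with
          | nil =>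
            intro w' h
            rcases w' with _ | ⟨s', w'⟩
            · rfl
            · exfalso
              rw [hen] at h
              have h2 : en [] = 0 := by simp [en, enc]
              have := hdpos s'
              omega
          | cons s w ih =>
            intro w' h
            rcases w' with _ | ⟨s', w'⟩
            · exfalso
              rw [hen] at h
              have h2 : en [] = 0 := by simp [en, enc]
              have := hdpos s
              omega
            · rw [hen, hen] at h
              have e1 : (dd s' + B ^ (k + 1) * en w') % B ^ (k + 1) = dd s' := by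
                rw [Nat.add_mul_mod_self_left, Nat.mod_eq_of_lt (hdlt _)]
              have e2 : (dd s + B ^ (k + 1) * en w) % B ^ (k + 1) = dd s := by
                rw [Nat.add_mul_mod_self_left, Nat.mod_eq_of_lt (hdlt _)]
              have e3 : dd s' = dd s := by rw [← e1, ← e2, h]
              have e4 : en w' = en w := by
                rw [e3] at h
                exact Nat.eq_of_mul_eq_mul_left (by positivity) (Nat.add_left_cancel h)
              rw [hdinj e3, ih w' e4]
        rw [h5 w w' h4] at h2
        exact h2
    rw [hinj, ← hud, ← hM]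
    have e1 : m0 * e w + r0 = toV (ini (enc (sym true .cons ::
        ((trNat (code k val w)).reverse.map (sym false))))) := by
      rw [trNat_code k val hval1 hval2]
      funext j
      cases j
      · simp [m0, e, r0, toV, ini]
      · simp only [m0, e, r0, toV, ini, Pi.add_apply, Pi.mul_apply, if_true, enc, en]
        push_cast
        ring
    rw [e1]
    have h1 : Acc D none (some default) (toV (ini (enc (sym true .cons ::
        ((trNat (code k val w)).reverse.map (sym false)))))) ↔
        Ms.Halts (some default) (ini (enc (sym true .cons ::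
        ((trNat (code k val w)).reverse.map (sym false))))) :=
      ⟨fun h => halts_of_acc Ms hpos h _ rfl, acc_of_halts Ms hpos hbas⟩
    rw [h1]
    symm
    apply halts_iff
    constructor
    · have := rep_enc (sym true .cons :: (trNat (code k val w)).reverse.map (sym false))
      have e : (Tape.mk₁ (sym true PartrecToTM2.Γ'.cons ::
          (trNat (code k val w)).reverse.map (sym false))).right₀ = ListBlank.mk (sym true .cons ::
            (trNat (code k val w)).reverse.map (sym false)) := by
        unfold Tape.mk₁ Tape.mk₂
        rw [Tape.mk'_right₀]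
      simp only [e]
      exact this
    · exact rep_zero

end Pool.Agent.Helper784WE.D
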