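import Mathlib
import Pool.Agent.Helper784WE.Spec
import Pool.Agent.Helper270.FP
import Pool.Agent.Helper270.WPB

/-!
Module D, second part: the base group, subgroups generated by parts of a basis, and a form of
module C4 in terms of injective homomorphisms.
-/

set_option autoImplicit false

namespace Pool.Agent.Helper784WE.D

open Pool.Agent.Helper270.WP
open Pool.Agent.Helper270.FP (fp_prod)

/-! ### The base group -/

theorem conc_int (hA : SpecA) : Conc (Multiplicative ℤ) :=
  hA.1 _ _ (FreeGroup.mulEquivIntOfUnique (α := Unit)).symm.toMonoidHom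
    (FreeGroup.mulEquivIntOfUnique (α := Unit)).symm.injective (hA.2.2.2.2 Unit)

/-- coordinates -/
def vEquiv : Multiplicative V ≃* Multiplicative ℤ × Multiplicative ℤ where
  toFun v := (Multiplicative.ofAdd (v.toAdd false), Multiplicative.ofAdd (v.toAdd true))
  invFun x := Multiplicative.ofAdd (fun j => if j then x.2.toAdd else x.1.toAdd)
  left_inv v := by
    apply Multiplicative.toAdd.injective
    funext j
    cases j <;> simp
  right_inv x := by simp
  map_mul' v w := by simp

theorem conc_V (hA : SpecA) : Conc (Multiplicative V) :=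
  hA.1 _ _ vEquiv.toMonoidHom vEquiv.injective (hA.2.1 _ _ (conc_int hA) (conc_int hA))

theorem conc_G0 (hA : SpecA) (P : Type) : Conc (G0 P) := by
  have hN : (SemidirectProduct.rightHom : G0 P →* Multiplicative V).ker.Normal := inferInstance
  refine hA.2.2.1 (G0 P) (SemidirectProduct.rightHom : G0 P →* Multiplicative V).ker ?_ ?_
  · let f : FreeGroup (P × V) ≃* (SemidirectProduct.rightHom : G0 P →* Multiplicative V).ker :=
      (MonoidHom.ofInjective (f := (SemidirectProduct.inl : FreeGroup (P × V) →* G0 P))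
        SemidirectProduct.inl_injective).trans
        (MulEquiv.subgroupCongr SemidirectProduct.range_inl_eq_ker_rightHom)
    exact hA.1 _ _ f.symm.toMonoidHom f.symm.injective (hA.2.2.2.2 _)
  · let f := QuotientGroup.quotientKerEquivOfSurjective
      (SemidirectProduct.rightHom : G0 P →* Multiplicative V)
      SemidirectProduct.rightHom_surjective
    exact hA.1 _ _ f.toMonoidHom f.injective (conc_V hA)

theorem fg_of_fp {G : Type} [Group G] (h : Group.IsFinitelyPresented G) : Group.FG G := by
  obtain ⟨n, f, hf, -⟩ := h.out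
  exact Group.fg_of_surjective hf

theorem fp_V : Group.IsFinitelyPresented (Multiplicative V) := by
  have h1 : Group.FG (Multiplicative ℤ) := fg_of_fp inferInstance
  have : Group.IsFinitelyPresented (Multiplicative ℤ × Multiplicative ℤ) := fp_prod
  exact Group.IsFinitelyPresented.equiv vEquiv.symm

section Base

variable {P : Type}

theorem inl_of_eq (p : P) (n : V) : (SemidirectProduct.inl (FreeGroup.of (p, n)) : G0 P) =
    (SemidirectProduct.inr (Multiplicative.ofAdd n))⁻¹ *
      SemidirectProduct.inl (FreeGroup.of (p, 0)) *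
      SemidirectProduct.inr (Multiplicative.ofAdd n) := by
  have := SemidirectProduct.inl_aut (φ := φ P) (Multiplicative.ofAdd (-n)) (FreeGroup.of (p, 0))
  rw [φ_of] at this
  rw [toAdd_ofAdd, sub_neg_eq_add, zero_add, ofAdd_neg, map_inv, inv_inv] at this
  exact this

/-- from the free product -/
def toG0 (P : Type) : Monoid.Coprod (FreeGroup P) (Multiplicative V) →* G0 P :=
  Monoid.Coprod.lift (FreeGroup.lift (fun p => SemidirectProduct.inl (FreeGroup.of (p, 0))))
    SemidirectProduct.inr

/-- to the free product -/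
def fromG0 (P : Type) : G0 P →* Monoid.Coprod (FreeGroup P) (Multiplicative V) :=
  SemidirectProduct.lift (FreeGroup.lift (fun x : P × V =>
    (Monoid.Coprod.inr (Multiplicative.ofAdd x.2))⁻¹ * Monoid.Coprod.inl (FreeGroup.of x.1) *
      Monoid.Coprod.inr (Multiplicative.ofAdd x.2))) Monoid.Coprod.inr (by
    intro v
    apply FreeGroup.ext_hom
    rintro ⟨p, n⟩
    simp only [MonoidHom.comp_apply, MulEquiv.coe_toMonoidHom, φ_of, FreeGroup.lift_apply_of,
      MulAut.conj_apply]
    rw [ofAdd_sub, ofAdd_toAdd, map_div, div_eq_mul_inv]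
    group)

theorem fp_G0 (P : Type) [Finite P] : Group.IsFinitelyPresented (G0 P) := by
  have hV := fp_V
  have h1 : (fromG0 P).comp (toG0 P) = MonoidHom.id _ := by
    apply Monoid.Coprod.hom_ext
    · apply FreeGroup.ext_hom
      intro p
      simp [toG0, fromG0]
    · ext v
      simp [toG0, fromG0]
  have h2 : (toG0 P).comp (fromG0 P) = MonoidHom.id _ := by
    apply SemidirectProduct.hom_ext
    · apply FreeGroup.ext_hom
      rintro ⟨p, n⟩
      simp only [MonoidHom.comp_apply, fromG0, SemidirectProduct.lift_inl,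
        FreeGroup.lift_apply_of, map_mul, map_inv, toG0, Monoid.Coprod.lift_apply_inl,
        Monoid.Coprod.lift_apply_inr, MonoidHom.id_apply]
      rw [inl_of_eq p n]
    · ext v <;> simp [toG0, fromG0]
  exact Group.IsFinitelyPresented.equiv (MonoidHom.toMulEquiv (toG0 P) (fromG0 P) h1 h2)

end Base

/-! ### Subgroups generated by parts of a basis -/

/-- the subgroup generated by a part of the basis -/
def cl {α : Type} (X : Set α) : Subgroup (FreeGroup α) := Subgroup.closure (FreeGroup.of '' X)

theorem of_mem_cl {α : Type} {X : Set α} {x : α} (h : x ∈ X) : FreeGroup.of x ∈ cl X :=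
  Subgroup.subset_closure ⟨x, h, rfl⟩

theorem map_cl_le {α : Type} {G : Type} [Group G] (X : Set α) (f : FreeGroup α →* G)
    (K : Subgroup G) (h : ∀ x ∈ X, f (FreeGroup.of x) ∈ K) {y : FreeGroup α} (hy : y ∈ cl X) :
    f y ∈ K := by
  have h1 : cl X ≤ K.comap f := by
    unfold cl
    rw [Subgroup.closure_le]
    rintro _ ⟨x, hx, rfl⟩
    exact h x hx
  exact h1 hy

theorem eq_on_cl {α : Type} {G : Type} [Group G] (X : Set α) (f g : FreeGroup α →* G)
    (h : ∀ x ∈ X, f (FreeGroup.of x) = g (FreeGroup.of x)) {y : FreeGroup α} (hy : y ∈ cl X) :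
    f y = g y := by
  have h1 : cl X ≤ f.eqLocus g := by
    unfold cl
    rw [Subgroup.closure_le]
    rintro _ ⟨x, hx, rfl⟩
    exact h x hx
  exact h1 hy

theorem map_mem_cl {α β : Type} (θ : α → β) (hθ : Function.Injective θ) (X : Set β)
    (y : FreeGroup α) : FreeGroup.map θ y ∈ cl X ↔ y ∈ cl (θ ⁻¹' X) := by
  classical
  constructor
  · intro h
    let r : FreeGroup β →* FreeGroup α :=
      FreeGroup.lift (fun b => if h : ∃ a, θ a = b then FreeGroup.of h.choose else 1)
    have hr : ∀ a, r (FreeGroup.of (θ a)) = FreeGroup.of a := by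
      intro a
      have hex : ∃ a', θ a' = θ a := ⟨a, rfl⟩
      simp only [r, FreeGroup.lift_apply_of]
      rw [dif_pos hex, hθ hex.choose_spec]
    have h1 : r (FreeGroup.map θ y) = y := by
      have : r.comp (FreeGroup.map θ) = MonoidHom.id _ := by
        apply FreeGroup.ext_hom
        intro a
        simp [hr]
      exact DFunLike.congr_fun this y
    rw [← h1]
    refine map_cl_le X r _ ?_ h
    intro b hb
    simp only [r, FreeGroup.lift_apply_of]
    split_ifs with hex
    · apply of_mem_cl
      change θ hex.choose ∈ X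
      rw [hex.choose_spec]
      exact hb
    · exact one_mem _
  · intro h
    refine map_cl_le _ (FreeGroup.map θ) _ ?_ h
    intro a ha
    rw [FreeGroup.map.of]
    exact of_mem_cl ha

theorem cl_inf {α : Type} (X Y : Set α) {y : FreeGroup α} (hX : y ∈ cl X) (hY : y ∈ cl Y) :
    y ∈ cl (X ∩ Y) := by
  classical
  let r : FreeGroup α →* FreeGroup α :=
    FreeGroup.lift (fun b => if b ∈ Y then FreeGroup.of b else 1)
  have h1 : r y = y := by
    refine eq_on_cl Y r (MonoidHom.id _) ?_ hY
    intro x hx
    simp [r, hx]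
  rw [← h1]
  refine map_cl_le X r _ ?_ hX
  intro b hb
  simp only [r, FreeGroup.lift_apply_of]
  split_ifs with h
  · exact of_mem_cl ⟨hb, h⟩
  · exact one_mem _

theorem cl_mono {α : Type} {X Y : Set α} (h : X ⊆ Y) : cl X ≤ cl Y :=
  Subgroup.closure_mono (Set.image_mono h)

section Rule

variable {P : Type}

theorem jj_inl' (p : P) (m ρ : V) (y : FreeGroup (Unit × V)) :
    jj p m ρ (SemidirectProduct.inl y) =
      SemidirectProduct.inl (FreeGroup.map (fun x : Unit × V => (p, m * x.2 + ρ)) y) := by
  simp [jj]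

theorem pt_inj (p : P) (m ρ : V) (hm : ∀ j, m j ≠ 0) :
    Function.Injective (fun x : Unit × V => (p, m * x.2 + ρ)) := by
  rintro ⟨⟨⟩, u⟩ ⟨⟨⟩, v⟩ huv
  have h1 := add_right_cancel (Prod.mk.inj huv).2
  have : u = v := by
    funext j
    exact mul_left_cancel₀ (hm j) (congrFun h1 j)
  rw [this]

/-- Membership in a subgroup generated by basis elements, pulled back along a rule. -/
theorem jj_mem (p : P) (m ρ : V) (hm : ∀ j, m j ≠ 0) (X : Set (P × V)) (s : G0 Unit) :
    jj p m ρ s ∈ (cl X).map (SemidirectProduct.inl : FreeGroup (P × V) →* G0 P) ↔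
      ∃ y ∈ cl {x : Unit × V | (p, m * x.2 + ρ) ∈ X}, SemidirectProduct.inl y = s := by
  constructor
  · rintro ⟨z, hz, hzs⟩
    have h1 := congrArg SemidirectProduct.right hzs
    simp only [jj, SemidirectProduct.map_right] at h1
    have h2 : s.right = 1 := by
      have h3 : m * s.right.toAdd = 0 := h1.symm
      apply Multiplicative.toAdd.injective
      funext j
      have h4 := congrFun h3 j
      simp only [Pi.mul_apply, Pi.zero_apply, mul_eq_zero] at h4
      exact h4.resolve_left (hm j)
    have h3 : (SemidirectProduct.inl s.left : G0 Unit) = s := by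
      apply SemidirectProduct.ext
      · rfl
      · rw [h2]; rfl
    refine ⟨s.left, ?_, h3⟩
    rw [← h3, jj_inl'] at hzs
    have h4 := SemidirectProduct.inl_injective hzs
    rw [h4] at hz
    exact (map_mem_cl _ (pt_inj p m ρ hm) X _).mp hz
  · rintro ⟨y, hy, rfl⟩
    rw [jj_inl']
    exact ⟨_, (map_mem_cl _ (pt_inj p m ρ hm) X y).mpr hy, rfl⟩

end Rule

/-! ### Module C4 for injective homomorphisms -/

theorem benign_hnn (h4 : SpecC4) {K : Type} [Group K] (ι : Type) [Finite ι] (S : Type) [Group S]
    (f g : ι → S →* K) (hf : ∀ i, Function.Injective (f i)) (hg : ∀ i, Function.Injective (g i))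
    (hK : Group.IsFinitelyPresented K) (hC : Conc K) (hS : Group.FG S) (U : Subgroup K)
    (hU : ∀ i s, f i s ∈ U ↔ g i s ∈ U) (X : Set K) (hX : X.Finite) (hXU : X ⊆ U)
    (hgen : ∀ (E : Type) (_ : Group E) (j : K →* E) (t : ι → E),
      (∀ i s, t i * j (f i s) = j (g i s) * t i) →
      U.map j ≤ Subgroup.closure (j '' X ∪ Set.range t)) : Benign U := by
  obtain ⟨m, ⟨e⟩⟩ := Finite.exists_equiv_fin ι
  obtain ⟨E, _, j, t, hE, hEC, hj, hrel, hH⟩ := h4 K m (fun i => (f (e.symm i)).range)
    (fun i => (g (e.symm i)).range)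
    (fun i => (MonoidHom.ofInjective (hf (e.symm i))).symm.trans
      (MonoidHom.ofInjective (hg (e.symm i)))) hK hC (by
      intro i
      exact (Group.fg_iff_subgroup_fg _).mp inferInstance)
  have hφ : ∀ i s, ((((MonoidHom.ofInjective (hf (e.symm i))).symm.trans
      (MonoidHom.ofInjective (hg (e.symm i))))
      (⟨f (e.symm i) s, s, rfl⟩ : (f (e.symm i)).range) : (g (e.symm i)).range) : K) =
      g (e.symm i) s := by
    intro i s
    have h1 : (MonoidHom.ofInjective (hf (e.symm i))).symm
        (⟨f (e.symm i) s, s, rfl⟩ : (f (e.symm i)).range) = s := by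
      rw [MulEquiv.symm_apply_eq]
      rfl
    rw [MulEquiv.trans_apply, h1]
    rfl
  have hrel' : ∀ i s, t (e i) * j (f i s) = j (g i s) * t (e i) := by
    intro i s
    have h1 := hrel (e i) ⟨f (e.symm (e i)) s, s, rfl⟩
    rw [hφ] at h1
    simp only [Equiv.symm_apply_apply] at h1
    exact h1
  have hU' := hH U (by
    rintro i ⟨_, s, rfl⟩
    rw [hφ]
    exact hU _ s)
  refine ⟨E, _, j, _, hj, ?_, hE, hEC, hU'⟩
  have hle := hgen E _ j (fun i => t (e i)) hrel'
  have hr : Set.range (fun i => t (e i)) = Set.range t := e.surjective.range_comp t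
  rw [hr] at hle
  have heq : Subgroup.closure ((U.map j : Set E) ∪ Set.range t) =
      Subgroup.closure (j '' X ∪ Set.range t) := by
    apply le_antisymm
    · rw [Subgroup.closure_le]
      rintro x (hx | hx)
      · exact hle hx
      · exact Subgroup.subset_closure (Or.inr hx)
    · apply Subgroup.closure_mono
      apply Set.union_subset_union_left
      rintro _ ⟨x, hx, rfl⟩
      exact ⟨x, hXU hx, rfl⟩
  rw [heq]
  exact (Subgroup.fg_iff _).mpr ⟨_, rfl, (hX.image _).union (Set.finite_range _)⟩

/-! ### The halting configurations form a benign subgroup -/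

theorem benign_acc (hA : SpecA) (h4 : SpecC4) {Q ι : Type} [Finite Q] [Finite ι] (D : Rules Q ι)
    (p0 : Q) (hfw : ∀ i u, Acc D p0 (D.src i) (D.m i * u + D.r i) →
        Acc D p0 (D.tgt i) (D.a i * u + D.b i)) :
    Benign ((cl {x : Q × V | Acc D p0 x.1 x.2}).map
      (SemidirectProduct.inl : FreeGroup (Q × V) →* G0 Q)) := by
  refine benign_hnn h4 ι (G0 Unit) (fun i => jj (D.src i) (D.m i) (D.r i))
    (fun i => jj (D.tgt i) (D.a i) (D.b i)) (fun i => jj_injective _ _ _ (D.hm i))
    (fun i => jj_injective _ _ _ (D.ha i)) (fp_G0 Q) (conc_G0 hA Q) (fg_of_fp (fp_G0 Unit)) _ ?_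
    {SemidirectProduct.inl (FreeGroup.of (p0, 0))} (Set.finite_singleton _) ?_ ?_
  · intro i s
    rw [jj_mem _ _ _ (D.hm i), jj_mem _ _ _ (D.ha i)]
    have : {x : Unit × V | (D.src i, D.m i * x.2 + D.r i) ∈ {x : Q × V | Acc D p0 x.1 x.2}} =
        {x : Unit × V | (D.tgt i, D.a i * x.2 + D.b i) ∈ {x : Q × V | Acc D p0 x.1 x.2}} := by
      ext x
      exact ⟨fun h => hfw i x.2 h, fun h => Acc.step i x.2 h⟩
    rw [this]
  · rintro _ rfl
    exact ⟨_, of_mem_cl (X := {x : Q × V | Acc D p0 x.1 x.2}) (x := (p0, 0)) Acc.base, rfl⟩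
  · intro E _ j t hrel
    rintro _ ⟨_, ⟨y, hy, rfl⟩, rfl⟩
    refine map_cl_le _ (j.comp SemidirectProduct.inl) _ ?_ hy
    rintro ⟨p, v⟩ hx
    have hx' : Acc D p0 p v := hx
    change j (SemidirectProduct.inl (FreeGroup.of (p, v))) ∈ _
    clear hx
    induction hx' with
    | base => exact Subgroup.subset_closure (Or.inl ⟨_, rfl, rfl⟩)
    | step i u _ ih =>
      have h1 := hrel i (SemidirectProduct.inl (FreeGroup.of ((), u)))
      simp only [jj_inl] at h1
      have h2 : j (SemidirectProduct.inl (FreeGroup.of (D.src i, D.m i * u + D.r i))) =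
          (t i)⁻¹ * j (SemidirectProduct.inl (FreeGroup.of (D.tgt i, D.a i * u + D.b i))) *
            t i := by
        rw [mul_assoc, ← h1]; group
      rw [h2]
      have h3 : t i ∈ Subgroup.closure (j '' {SemidirectProduct.inl (FreeGroup.of (p0, 0))} ∪
          Set.range t) := Subgroup.subset_closure (Or.inr ⟨i, rfl⟩)
      exact mul_mem (mul_mem (inv_mem h3) ih) h3

end Pool.Agent.Helper784WE.D
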