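import Mathlib
import Pool.Agent.Helper784WE.Spec
import Pool.Agent.Helper784WE.D1
import Pool.Agent.Helper784WE.D2

/-!
Module D: subgroups generated by recursively enumerable sets of words are benign.
-/

set_option autoImplicit false

namespace Pool.Agent.Helper784WE.D

open Pool.Agent.Helper270.WP
open Pool.Agent.Helper270.FP (fp_prod)

section Words

variable {q : ℕ}

/-- the words, in the free group with one more generator -/
def wd (w : List (Fin q × Bool)) : FreeGroup (Option (Fin q)) :=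
  FreeGroup.map some (FreeGroup.mk w)

theorem wd_cons (s : Fin q × Bool) (w : List (Fin q × Bool)) : wd (s :: w) = wd [s] * wd w := by
  unfold wd
  rw [← map_mul, FreeGroup.mul_mk]
  rfl

theorem wd_nil : wd ([] : List (Fin q × Bool)) = 1 := by
  unfold wd
  exact map_one (FreeGroup.map some)

/-- multiply the extra generator on the right -/
def al (x : FreeGroup (Option (Fin q))) : FreeGroup (Option (Fin q)) →* FreeGroup (Option (Fin q)) :=
  FreeGroup.lift (fun o => match o with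
    | none => FreeGroup.of none * x
    | some i => FreeGroup.of (some i))

theorem al_none (x : FreeGroup (Option (Fin q))) : al x (FreeGroup.of none) =
    FreeGroup.of none * x := by simp [al]

theorem al_map (x : FreeGroup (Option (Fin q))) (y : FreeGroup (Fin q)) :
    al x (FreeGroup.map some y) = FreeGroup.map some y := by
  have : (al x).comp (FreeGroup.map some) = FreeGroup.map some := by
    apply FreeGroup.ext_hom
    intro a
    simp [al]
  exact DFunLike.congr_fun this y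

theorem al_wd (x : FreeGroup (Option (Fin q))) (w : List (Fin q × Bool)) :
    al x (wd w) = wd w := al_map x _

theorem al_injective (s : Fin q × Bool) : Function.Injective (al (wd [s])) := by
  have h : (al (wd [s])⁻¹).comp (al (wd [s])) = MonoidHom.id _ := by
    apply FreeGroup.ext_hom
    rintro (_ | i)
    · rw [MonoidHom.comp_apply, al_none, map_mul, al_none, wd, al_map, MonoidHom.id_apply]
      group
    · simp [al]
  intro x y hxy
  have h1 := DFunLike.congr_fun h x
  have h2 := DFunLike.congr_fun h y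
  rw [MonoidHom.comp_apply, MonoidHom.id_apply] at h1 h2
  rw [← h1, ← h2, hxy]

/-- kill the extra generator -/
def kill : FreeGroup (Option (Fin q)) →* FreeGroup (Fin q) :=
  FreeGroup.lift (fun o => match o with
    | none => 1
    | some i => FreeGroup.of i)

theorem kill_none : kill (FreeGroup.of (none : Option (Fin q))) = 1 := by simp [kill]

theorem kill_wd (w : List (Fin q × Bool)) : kill (wd w) = FreeGroup.mk w := by
  have : (kill (q := q)).comp (FreeGroup.map some) = MonoidHom.id _ := by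
    apply FreeGroup.ext_hom
    intro a
    simp [kill]
  exact DFunLike.congr_fun this (FreeGroup.mk w)

end Words

section Main

variable {q : ℕ} {Q : Type} (p1 : Q) (m0 r0 : V) (e : List (Fin q × Bool) → V) (M : V)
  (c : Fin q × Bool → V)

/-- the configurations coding words -/
def X1 : Set (Q × V) := {x | ∃ w, x = (p1, m0 * e w + r0)}

open Classical in
/-- the homomorphism whose graph is used -/
noncomputable def Th : FreeGroup (Q × V) →* FreeGroup (Option (Fin q)) :=
  FreeGroup.lift (fun x => if h : ∃ w, x = (p1, m0 * e w + r0) then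
    FreeGroup.of none * wd h.choose else 1)

/-- the graph -/
noncomputable def H2 : Subgroup (G0 Q × FreeGroup (Option (Fin q))) :=
  (cl (X1 p1 m0 r0 e)).map ((SemidirectProduct.inl : FreeGroup (Q × V) →* G0 Q).prod
    (Th p1 m0 r0 e))

theorem mul_cancel_V {m : V} (hm : ∀ j, m j ≠ 0) {u v : V} (h : m * u = m * v) : u = v := by
  funext j
  exact mul_left_cancel₀ (hm j) (congrFun h j)

variable (hm0 : ∀ j, m0 j ≠ 0) (hM : ∀ j, M j ≠ 0)
  (hcons : ∀ s w, e (s :: w) = M * e w + c s)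
  (hdec : ∀ s w' v, e w' = M * v + c s → ∃ w, w' = s :: w)

include hM hcons hdec in
theorem e_injective : Function.Injective e := by
  intro w
  induction w with
  | nil =>
    intro w' h
    rcases w' with _ | ⟨s, w'⟩
    · rfl
    · rw [hcons s w'] at h
      obtain ⟨w, hw⟩ := hdec _ _ _ h
      exact absurd hw (by simp)
  | cons s w ih =>
    intro w' h
    have h1 := h
    rw [hcons s w] at h1
    obtain ⟨w1, rfl⟩ := hdec _ _ _ h1.symm
    rw [hcons s w1] at h1
    rw [ih (mul_cancel_V hM (add_right_cancel h1))]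

include hm0 hM hcons hdec in
theorem Th_of (w : List (Fin q × Bool)) :
    Th p1 m0 r0 e (FreeGroup.of (p1, m0 * e w + r0)) = FreeGroup.of none * wd w := by
  classical
  have hex : ∃ w', ((p1, m0 * e w + r0) : Q × V) = (p1, m0 * e w' + r0) := ⟨w, rfl⟩
  simp only [Th, FreeGroup.lift_apply_of]
  rw [dif_pos hex]
  have h1 := hex.choose_spec
  have h2 := (Prod.mk.inj h1).2
  have h3 : e w = e hex.choose := mul_cancel_V hm0 (add_right_cancel h2)
  have h4 := e_injective e M c hM hcons hdec h3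
  rw [← h4]

/-- the domain of the rule of a letter -/
def fL : G0 Unit × FreeGroup (Option (Fin q)) →* G0 Q × FreeGroup (Option (Fin q)) :=
  (jj p1 m0 r0).prodMap (MonoidHom.id _)

/-- the range of the rule of a letter -/
def gL (s : Fin q × Bool) :
    G0 Unit × FreeGroup (Option (Fin q)) →* G0 Q × FreeGroup (Option (Fin q)) :=
  (jj p1 (m0 * M) (m0 * c s + r0)).prodMap (al (wd [s]))

theorem fL_apply (a : G0 Unit) (z : FreeGroup (Option (Fin q))) :
    fL p1 m0 r0 (a, z) = (jj p1 m0 r0 a, z) := rfl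

theorem gL_apply (s : Fin q × Bool) (a : G0 Unit) (z : FreeGroup (Option (Fin q))) :
    gL p1 m0 r0 M c s (a, z) = (jj p1 (m0 * M) (m0 * c s + r0) a, al (wd [s]) z) := rfl

theorem mem_H2 (a : G0 Q) (z : FreeGroup (Option (Fin q))) : (a, z) ∈ H2 p1 m0 r0 e ↔
    ∃ y ∈ cl (X1 p1 m0 r0 e), SemidirectProduct.inl y = a ∧ Th p1 m0 r0 e y = z := by
  constructor
  · rintro ⟨y, hy, h⟩
    exact ⟨y, hy, congrArg Prod.fst h, congrArg Prod.snd h⟩
  · rintro ⟨y, hy, rfl, rfl⟩
    exact ⟨y, hy, rfl⟩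

include hm0 hM hcons hdec in
theorem good (s : Fin q × Bool) (x : G0 Unit × FreeGroup (Option (Fin q))) :
    fL p1 m0 r0 x ∈ H2 p1 m0 r0 e ↔ gL p1 m0 r0 M c s x ∈ H2 p1 m0 r0 e := by
  obtain ⟨a, z⟩ := x
  have hm1 : ∀ j, (m0 * M) j ≠ 0 := fun j => mul_ne_zero (hm0 j) (hM j)
  -- the affine identity
  have haff : ∀ v : V, (m0 * M) * v + (m0 * c s + r0) = m0 * (M * v + c s) + r0 := by
    intro v; ring
  have hset0 : {x : Unit × V | (p1, m0 * x.2 + r0) ∈ X1 p1 m0 r0 e} =
      {x : Unit × V | ∃ w, x.2 = e w} := by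
    ext x
    constructor
    · rintro ⟨w, hw⟩
      exact ⟨w, mul_cancel_V hm0 (add_right_cancel (Prod.mk.inj hw).2)⟩
    · rintro ⟨w, hw⟩
      exact ⟨w, by rw [hw]⟩
  have hset1 : {x : Unit × V | (p1, (m0 * M) * x.2 + (m0 * c s + r0)) ∈ X1 p1 m0 r0 e} =
      {x : Unit × V | ∃ w, x.2 = e w} := by
    ext x
    constructor
    · rintro ⟨w', hw'⟩
      rw [haff] at hw'
      have h1 := mul_cancel_V hm0 (add_right_cancel (Prod.mk.inj hw').2)
      obtain ⟨w, rfl⟩ := hdec _ _ _ h1.symm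
      rw [hcons] at h1
      exact ⟨w, mul_cancel_V hM (add_right_cancel h1)⟩
    · rintro ⟨w, hw⟩
      refine ⟨s :: w, ?_⟩
      rw [haff, hw, hcons]
  -- the two homomorphisms on the subgroup generated by the codes
  have hTh : ∀ y ∈ cl {x : Unit × V | ∃ w, x.2 = e w},
      al (wd [s]) (Th p1 m0 r0 e (FreeGroup.map (fun x : Unit × V => (p1, m0 * x.2 + r0)) y)) =
      Th p1 m0 r0 e (FreeGroup.map
        (fun x : Unit × V => (p1, (m0 * M) * x.2 + (m0 * c s + r0))) y) := by
    intro y hy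
    refine eq_on_cl _ ((al (wd [s])).comp ((Th p1 m0 r0 e).comp (FreeGroup.map
      (fun x : Unit × V => (p1, m0 * x.2 + r0))))) ((Th p1 m0 r0 e).comp (FreeGroup.map
        (fun x : Unit × V => (p1, (m0 * M) * x.2 + (m0 * c s + r0))))) ?_ hy
    rintro ⟨⟨⟩, v⟩ ⟨w, hw⟩
    have hw : v = e w := hw
    subst hw
    simp only [MonoidHom.comp_apply, FreeGroup.map.of]
    rw [haff, ← hcons, Th_of p1 m0 r0 e M c hm0 hM hcons hdec,
      Th_of p1 m0 r0 e M c hm0 hM hcons hdec, map_mul, al_none, wd_cons s w, al_wd, mul_assoc]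
  rw [fL_apply, gL_apply, mem_H2, mem_H2]
  constructor
  · rintro ⟨y, hy, hya, hyz⟩
    obtain ⟨y', hy', rfl⟩ := (jj_mem p1 m0 r0 hm0 (X1 p1 m0 r0 e) a).mp ⟨y, hy, hya⟩
    rw [jj_inl'] at hya
    have hyy := SemidirectProduct.inl_injective hya
    subst hyy
    rw [hset0] at hy'
    refine ⟨FreeGroup.map (fun x : Unit × V => (p1, (m0 * M) * x.2 + (m0 * c s + r0))) y', ?_,
      ?_, ?_⟩
    · rw [map_mem_cl _ (pt_inj p1 _ _ hm1)]
      change y' ∈ cl {x : Unit × V | (p1, (m0 * M) * x.2 + (m0 * c s + r0)) ∈ X1 p1 m0 r0 e}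
      rw [hset1]
      exact hy'
    · rw [jj_inl']
    · rw [← hTh y' hy', hyz]
  · rintro ⟨y, hy, hya, hyz⟩
    obtain ⟨y', hy', rfl⟩ := (jj_mem p1 (m0 * M) (m0 * c s + r0) hm1
      (X1 p1 m0 r0 e) a).mp ⟨y, hy, hya⟩
    rw [jj_inl'] at hya
    have hyy := SemidirectProduct.inl_injective hya
    subst hyy
    rw [hset1] at hy'
    refine ⟨FreeGroup.map (fun x : Unit × V => (p1, m0 * x.2 + r0)) y', ?_, ?_, ?_⟩
    · rw [map_mem_cl _ (pt_inj p1 _ _ hm0)]
      change y' ∈ cl {x : Unit × V | (p1, m0 * x.2 + r0) ∈ X1 p1 m0 r0 e}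
      rw [hset0]
      exact hy'
    · rw [jj_inl']
    · rw [← hTh y' hy'] at hyz
      exact al_injective s hyz

variable (Q) in
theorem fp_G0F [Finite Q] :
    Group.IsFinitelyPresented (G0 Q × FreeGroup (Option (Fin q))) := by
  have h1 := fp_G0 Q
  have h2 := fg_of_fp h1
  have h3 : Group.FG (FreeGroup (Option (Fin q))) := fg_of_fp inferInstance
  exact fp_prod

include hm0 hM hcons hdec in
theorem benign_H2 (hA : SpecA) (h4 : SpecC4) [Finite Q] : Benign (H2 p1 m0 r0 e) := by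
  have hm1 : ∀ j, (m0 * M) j ≠ 0 := fun j => mul_ne_zero (hm0 j) (hM j)
  refine benign_hnn h4 (Fin q × Bool) (G0 Unit × FreeGroup (Option (Fin q)))
    (fun _ => fL p1 m0 r0) (gL p1 m0 r0 M c) ?_ ?_ (fp_G0F Q)
    (hA.2.1 _ _ (conc_G0 hA Q) (hA.2.2.2.2 _)) (fg_of_fp (fp_G0F Unit)) _
    (good p1 m0 r0 e M c hm0 hM hcons hdec)
    {(SemidirectProduct.inl (FreeGroup.of (p1, m0 * e [] + r0)), FreeGroup.of none)}
    (Set.finite_singleton _) ?_ ?_
  · rintro _ ⟨a, z⟩ ⟨a', z'⟩ h
    rw [fL_apply, fL_apply] at h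
    rw [jj_injective _ _ _ hm0 (Prod.mk.inj h).1, (Prod.mk.inj h).2]
  · rintro s ⟨a, z⟩ ⟨a', z'⟩ h
    rw [gL_apply, gL_apply] at h
    rw [jj_injective _ _ _ hm1 (Prod.mk.inj h).1, al_injective s (Prod.mk.inj h).2]
  · rintro _ rfl
    refine (mem_H2 p1 m0 r0 e _ _).mpr ⟨FreeGroup.of (p1, m0 * e [] + r0),
      of_mem_cl ⟨[], rfl⟩, rfl, ?_⟩
    rw [Th_of p1 m0 r0 e M c hm0 hM hcons hdec, wd_nil, mul_one]
  · intro E _ j t hrel
    rintro _ ⟨_, ⟨y, hy, rfl⟩, rfl⟩
    refine map_cl_le _ (j.comp ((SemidirectProduct.inl : FreeGroup (Q × V) →* G0 Q).prod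
      (Th p1 m0 r0 e))) _ ?_ hy
    rintro _ ⟨w, rfl⟩
    simp only [MonoidHom.comp_apply, MonoidHom.prod_apply]
    rw [Th_of p1 m0 r0 e M c hm0 hM hcons hdec]
    induction w with
    | nil =>
      rw [wd_nil, mul_one]
      exact Subgroup.subset_closure (Or.inl ⟨_, rfl, rfl⟩)
    | cons s w ih =>
      have h1 := hrel s (SemidirectProduct.inl (FreeGroup.of ((), e w)),
        FreeGroup.of none * wd w)
      rw [fL_apply, gL_apply, jj_inl, jj_inl] at h1
      have e1 : al (wd [s]) (FreeGroup.of none * wd w) = FreeGroup.of none * wd (s :: w) := by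
        rw [map_mul, al_none, wd_cons s w, mul_assoc, al_wd]
      have e2 : (m0 * M) * e w + (m0 * c s + r0) = m0 * e (s :: w) + r0 := by
        rw [hcons]; ring
      rw [e1, e2] at h1
      have h2 : j (SemidirectProduct.inl (FreeGroup.of (p1, m0 * e (s :: w) + r0)),
          FreeGroup.of none * wd (s :: w)) =
          t s * j (SemidirectProduct.inl (FreeGroup.of (p1, m0 * e w + r0)),
          FreeGroup.of none * wd w) * (t s)⁻¹ := by
        rw [h1]; group
      rw [h2]
      have h3 : t s ∈ Subgroup.closure (j '' {(SemidirectProduct.inl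
          (FreeGroup.of (p1, m0 * e [] + r0)), FreeGroup.of none)} ∪
          Set.range t) := Subgroup.subset_closure (Or.inr ⟨s, rfl⟩)
      exact mul_mem (mul_mem h3 ih) (inv_mem h3)

end Main

end D

open D Pool.Agent.Helper270.WP in
/-- Module D. -/
theorem specD (hA : SpecA) (h1 : SpecC1) (h2 : SpecC2) (h3 : SpecC3) (h4 : SpecC4) : SpecD := by
  intro q P hP
  obtain ⟨Q, ι, _, _, D, p0, p1, m0, r0, e, M, c, hm0, hM, hcons, hdec, hfw, hacc⟩ :=
    exists_rules q P hP
  have hKfp : Group.IsFinitelyPresented (G0 Q × FreeGroup (Option (Fin q))) := fp_G0F Q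
  have hKc : Conc (G0 Q × FreeGroup (Option (Fin q))) :=
    hA.2.1 _ _ (conc_G0 hA Q) (hA.2.2.2.2 _)
  have b1 := benign_H2 p1 m0 r0 e M c hm0 hM hcons hdec hA h4
  have b2 := benign_acc hA h4 D p0 hfw
  have b3 := h2 _ _ (MonoidHom.fst (G0 Q) (FreeGroup (Option (Fin q)))) _ hKfp hKc b2
  have b4 := h1 _ _ _ b1 b3
  have b5 := h3 _ (FreeGroup (Fin q))
    (kill.comp (MonoidHom.snd (G0 Q) (FreeGroup (Option (Fin q))))) _ (fg_of_fp hKfp)
    inferInstance (hA.2.2.2.2 _) b4
  convert b5 using 1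
  apply le_antisymm
  · rw [Subgroup.closure_le]
    rintro _ ⟨w, hw, rfl⟩
    refine ⟨(SemidirectProduct.inl (FreeGroup.of (p1, m0 * e w + r0)),
      FreeGroup.of none * wd w), ⟨?_, ?_⟩, ?_⟩
    · exact (mem_H2 p1 m0 r0 e _ _).mpr ⟨_, of_mem_cl ⟨w, rfl⟩, rfl,
        Th_of p1 m0 r0 e M c hm0 hM hcons hdec w⟩
    · exact ⟨_, of_mem_cl (X := {x : Q × V | Acc D p0 x.1 x.2}) ((hacc w).mp hw), rfl⟩
    · simp only [MonoidHom.comp_apply, MonoidHom.coe_snd, map_mul]
      rw [kill_none, kill_wd, one_mul]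
  · rintro _ ⟨⟨a, z⟩, ⟨hx1, hx2⟩, rfl⟩
    obtain ⟨y, hy, rfl, rfl⟩ := (mem_H2 p1 m0 r0 e _ _).mp hx1
    obtain ⟨y', hy', hyy⟩ := hx2
    have hyy' : y' = y := SemidirectProduct.inl_injective hyy
    subst hyy'
    have h5 := cl_inf _ _ hy hy'
    refine map_cl_le _ ((kill.comp (Th p1 m0 r0 e)) : FreeGroup (Q × V) →* FreeGroup (Fin q))
      _ ?_ h5
    rintro _ ⟨⟨w, rfl⟩, hw⟩
    have hw' : P w := (hacc w).mpr hw
    rw [MonoidHom.comp_apply, Th_of p1 m0 r0 e M c hm0 hM hcons hdec, map_mul, kill_none,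
      kill_wd, one_mul]
    exact Subgroup.subset_closure ⟨w, hw', rfl⟩

end Pool.Agent.Helper784WE
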