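import Mathlib
import Pool.Agent.Helper784WE.Spec

/-!
Translation of `Conc` and `CEmb` into the form with finite presentations.
-/

set_option autoImplicit false

open Finset
open scoped Classical

namespace Pool.Agent.Helper784WE

theorem words_finite (n k : ℕ) : {w : FreeGroup (Fin n) | w.toWord.length ≤ k}.Finite := by
  have h := List.finite_length_le (Fin n × Bool) k
  refine Set.Finite.of_finite_image (f := FreeGroup.toWord) (h.subset ?_)
    FreeGroup.toWord_injective.injOn
  rintro _ ⟨w, hw, rfl⟩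
  exact hw

theorem presented (E : Type) [Group E] (hfp : Group.IsFinitelyPresented E) (hc : Conc E)
    (hce : ¬ CEmb E) :
    ∃ (n : ℕ) (rels : Finset (FreeGroup (Fin n))),
      (∀ (H : Type) [NormedAddCommGroup H] [InnerProductSpace ℝ H] [CompleteSpace H]
          (f : PresentedGroup (rels : Set (FreeGroup (Fin n))) → H),
          ¬ ((∀ k : ℕ, ∃ C : ℝ, ∀ g h : PresentedGroup (rels : Set (FreeGroup (Fin n))),
                (∃ w : FreeGroup (Fin n), w.toWord.length ≤ k ∧
                    h = g * PresentedGroup.mk (rels : Set (FreeGroup (Fin n))) w) →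
                ‖f g - f h‖ ≤ C) ∧
             (∀ R : ℝ, ∃ k : ℕ, ∀ g h : PresentedGroup (rels : Set (FreeGroup (Fin n))),
                ‖f g - f h‖ ≤ R →
                ∃ w : FreeGroup (Fin n), w.toWord.length ≤ k ∧
                    h = g * PresentedGroup.mk (rels : Set (FreeGroup (Fin n))) w))) ∧
      ¬ ∃ (N : ℕ → ℕ) (Gr : ∀ m : ℕ, SimpleGraph (Fin (N m))) (D L : ℕ) (ε : ℝ)
          (φ : ∀ m : ℕ, Fin (N m) → PresentedGroup (rels : Set (FreeGroup (Fin n)))),
          0 < ε ∧
          Filter.Tendsto N Filter.atTop Filter.atTop ∧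
          (∀ (m : ℕ) (v : Fin (N m)), Nat.card {u : Fin (N m) // (Gr m).Adj v u} ≤ D) ∧
          (∀ (m : ℕ) (A : Set (Fin (N m))), 2 * Nat.card A ≤ N m →
              ε * (Nat.card A : ℝ) ≤
                (Nat.card {p : Fin (N m) × Fin (N m) //
                    p.1 ∈ A ∧ p.2 ∉ A ∧ (Gr m).Adj p.1 p.2} : ℝ)) ∧
          (∀ (m : ℕ) (u v : Fin (N m)), (Gr m).Adj u v →
              ∃ w : FreeGroup (Fin n), w.toWord.length ≤ L ∧
                φ m v = φ m u * PresentedGroup.mk (rels : Set (FreeGroup (Fin n))) w) ∧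
          (∀ δ : ℝ, 0 < δ → ∃ M : ℕ, ∀ m : ℕ, M ≤ m →
              ∀ x : PresentedGroup (rels : Set (FreeGroup (Fin n))),
                (Nat.card {v : Fin (N m) // φ m v = x} : ℝ) ≤ δ * (N m : ℝ)) := by
  obtain ⟨n, s, hs, ⟨e⟩⟩ := Group.IsFinitelyPresented.exists_mulEquiv_presentedGroup (G := E)
  obtain ⟨rels, rfl⟩ : ∃ rels : Finset (FreeGroup (Fin n)), (rels : Set _) = s :=
    ⟨hs.toFinset, hs.coe_toFinset⟩
  -- the elements of length at most `k`
  have hT : ∀ k : ℕ, ∃ T : Finset E, ∀ w : FreeGroup (Fin n), w.toWord.length ≤ k →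
      e.symm (PresentedGroup.mk (rels : Set (FreeGroup (Fin n))) w) ∈ T := by
    intro k
    refine ⟨(words_finite n k).toFinset.image
      (fun w => e.symm (PresentedGroup.mk (rels : Set (FreeGroup (Fin n))) w)), ?_⟩
    intro w hw
    exact mem_image_of_mem _ ((words_finite n k).mem_toFinset.mpr hw)
  refine ⟨n, rels, ?_, ?_⟩
  · intro H _ _ _ f hf
    obtain ⟨h1, h2⟩ := hf
    apply hce
    refine ⟨H, inferInstance, inferInstance, inferInstance, fun g => f (e g), ?_, ?_⟩
    · intro T
      have hrep : ∀ t : E, ∃ w : FreeGroup (Fin n),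
          PresentedGroup.mk (rels : Set (FreeGroup (Fin n))) w = e t :=
        fun t => PresentedGroup.mk_surjective _ (e t)
      choose r hr using hrep
      obtain ⟨C, hC⟩ := h1 (T.sup (fun t => (r t).toWord.length))
      refine ⟨C, ?_⟩
      intro g t ht
      refine hC _ _ ⟨r t, Finset.le_sup (f := fun t => (r t).toWord.length) ht, ?_⟩
      rw [hr, map_mul]
    · intro R
      obtain ⟨k, hk⟩ := h2 R
      obtain ⟨T, hT⟩ := hT k
      refine ⟨T, ?_⟩
      intro g h hgh
      obtain ⟨w, hw, hw'⟩ := hk _ _ hgh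
      have h3 := hT w hw
      have h4 : e.symm (PresentedGroup.mk (rels : Set (FreeGroup (Fin n))) w) = g⁻¹ * h := by
        rw [MulEquiv.symm_apply_eq, map_mul, map_inv, hw', inv_mul_cancel_left]
      rwa [h4] at h3
  · rintro ⟨N, Gr, D, L, ε, φ, hε, hN, hdeg, hch, hlip, hfib⟩
    obtain ⟨T, hT⟩ := hT L
    obtain ⟨δ, hδ, hcδ⟩ := hc T D ε hε
    obtain ⟨M, hM⟩ := hfib (δ / 2) (by positivity)
    obtain ⟨m, hm1, hm2⟩ : ∃ m, M ≤ m ∧ 1 ≤ N m := by
      have h1 := (Filter.tendsto_atTop.mp hN 1).and (Filter.eventually_ge_atTop M)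
      obtain ⟨m, hm⟩ := h1.exists
      exact ⟨m, hm.2, hm.1⟩
    have hne : Nonempty (Fin (N m)) := ⟨⟨0, by omega⟩⟩
    have hexp : IsExp (Gr m) D ε := by
      constructor
      · intro v
        have h1 := hdeg m v
        rw [Nat.card_eq_fintype_card, Fintype.card_subtype] at h1
        exact h1
      · intro A hA
        have e1 : Nat.card ((A : Set (Fin (N m))) : Type) = A.card := by
          simp
        have h1 := hch m (A : Set (Fin (N m))) (by
          rw [e1]
          rwa [Fintype.card_fin] at hA)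
        rw [e1, Nat.card_eq_fintype_card, Fintype.card_subtype] at h1
        have e2 : bd (Gr m) A = (univ.filter (fun p : Fin (N m) × Fin (N m) =>
            p.1 ∈ (A : Set (Fin (N m))) ∧ p.2 ∉ (A : Set (Fin (N m))) ∧
              (Gr m).Adj p.1 p.2)).card := by
          unfold bd
          congr 1
          ext p
          simp only [mem_filter, mem_coe]
        rw [e2]
        exact h1
    obtain ⟨x, hx⟩ := hcδ (Fin (N m)) (Gr m) hexp (fun v => e.symm (φ m v)) (by
      intro u v huv
      obtain ⟨w, hw, hw'⟩ := hlip m u v huv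
      have h3 := hT w hw
      have h4 : e.symm (PresentedGroup.mk (rels : Set (FreeGroup (Fin n))) w) =
          (e.symm (φ m u))⁻¹ * e.symm (φ m v) := by
        rw [hw', map_mul, inv_mul_cancel_left]
      rwa [h4] at h3)
    have h5 := hM m hm1 (e x)
    rw [Nat.card_eq_fintype_card, Fintype.card_subtype] at h5
    have h6 : ((univ.filter (fun v => e.symm (φ m v) = x)).card : ℝ) ≤
        ((univ.filter (fun v => φ m v = e x)).card : ℝ) := by
      rw [Nat.cast_le]
      apply card_le_card
      intro v hv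
      rw [mem_filter] at hv ⊢
      exact ⟨mem_univ _, by rw [← hv.2, MulEquiv.apply_symm_apply]⟩
    have h7 : (0 : ℝ) < N m := by exact_mod_cast hm2
    rw [Fintype.card_fin] at hx
    have h8 : δ * (N m : ℝ) ≤ δ / 2 * (N m : ℝ) := hx.trans (h6.trans h5)
    nlinarith

end Pool.Agent.Helper784WE
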