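import Mathlib
import Pool.Agent.Helper784WE.H1
import Pool.Agent.Helper784WE.H3
import Pool.Agent.Helper784WE.B1
import Pool.Agent.Helper784WE.B2
import Pool.Agent.Helper784WE.C3
import Pool.Agent.Helper784WE.D
import Pool.Agent.Helper784WE.E
import Pool.Agent.Helper784WE.G3
import Pool.Agent.Helper446.RE

/-!
Assembly.
-/

set_option autoImplicit false

open Finset
open scoped Classical

namespace Pool.Agent.Helper784WE

theorem fibre_transport {V A B : Type} [Fintype V] (g : V → A) (ψ : A → B)
    (hinj : Function.Injective ψ) {δ : ℝ} (hδ : 0 ≤ δ)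
    (h : ∀ x, ((univ.filter (fun v => g v = x)).card : ℝ) ≤ δ * Fintype.card V) (x : B) :
    ((univ.filter (fun v => ψ (g v) = x)).card : ℝ) ≤ δ * Fintype.card V := by
  by_cases hx : ∃ v, ψ (g v) = x
  · obtain ⟨v₀, hv₀⟩ := hx
    exact (fib_le (fun v => ψ (g v)) g x (g v₀) (fun v hv => hinj (hv.trans hv₀.symm))).trans
      (h (g v₀))
  · have : (univ.filter (fun v => ψ (g v) = x)) = ∅ := by
      rw [filter_eq_empty_iff]
      exact fun v _ hv => hx ⟨v, hv⟩
    rw [this, card_empty, Nat.cast_zero]
    exact mul_nonneg hδ (Nat.cast_nonneg _)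

section AddGen

variable (q : ℕ)

/-- drop the last letter -/
def dropLast (a : Fin (q + 1) × Bool) : Option (Fin q × Bool) :=
  if h : a.1.1 < q then some (⟨a.1.1, h⟩, a.2) else none

/-- kill the last generator -/
def killLast : FreeGroup (Fin (q + 1)) →* FreeGroup (Fin q) :=
  FreeGroup.lift (fun i => if h : i.1 < q then FreeGroup.of ⟨i.1, h⟩ else 1)

theorem mk_single_true {α : Type} (a : α) : FreeGroup.mk [(a, true)] = FreeGroup.of a := rfl

theorem mk_single_false {α : Type} (a : α) : FreeGroup.mk [(a, false)] = (FreeGroup.of a)⁻¹ := by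
  rw [FreeGroup.of, FreeGroup.inv_mk]; rfl

theorem killLast_mk (w : List (Fin (q + 1) × Bool)) :
    killLast q (FreeGroup.mk w) = FreeGroup.mk (w.filterMap (dropLast q)) := by
  induction w with
  | nil => exact map_one _
  | cons a w ih =>
    have h1 : FreeGroup.mk (a :: w) = FreeGroup.mk [a] * FreeGroup.mk w := by
      rw [FreeGroup.mul_mk]; rfl
    rw [h1, map_mul, ih, List.filterMap_cons]
    obtain ⟨i, b⟩ := a
    have h2 : killLast q (FreeGroup.of i) =
        if h : i.1 < q then FreeGroup.of ⟨i.1, h⟩ else 1 := by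
      rw [killLast, FreeGroup.lift_apply_of]
    by_cases hi : i.1 < q
    · have h3 : dropLast q (i, b) = some (⟨i.1, hi⟩, b) := by
        rw [dropLast]; simp only [dif_pos hi]
      rw [h3]
      have h4 : FreeGroup.mk ((⟨i.1, hi⟩, b) :: w.filterMap (dropLast q)) =
          FreeGroup.mk [((⟨i.1, hi⟩ : Fin q), b)] * FreeGroup.mk (w.filterMap (dropLast q)) := by
        rw [FreeGroup.mul_mk]; rfl
      simp only [h4]
      congr 1
      cases b
      · rw [mk_single_false, mk_single_false, map_inv, h2, dif_pos hi]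
      · rw [mk_single_true, mk_single_true, h2, dif_pos hi]
    · have h3 : dropLast q (i, b) = none := by
        rw [dropLast]; simp only [dif_neg hi]
      rw [h3]
      have h5 : killLast q (FreeGroup.mk [(i, b)]) = 1 := by
        cases b
        · rw [mk_single_false, map_inv, h2, dif_neg hi, inv_one]
        · rw [mk_single_true, h2, dif_neg hi]
      rw [h5, one_mul]

theorem dropLast_castSucc (w : List (Fin q × Bool)) :
    (w.map (fun a => (a.1.castSucc, a.2))).filterMap (dropLast q) = w := by
  induction w with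
  | nil => rfl
  | cons a w ih =>
    rw [List.map_cons, List.filterMap_cons]
    have h : dropLast q (a.1.castSucc, a.2) = some a := by
      rw [dropLast]
      have : (a.1.castSucc : Fin (q + 1)).1 < q := a.1.2
      simp only [dif_pos this]
      rfl
    rw [h]
    simp only [ih]

theorem filterMap_computable :
    Computable (fun w : List (Fin (q + 1) × Bool) => w.filterMap (dropLast q)) := by
  apply Primrec.to_comp
  refine Primrec.listFilterMap (f := fun w : List (Fin (q + 1) × Bool) => w)
    (g := fun _ a => dropLast q a) Primrec.id ?_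
  exact (Primrec.dom_finite (dropLast q)).comp Primrec.snd

theorem add_gen (P : List (Fin q × Bool) → Prop) (hP : REPred P) (h0 : P [])
    (hR : Receives (ncl P)) : ∃ P' : List (Fin (q + 1) × Bool) → Prop, REPred P' ∧
      FreeGroup.of (Fin.last q) ∈ ncl P' ∧ Receives (ncl P') := by
  refine ⟨fun w => P (w.filterMap (dropLast q)), ?_, ?_, ?_⟩
  · exact Pool.Agent.Helper446.RE.comp hP (filterMap_computable q)
  · apply Subgroup.subset_normalClosure
    refine ⟨[(Fin.last q, true)], ?_, rfl⟩
    have : ([(Fin.last q, true)] : List (Fin (q + 1) × Bool)).filterMap (dropLast q) = [] := by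
      simp [dropLast]
    change P (([(Fin.last q, true)] : List (Fin (q + 1) × Bool)).filterMap (dropLast q))
    rw [this]
    exact h0
  · set P' : List (Fin (q + 1) × Bool) → Prop := fun w => P (w.filterMap (dropLast q)) with hP'
    have h1 : ncl P ≤ (ncl P').comap (FreeGroup.map Fin.castSucc) := by
      apply Subgroup.normalClosure_le_normal
      rintro _ ⟨w, hw, rfl⟩
      apply Subgroup.subset_normalClosure
      refine ⟨w.map (fun a => (a.1.castSucc, a.2)), ?_, ?_⟩
      · change P ((w.map (fun a => (a.1.castSucc, a.2))).filterMap (dropLast q))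
        rw [dropLast_castSucc]
        exact hw
      · rw [FreeGroup.map.mk]
    have h2 : ncl P' ≤ (ncl P).comap (killLast q) := by
      apply Subgroup.normalClosure_le_normal
      rintro _ ⟨w, hw, rfl⟩
      change killLast q (FreeGroup.mk w) ∈ ncl P
      rw [killLast_mk]
      exact Subgroup.subset_normalClosure ⟨_, hw, rfl⟩
    let ψ : FreeGroup (Fin q) ⧸ ncl P →* FreeGroup (Fin (q + 1)) ⧸ ncl P' :=
      QuotientGroup.map _ _ (FreeGroup.map Fin.castSucc) h1
    let χ : FreeGroup (Fin (q + 1)) ⧸ ncl P' →* FreeGroup (Fin q) ⧸ ncl P :=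
      QuotientGroup.map _ _ (killLast q) h2
    have hχψ : ∀ x, χ (ψ x) = x := by
      intro x
      obtain ⟨y, rfl⟩ := QuotientGroup.mk_surjective x
      have h3 : (killLast q).comp (FreeGroup.map Fin.castSucc) = MonoidHom.id _ := by
        apply FreeGroup.ext_hom
        intro i
        rw [MonoidHom.comp_apply, FreeGroup.map.of, killLast, FreeGroup.lift_apply_of]
        have : (i.castSucc : Fin (q + 1)).1 < q := i.2
        rw [dif_pos this]
        rfl
      have h4 := DFunLike.congr_fun h3 y
      change (QuotientGroup.mk (killLast q (FreeGroup.map Fin.castSucc y)) :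
        FreeGroup (Fin q) ⧸ ncl P) = QuotientGroup.mk y
      exact congrArg _ h4
    have hinj : Function.Injective ψ := Function.LeftInverse.injective hχψ
    obtain ⟨D, ε, T, hε, hδ⟩ := hR
    refine ⟨D, ε, T.image ψ, hε, ?_⟩
    intro δ hδ0
    obtain ⟨V, i1, i2, Gr, g, h3, h4, h5⟩ := hδ δ hδ0
    refine ⟨V, i1, i2, Gr, fun v => ψ (g v), h3, ?_, ?_⟩
    · intro u v huv
      rw [mem_image]
      exact ⟨_, h4 u v huv, by rw [map_mul, map_inv]⟩
    · intro x
      have h6 := fibre_transport g ψ hinj hδ0.le (fun y => by convert h5 y) x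
      convert h6

end AddGen

theorem cemb_of_injective {G H : Type} [Group G] [Group H] (f : G →* H)
    (hf : Function.Injective f) (hH : CEmb H) : CEmb G := by
  obtain ⟨X, i1, i2, i3, F, h1, h2⟩ := hH
  refine ⟨X, i1, i2, i3, fun g => F (f g), ?_, ?_⟩
  · intro T
    obtain ⟨C, hC⟩ := h1 (T.image f)
    refine ⟨C, ?_⟩
    intro g t ht
    have := hC (f g) (f t) (mem_image_of_mem _ ht)
    rwa [← map_mul] at this
  · intro R
    obtain ⟨T, hT⟩ := h2 R
    refine ⟨T.preimage f hf.injOn, ?_⟩
    intro g h hgh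
    rw [mem_preimage, map_mul, map_inv]
    exact hT _ _ hgh

theorem exists_group (hF : SpecF) : ∃ (E : Type) (_ : Group E),
    Group.IsFinitelyPresented E ∧ Conc E ∧ ¬ CEmb E := by
  obtain ⟨q, P, hre, hnil, hrec⟩ := exists_monster specE hF G.specG
  obtain ⟨P', hre', hmem, hrec'⟩ := add_gen q P hre hnil hrec
  have hB1 := specB1 (q + 1) (ncl P')
  obtain ⟨D, ε, T, hε, hδ⟩ := hrec'
  have hB2 := B2.specB2 (q + 1) (ncl P') (Fin.last q) hmem D ε T hε hδ
  have hsq := G.specG2 (q + 1) P' hre'
  have hD := specD specA (C.specC1 specA) (C.specC2 specA) (C.specC3 specA) (C.specC4 specA)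
    (q + 1) _ hsq
  have hcl : Subgroup.closure {r : FreeGroup (Fin (q + 1)) | ∃ w : List (Fin (q + 1) × Bool),
      FreeGroup.mk w ∈ sq (ncl P') ∧ r = FreeGroup.mk w} = sq (ncl P') := by
    apply le_antisymm
    · rw [Subgroup.closure_le]
      rintro _ ⟨w, hw, rfl⟩
      exact hw
    · intro x hx
      apply Subgroup.subset_closure
      exact ⟨x.toWord, by rwa [FreeGroup.mk_toWord], by rw [FreeGroup.mk_toWord]⟩
  rw [hcl] at hD
  obtain ⟨E, i, f, hfp, hc, hinj⟩ := C.specC5 specA (q + 1) (sq (ncl P')) hD hB1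
  exact ⟨E, i, hfp, hc, fun h => hB2 (cemb_of_injective f hinj h)⟩

end Pool.Agent.Helper784WE
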